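import Mathlib

/-!
Derivations on quotients and localisations; minimal primes over stable ideals are stable.
-/

namespace Pool.Agent.Lib.MP_51f413_gt

/-- A derivation descends to the quotient by a stable ideal. -/
theorem exists_quot_deriv {R : Type} [CommRing R] [Algebra ℂ R] (d : Derivation ℂ R R)
    (J : Ideal R) (hJ : ∀ f ∈ J, d f ∈ J) :
    ∃ d' : Derivation ℂ (R ⧸ J) (R ⧸ J),
      ∀ f, d' (Ideal.Quotient.mk J f) = Ideal.Quotient.mk J (d f) := by
  refine ⟨Derivation.liftOfSurjective (f := Ideal.Quotient.mkₐ ℂ J)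
    (Ideal.Quotient.mkₐ_surjective ℂ J) (d := d) fun x hx => ?_, fun f => ?_⟩
  · exact Ideal.Quotient.eq_zero_iff_mem.2 (hJ x (Ideal.Quotient.eq_zero_iff_mem.1 hx))
  · exact Derivation.liftOfSurjective_apply (f := Ideal.Quotient.mkₐ ℂ J) _ _ f

/-- A derivation extends to any localisation. -/
theorem exists_loc_deriv {R S : Type} [CommRing R] [Algebra ℂ R] [CommRing S] [Algebra ℂ S]
    [Algebra R S] [IsScalarTower ℂ R S] (M : Submonoid R) [IsLocalization M S]
    (d : Derivation ℂ R R) :
    ∃ d' : Derivation ℂ S S, ∀ f, d' (algebraMap R S f) = algebraMap R S (d f) := by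
  let ψ : R →+* TrivSqZeroExt S S :=
    { toFun := fun f => (algebraMap R S f, algebraMap R S (d f))
      map_one' := TrivSqZeroExt.ext (map_one _) (by
        change algebraMap R S (d 1) = 0
        rw [d.map_one_eq_zero, map_zero])
      map_mul' := fun f g => TrivSqZeroExt.ext (map_mul _ _ _) (by
        change algebraMap R S (d (f * g))
          = algebraMap R S f * algebraMap R S (d g) + algebraMap R S (d f) * algebraMap R S g
        rw [d.leibniz, smul_eq_mul, smul_eq_mul, map_add, map_mul, map_mul]
        ring)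
      map_zero' := TrivSqZeroExt.ext (map_zero _) (by
        change algebraMap R S (d 0) = 0
        rw [map_zero, map_zero])
      map_add' := fun f g => TrivSqZeroExt.ext (map_add _ _ _) (by
        change algebraMap R S (d (f + g)) = algebraMap R S (d f) + algebraMap R S (d g)
        rw [map_add, map_add]) }
  have hψ1 : ∀ f, (ψ f).fst = algebraMap R S f := fun f => rfl
  have hψ2 : ∀ f, (ψ f).snd = algebraMap R S (d f) := fun f => rfl
  have hu : ∀ y : M, IsUnit (ψ y) := fun y => by
    rw [TrivSqZeroExt.isUnit_iff_isUnit_fst, hψ1]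
    exact IsLocalization.map_units S y
  let φ : S →+* TrivSqZeroExt S S := IsLocalization.lift hu
  have hφ : ∀ f, φ (algebraMap R S f) = ψ f := fun f => IsLocalization.lift_eq hu f
  have hfst : ∀ s, (φ s).fst = s := by
    have h : ((TrivSqZeroExt.fstHom S S S : TrivSqZeroExt S S →+* S).comp φ) = RingHom.id S :=
      IsLocalization.ringHom_ext M (RingHom.ext fun f => by
        change (φ (algebraMap R S f)).fst = algebraMap R S f
        rw [hφ, hψ1])
    exact fun s => RingHom.congr_fun h s
  have hmul : ∀ a b, (φ (a * b)).snd = a * (φ b).snd + b * (φ a).snd := fun a b => by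
    rw [map_mul, TrivSqZeroExt.snd_mul, hfst, hfst]
    simp [mul_comm]
  have hc : ∀ c : ℂ, (φ (algebraMap ℂ S c)).snd = 0 := fun c => by
    rw [IsScalarTower.algebraMap_apply ℂ R S, hφ, hψ2, Derivation.map_algebraMap, map_zero]
  let D : S →ₗ[ℂ] S :=
    { toFun := fun s => (φ s).snd
      map_add' := fun a b => by rw [map_add, TrivSqZeroExt.snd_add]
      map_smul' := fun c a => by
        rw [Algebra.smul_def, hmul, hc, mul_zero, add_zero, RingHom.id_apply, Algebra.smul_def] }
  refine ⟨Derivation.mk' D fun a b => hmul a b, fun f => ?_⟩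
  change (φ (algebraMap R S f)).snd = _
  rw [hφ, hψ2]

open Finset in
lemma deriv_iterate_mul {R : Type} [CommRing R] [Algebra ℂ R] (d : Derivation ℂ R R) (n : ℕ)
    (a b : R) :
    d^[n] (a * b) = ∑ ij ∈ antidiagonal n, n.choose ij.1 • (d^[ij.1] a * d^[ij.2] b) := by
  induction n with
  | zero => simp
  | succ n ih =>
    rw [sum_antidiagonal_choose_succ_nsmul (M := R) (fun i j => d^[i] a * d^[j] b) n]
    simp only [Function.iterate_succ_apply', ih, map_sum, map_nsmul, Derivation.leibniz, smul_add,
      sum_add_distrib, add_right_inj, smul_eq_mul]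
    refine sum_congr rfl fun ⟨i, j⟩ hij ↦ ?_
    rw [n.choose_symm_of_eq_add (mem_antidiagonal.1 hij).symm, mul_comm]

lemma deriv_iterate_add {R : Type} [CommRing R] [Algebra ℂ R] (d : Derivation ℂ R R) (n : ℕ)
    (a b : R) : d^[n] (a + b) = d^[n] a + d^[n] b := by
  induction n with
  | zero => rfl
  | succ n ih => simp only [Function.iterate_succ_apply', ih, map_add]

/-- Inside a prime ideal containing a stable ideal there is a stable prime containing it. -/
theorem exists_stable_prime {R : Type} [CommRing R] [Algebra ℂ R] (d : Derivation ℂ R R)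
    (J p : Ideal R) (hJ : ∀ f ∈ J, d f ∈ J) (hp : p.IsPrime) (hJp : J ≤ p) :
    ∃ q : Ideal R, q.IsPrime ∧ (∀ f ∈ q, d f ∈ q) ∧ J ≤ q ∧ q ≤ p := by
  classical
  let q : Ideal R :=
    { carrier := {f | ∀ n : ℕ, d^[n] f ∈ p}
      add_mem' := fun {a b} ha hb n => by
        rw [deriv_iterate_add]
        exact p.add_mem (ha n) (hb n)
      zero_mem' := fun n => by
        rw [Function.iterate_fixed (map_zero d)]
        exact p.zero_mem
      smul_mem' := fun c a ha n => by
        rw [smul_eq_mul, deriv_iterate_mul]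
        exact p.sum_mem fun ij _ => nsmul_mem (p.mul_mem_left _ (ha ij.2)) _ }
  have hq : ∀ f, f ∈ q ↔ ∀ n : ℕ, d^[n] f ∈ p := fun f => Iff.rfl
  have hqp : q ≤ p := fun f hf => hf 0
  refine ⟨q, ⟨fun h => hp.ne_top (top_le_iff.1 (h ▸ hqp)), fun {a b} hab => ?_⟩, fun f hf n => ?_,
    fun f hf n => hJp ?_, hqp⟩
  · by_contra hcon
    rw [not_or, hq, hq, not_forall, not_forall] at hcon
    obtain ⟨ha, hb⟩ := hcon
    have h1 := hab (Nat.find ha + Nat.find hb)
    rw [deriv_iterate_mul, ← Finset.add_sum_erase _ _
      (Finset.HasAntidiagonal.mem_antidiagonal.2 rfl : (Nat.find ha, Nat.find hb) ∈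
        Finset.HasAntidiagonal.antidiagonal (Nat.find ha + Nat.find hb))] at h1
    have h2 : ∑ ij ∈ (Finset.HasAntidiagonal.antidiagonal (Nat.find ha + Nat.find hb)).erase
        (Nat.find ha, Nat.find hb),
        (Nat.find ha + Nat.find hb).choose ij.1 • (d^[ij.1] a * d^[ij.2] b) ∈ p := by
      refine p.sum_mem fun ij hij => nsmul_mem ?_ _
      obtain ⟨h3, h4⟩ := Finset.mem_erase.1 hij
      rw [Finset.HasAntidiagonal.mem_antidiagonal] at h4
      by_cases h5 : ij.1 < Nat.find ha
      · exact p.mul_mem_right _ (not_not.1 (Nat.find_min ha h5))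
      · have h6 : ij.2 < Nat.find hb := by
          by_contra h6
          exact h3 (Prod.ext (by simp only; omega) (by simp only; omega))
        exact p.mul_mem_left _ (not_not.1 (Nat.find_min hb h6))
    have h7 := (p.add_mem_iff_left h2).1 h1
    have h8 : ((Nat.find ha + Nat.find hb).choose (Nat.find ha) : ℂ) ≠ 0 :=
      Nat.cast_ne_zero.2 (Nat.choose_pos (Nat.le_add_right _ _)).ne'
    have h9 : d^[Nat.find ha] a * d^[Nat.find hb] b ∈ p := by
      have h10 := p.mul_mem_left
        (algebraMap ℂ R ((Nat.find ha + Nat.find hb).choose (Nat.find ha) : ℂ)⁻¹) h7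
      rwa [nsmul_eq_mul, ← map_natCast (algebraMap ℂ R), ← mul_assoc, ← map_mul,
        inv_mul_cancel₀ h8, map_one, one_mul] at h10
    exact (hp.mem_or_mem h9).elim (Nat.find_spec ha) (Nat.find_spec hb)
  · exact hf (n + 1)
  · induction n with
    | zero => exact hf
    | succ n ih =>
      rw [Function.iterate_succ_apply']
      exact hJ _ ih

/-- An element algebraic over a subfield of constants is constant. -/
theorem deriv_eq_zero_of_isAlgebraic {K : Type} [Field K] [Algebra ℂ K] (d : Derivation ℂ K K)
    (F : IntermediateField ℂ K) (hF : ∀ f ∈ F, d f = 0) (x : K) (hx : IsAlgebraic F x) :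
    d x = 0 := by
  have : CharZero F := charZero_of_injective_algebraMap (algebraMap ℂ F).injective
  let D : K →ₗ[F] K :=
    { toFun := d
      map_add' := fun a b => map_add d a b
      map_smul' := fun c a => by
        change d ((c : K) * a) = (c : K) * d a
        rw [d.leibniz, hF c c.2, smul_zero, add_zero, smul_eq_mul] }
  let d' : Derivation F K K := Derivation.mk' D fun a b => d.leibniz a b
  have h1 := d'.map_aeval (minpoly F x) x
  rw [minpoly.aeval, map_zero, smul_eq_mul] at h1
  have h2 : Polynomial.aeval x (Polynomial.derivative (minpoly F x)) ≠ 0 :=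
    (minpoly.irreducible hx.isIntegral).separable.aeval_derivative_ne_zero (minpoly.aeval F x)
  exact (mul_eq_zero.1 h1.symm).resolve_left h2

/-- An element that is transcendental over a subfield has a pole at a valuation that is trivial
on the subfield. -/
theorem exists_valuation_pole {K : Type} [Field K] [Algebra ℂ K]
    (F : IntermediateField ℂ K) (x : K) (hx : ¬ IsAlgebraic F x) :
    ∃ V : ValuationSubring K, (∀ f ∈ F, f ∈ V) ∧ x ∉ V := by
  by_contra hcon
  apply hx
  have h1 : x ∈ (integralClosure (Subring.closure (F : Set K)) K).toSubring := by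
    rw [← iInf_valuationSubring_superset, Subring.mem_iInf]
    intro V
    by_contra h
    exact hcon ⟨V.1, fun f hf => V.2 hf, h⟩
  have h2 : IsIntegral (Subring.closure (F : Set K)) x := h1
  have hle : Subring.closure (F : Set K) ≤ F.toSubfield.toSubring :=
    Subring.closure_le.2 fun f hf => hf
  let φ : Subring.closure (F : Set K) →+* F :=
    (Subring.closure (F : Set K)).subtype.codRestrict F fun y => hle y.2
  exact (IsIntegral.map_of_comp_eq φ (RingHom.id K) (RingHom.ext fun _ => rfl) h2).isAlgebraic

end Pool.Agent.Lib.MP_51f413_gt
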