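import Pool.Agent.Lib.MP_51f413_gt.Lat
import Pool.Agent.Lib.MP_51f413_gt.Deriv

/-!
The case without a good degeneration.
-/

namespace Pool.Agent.Lib.MP_51f413_gt

namespace Sys

variable {K : Type} [Field K] [Algebra ℂ K] {d : Derivation ℂ K K} {N : ℕ} {r : ℕ → ℂ}

/-- At every place either `e` is dominant, or one of `l`, `b`, `k` is dominant and the mean
curvature and `k ^ 2 + b ^ 2` are small. -/
def Bad (s : Sys d N r) : Prop :=
  ∀ V : ValuationSubring K, (∀ c : ℂ, algebraMap ℂ K c ∈ V) →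
    ∃ u : K, u ≠ 0 ∧ (∀ i, V.valuation (s.gen i) ≤ V.valuation u ^ wt N i) ∧
      (u = s.e ∨ ((u = s.l ∨ u = s.b ∨ u = s.k) ∧ V.valuation s.e < V.valuation u ∧
        V.valuation s.eta < V.valuation u ∧
        V.valuation (s.k ^ 2 + s.b ^ 2) < V.valuation u ^ 2))

omit [Algebra ℂ K] in
theorem bad_pos (V : ValuationSubring K) {x : K} (hx : x ≠ 0) : 0 < V.valuation x :=
  zero_lt_iff.2 ((Valuation.ne_zero_iff _).2 hx)

omit [Algebra ℂ K] in
theorem bad_div_le (V : ValuationSubring K) {x y : K} (hy : y ≠ 0) :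
    V.valuation (x / y) ≤ 1 ↔ V.valuation x ≤ V.valuation y := by
  rw [map_div₀, div_le_one₀ (bad_pos V hy)]

omit [Algebra ℂ K] in
theorem bad_div_lt (V : ValuationSubring K) {x y : K} (hy : y ≠ 0) :
    V.valuation (x / y) < 1 ↔ V.valuation x < V.valuation y := by
  rw [map_div₀, div_lt_one₀ (bad_pos V hy)]

theorem bad_cle {V : ValuationSubring K} (hV : ∀ c : ℂ, algebraMap ℂ K c ∈ V) (c : ℂ) :
    V.valuation (algebraMap ℂ K c) ≤ 1 := (V.valuation_le_one_iff _).2 (hV c)

omit [Algebra ℂ K] in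
theorem bad_unit {V : ValuationSubring K} {x : K} (hx : x ≠ 0) (h1 : V.valuation x ≤ 1)
    (h2 : V.valuation x⁻¹ ≤ 1) : V.valuation x = 1 := by
  rw [map_inv₀, inv_le_one₀ (bad_pos V hx)] at h2
  exact le_antisymm h1 h2

theorem bad_ceq {V : ValuationSubring K} (hV : ∀ c : ℂ, algebraMap ℂ K c ∈ V) {c : ℂ}
    (hc : c ≠ 0) : V.valuation (algebraMap ℂ K c) = 1 :=
  bad_unit (by simpa using hc) (bad_cle hV c) (by rw [← map_inv₀]; exact bad_cle hV _)

theorem bad_two {V : ValuationSubring K} (hV : ∀ c : ℂ, algebraMap ℂ K c ∈ V) :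
    V.valuation (2 : K) = 1 := by
  have := bad_ceq hV (c := 2) two_ne_zero
  rwa [map_ofNat] at this

omit [Algebra ℂ K] in
theorem bad_j (V : ValuationSubring K) {j : K} (hj : j ^ 2 = -1) : V.valuation j = 1 := by
  have h : V.valuation j ^ 2 = 1 := by rw [← map_pow, hj, Valuation.map_neg, map_one]
  exact (pow_eq_one_iff_of_nonneg zero_le two_ne_zero).1 h

theorem bad_I : (algebraMap ℂ K Complex.I) ^ 2 = -1 := by
  rw [← map_pow, Complex.I_sq, map_neg, map_one]

theorem bad_sq_lt {Γ : Type} [LinearOrderedCommGroupWithZero Γ] {x y : Γ} :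
    x ^ 2 < y ^ 2 ↔ x < y := pow_lt_pow_iff_left₀ zero_le zero_le two_ne_zero

theorem bad_sq_le {Γ : Type} [LinearOrderedCommGroupWithZero Γ] {x y : Γ} :
    x ^ 2 ≤ y ^ 2 ↔ x ≤ y := pow_le_pow_iff_left₀ zero_le zero_le two_ne_zero

theorem bad_sq_eq {Γ : Type} [LinearOrderedCommGroupWithZero Γ] {x y : Γ} (h : x ^ 2 = y ^ 2) :
    x = y := le_antisymm (bad_sq_le.1 h.le) (bad_sq_le.1 h.ge)

theorem bad_one_lt_sq {Γ : Type} [LinearOrderedCommGroupWithZero Γ] {x : Γ} (h : 1 < x) :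
    1 < x ^ 2 := one_lt_pow₀ h two_ne_zero

theorem bad_bot (d : Derivation ℂ K K) {x : K} (h : IsAlgebraic (⊥ : IntermediateField ℂ K) x) :
    d x = 0 := by
  refine deriv_eq_zero_of_isAlgebraic d ⊥ (fun f hf => ?_) x h
  obtain ⟨c, rfl⟩ := IntermediateField.mem_bot.1 hf
  exact d.map_algebraMap c

theorem bad_alg_bot {x : K} (h : IsAlgebraic ℂ x) : IsAlgebraic (⊥ : IntermediateField ℂ K) x :=
  h.tower_top _

theorem bad_sig_one {l : K} {V : ValuationSubring K} {σ : K → ℚ} (hσ : IsGauge d l V σ) :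
    σ 1 = 0 := by
  have := hσ.mul 1 1 one_ne_zero one_ne_zero
  rw [mul_one] at this
  linarith

theorem bad_sig_nonpos {l : K} {V : ValuationSubring K} {σ : K → ℚ} (hσ : IsGauge d l V σ) {x : K}
    (hx : x ≠ 0) (h : 1 ≤ V.valuation x) : σ x ≤ 0 := by
  have h1 := hσ.mul x x⁻¹ hx (inv_ne_zero hx)
  rw [mul_inv_cancel₀ hx, bad_sig_one hσ] at h1
  have h2 := (hσ.le_iff x⁻¹ (inv_ne_zero hx)).1
    (by rw [map_inv₀, inv_le_one₀ (bad_pos V hx)]; exact h)
  linarith

theorem bad_sig_lt {l : K} {V : ValuationSubring K} {σ : K → ℚ} (hσ : IsGauge d l V σ) {x y : K}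
    (hy : y ≠ 0) (h : V.valuation y < V.valuation x) : σ x < σ y := by
  have hx : x ≠ 0 := by
    rintro rfl
    simp at h
  have h1 := hσ.mul (x / y) y (div_ne_zero hx hy) hy
  rw [div_mul_cancel₀ _ hy] at h1
  have h2 := (hσ.le_iff (x / y) (div_ne_zero hx hy)).not.1
    (by rw [bad_div_le V hy]; exact not_le.2 h)
  linarith [not_le.1 h2]

theorem bad_rat (q : ℚ) : (q : K) = algebraMap ℂ K (q : ℂ) :=
  (map_ratCast (algebraMap ℂ K) q).symm

theorem bad_const {l : K} {V : ValuationSubring K} {σ : K → ℚ} (hσ : IsGauge d l V σ) {c : K}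
    (hc : c ≠ 0) (hd : d c = 0) : V.valuation c = 1 := by
  have h1 := hσ.log c hc
  rw [hd, zero_div, zero_sub, Valuation.map_neg, bad_rat] at h1
  have h2 : σ c = 0 := by
    by_contra h
    rw [bad_ceq hσ.const (by exact_mod_cast h)] at h1
    exact lt_irrefl _ h1
  refine bad_unit hc ((hσ.le_iff c hc).2 h2.ge) ((hσ.le_iff _ (inv_ne_zero hc)).2 ?_)
  have h3 := hσ.mul c c⁻¹ hc (inv_ne_zero hc)
  rw [mul_inv_cancel₀ hc, bad_sig_one hσ] at h3
  linarith

theorem bad_dl {l : K} {V : ValuationSubring K} {σ : K → ℚ} (hσ : IsGauge d l V σ) (hl : l ≠ 0) :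
    V.valuation (d l) ≤ V.valuation l ^ 2 := by
  have h1 := hσ.log l hl
  have h2 : V.valuation (d l / (l * l)) ≤ 1 := by
    have e : d l / (l * l) = (d l / (l * l) - (σ l : K)) + (σ l : K) := by ring
    rw [e]
    refine Valuation.map_add_le _ h1.le ?_
    rw [bad_rat]
    exact bad_cle hσ.const _
  rwa [bad_div_le V (mul_ne_zero hl hl), map_mul, ← sq] at h2

theorem bad_l (s : Sys d N r) {a0 : ℂ} (ha : s.a = algebraMap ℂ K a0) {V : ValuationSubring K}
    (hV : ∀ c : ℂ, algebraMap ℂ K c ∈ V) {u : K} (h1 : V.valuation s.e < V.valuation u)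
    (h2 : V.valuation (s.k ^ 2 + s.b ^ 2) < V.valuation u ^ 2) (h3 : 1 < V.valuation u) :
    V.valuation s.l < V.valuation u := by
  have e : s.l ^ 2 = s.a - s.e ^ 2 - (s.k ^ 2 + s.b ^ 2) := by
    simp only [a]
    ring
  rw [← bad_sq_lt, ← map_pow, e, ha]
  refine Valuation.map_sub_lt _ (Valuation.map_sub_lt _ ?_ ?_) h2
  · exact (bad_cle hV _).trans_lt (bad_one_lt_sq h3)
  · rw [map_pow]
    exact bad_sq_lt.2 h1

open IntermediateField in
theorem bad_alg (s : Sys d N r) (he : s.e ≠ 0) (a0 γ : ℂ) (ha : s.a = algebraMap ℂ K a0)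
    (hγ : s.e * s.b = algebraMap ℂ K γ) (hbad : s.Bad) (i : Ix N) :
    IsAlgebraic ℂ⟮s.e⟯ (s.gen i) := by
  by_contra h
  obtain ⟨V, hV, hx⟩ := exists_valuation_pole _ _ h
  have hV' : ∀ c : ℂ, algebraMap ℂ K c ∈ V := fun c => hV _ (IntermediateField.algebraMap_mem _ c)
  have hm := IntermediateField.mem_adjoin_simple_self ℂ s.e
  have hev : V.valuation s.e = 1 := bad_unit he ((V.valuation_le_one_iff _).2 (hV _ hm))
    ((V.valuation_le_one_iff _).2 (hV _ (inv_mem hm)))
  have hb : V.valuation s.b ≤ 1 := by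
    have := bad_cle hV' γ
    rwa [← hγ, map_mul, hev, one_mul] at this
  obtain ⟨u, -, h1, h2⟩ := hbad V hV'
  rw [← V.valuation_le_one_iff, not_le] at hx
  have hu : 1 < V.valuation u := by
    by_contra hu
    exact absurd (hx.trans_le (h1 i)) (not_lt.2 (pow_le_one₀ zero_le (not_lt.1 hu)))
  rcases h2 with rfl | ⟨h2, h3, -, h4⟩
  · exact absurd hev hu.ne'
  rcases h2 with rfl | rfl | rfl
  · exact lt_irrefl _ (bad_l s ha hV' h3 h4 hu)
  · exact absurd hb (not_le.2 hu)
  · have e : s.k ^ 2 = (s.k ^ 2 + s.b ^ 2) - s.b ^ 2 := by ring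
    have h5 : V.valuation (s.k ^ 2) < V.valuation s.k ^ 2 := by
      conv_lhs => rw [e]
      refine Valuation.map_sub_lt _ h4 ?_
      rw [map_pow]
      exact bad_sq_lt.2 (hb.trans_lt hu)
    rw [map_pow] at h5
    exact lt_irrefl _ h5

theorem bad_h0 (s : Sys d N r) (hN : 0 < N) (hn : s.Nrm) (he : s.e ≠ 0) (hl : s.l ≠ 0)
    {V : ValuationSubring K} {σ : K → ℚ} (hσ : IsGauge d s.l V σ) (h1 : σ s.e = 1)
    (hb : s.b = 0) (hvl : V.valuation s.l = 1) (hk : V.valuation s.k < 1)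
    (h2 : V.valuation s.e < V.valuation s.eta) (h3 : V.valuation s.eta < 1) : False := by
  have hη : s.eta ≠ 0 := by
    intro h
    simp [h] at h2
  have hj := bad_j V (bad_I (K := K))
  have h4 : V.valuation (s.eta - s.k) ≤ 1 := Valuation.map_sub_le _ h3.le hk.le
  refine no_pole s hN hn V σ hσ hl hη 1 _ one_ne_zero bad_I ?_ ?_ ?_ ?_ ?_ ?_ ?_ ?_ ?_
    (h1 ▸ bad_sig_lt hσ he h2) (bad_sig_nonpos hσ hl hvl.ge)
  · simpa [hvl] using h2.trans h3
  · simpa [hvl] using h2.trans h3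
  · simpa [hvl, hb] using h4
  · simpa [hvl, hb] using h4
  · simpa [hvl, hb, hj] using hk.le
  · simpa [hvl, hb, hj] using hk.le
  · simp only [map_div₀, map_mul, map_pow, hvl, one_pow, div_one]
    exact mul_lt_one_of_nonneg_of_lt_one_left zero_le (h2.trans h3) hk.le
  · simp [hb]
  · simp [hb]

theorem bad_h1 (s : Sys d N r) (hN : 0 < N) (hn : s.Nrm) (he : s.e ≠ 0) (hl : s.l ≠ 0) {a0 : ℂ}
    (ha : s.a = algebraMap ℂ K a0)
    {V : ValuationSubring K} {σ : K → ℚ} (hσ : IsGauge d s.l V σ) (h1 : σ s.e = 1)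
    (heb : V.valuation s.e * V.valuation s.b = 1) (hkb : V.valuation s.k = V.valuation s.b)
    (h2 : V.valuation s.e < V.valuation s.eta) (h3 : V.valuation s.eta < V.valuation s.b)
    (hev : V.valuation s.e < 1) {j : K} (hj : j ^ 2 = -1)
    (h4 : V.valuation (s.k - j * s.b) < V.valuation s.b) : False := by
  have hη : s.eta ≠ 0 := by
    intro h
    simp [h] at h2
  have hb : s.b ≠ 0 := by
    intro h
    simp [h] at heb
  have hvj := bad_j V hj
  have hv2 := bad_two hσ.const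
  have hdl := bad_dl hσ hl
  have ha1 : V.valuation s.a ≤ 1 := by rw [ha]; exact bad_cle hσ.const _
  have he2 : V.valuation (s.e ^ 2) ≤ 1 := by rw [map_pow]; exact pow_le_one₀ zero_le hev.le
  have h5 : ∀ x : V.ValueGroup, 1 ≤ x → V.valuation s.l ^ 2 ≤ x →
      V.valuation s.eta * V.valuation s.b ≤ x := by
    intro x hx1 hx2
    have e : s.eta * s.k = s.a - 2 * s.e ^ 2 - (d s.l + s.l ^ 2) := by
      rw [s.dl_add_sq]
      ring
    rw [← hkb, ← map_mul, e]
    refine Valuation.map_sub_le _ (Valuation.map_sub_le _ (ha1.trans hx1) ?_)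
      (Valuation.map_add_le _ (hdl.trans hx2) (by rw [map_pow]; exact hx2))
    rw [map_mul, hv2, one_mul]
    exact he2.trans hx1
  have hl1 : 1 < V.valuation s.l := by
    by_contra h
    have h6 := h5 1 le_rfl (pow_le_one₀ zero_le (not_lt.1 h))
    have h7 := mul_lt_mul_of_pos_right h2 (bad_pos V hb)
    rw [heb] at h7
    exact absurd h6 (not_le.2 h7)
  have hl2 := bad_one_lt_sq hl1
  have h6 := h5 _ hl2.le le_rfl
  have h7 : V.valuation (s.k + j * s.b) = V.valuation s.b := by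
    have e : s.k + j * s.b = 2 * j * s.b + (s.k - j * s.b) := by ring
    have h8 : V.valuation (2 * j * s.b) = V.valuation s.b := by simp [hv2, hvj]
    rw [e, Valuation.map_add_eq_of_lt_left _ (h8 ▸ h4), h8]
  have h8 : V.valuation (s.k - j * s.b) * V.valuation s.b ≤ V.valuation s.l ^ 2 := by
    have e : (s.k - j * s.b) * (s.k + j * s.b) = s.a - s.e ^ 2 - s.l ^ 2 := by
      simp only [a]
      linear_combination (-s.b ^ 2) * hj
    rw [← h7, ← map_mul, e]
    exact Valuation.map_sub_le _ (Valuation.map_sub_le _ (ha1.trans hl2.le) (he2.trans hl2.le))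
      (by rw [map_pow])
  have hjb : V.valuation (j * s.b) = V.valuation s.b := by simp [hvj]
  have hjk : V.valuation (j * s.k) = V.valuation s.b := by simp [hvj, hkb]
  have hl2' := pow_ne_zero 2 hl
  refine no_pole s hN hn V σ hσ hl hη (s.b / s.l) j (div_ne_zero hb hl) hj
    ?_ ?_ ?_ ?_ ?_ ?_ ?_ ?_ ?_ (h1 ▸ bad_sig_lt hσ he h2) (bad_sig_nonpos hσ hl hl1.le)
  · rw [show s.e * (s.b / s.l) / s.l = s.e * s.b / s.l ^ 2 by field_simp, bad_div_lt V hl2',
      map_mul, heb, map_pow]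
    exact hl2
  · rw [div_mul_cancel₀ _ hl, bad_div_lt V hb]
    exact h2.trans h3
  · rw [show (s.eta - s.k + j * s.b) * (s.b / s.l) / s.l =
      (s.eta * s.b - (s.k - j * s.b) * s.b) / s.l ^ 2 by field_simp; ring, bad_div_le V hl2',
      map_pow]
    exact Valuation.map_sub_le _ (by rw [map_mul]; exact h6) (by rw [map_mul]; exact h8)
  · rw [div_mul_cancel₀ _ hl, bad_div_le V hb]
    exact Valuation.map_sub_le _ (Valuation.map_sub_le _ h3.le hkb.le) hjb.le
  · have e : s.b + j * s.k = j * (s.k - j * s.b) := by linear_combination s.b * hj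
    rw [e, show j * (s.k - j * s.b) * (s.b / s.l) / s.l =
      j * ((s.k - j * s.b) * s.b) / s.l ^ 2 by field_simp, bad_div_le V hl2',
      map_pow, map_mul, hvj, one_mul, map_mul]
    exact h8
  · rw [div_mul_cancel₀ _ hl, bad_div_le V hb]
    exact Valuation.map_sub_le _ le_rfl hjk.le
  · rw [bad_div_lt V hl2', map_mul, hkb, heb, map_pow]
    exact hl2
  · rw [show s.e ^ 2 * s.b * (s.b / s.l) / s.l ^ 3 = (s.e * s.b) ^ 2 / (s.l ^ 2) ^ 2 by
      field_simp, bad_div_lt V (pow_ne_zero 2 hl2'), map_pow, map_pow, map_pow, map_mul, heb]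
    exact bad_sq_lt.2 hl2
  · rw [show s.e ^ 2 * s.b / (s.b / s.l * s.l ^ 3) = s.e ^ 2 / s.l ^ 2 by field_simp,
      bad_div_lt V hl2', map_pow V.valuation s.l]
    exact he2.trans_lt hl2

theorem bad_h (s : Sys d N r) (hN : 0 < N) (hn : s.Nrm) (he : s.e ≠ 0) (hl : s.l ≠ 0) (a0 γ : ℂ)
    (ha0 : a0 ≠ 0) (ha : s.a = algebraMap ℂ K a0) (hγ : s.e * s.b = algebraMap ℂ K γ)
    (hbad : s.Bad) (V : ValuationSubring K) (hV : ∀ c : ℂ, algebraMap ℂ K c ∈ V)
    (hg : V.valuation s.e < 1 → ∃ σ : K → ℚ, IsGauge d s.l V σ ∧ σ s.e = 1) :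
    V.valuation s.eta ≤ V.valuation s.e := by
  by_contra hlt
  rw [not_le] at hlt
  obtain ⟨u, hu, h1, h2⟩ := hbad V hV
  have hη : V.valuation s.eta ≤ V.valuation u := by
    simpa [gen, wt, eta] using h1 (Sum.inr (⟨0, hN⟩, 3, false))
  have hb : V.valuation s.b ≤ V.valuation u := by simpa [gen, wt] using h1 (Sum.inl 2)
  rcases h2 with rfl | ⟨h2, h3, h4, h5⟩
  · exact absurd hη (not_le.2 hlt)
  by_cases h0 : γ = 0
  · have hb0 : s.b = 0 := by
      rw [h0, map_zero] at hγ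
      exact (mul_eq_zero.1 hγ).resolve_left he
    rw [hb0, zero_pow two_ne_zero, add_zero, map_pow, bad_sq_lt] at h5
    rcases h2 with rfl | rfl | rfl
    · have e : s.a = s.l ^ 2 + (s.e ^ 2 + s.k ^ 2) := by
        simp only [a, hb0]
        ring
      have h6 : V.valuation s.a = V.valuation (s.l ^ 2) := by
        rw [e]
        refine Valuation.map_add_eq_of_lt_left _ (Valuation.map_add_lt _ ?_ ?_)
        · rw [map_pow, map_pow]
          exact bad_sq_lt.2 h3
        · rw [map_pow, map_pow]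
          exact bad_sq_lt.2 h5
      rw [ha, bad_ceq hV ha0, map_pow] at h6
      have h7 : V.valuation s.l = 1 := bad_sq_eq (by rw [← h6, one_pow])
      rw [h7] at h3 h4 h5
      obtain ⟨σ, hσ, h8⟩ := hg h3
      exact bad_h0 s hN hn he hl hσ h8 hb0 h7 h5 hlt h4
    · exact hu hb0
    · exact lt_irrefl _ h5
  have heb : V.valuation s.e * V.valuation s.b = 1 := by rw [← map_mul, hγ, bad_ceq hV h0]
  have hkb : V.valuation s.k = V.valuation s.b ∧ V.valuation u = V.valuation s.b := by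
    rcases h2 with rfl | rfl | rfl
    · exfalso
      have h6 : V.valuation s.l ≤ 1 := by
        by_contra h
        exact lt_irrefl _ (bad_l s ha hV h3 h5 (not_le.1 h))
      exact absurd heb (mul_lt_one_of_nonneg_of_lt_one_left zero_le (h3.trans_le h6)
        (hb.trans h6)).ne
    · refine ⟨bad_sq_eq ?_, rfl⟩
      have e : s.k ^ 2 = -s.b ^ 2 + (s.k ^ 2 + s.b ^ 2) := by ring
      rw [← map_pow, e, Valuation.map_add_eq_of_lt_left _ (by rwa [Valuation.map_neg, map_pow]),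
        Valuation.map_neg, map_pow]
    · have : V.valuation s.k = V.valuation s.b := by
        refine (bad_sq_eq ?_).symm
        have e : s.b ^ 2 = -s.k ^ 2 + (s.k ^ 2 + s.b ^ 2) := by ring
        rw [← map_pow, e, Valuation.map_add_eq_of_lt_left _ (by rwa [Valuation.map_neg, map_pow]),
          Valuation.map_neg, map_pow]
      exact ⟨this, this⟩
  obtain ⟨hk, hub⟩ := hkb
  rw [hub] at h3 h4 h5
  have hev : V.valuation s.e < 1 := by
    rw [← bad_sq_lt, one_pow, ← heb, sq]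
    exact mul_lt_mul_of_pos_left h3 (bad_pos V he)
  obtain ⟨σ, hσ, h8⟩ := hg hev
  by_cases h6 : V.valuation (s.k - algebraMap ℂ K Complex.I * s.b) < V.valuation s.b
  · exact bad_h1 s hN hn he hl ha hσ h8 heb hk hlt h4 hev bad_I h6
  refine bad_h1 s hN hn he hl ha hσ h8 heb hk hlt h4 hev (j := -algebraMap ℂ K Complex.I)
    (by rw [neg_sq]; exact bad_I) ?_
  by_contra h7
  have e : s.k ^ 2 + s.b ^ 2 = (s.k - algebraMap ℂ K Complex.I * s.b) *
      (s.k - -algebraMap ℂ K Complex.I * s.b) := by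
    linear_combination (s.b ^ 2) * bad_I (K := K)
  rw [e, map_mul, sq] at h5
  exact absurd h5 (not_lt.2 (mul_le_mul' (not_lt.1 h6) (not_lt.1 h7)))

theorem bad_c (s : Sys d N r) (he : s.e ≠ 0) (hde : d s.eta = s.l * s.eta)
    (hne : (s.eta - 2 * s.k) ^ 2 + 4 * s.b ^ 2 ≠ 0) {V : ValuationSubring K} {σ : K → ℚ}
    (hσ : IsGauge d s.l V σ) (hev : V.valuation s.e < 1)
    (hh : V.valuation s.eta ≤ V.valuation s.e) {j : K} (hj : j ^ 2 = -1) (hdj : d j = 0) :
    V.valuation s.e * V.valuation (s.k - j * s.b) = 1 := by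
  have h2 : d (2 : K) = 0 := by simpa using d.map_natCast 2
  have hc : s.e * (s.eta - 2 * s.k + 2 * j * s.b) ≠ 0 := by
    refine mul_ne_zero he fun h => hne ?_
    linear_combination (s.eta - 2 * s.k - 2 * j * s.b) * h + 4 * s.b ^ 2 * hj
  have hd : d (s.e * (s.eta - 2 * s.k + 2 * j * s.b)) = 0 := by
    have hk : d s.k = (s.eta - s.k) * s.l := s.dk
    simp only [Derivation.leibniz, map_add, map_sub, hde, hk, s.de, s.db, h2, hdj, smul_eq_mul]
    ring
  have h3 := bad_const hσ hc hd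
  have e : 2 * (s.e * (s.k - j * s.b)) =
      -(s.e * (s.eta - 2 * s.k + 2 * j * s.b)) + s.e * s.eta := by ring
  have h4 : V.valuation (2 * (s.e * (s.k - j * s.b))) = 1 := by
    rw [e, Valuation.map_add_eq_of_lt_left, Valuation.map_neg, h3]
    rw [Valuation.map_neg, h3, map_mul]
    exact mul_lt_one_of_nonneg_of_lt_one_left zero_le hev (hh.trans hev.le)
  rwa [map_mul, bad_two hσ.const, one_mul, map_mul] at h4

theorem bad_last (s : Sys d N r) (he : s.e ≠ 0) (a0 : ℂ) (ha : s.a = algebraMap ℂ K a0)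
    (hbad : s.Bad) (hde : d s.eta = s.l * s.eta)
    (hne : (s.eta - 2 * s.k) ^ 2 + 4 * s.b ^ 2 ≠ 0) (V : ValuationSubring K) {σ : K → ℚ}
    (hσ : IsGauge d s.l V σ) (hev : V.valuation s.e < 1)
    (hh : V.valuation s.eta ≤ V.valuation s.e) : False := by
  set j := algebraMap ℂ K Complex.I with hjd
  have hj : j ^ 2 = -1 := bad_I
  have hdj : d j = 0 := d.map_algebraMap _
  have hvj := bad_j V hj
  have hv2 := bad_two hσ.const
  have h1 := bad_c s he hde hne hσ hev hh hj hdj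
  have h2 := bad_c s he hde hne hσ hev hh (j := -j) (by rw [neg_sq, hj]) (by rw [map_neg, hdj, neg_zero])
  have hp := bad_pos V he
  set t := (V.valuation s.e)⁻¹ with ht
  have h3 : V.valuation (s.k - j * s.b) = t := eq_inv_of_mul_eq_one_right h1
  have h4 : V.valuation (s.k - -j * s.b) = t := eq_inv_of_mul_eq_one_right h2
  have ht1 : 1 < t := (one_lt_inv₀ hp).2 hev
  have hk : V.valuation s.k ≤ t := by
    have e : 2 * s.k = (s.k - j * s.b) + (s.k - -j * s.b) := by ring
    have := Valuation.map_add_le V.valuation h3.le h4.le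
    rwa [← e, map_mul, hv2, one_mul] at this
  have hb : V.valuation s.b ≤ t := by
    have e : 2 * j * s.b = (s.k - -j * s.b) - (s.k - j * s.b) := by ring
    have := Valuation.map_sub_le V.valuation h4.le h3.le
    rwa [← e, map_mul, map_mul, hv2, hvj, one_mul, one_mul] at this
  have h5 : V.valuation (s.k ^ 2 + s.b ^ 2) = t ^ 2 := by
    have e : s.k ^ 2 + s.b ^ 2 = (s.k - j * s.b) * (s.k - -j * s.b) := by
      linear_combination (s.b ^ 2) * hj
    rw [e, map_mul, h3, h4, sq]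
  have hl : V.valuation s.l ≤ t := by
    have e : s.l ^ 2 = s.a - s.e ^ 2 - (s.k ^ 2 + s.b ^ 2) := by
      simp only [a]
      ring
    rw [← bad_sq_le, ← map_pow, e, ha]
    refine Valuation.map_sub_le _ (Valuation.map_sub_le _ ?_ ?_) h5.le
    · exact (bad_cle hσ.const _).trans (bad_one_lt_sq ht1).le
    · rw [map_pow]
      exact bad_sq_le.2 (hev.trans ht1).le
  obtain ⟨u, -, h6, h7⟩ := hbad V hσ.const
  rcases h7 with rfl | ⟨h7, -, -, h8⟩
  · have hb' : V.valuation s.b ≤ V.valuation s.e := by simpa [gen, wt] using h6 (Sum.inl 2)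
    have hk' : V.valuation s.k ≤ V.valuation s.e := by simpa [gen, wt] using h6 (Sum.inl 3)
    have h9 : V.valuation (s.k - j * s.b) ≤ V.valuation s.e :=
      Valuation.map_sub_le _ hk' (by rw [map_mul, hvj, one_mul]; exact hb')
    rw [h3] at h9
    exact absurd h9 (not_le.2 (hev.trans ht1))
  rw [h5, bad_sq_lt] at h8
  rcases h7 with rfl | rfl | rfl
  · exact absurd hl (not_le.2 h8)
  · exact absurd hb (not_le.2 h8)
  · exact absurd hk (not_le.2 h8)

open IntermediateField in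
theorem bad_main (s : Sys d N r) (hN : 0 < N) (hn : s.Nrm) (he : s.e ≠ 0) (a0 γ : ℂ)
    (ha0 : a0 ≠ 0) (ha : s.a = algebraMap ℂ K a0) (hγ : s.e * s.b = algebraMap ℂ K γ)
    (hgen : IntermediateField.adjoin ℂ (Set.range s.gen) = ⊤) (hbad : s.Bad) :
    d s.eta = s.l * s.eta ∧ ((s.eta - 2 * s.k) ^ 2 + 4 * s.b ^ 2 = 0 ∨ s.l = 0) := by
  have halg : ∀ i, IsAlgebraic ℂ⟮s.e⟯ (s.gen i) := bad_alg s he a0 γ ha hγ hbad
  have hfin : FiniteDimensional ℂ⟮s.e⟯ K := by
    have h1 : IntermediateField.adjoin ℂ⟮s.e⟯ (Set.range s.gen) = ⊤ := by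
      rw [eq_top_iff]
      intro x _
      have h2 : IntermediateField.adjoin ℂ (Set.range s.gen) ≤
          (IntermediateField.adjoin ℂ⟮s.e⟯ (Set.range s.gen)).restrictScalars ℂ :=
        IntermediateField.adjoin_le_iff.2 (IntermediateField.subset_adjoin _ _)
      exact h2 (hgen ▸ IntermediateField.mem_top)
    have h2 : FiniteDimensional ℂ⟮s.e⟯ (IntermediateField.adjoin ℂ⟮s.e⟯ (Set.range s.gen)) :=
      IntermediateField.finiteDimensional_adjoin (by
        rintro x ⟨i, rfl⟩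
        exact (halg i).isIntegral)
    rw [h1] at h2
    exact IntermediateField.topEquiv.toLinearEquiv.finiteDimensional
  by_cases hl : s.l = 0
  · refine ⟨?_, Or.inr hl⟩
    rw [hl, zero_mul]
    refine deriv_eq_zero_of_isAlgebraic d ℂ⟮s.e⟯ (fun f hf => ?_) _ (Algebra.IsAlgebraic.isAlgebraic _)
    induction hf using IntermediateField.adjoin_induction with
    | mem x hx => rw [hx, s.de, hl, zero_mul]
    | algebraMap c => exact d.map_algebraMap c
    | add x y _ _ hx hy => rw [map_add, hx, hy, add_zero]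
    | inv x _ hx => rw [d.leibniz_inv, hx, smul_zero]
    | mul x y _ _ hx hy => rw [d.leibniz, hx, hy, smul_zero, smul_zero, add_zero]
  have htr : Transcendental ℂ s.e := fun h => by
    have := bad_bot d (bad_alg_bot h)
    rw [s.de] at this
    exact mul_ne_zero hl he this
  have hg : ∀ V : ValuationSubring K, (∀ c : ℂ, algebraMap ℂ K c ∈ V) → V.valuation s.e < 1 →
      ∃ σ : K → ℚ, IsGauge d s.l V σ ∧ σ s.e = 1 := exists_gauge d s.e s.l hl s.de htr
  have hh : ∀ V : ValuationSubring K, (∀ c : ℂ, algebraMap ℂ K c ∈ V) →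
      V.valuation s.eta ≤ V.valuation s.e := fun V hV =>
    bad_h s hN hn he hl a0 γ ha0 ha hγ hbad V hV (hg V hV)
  have hde : d s.eta = s.l * s.eta := by
    have h1 : d (s.eta / s.e) = 0 := by
      refine bad_bot d ?_
      by_contra h
      obtain ⟨V, hV, hx⟩ := exists_valuation_pole ⊥ _ h
      refine hx ((V.valuation_le_one_iff _).1 ?_)
      exact (bad_div_le V he).2 (hh V fun c => hV _ (IntermediateField.algebraMap_mem _ c))
    have h2 : s.eta = s.eta / s.e * s.e := by field_simp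
    rw [h2, d.leibniz, h1, s.de, smul_zero, add_zero, smul_eq_mul]
    ring
  refine ⟨hde, Or.inl ?_⟩
  by_contra hne
  have h1 : ¬ IsAlgebraic (⊥ : IntermediateField ℂ K) s.e⁻¹ := fun h => by
    have h2 := bad_bot d (IsAlgebraic.inv_iff.1 h)
    rw [s.de] at h2
    exact mul_ne_zero hl he h2
  obtain ⟨V, hV, hx⟩ := exists_valuation_pole ⊥ _ h1
  have hV' : ∀ c : ℂ, algebraMap ℂ K c ∈ V := fun c => hV _ (IntermediateField.algebraMap_mem _ c)
  have hev : V.valuation s.e < 1 := by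
    rw [← V.valuation_le_one_iff, not_le, map_inv₀] at hx
    exact (one_lt_inv₀ (bad_pos V he)).1 hx
  obtain ⟨σ, hσ, -⟩ := hg V hV' hev
  exact bad_last s he a0 ha hbad hde hne V hσ hev (hh V hV')

end Sys

end Pool.Agent.Lib.MP_51f413_gt
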