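import Pool.Agent.Lib.MP_51f413_gt.Sys

/-!
Cylinders over plane curves of finite type.
-/

namespace Pool.Agent.Lib.MP_51f413_gt

namespace Sys

variable {K : Type} [Field K] [Algebra ℂ K] {d : Derivation ℂ K K} {N : ℕ} {r : ℕ → ℂ}

theorem cyl_leib (M : ℕ) : ∀ (n m : ℕ) (f g : K), n + m = M → d^[n + 1] f = 0 → d^[m + 1] g = 0 →
    d^[M] (f * g) = (M.choose n : K) * d^[n] f * d^[m] g := by
  induction M with
  | zero =>
    intro n m f g h _ _
    obtain ⟨rfl, rfl⟩ : n = 0 ∧ m = 0 := by omega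
    simp
  | succ M ih =>
    intro n m f g h hf hg
    have e : d (f * g) = d f * g + f * d g := by
      rw [Derivation.leibniz, smul_eq_mul, smul_eq_mul]; ring
    rw [Function.iterate_succ_apply, e, iterate_map_add]
    rcases n with _ | n
    · obtain rfl : m = M + 1 := by omega
      have h0 : d f = 0 := hf
      rw [h0, zero_mul, iterate_map_zero, zero_add, ih 0 M f (d g) (by omega) hf hg]
      simp
    · rcases m with _ | m
      · obtain rfl : n = M := by omega
        have h0 : d g = 0 := hg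
        rw [h0, mul_zero, iterate_map_zero, add_zero, ih n 0 (d f) g (by omega) hf hg]
        simp
      · rw [ih n (m + 1) (d f) g (by omega) hf hg, ih (n + 1) m f (d g) (by omega) hf hg,
          Nat.choose_succ_succ, ← Function.iterate_succ_apply d n, ← Function.iterate_succ_apply d m]
        push_cast
        ring

theorem cyl_kill {n m : ℕ} {f g : K} (hf : d^[n] f = 0) (hg : d^[m + 1] g = 0) :
    d^[n + m] (f * g) = 0 := by
  rcases n with _ | n
  · have h0 : f = 0 := hf
    rw [h0, zero_mul, iterate_map_zero]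
  · rw [show n + 1 + m = n + m + 1 by omega, Function.iterate_succ_apply',
      cyl_leib (n + m) n m f g rfl hf hg]
    rw [Function.iterate_succ_apply'] at hf hg
    simp [Derivation.leibniz, hf, hg]

theorem cyl_deg {n m : ℕ} {f g : K} (hf : d^[n] f ≠ 0 ∧ d^[n + 1] f = 0)
    (hg : d^[m] g ≠ 0 ∧ d^[m + 1] g = 0) :
    d^[n + m] (f * g) ≠ 0 ∧ d^[n + m + 1] (f * g) = 0 := by
  have : CharZero K := charZero_of_injective_algebraMap (algebraMap ℂ K).injective
  constructor
  · rw [cyl_leib (n + m) n m f g rfl hf.2 hg.2]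
    exact mul_ne_zero (mul_ne_zero (Nat.cast_ne_zero.2 (Nat.choose_pos (by omega)).ne') hf.1) hg.1
  · rw [show n + m + 1 = n + 1 + m by omega]
    exact cyl_kill hf.2 hg.2

theorem cyl_gauge (c : K) {f : K} (hf : f ≠ 0) {n : ℕ} (h : (fun x => d x + c * x)^[n] f = 0) :
    ∃ (u P : K) (p : ℕ), u ≠ 0 ∧ d u = -(c * u) ∧ P * u = f ∧ d^[p] P ≠ 0 ∧ d^[p + 1] P = 0 := by
  classical
  have hex : ∃ n, (fun x => d x + c * x)^[n] f = 0 := ⟨n, h⟩
  have h1 := Nat.find_spec hex
  obtain ⟨p, hp⟩ : ∃ p, Nat.find hex = p + 1 :=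
    Nat.exists_eq_succ_of_ne_zero fun h0 => hf (by rw [h0] at h1; exact h1)
  have h2 := Nat.find_min hex (m := p) (by omega)
  rw [hp, Function.iterate_succ_apply'] at h1
  set u := (fun x => d x + c * x)^[p] f with hu
  have hdu : d u = -(c * u) := eq_neg_of_add_eq_zero_left h1
  have h3 : ∀ (m : ℕ) (g : K), (fun x => d x + c * x)^[m] (g * u) = d^[m] g * u := by
    intro m g
    induction m with
    | zero => rfl
    | succ m ih =>
      rw [Function.iterate_succ_apply', Function.iterate_succ_apply', ih, Derivation.leibniz, hdu,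
        smul_eq_mul, smul_eq_mul]
      ring
  have h4 : f / u * u = f := div_mul_cancel₀ f h2
  have h5 : d^[p] (f / u) = 1 := by
    have := h3 p (f / u)
    rw [h4, ← hu] at this
    exact mul_right_cancel₀ h2 (this.symm.trans (one_mul u).symm)
  refine ⟨u, f / u, p, h2, hdu, h4, by rw [h5]; exact one_ne_zero, ?_⟩
  rw [Function.iterate_succ_apply', h5, Derivation.map_one_eq_zero]

theorem cyl_nil (s : Sys d N r) (hn : s.Nrm) (he : s.e = 0) (hb : s.b = 0)
    (hk : s.k = 0) (hl : s.l = 0) {j : K} (hj : j * j = -1) (hdj : d j = 0) :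
    (fun x => d x + j * s.eta * x)^[2 * N] (j * s.eta) = 0 := by
  have key : ∀ m ≤ N, (fun x => d x + j * s.eta * x)^[2 * m] (j * s.eta)
      = s.G m 1 + j * s.G m 3 := by
    intro m
    induction m with
    | zero =>
      intro _
      rw [hn.2.1, zero_add]
      rfl
    | succ m ih =>
      intro hm
      have hm' : m < N := by omega
      have g1 := s.dG m hm' 1
      have g3 := s.dG m hm' 3
      have h1 := s.dH m hm' 1
      have h3 := s.dH m hm' 3
      simp [Om, Xm, he, hb, hk, hl] at g1 g3 h1 h3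
      have e1 : d (s.G m 1 + j * s.G m 3) + j * s.eta * (s.G m 1 + j * s.G m 3)
          = s.H m 1 + j * s.H m 3 := by
        rw [map_add, Derivation.leibniz, hdj, g1, g3, smul_eq_mul, smul_eq_mul, eta]
        linear_combination (s.G 0 3 * s.G m 3) * hj
      have e2 : d (s.H m 1 + j * s.H m 3) + j * s.eta * (s.H m 1 + j * s.H m 3)
          = s.G (m + 1) 1 + j * s.G (m + 1) 3 := by
        rw [map_add, Derivation.leibniz, hdj, h1, h3, smul_eq_mul, smul_eq_mul, eta]
        linear_combination (s.G 0 3 * s.H m 3) * hj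
      rw [show 2 * (m + 1) = 2 * m + 1 + 1 by ring, Function.iterate_succ_apply',
        Function.iterate_succ_apply', ih hm'.le]
      simp only [e1, e2]
  have htop : ∀ i, s.G N i = 0 := by
    intro i
    rw [s.top i, neg_eq_zero]
    refine Finset.sum_eq_zero fun a ha => ?_
    have := Finset.mem_range.1 ha
    rw [he, zero_pow (by omega), mul_zero, zero_mul]
  rw [key N le_rfl, htop, htop, mul_zero, add_zero]

/-- Cylinders over plane curves. -/
theorem end_cyl (s : Sys d N r) (hN : 0 < N) (hn : s.Nrm) (he : s.e = 0) (hb : s.b = 0)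
    (hk : s.k = 0) (hl : s.l = 0) : s.eta = 0 := by
  have : CharZero K := charZero_of_injective_algebraMap (algebraMap ℂ K).injective
  by_contra hη
  set j : K := algebraMap ℂ K Complex.I with hjd
  have hj : j * j = -1 := by rw [hjd, ← map_mul, Complex.I_mul_I, map_neg, map_one]
  have hdj : d j = 0 := d.map_algebraMap _
  have hj0 : j ≠ 0 := fun h => by rw [h, mul_zero] at hj; norm_num at hj
  obtain ⟨u, P, p, hu, hdu, hP, hp⟩ :=
    cyl_gauge _ (mul_ne_zero hj0 hη) (cyl_nil s hn he hb hk hl hj hdj)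
  obtain ⟨w, Q, q, hw, hdw, hQ, hq⟩ :=
    cyl_gauge _ (mul_ne_zero (neg_ne_zero.2 hj0) hη)
      (cyl_nil s hn he hb hk hl (j := -j) (by rw [neg_mul_neg, hj]) (by rw [map_neg, hdj, neg_zero]))
  have h1 : d (P * u + Q * w) = 0 := by
    rw [hP, hQ, show j * s.eta + -j * s.eta = 0 by ring, map_zero]
  rw [map_add, Derivation.leibniz, Derivation.leibniz, hdu, hdw] at h1
  simp only [smul_eq_mul] at h1
  have h2 : (d P * Q - P * d Q) * (u * w) = 2 * j * s.eta ^ 3 := by
    linear_combination (d P * u + j * s.eta * (j * s.eta)) * hQ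
      - (d Q * w + j * s.eta * (j * s.eta)) * hP - j * s.eta * h1 - 2 * j * s.eta ^ 3 * hj
  have h3 : P * Q * (u * w) = s.eta ^ 2 := by
    linear_combination (Q * w) * hP + (j * s.eta) * hQ - s.eta ^ 2 * hj
  have hc : u * w ≠ 0 := mul_ne_zero hu hw
  have h4 : (d P * Q - P * d Q) * (d P * Q - P * d Q)
      = -4 * (u * w) * (P * Q * (P * Q * (P * Q))) := by
    apply mul_right_cancel₀ (mul_ne_zero hc hc)
    have e1 : (d P * Q - P * d Q) * (d P * Q - P * d Q) * (u * w * (u * w))
        = ((d P * Q - P * d Q) * (u * w)) ^ 2 := by ring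
    have e2 : -4 * (u * w) * (P * Q * (P * Q * (P * Q))) * (u * w * (u * w))
        = -4 * (P * Q * (u * w)) ^ 3 := by ring
    rw [e1, e2, h2, h3]
    linear_combination 4 * s.eta ^ 6 * hj
  have hc0 : d^[0] (-4 * (u * w)) ≠ 0 ∧ d^[0 + 1] (-4 * (u * w)) = 0 := by
    refine ⟨mul_ne_zero (by norm_num) hc, ?_⟩
    have h5 : d (4 : K) = 0 := by simpa using d.map_natCast 4
    show d (-4 * (u * w)) = 0
    rw [Derivation.leibniz, Derivation.leibniz, map_neg, h5, hdu, hdw]
    simp only [smul_eq_mul]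
    ring
  have hPQ := cyl_deg hp hq
  have h6 := (cyl_deg hc0 (cyl_deg hPQ (cyl_deg hPQ hPQ))).1
  rw [← h4] at h6
  have h7 : d^[p + q] (d P * Q - P * d Q) = 0 := by
    have a1 : d^[p + q] (d P * Q) = 0 := cyl_kill hp.2 hq.2
    have a2 : d^[q + p] (d Q * P) = 0 := cyl_kill hq.2 hp.2
    rw [add_comm q p, mul_comm] at a2
    rw [iterate_map_sub, a1, a2, sub_zero]
  rcases hpq : p + q with _ | t
  · rw [hpq] at h7
    have h8 : d P * Q - P * d Q = 0 := h7
    rw [h8, zero_mul] at h2
    exact mul_ne_zero (mul_ne_zero two_ne_zero hj0) (pow_ne_zero 3 hη) h2.symm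
  · rw [hpq] at h7 h6
    apply h6
    rw [show 0 + (t + 1 + (t + 1 + (t + 1))) = (t + 2) + (t + 1 + t) by omega,
      Function.iterate_add_apply, cyl_kill h7 h7, iterate_map_zero]

end Sys

end Pool.Agent.Lib.MP_51f413_gt
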