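import Pool.Agent.Lib.MP_51f413_gt.Sys

/-!
Homogeneous end points of the degeneration are not solutions.
-/

namespace Pool.Agent.Lib.MP_51f413_gt

/-- First sequence of coefficients. -/
def endA {F : Type} [CommRing F] (c : F) : ℕ → F
  | 0 => 1
  | m + 1 => ((2 * m + 2) * c - (2 * m + 1)) * ((2 * m + 3) * c - (2 * m + 1)) * endA c m

/-- Second sequence of coefficients. -/
def endB {F : Type} [CommRing F] (c : F) : ℕ → F
  | 0 => 1
  | m + 1 => (2 * m + 1) * (1 - c) * (2 * m + 1 - 2 * m * c) * endB c m + 2 * endA c m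

theorem end_mapA {F F' : Type} [CommRing F] [CommRing F'] (φ : F →+* F') (c : F) (m : ℕ) :
    endA (φ c) m = φ (endA c m) := by
  induction m with
  | zero => simp [endA]
  | succ m ih => simp [endA, ih, map_ofNat]

theorem end_mapB {F F' : Type} [CommRing F] [CommRing F'] (φ : F →+* F') (c : F) (m : ℕ) :
    endB (φ c) m = φ (endB c m) := by
  induction m with
  | zero => simp [endB]
  | succ m ih => simp [endB, ih, end_mapA, map_ofNat]

theorem end_real {c : ℝ} (hc : c < 1) {J : ℕ}
    (h1 : ((2 * J + 2) * c - (2 * J + 1)) * ((2 * J + 3) * c - (2 * J + 1)) = 0)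
    (h2 : 2 * J + 1 ≤ (2 * J + 3) * c) (m : ℕ) : 0 < endB c m := by
  have ht : 0 < 1 - c := sub_pos.mpr hc
  have hz : ∀ m, J < m → endA c m = 0 := by
    intro m hm
    induction m, hm using Nat.le_induction with
    | base => rw [endA, h1, zero_mul]
    | succ m _ ih => rw [endA, ih, mul_zero]
  have hf : ∀ m : ℕ, 0 < (2 * m + 1) * (1 - c) * (2 * m + 1 - 2 * m * c) := fun m => by
    have : (2 * m + 1 - 2 * m * c : ℝ) = 1 + 2 * m * (1 - c) := by ring
    rw [this]
    positivity
  have hs : ∀ m : ℕ, endA c m ≠ 0 → 0 ≤ (2 * m + 3) * c - (2 * m + 1) := fun m hm => by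
    have h3 : m ≤ J := not_lt.mp fun h => hm (hz m h)
    have h4 : (m : ℝ) ≤ J := by exact_mod_cast h3
    nlinarith
  have key : ∀ m : ℕ, 0 < endB c m ∧ (endA c m < 0 → 1 < 2 * m * (1 - c) ∧
      0 < (2 * m + 1) * (1 - c) * (2 * m + 1 - 2 * m * c) * endB c m + 2 * endA c m) := by
    intro m
    induction m with
    | zero => exact ⟨one_pos, fun h => absurd h (not_lt.mpr zero_le_one)⟩
    | succ m ih =>
      obtain ⟨hB, hA⟩ := ih
      rcases lt_or_ge (endA c m) 0 with h | h
      · refine ⟨(hA h).2, fun h' => absurd h' (not_lt.mpr ?_)⟩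
        have h3 : (2 * m + 2) * c - (2 * m + 1) ≤ 0 := by nlinarith [(hA h).1]
        exact mul_nonneg_of_nonpos_of_nonpos (mul_nonpos_of_nonpos_of_nonneg h3 (hs m h.ne)) h.le
      · have h3 : 2 * endA c m < endB c (m + 1) := lt_add_of_pos_left _ (mul_pos (hf m) hB)
        refine ⟨by linarith, fun h' => ?_⟩
        rw [endA] at h' ⊢
        have h4 : endA c m ≠ 0 := fun h0 => by
          rw [h0, mul_zero] at h'
          exact lt_irrefl _ h'
        have h5 := hs m h4
        have h6 : (2 * m + 2) * c - (2 * m + 1) < 0 := by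
          by_contra h7
          exact absurd h' (not_lt.mpr (mul_nonneg (mul_nonneg (not_lt.mp h7) h5) h))
        have h7 := hf (m + 1)
        push_cast at h7 ⊢
        refine ⟨by linarith, ?_⟩
        have h8 : -(((2 * m + 2) * c - (2 * m + 1)) * ((2 * m + 3) * c - (2 * m + 1))) ≤
            (2 * (m + 1) + 1) * (1 - c) * (2 * (m + 1) + 1 - 2 * (m + 1) * c) := by
          obtain ⟨u, hu⟩ : ∃ u : ℝ, u = (2 * m + 2) * (1 - c) := ⟨_, rfl⟩
          have e1 : (2 * m + 2) * c - (2 * m + 1) = 1 - u := by rw [hu]; ring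
          have e2 : (2 * m + 3) * c - (2 * m + 1) = 2 - u - (1 - c) := by rw [hu]; ring
          have e3 : (2 * (m + 1) + 1) * (1 - c) = u + (1 - c) := by rw [hu]; ring
          have e4 : 2 * (m + 1) + 1 - 2 * (m + 1) * c = 1 + u := by rw [hu]; ring
          rw [e1] at h6
          rw [e1, e2, e3, e4]
          nlinarith
        have h9 := mul_lt_mul_of_pos_left h3 h7
        have h10 := mul_le_mul_of_nonneg_right h8 h
        linarith
  exact (key m).1

theorem end_complex (c : ℂ) (N : ℕ) (hA : endA c N = 0) : endB c N ≠ 0 := by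
  have h : ∃ J : ℕ, ((2 * J + 2) * c - (2 * J + 1)) * ((2 * J + 3) * c - (2 * J + 1)) = 0 := by
    induction N with
    | zero => exact absurd hA one_ne_zero
    | succ N ih => exact (mul_eq_zero.mp hA).elim (fun h => ⟨N, h⟩) ih
  obtain ⟨J, hJ⟩ := h
  have hJ0 : (0 : ℝ) ≤ J := Nat.cast_nonneg J
  obtain ⟨x, rfl, h1, h2⟩ : ∃ x : ℝ, c = x ∧ x < 1 ∧ 2 * J + 1 ≤ (2 * J + 3) * x := by
    rcases mul_eq_zero.mp hJ with h | h
    · have h3 : (2 * J + 2 : ℂ) ≠ 0 := by exact_mod_cast (by omega : 2 * J + 2 ≠ 0)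
      refine ⟨(2 * J + 1) / (2 * J + 2), ?_, (div_lt_one (by positivity)).mpr (by linarith), ?_⟩
      · push_cast
        rw [eq_div_iff h3]
        linear_combination h
      · rw [← mul_div_assoc, le_div_iff₀ (by positivity)]
        nlinarith
    · have h3 : (2 * J + 3 : ℂ) ≠ 0 := by exact_mod_cast (by omega : 2 * J + 3 ≠ 0)
      refine ⟨(2 * J + 1) / (2 * J + 3), ?_, (div_lt_one (by positivity)).mpr (by linarith), ?_⟩
      · push_cast
        rw [eq_div_iff h3]
        linear_combination h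
      · rw [mul_div_cancel₀ _ (by positivity)]
  have h3 := end_real h1 (J := J) (by exact_mod_cast hJ) h2 N
  have h4 := end_mapB Complex.ofRealHom x N
  rw [Complex.ofRealHom_eq_coe, Complex.ofRealHom_eq_coe] at h4
  rw [h4]
  exact_mod_cast h3.ne'

namespace Sys

variable {K : Type} [Field K] [Algebra ℂ K] {d : Derivation ℂ K K} {N : ℕ} {r : ℕ → ℂ}

theorem end_top (s : Sys d N r) (he : s.e = 0) (i : Fin 4) : s.G N i = 0 := by
  rw [s.top, neg_eq_zero]
  refine Finset.sum_eq_zero fun j hj => ?_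
  have := Finset.mem_range.mp hj
  rw [he, zero_pow (by omega), mul_zero, zero_mul]

theorem end_ax (s : Sys d N r) (hb : s.b = 0) {C w : K} (hl : d s.l = C * s.l * s.l)
    (hk : d s.k = C * s.l * s.k) {F : Fin 4 → K} (hF : ∀ i, d (F i) = w * (C * s.l) * F i) :
    d (s.ax F) = (w + 1) * (C * s.l) * s.ax F ∧ d (s.cx F) = (w + 1) * (C * s.l) * s.cx F := by
  have h2 : d (2 : K) = 0 := by simpa using d.map_natCast 2
  simp only [cx, ax, hb, zero_mul, sub_zero, map_add, map_sub, Derivation.leibniz, hl, hk, hF, h2,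
    smul_eq_mul]
  constructor <;> ring

/-- Circular cones and cylinders. -/
theorem end_cone (s : Sys d N r) (hN : 0 < N) (hn : s.Nrm) (he : s.e = 0) (hb : s.b = 0)
    (hl : d s.l = 0) (hk : d s.k = 0) (hG : ∀ m < N, ∀ i, d (s.G m i) = 0)
    (hH : ∀ m < N, ∀ i, d (s.H m i) = 0) (ha : s.a ≠ 0) : s.eta = 0 := by
  have : CharZero K := charZero_of_injective_algebraMap (algebraMap ℂ K).injective
  by_contra h0
  have h1 := s.dl
  have h2 := s.dk
  have h3 : s.a = s.l ^ 2 + s.k ^ 2 := by
    rw [a, he, hb]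
    ring
  rw [hl, he, hb] at h1
  rw [hk] at h2
  have h4 : s.G 0 3 - s.k = 0 := by
    refine (mul_eq_zero.mp (?_ : (s.G 0 3 - s.k) * s.a = 0)).resolve_right ha
    rw [h3]
    linear_combination s.k * h1 - s.l * h2
  by_cases hl0 : s.l = 0
  · have hk0 : s.k ≠ 0 := fun h => ha (by rw [h3, hl0, h]; ring)
    have key : ∀ m ≤ N, s.G m 3 ≠ 0 := by
      intro m
      induction m with
      | zero => exact fun _ => h0
      | succ m ih =>
        intro hm
        have e1 := s.dG m hm 3
        have e2 := s.dH m hm 3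
        rw [hG m hm, h4, he, hb, hl0] at e1
        rw [hH m hm, h4, he, hb, hl0] at e2
        simp [Om, Xm] at e2
        have e3 : s.G (m + 1) 3 = -(s.k * (s.k * s.G m 3)) := by linear_combination -e2
        rw [e3]
        exact neg_ne_zero.mpr (mul_ne_zero hk0 (mul_ne_zero hk0 (ih (by omega))))
    exact key N le_rfl (s.end_top he 3)
  · have key : ∀ m ≤ N, s.ax (s.G m) ≠ 0 := by
      intro m
      induction m with
      | zero =>
        intro _
        rw [ax, hn.2.1, hn.2.2, mul_zero, mul_zero, sub_zero, zero_add]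
        exact mul_ne_zero hl0 h0
      | succ m ih =>
        intro hm
        have e1 := s.d_axG hm
        have e2 := s.d_axH hm
        rw [(s.end_ax hb (C := 0) (w := 0) (by rw [hl]; ring) (by rw [hk]; ring)
          fun i => by rw [hG m hm]; ring).1, he] at e1
        rw [(s.end_ax hb (C := 0) (w := 0) (by rw [hl]; ring) (by rw [hk]; ring)
          fun i => by rw [hH m hm]; ring).1, he] at e2
        have e3 : s.ax (s.G (m + 1)) = ((2 * m + 1) * s.l) ^ 2 * s.ax (s.G m) := by
          linear_combination (2 * m + 1) * s.l * e1 - e2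
        have e4 : (2 * m + 1 : K) ≠ 0 := by exact_mod_cast (by omega : 2 * m + 1 ≠ 0)
        rw [e3]
        exact mul_ne_zero (pow_ne_zero _ (mul_ne_zero e4 hl0)) (ih (by omega))
    refine key N le_rfl ?_
    simp [ax, s.end_top he]

/-- The twisted end point. -/
theorem end_twist (s : Sys d N r) (he : s.e = 0) (ha : s.a = 0) (hb : s.b ≠ 0)
    (hl : d s.l = -(s.l * s.l)) (hk : d s.k = -(s.l * s.k)) : s.eta = 0 := by
  by_contra h0
  have h1 := s.dl_add_sq
  have h2 := s.dk
  rw [hl, ha, he] at h1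
  rw [hk] at h2
  have hk0 : s.k = 0 :=
    (mul_eq_zero.mp (by linear_combination h1 : s.eta * s.k = 0)).resolve_left h0
  have hl0 : s.l = 0 :=
    (mul_eq_zero.mp (by linear_combination -h2 : s.G 0 3 * s.l = 0)).resolve_left h0
  rw [a, he, hk0, hl0] at ha
  exact pow_ne_zero 2 hb (by linear_combination ha)

/-- Parabolic power solutions. -/
theorem end_par (s : Sys d N r) (hN : 0 < N) (hn : s.Nrm) (he : s.e = 0) (hb : s.b = 0)
    (ha : s.a = 0) (hl0 : s.l ≠ 0) (c : ℂ) (hl : d s.l = algebraMap ℂ K c * s.l * s.l)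
    (hG : ∀ m < N, ∀ i, d (s.G m i) = (2 * m + 1) * (algebraMap ℂ K c * s.l) * s.G m i)
    (hH : ∀ m < N, ∀ i, d (s.H m i) = (2 * m + 2) * (algebraMap ℂ K c * s.l) * s.H m i) :
    s.eta = 0 := by
  by_contra h0
  set C := algebraMap ℂ K c with hC
  have h1 := s.dl_add_sq
  have h3 : s.l ^ 2 + s.k ^ 2 = 0 := by
    rw [a, he, hb] at ha
    linear_combination ha
  have hk0 : s.k ≠ 0 := fun h => pow_ne_zero 2 hl0 (by rw [h] at h3; linear_combination h3)
  rw [hl, ha, he] at h1
  have h4 : s.G 0 3 = (C + 1) * s.k := by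
    apply mul_right_cancel₀ hk0
    change s.eta * s.k = _
    linear_combination h1 - (C + 1) * h3
  have hk : d s.k = C * s.l * s.k := by
    rw [s.dk, h4]
    ring
  have key : ∀ m ≤ N, s.ax (s.G m) = endA C m * (s.l ^ (2 * m + 1) * s.eta) ∧
      s.cx (s.G m) = endB C m * (s.l ^ (2 * m + 1) * s.eta) := by
    intro m
    induction m with
    | zero =>
      intro _
      simp only [cx, ax, hn.2.1, hn.2.2, endA, endB, eta]
      constructor <;> ring
    | succ m ih =>
      intro hm
      obtain ⟨i1, i2⟩ := ih (by omega)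
      obtain ⟨g1, g2⟩ := s.end_ax hb hl hk (hG m hm)
      obtain ⟨g3, g4⟩ := s.end_ax hb hl hk (hH m hm)
      have e1 := s.d_axG hm
      have e2 := s.d_axH hm
      have e3 := s.d_cxG hm
      have e4 := s.d_cxH hm
      rw [g1, he] at e1
      rw [g3, he] at e2
      rw [g2, he, hb, ha, hl] at e3
      rw [g4, he, hb, ha, hl] at e4
      have f1 : s.ax (s.H m) = ((2 * m + 2) * C - (2 * m + 1)) * s.l * s.ax (s.G m) := by
        linear_combination -e1
      have f3 : s.cx (s.H m) = (2 * m * C - (2 * m + 1)) * s.l * s.cx (s.G m) := by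
        apply mul_left_cancel₀ hl0
        linear_combination -e3
      have f2 : s.ax (s.G (m + 1)) = ((2 * m + 3) * C - (2 * m + 1)) * s.l * s.ax (s.H m) := by
        linear_combination -e2
      have f4 : s.cx (s.G (m + 1)) = (2 * m + 1) * (C - 1) * s.l * s.cx (s.H m) +
          2 * s.l ^ 2 * s.ax (s.G m) := by
        apply mul_left_cancel₀ hl0
        linear_combination -e4
      rw [f2, f4, f1, f3, i1, i2, endA, endB]
      constructor <;> ring
  obtain ⟨k1, k2⟩ := key N le_rfl
  have hne : s.l ^ (2 * N + 1) * s.eta ≠ 0 := mul_ne_zero (pow_ne_zero _ hl0) h0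
  have z1 : s.ax (s.G N) = 0 := by simp [ax, s.end_top he]
  have z2 : s.cx (s.G N) = 0 := by simp [cx, z1, s.end_top he]
  rw [z1, eq_comm, mul_eq_zero, or_iff_left hne, hC, end_mapA, map_eq_zero] at k1
  rw [z2, eq_comm, mul_eq_zero, or_iff_left hne, hC, end_mapB, map_eq_zero] at k2
  exact end_complex c N k1 k2

end Sys

end Pool.Agent.Lib.MP_51f413_gt
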