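import Pool.Agent.Lib.MP_51f413_gt.Sys
import Pool.Agent.Lib.MP_51f413_gt.Deriv

/-!
The Enneper end point forces the mean curvature to vanish.
-/

namespace Pool.Agent.Lib.MP_51f413_gt

open Polynomial in
/-- The two polynomial sequences. -/
noncomputable def nakP : ℕ → ℂ[X] × ℂ[X]
  | 0 => (1, 1)
  | m + 1 => ((X - ((4 * m + 4 : ℕ) : ℂ[X])) * ((X - ((4 * m + 3 : ℕ) : ℂ[X])) * (nakP m).1),
      (X - ((4 * m + 2 : ℕ) : ℂ[X])) * ((X - ((4 * m + 1 : ℕ) : ℂ[X])) * (nakP m).2) +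
        ((2 : ℕ) : ℂ[X]) * (nakP m).1)

theorem nak_root {t : ℂ} {m : ℕ} (h : (nakP m).1.eval t = 0) :
    ∃ n : ℤ, t = n ∧ (n % 4 = 0 ∨ n % 4 = 3) := by
  induction m with
  | zero => simp [nakP] at h
  | succ m ih =>
    simp only [nakP, Polynomial.eval_mul, Polynomial.eval_sub, Polynomial.eval_X,
      Polynomial.eval_natCast, mul_eq_zero, sub_eq_zero] at h
    rcases h with h | h | h
    · exact ⟨4 * m + 4, by rw [h]; push_cast; rfl, by omega⟩
    · exact ⟨4 * m + 3, by rw [h]; push_cast; rfl, by omega⟩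
    · exact ih h

theorem nak_pos {n : ℤ} (hn : n % 4 = 0 ∨ n % 4 = 3) (m : ℕ) :
    ∃ a b : ℤ, 0 ≤ a ∧ 0 < b ∧ (nakP m).1.eval (n : ℂ) = a ∧ (nakP m).2.eval (n : ℂ) = b := by
  induction m with
  | zero => exact ⟨1, 1, zero_le_one, one_pos, by simp [nakP], by simp [nakP]⟩
  | succ m ih =>
    obtain ⟨a, b, ha, hb, e1, e2⟩ := ih
    have h1 : 0 ≤ (n - (4 * m + 4)) * (n - (4 * m + 3)) := by
      rcases le_or_gt n (4 * m + 3) with h | h
      · exact mul_nonneg_of_nonpos_of_nonpos (by omega) (by omega)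
      · exact mul_nonneg (by omega) (by omega)
    have h2 : 0 < (n - (4 * m + 2)) * (n - (4 * m + 1)) := by
      rcases le_or_gt n (4 * m + 1) with h | h
      · exact mul_pos_of_neg_of_neg (by omega) (by omega)
      · exact mul_pos (by omega) (by omega)
    refine ⟨(n - (4 * m + 4)) * (n - (4 * m + 3)) * a,
      (n - (4 * m + 2)) * (n - (4 * m + 1)) * b + 2 * a, by positivity, by positivity, ?_, ?_⟩
    all_goals
      simp only [nakP, Polynomial.eval_mul, Polynomial.eval_sub, Polynomial.eval_X,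
        Polynomial.eval_natCast, Polynomial.eval_add, e1, e2]
      push_cast
      ring

theorem nak_coprime (m : ℕ) : IsCoprime (nakP m).1 (nakP m).2 := by
  refine (Polynomial.isCoprime_iff_aeval_ne_zero_of_isAlgClosed ℂ ℂ _ _).2 fun t => ?_
  rw [Polynomial.coe_aeval_eq_eval, or_iff_not_imp_left, not_not]
  intro h
  obtain ⟨n, rfl, hn⟩ := nak_root h
  obtain ⟨a, b, -, hb, -, e⟩ := nak_pos hn m
  rw [e]
  exact Int.cast_ne_zero.2 hb.ne'

theorem nak_abs {W : Type} [AddCommGroup W] [Module ℂ W] (θ : Module.End ℂ W) (N : ℕ)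
    (al al' be be' : ℕ → W) (h0 : be 0 = al 0)
    (h1 : ∀ m < N, θ (al m) - (4 * m + 3) • al m = al' m)
    (h2 : ∀ m < N, θ (al' m) - (4 * m + 4) • al' m = al (m + 1))
    (h3 : ∀ m < N, θ (be m) - (4 * m + 1) • be m = be' m)
    (h4 : ∀ m < N, θ (be' m) - (4 * m + 2) • be' m + 2 • al m = be (m + 1))
    (h5 : al N = 0) (h6 : be N = 0) : al 0 = 0 := by
  have key : ∀ m ≤ N, Polynomial.aeval θ (nakP m).1 (al 0) = al m ∧
      Polynomial.aeval θ (nakP m).2 (al 0) = be m := by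
    intro m
    induction m with
    | zero => intro _; simp [nakP, h0]
    | succ m ih =>
      intro hm
      obtain ⟨e1, e2⟩ := ih (by omega)
      simp only [nakP, map_mul, map_add, map_sub, Polynomial.aeval_X, map_natCast,
        Module.End.mul_apply, LinearMap.add_apply, LinearMap.sub_apply, Module.End.natCast_apply,
        e1, e2, h1 m hm, h2 m hm, h3 m hm, h4 m hm, and_self]
  obtain ⟨a, b, e⟩ := nak_coprime N
  have := congrArg (fun P => Polynomial.aeval θ P (al 0)) e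
  simpa [(key N le_rfl).1, (key N le_rfl).2, h5, h6] using this.symm

theorem nak_mod {W : Type} [AddCommGroup W] [Module ℂ W] (θ : Module.End ℂ W)
    (M : Submodule ℂ W) (hM : ∀ x ∈ M, θ x ∈ M) (N : ℕ)
    (al al' be be' : ℕ → W) (h0 : be 0 = al 0)
    (h1 : ∀ m < N, θ (al m) - (4 * m + 3) • al m - al' m ∈ M)
    (h2 : ∀ m < N, θ (al' m) - (4 * m + 4) • al' m - al (m + 1) ∈ M)
    (h3 : ∀ m < N, θ (be m) - (4 * m + 1) • be m - be' m ∈ M)
    (h4 : ∀ m < N, θ (be' m) - (4 * m + 2) • be' m + 2 • al m - be (m + 1) ∈ M)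
    (h5 : al N ∈ M) (h6 : be N ∈ M) : al 0 ∈ M := by
  have e : ∀ x, M.mapQ M θ hM (M.mkQ x) = M.mkQ (θ x) := fun x => rfl
  have k : ∀ {x y}, x - y ∈ M → M.mkQ x = M.mkQ y := fun h => (Submodule.Quotient.eq M).2 h
  refine (Submodule.Quotient.mk_eq_zero M).1 (nak_abs (M.mapQ M θ hM) N (fun m => M.mkQ (al m))
    (fun m => M.mkQ (al' m)) (fun m => M.mkQ (be m)) (fun m => M.mkQ (be' m)) (by rw [h0])
    (fun m hm => ?_) (fun m hm => ?_) (fun m hm => ?_) (fun m hm => ?_)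
    ((Submodule.Quotient.mk_eq_zero M).2 h5) ((Submodule.Quotient.mk_eq_zero M).2 h6))
  · rw [← k (h1 m hm), map_sub, map_nsmul, e]
  · rw [← k (h2 m hm), map_sub, map_nsmul, e]
  · rw [← k (h3 m hm), map_sub, map_nsmul, e]
  · rw [← k (h4 m hm), map_add, map_sub, map_nsmul, map_nsmul, e]

theorem nak_Om {R : Type} [CommRing R] {J : Ideal R} {F : Fin 4 → R} (hF : ∀ i, F i ∈ J)
    (e b k1 : R) (i : Fin 4) : Om e b k1 F i ∈ J := by
  fin_cases i
  · exact J.neg_mem (J.mul_mem_left _ (hF _))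
  · exact J.sub_mem (J.mul_mem_left _ (hF _)) (J.mul_mem_left _ (hF _))
  · exact J.neg_mem (J.mul_mem_left _ (hF _))
  · exact J.add_mem (J.mul_mem_left _ (hF _)) (J.mul_mem_left _ (hF _))

theorem nak_Xm {R : Type} [CommRing R] {J : Ideal R} {F : Fin 4 → R} (hF : ∀ i, F i ∈ J)
    (e l b k : R) (i : Fin 4) : Xm e l b k F i ∈ J := by
  fin_cases i
  · exact J.neg_mem (J.mul_mem_left _ (hF _))
  · exact J.sub_mem (J.neg_mem (J.mul_mem_left _ (hF _))) (J.mul_mem_left _ (hF _))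
  · exact J.sub_mem (J.add_mem (J.mul_mem_left _ (hF _)) (J.mul_mem_left _ (hF _)))
      (J.mul_mem_left _ (hF _))
  · exact J.add_mem (J.mul_mem_left _ (hF _)) (J.mul_mem_left _ (hF _))

namespace Sys

theorem nak_ax {R : Type} [CommRing R] [Algebra ℂ R] {d : Derivation ℂ R R} {N : ℕ} {r : ℕ → ℂ}
    (s : Sys d N r) {J : Ideal R} {F : Fin 4 → R} (hF : ∀ i, F i ∈ J) :
    s.ax F ∈ J ∧ s.cx F ∈ J := by
  have h : s.ax F ∈ J := J.add_mem (J.sub_mem (J.mul_mem_left _ (hF _)) (J.mul_mem_left _ (hF _)))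
    (J.mul_mem_left _ (hF _))
  exact ⟨h, J.sub_mem (J.mul_mem_left _ (hF _)) h⟩

theorem nak_loc {R : Type} [CommRing R] [Algebra ℂ R] {d : Derivation ℂ R R}
    {N : ℕ} {r : ℕ → ℂ} (s : Sys d N r) (hN : 0 < N) (hn : s.Nrm) (q : Ideal R)
    (hq : q ≤ Ideal.jacobson ⊥) (hd : ∀ f ∈ q, d f ∈ q) (he : s.e ∈ q) (ha : s.a ∈ q)
    (hη : s.eta ∈ q) (u : R) (hu : s.l * u = 1) : s.eta = 0 := by
  obtain ⟨I, hI⟩ : ∃ I : Ideal R, I = Ideal.span (Set.range fun x : Fin N × Fin 4 × Bool =>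
    if x.2.2 then s.H x.1 x.2.1 else s.G x.1 x.2.1) := ⟨_, rfl⟩
  have hG : ∀ m < N, ∀ i, s.G m i ∈ I := fun m hm i =>
    hI ▸ Ideal.subset_span ⟨(⟨m, hm⟩, i, false), rfl⟩
  have hH : ∀ m < N, ∀ i, s.H m i ∈ I := fun m hm i =>
    hI ▸ Ideal.subset_span ⟨(⟨m, hm⟩, i, true), rfl⟩
  have hGN : ∀ i, s.G N i ∈ q * I := fun i => by
    rw [s.top i]
    refine neg_mem (sum_mem fun j hj => ?_)
    have hj' := Finset.mem_range.1 hj
    exact Ideal.mul_mem_mul (q.mul_mem_left _ (q.pow_mem_of_mem he _ (by omega))) (hG j hj' i)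
  have hG' : ∀ m < N, ∀ i, s.G (m + 1) i ∈ I := fun m hm i => by
    rcases (Nat.succ_le_of_lt hm).lt_or_eq with h | h
    · exact hG _ h i
    · rw [show m + 1 = N from h]
      exact Ideal.mul_le_right (hGN i)
  have hdI : ∀ f ∈ I, d f ∈ I := fun f hf => by
    have hf' := hI ▸ hf
    clear hf
    induction hf' using Submodule.span_induction with
    | mem x hx =>
      obtain ⟨⟨⟨m, hm⟩, i, c⟩, rfl⟩ := hx
      cases c
      · change d (s.G m i) ∈ I
        rw [s.dG m hm i]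
        exact I.sub_mem (I.add_mem (hH m hm i) (I.mul_mem_left _ (hG m hm i)))
          (nak_Om (hG m hm) _ _ _ _)
      · change d (s.H m i) ∈ I
        rw [s.dH m hm i]
        exact I.sub_mem (I.add_mem (I.sub_mem (hG' m hm i)
          (nak_Xm (nak_Xm (hG m hm) _ _ _ _) _ _ _ _ _)) (I.mul_mem_left _ (hH m hm i)))
          (nak_Om (hH m hm) _ _ _ _)
    | zero => rw [map_zero]; exact I.zero_mem
    | add x y _ _ hx hy => rw [map_add]; exact I.add_mem hx hy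
    | smul a x hx h =>
      rw [smul_eq_mul, d.leibniz, smul_eq_mul, smul_eq_mul]
      exact I.add_mem (I.mul_mem_left _ h) (I.mul_mem_right _ (hI ▸ hx))
  have hdM : ∀ f ∈ q * I, d f ∈ q * I := fun f hf => by
    refine Submodule.mul_induction_on hf (fun a ha x hx => ?_) fun x y hx hy => ?_
    · rw [d.leibniz, smul_eq_mul, smul_eq_mul, mul_comm x]
      exact add_mem (Ideal.mul_mem_mul ha (hdI x hx)) (Ideal.mul_mem_mul (hd a ha) hx)
    · rw [map_add]
      exact add_mem hx hy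
  obtain ⟨ε, hε⟩ : ∃ ε, ε = s.a - 2 * s.e ^ 2 - s.eta * s.k := ⟨_, rfl⟩
  have he2 : s.e ^ 2 ∈ q := q.pow_mem_of_mem he _ two_pos
  have hεq : ε ∈ q := hε ▸ q.sub_mem (q.sub_mem ha (q.mul_mem_left _ he2)) (q.mul_mem_right _ hη)
  have hdl : d s.l = ε - s.l ^ 2 := by rw [hε, ← s.dl_add_sq]; ring
  have hdu : d u = 1 - u ^ 2 * ε := by
    have h := congrArg d hu
    rw [d.leibniz, smul_eq_mul, smul_eq_mul, d.map_one_eq_zero, hdl] at h
    linear_combination u * h + (s.l * u + 1 - d u) * hu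
  have hθ : ∀ (n : ℕ) f, u * d (u ^ (n + 1) * f) =
      u ^ (n + 2) * d f + (n + 1) * u ^ (n + 1) * (1 - u ^ 2 * ε) * f := fun n f => by
    rw [d.leibniz, d.leibniz_pow, hdu]
    simp only [smul_eq_mul, nsmul_eq_mul, Nat.add_sub_cancel]
    push_cast
    ring
  obtain ⟨κ, hκ⟩ : ∃ κ, κ = s.b ^ 2 * s.eta - (s.eta - s.k) * s.a + s.e ^ 2 * (s.eta - 2 * s.k) :=
    ⟨_, rfl⟩
  have hκq : κ ∈ q := hκ ▸ q.add_mem (q.sub_mem (q.mul_mem_left _ hη) (q.mul_mem_left _ ha))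
    (q.mul_mem_right _ he2)
  have mm : ∀ {a x : R} (c : R), a ∈ q → x ∈ I → c * (a * x) ∈ q * I := fun c ha hx =>
    Ideal.mul_mem_left _ c (Ideal.mul_mem_mul ha hx)
  have main := nak_mod (LinearMap.mulLeft ℂ u ∘ₗ (d : R →ₗ[ℂ] R)) ((q * I).restrictScalars ℂ)
    (fun x hx => Ideal.mul_mem_left _ u (hdM x hx)) N
    (fun m => u ^ (2 * m + 1 + 1) * s.ax (s.G m)) (fun m => u ^ (2 * m + 2 + 1) * s.ax (s.H m))
    (fun m => u ^ (2 * m + 1 + 1) * s.cx (s.G m)) (fun m => u ^ (2 * m + 2 + 1) * s.cx (s.H m))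
    (by simp only [cx, ax, hn.2.1, hn.2.2]; ring) (fun m hm => ?_) (fun m hm => ?_)
    (fun m hm => ?_) (fun m hm => ?_)
    (Ideal.mul_mem_left _ _ (s.nak_ax hGN).1) (Ideal.mul_mem_left _ _ (s.nak_ax hGN).2)
  · have h1 : s.eta ∈ q * I := by
      have h2 : s.eta = s.l * (u ^ (2 * 0 + 1 + 1) * s.ax (s.G 0)) := by
        simp only [ax, hn.2.1, hn.2.2, eta]
        linear_combination (-(s.l * u + 1) * s.G 0 3) * hu
      rw [h2]
      exact Ideal.mul_mem_left _ _ main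
    have h2 := s.family_mem (q * I) hdM fun i => by
      fin_cases i
      · exact hn.1 ▸ zero_mem _
      · exact hn.2.1 ▸ zero_mem _
      · exact hn.2.2 ▸ zero_mem _
      · exact h1
    have h3 : I = ⊥ := by
      refine Submodule.eq_bot_of_le_smul_of_le_jacobson_bot q I ?_ ?_ hq
      · rw [hI]
        exact Submodule.fg_span (Set.finite_range _)
      · refine hI.le.trans (Ideal.span_le.2 ?_)
        rintro _ ⟨⟨⟨m, hm⟩, i, c⟩, rfl⟩
        cases c
        · exact (h2 m hm i).1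
        · exact (h2 m hm i).2
    exact (Submodule.mem_bot R).1 (h3 ▸ hG 0 hN 3)
  · change u * d (u ^ (2 * m + 1 + 1) * _) - _ - _ ∈ q * I
    have h := add_mem (add_mem (mm (-(u ^ (2 * m + 3) * s.k)) he (hG m hm 0))
      (mm (-u ^ (2 * m + 3)) he2 (hG m hm 3)))
      (mm (-((2 * m + 2) * u ^ (2 * m + 4))) hεq (s.nak_ax (hG m hm)).1)
    refine (congrArg (· ∈ q * I) ?_).mpr h
    rw [hθ, s.d_axG hm, nsmul_eq_mul]
    push_cast
    linear_combination ((2 * m + 1) * u ^ (2 * m + 2) * s.ax (s.G m)) * hu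
  · change u * d (u ^ (2 * m + 2 + 1) * _) - _ - _ ∈ q * I
    have h := add_mem (add_mem (add_mem (mm (-(u ^ (2 * m + 4) * s.k)) he (hH m hm 0))
      (mm (-u ^ (2 * m + 4)) he2 (hH m hm 3))) (mm (-(u ^ (2 * m + 4) * s.b)) he2 (hG m hm 2)))
      (mm (-((2 * m + 3) * u ^ (2 * m + 5))) hεq (s.nak_ax (hH m hm)).1)
    refine (congrArg (· ∈ q * I) ?_).mpr h
    rw [hθ, s.d_axH hm, nsmul_eq_mul]
    push_cast
    linear_combination ((2 * m + 1) * u ^ (2 * m + 3) * s.ax (s.H m)) * hu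
  · change u * d (u ^ (2 * m + 1 + 1) * _) - _ - _ ∈ q * I
    have h := add_mem (add_mem (add_mem (add_mem (mm (2 * u ^ (2 * m + 4)) hκq (hG m hm 1))
      (mm (-(2 * u ^ (2 * m + 4) * s.b)) hεq (hG m hm 2)))
      (mm (u ^ (2 * m + 4) * s.l * s.k) he (hG m hm 0)))
      (mm (u ^ (2 * m + 4) * s.l) he2 (hG m hm 3)))
      (mm (-(2 * m * u ^ (2 * m + 4))) hεq (s.nak_ax (hG m hm)).2)
    refine (congrArg (· ∈ q * I) ?_).mpr h
    have e1 := s.d_cxG hm
    rw [← hε, ← hκ, hdl] at e1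
    rw [hθ, nsmul_eq_mul]
    push_cast
    linear_combination u ^ (2 * m + 4) * e1 - (u ^ (2 * m + 3) * (d (s.cx (s.G m)) - s.cx (s.H m)) -
      (2 * m - 1) * u ^ (2 * m + 2) * s.cx (s.G m) * (1 + u * s.l)) * hu
  · change u * d (u ^ (2 * m + 2 + 1) * _) - _ + _ - _ ∈ q * I
    have h := add_mem (add_mem (add_mem (add_mem (add_mem (add_mem (add_mem
      (mm (2 * u ^ (2 * m + 5)) hκq (hH m hm 1))
      (mm (-(2 * u ^ (2 * m + 5) * s.b)) hεq (hH m hm 2)))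
      (mm (u ^ (2 * m + 5) * s.l * s.k) he (hH m hm 0)))
      (mm (u ^ (2 * m + 5) * s.l) he2 (hH m hm 3)))
      (mm (2 * u ^ (2 * m + 5) * s.l ^ 2) (q.sub_mem ha he2) (hG m hm 3)))
      (mm (-(2 * u ^ (2 * m + 5) * s.l ^ 2 * s.k)) he (hG m hm 0)))
      (mm (u ^ (2 * m + 5) * s.l * s.b) he2 (hG m hm 2)))
      (mm (-((2 * m + 1) * u ^ (2 * m + 5))) hεq (s.nak_ax (hH m hm)).2)
    refine (congrArg (· ∈ q * I) ?_).mpr h
    have e1 := s.d_cxH hm
    rw [← hε, ← hκ, hdl] at e1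
    rw [hθ, nsmul_eq_mul, nsmul_eq_mul]
    push_cast
    linear_combination u ^ (2 * m + 5) * e1 -
      (u ^ (2 * m + 4) * (d (s.cx (s.H m)) - s.cx (s.G (m + 1))) -
      (2 * m - 1) * u ^ (2 * m + 3) * s.cx (s.H m) * (1 + u * s.l) +
      2 * u ^ (2 * m + 2) * s.ax (s.G m) * (1 + u * s.l + u ^ 2 * s.l ^ 2)) * hu

theorem enneper {R : Type} [CommRing R] [IsDomain R] [Algebra ℂ R] {d : Derivation ℂ R R}
    {N : ℕ} {r : ℕ → ℂ} (s : Sys d N r) (hN : 0 < N) (hn : s.Nrm) (q : Ideal R)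
    (hq : q.IsPrime) (hd : ∀ f ∈ q, d f ∈ q) (he : s.e ∈ q) (ha : s.a ∈ q) (hη : s.eta ∈ q)
    (hl : s.l ∉ q) : s.eta = 0 := by
  obtain ⟨d', hd'⟩ := exists_loc_deriv (S := Localization.AtPrime q) q.primeCompl d
  let s' := s.map (IsScalarTower.toAlgHom ℂ R (Localization.AtPrime q)) d' hd'
  have hm : ∀ f, algebraMap R (Localization.AtPrime q) f ∈
      IsLocalRing.maximalIdeal (Localization.AtPrime q) ↔ f ∈ q := fun f =>
    IsLocalization.AtPrime.to_map_mem_maximal_iff _ q f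
  obtain ⟨u, hu⟩ := (IsLocalization.map_units (Localization.AtPrime q)
    (⟨s.l, hl⟩ : q.primeCompl)).exists_right_inv
  have h0 : ∀ i, s'.G 0 i = algebraMap R _ (s.G 0 i) := fun _ => rfl
  have key := s'.nak_loc hN ⟨by rw [h0, hn.1, map_zero], by rw [h0, hn.2.1, map_zero],
    by rw [h0, hn.2.2, map_zero]⟩ (IsLocalRing.maximalIdeal _)
    (IsLocalRing.jacobson_eq_maximalIdeal ⊥ bot_ne_top).ge (fun f hf => ?_) ((hm _).2 he) ?_
    ((hm _).2 hη) u hu
  · exact IsLocalization.injective (Localization.AtPrime q) q.primeCompl_le_nonZeroDivisors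
      (key.trans (map_zero _).symm)
  · obtain ⟨⟨x, t⟩, e⟩ := IsLocalization.surj q.primeCompl f
    have hx : x ∈ q := (hm x).1 (e ▸ Ideal.mul_mem_right _ _ hf)
    have e1 := congrArg d' e
    rw [d'.leibniz, hd' x, smul_eq_mul, smul_eq_mul] at e1
    rw [← Ideal.unit_mul_mem_iff_mem _ (IsLocalization.map_units _ t), eq_sub_of_add_eq' e1]
    exact sub_mem ((hm _).2 (hd x hx)) (Ideal.mul_mem_right _ _ hf)
  · have : s'.a = algebraMap R _ s.a := by simp [a, s', map]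
    rw [this]
    exact (hm _).2 ha

end Sys

end Pool.Agent.Lib.MP_51f413_gt
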