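import Mathlib

/-!
The polynomial differential system satisfied by the invariants of a finite type surface in the
three-sphere that is tangent to a Killing field.
-/

namespace Pool.Agent.Lib.MP_51f413_gt

open Finset

/-- Connection matrix of the moving frame. -/
def Om {R : Type} [CommRing R] (e b k1 : R) (F : Fin 4 → R) : Fin 4 → R :=
  ![-(e * F 1), e * F 0 - k1 * F 3, -(b * F 3), k1 * F 1 + b * F 2]

/-- The Killing field in the moving frame. -/
def Xm {R : Type} [CommRing R] (e l b k : R) (F : Fin 4 → R) : Fin 4 → R :=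
  ![-(e * F 2), -(l * F 2) - b * F 3, e * F 0 + l * F 1 - k * F 3, b * F 1 + k * F 2]

/-- The differential system. -/
structure Sys {R : Type} [CommRing R] [Algebra ℂ R] (d : Derivation ℂ R R) (N : ℕ)
    (r : ℕ → ℂ) where
  e : R
  l : R
  b : R
  k : R
  G : ℕ → Fin 4 → R
  H : ℕ → Fin 4 → R
  de : d e = l * e
  dl : d l = -e ^ 2 - (G 0 3 - k) * k + b ^ 2
  db : d b = -(l * b)
  dk : d k = (G 0 3 - k) * l
  dG : ∀ m < N, ∀ i, d (G m i) = H m i + (2 * m + 1) * l * G m i - Om e b (G 0 3 - k) (G m) i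
  dH : ∀ m < N, ∀ i, d (H m i) = G (m + 1) i - Xm e l b k (Xm e l b k (G m)) i +
    (2 * m + 1) * l * H m i - Om e b (G 0 3 - k) (H m) i
  top : ∀ i, G N i = -∑ j ∈ range N, algebraMap ℂ R (r j) * e ^ (2 * (N - j)) * G j i

namespace Sys

variable {R : Type} [CommRing R] [Algebra ℂ R] {d : Derivation ℂ R R} {N : ℕ} {r : ℕ → ℂ}

/-- The first vector is normal to the surface. -/
def Nrm (s : Sys d N r) : Prop := s.G 0 0 = 0 ∧ s.G 0 1 = 0 ∧ s.G 0 2 = 0

/-- Normalised mean curvature. -/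
def eta (s : Sys d N r) : R := s.G 0 3

/-- The squared norm of the Killing matrix. -/
def a (s : Sys d N r) : R := s.e ^ 2 + s.l ^ 2 + s.b ^ 2 + s.k ^ 2

/-- Pairing with the axis vector. -/
def ax (s : Sys d N r) (F : Fin 4 → R) : R := s.k * F 1 - s.b * F 2 + s.l * F 3

/-- Pairing with the dual null vector, times `2 * l ^ 2`. -/
def cx (s : Sys d N r) (F : Fin 4 → R) : R := 2 * s.l * F 3 - s.ax F

/-- Transport of a solution along a homomorphism of differential rings. -/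
def map {R' : Type} [CommRing R'] [Algebra ℂ R'] (s : Sys d N r) (φ : R →ₐ[ℂ] R')
    (d' : Derivation ℂ R' R') (h : ∀ f, d' (φ f) = φ (d f)) : Sys d' N r where
  e := φ s.e
  l := φ s.l
  b := φ s.b
  k := φ s.k
  G := fun m i => φ (s.G m i)
  H := fun m i => φ (s.H m i)
  de := by rw [h, s.de]; simp
  dl := by rw [h, s.dl]; simp
  db := by rw [h, s.db]; simp
  dk := by rw [h, s.dk]; simp
  dG := by
    intro m hm i
    rw [h, s.dG m hm i]
    fin_cases i <;> simp [Om, map_ofNat]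
  dH := by
    intro m hm i
    rw [h, s.dH m hm i]
    fin_cases i <;> simp [Om, Xm, map_ofNat]
  top := by
    intro i
    rw [s.top i]
    simp

theorem d_a (s : Sys d N r) : d s.a = 0 := by
  simp only [a, map_add, Derivation.leibniz_pow, s.de, s.dl, s.db, s.dk, smul_eq_mul,
    nsmul_eq_mul]
  push_cast
  ring

theorem d_axG (s : Sys d N r) {m : ℕ} (hm : m < N) :
    d (s.ax (s.G m)) = s.ax (s.H m) + (2 * m + 1) * s.l * s.ax (s.G m) -
      s.e * (s.k * s.G m 0 + s.e * s.G m 3) := by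
  simp only [ax, map_add, map_sub, Derivation.leibniz, s.dl, s.db, s.dk, s.dG m hm, smul_eq_mul,
    Om]
  simp
  ring

theorem d_axH (s : Sys d N r) {m : ℕ} (hm : m < N) :
    d (s.ax (s.H m)) = s.ax (s.G (m + 1)) + (2 * m + 1) * s.l * s.ax (s.H m) -
      s.e * (s.k * s.H m 0 + s.e * s.H m 3 + s.e * s.b * s.G m 2) := by
  simp only [ax, map_add, map_sub, Derivation.leibniz, s.dl, s.db, s.dk, s.dH m hm, smul_eq_mul,
    Om, Xm]
  simp
  ring

theorem d_cxG (s : Sys d N r) {m : ℕ} (hm : m < N) :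
    s.l * d (s.cx (s.G m)) = s.l * s.cx (s.H m) + (2 * m + 1) * s.l ^ 2 * s.cx (s.G m) +
      2 * d s.l * s.cx (s.G m) +
      (2 * s.G m 1 * (s.b ^ 2 * s.eta - (s.eta - s.k) * s.a + s.e ^ 2 * (s.eta - 2 * s.k)) -
        2 * s.b * s.G m 2 * (s.a - 2 * s.e ^ 2 - s.eta * s.k) +
        s.l * s.e * (s.k * s.G m 0 + s.e * s.G m 3)) := by
  have h2 : d (2 : R) = 0 := by simpa using d.map_natCast 2
  simp only [cx, ax, a, eta, map_add, map_sub, Derivation.leibniz, s.dl, s.db, s.dk, s.dG m hm,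
    smul_eq_mul, Om, h2]
  simp
  ring

theorem d_cxH (s : Sys d N r) {m : ℕ} (hm : m < N) :
    s.l * d (s.cx (s.H m)) = s.l * s.cx (s.G (m + 1)) - 2 * s.l ^ 3 * s.ax (s.G m) +
      (2 * m + 1) * s.l ^ 2 * s.cx (s.H m) + 2 * d s.l * s.cx (s.H m) +
      (2 * s.H m 1 * (s.b ^ 2 * s.eta - (s.eta - s.k) * s.a + s.e ^ 2 * (s.eta - 2 * s.k)) -
        2 * s.b * s.H m 2 * (s.a - 2 * s.e ^ 2 - s.eta * s.k) +
        s.l * s.e * (s.k * s.H m 0 + s.e * s.H m 3) +
        2 * s.l ^ 2 * ((s.a - s.e ^ 2) * s.G m 3 - s.e * s.k * s.G m 0) +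
        s.l * s.e ^ 2 * s.b * s.G m 2) := by
  have h2 : d (2 : R) = 0 := by simpa using d.map_natCast 2
  simp only [cx, ax, a, eta, map_add, map_sub, Derivation.leibniz, s.dl, s.db, s.dk, s.dH m hm,
    smul_eq_mul, Om, Xm, h2]
  simp
  ring

theorem dl_add_sq (s : Sys d N r) : d s.l + s.l ^ 2 = s.a - 2 * s.e ^ 2 - s.eta * s.k := by
  rw [s.dl]
  simp only [a, eta]
  ring

/-- If the mean curvature lies in a stable ideal, so does the whole family. -/
theorem family_mem (s : Sys d N r) (J : Ideal R) (hJ : ∀ f ∈ J, d f ∈ J)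
    (h0 : ∀ i, s.G 0 i ∈ J) : ∀ m < N, ∀ i, s.G m i ∈ J ∧ s.H m i ∈ J := by
  have hOm : ∀ (F : Fin 4 → R), (∀ i, F i ∈ J) → ∀ e b k1 i, Om e b k1 F i ∈ J := by
    intro F hF e b k1 i
    fin_cases i <;> simp only [Om] <;> simp <;>
      first
        | exact J.mul_mem_left _ (hF _)
        | exact J.sub_mem (J.mul_mem_left _ (hF _)) (J.mul_mem_left _ (hF _))
        | exact J.add_mem (J.mul_mem_left _ (hF _)) (J.mul_mem_left _ (hF _))
  have hXm : ∀ (F : Fin 4 → R), (∀ i, F i ∈ J) → ∀ e l b k i, Xm e l b k F i ∈ J := by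
    intro F hF e l b k i
    fin_cases i <;> simp only [Xm] <;> simp <;>
      first
        | exact J.mul_mem_left _ (hF _)
        | exact J.sub_mem (J.neg_mem (J.mul_mem_left _ (hF _))) (J.mul_mem_left _ (hF _))
        | exact J.add_mem (J.mul_mem_left _ (hF _)) (J.mul_mem_left _ (hF _))
        | exact J.sub_mem (J.add_mem (J.mul_mem_left _ (hF _)) (J.mul_mem_left _ (hF _)))
            (J.mul_mem_left _ (hF _))
  have hH : ∀ m < N, (∀ i, s.G m i ∈ J) → ∀ i, s.H m i ∈ J := by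
    intro m hm hG i
    have e1 : s.H m i = d (s.G m i) - (2 * m + 1) * s.l * s.G m i +
        Om s.e s.b (s.G 0 3 - s.k) (s.G m) i := by rw [s.dG m hm i]; ring
    rw [e1]
    exact J.add_mem (J.sub_mem (hJ _ (hG i)) (J.mul_mem_left _ (hG i))) (hOm _ hG _ _ _ _)
  have hG : ∀ m, m < N → ∀ i, s.G m i ∈ J := by
    intro m
    induction m with
    | zero => intro _; exact h0
    | succ m ih =>
      intro hm i
      have hm' : m < N := by omega
      have g := ih hm'
      have h := hH m hm' g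
      have e1 : s.G (m + 1) i = d (s.H m i) + Xm s.e s.l s.b s.k (Xm s.e s.l s.b s.k (s.G m)) i -
          (2 * m + 1) * s.l * s.H m i + Om s.e s.b (s.G 0 3 - s.k) (s.H m) i := by
        rw [s.dH m hm' i]; ring
      rw [e1]
      exact J.add_mem (J.sub_mem (J.add_mem (hJ _ (h i)) (hXm _ (hXm _ g _ _ _ _) _ _ _ _ _))
        (J.mul_mem_left _ (h i))) (hOm _ h _ _ _ _)
  intro m hm i
  exact ⟨hG m hm i, hH m hm (hG m hm) i⟩

end Sys

/-- Index set of the generators. -/
abbrev Ix (N : ℕ) : Type := Fin 4 ⊕ (Fin N × Fin 4 × Bool)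

/-- The generators of a solution. -/
def Sys.gen {R : Type} [CommRing R] [Algebra ℂ R] {d : Derivation ℂ R R} {N : ℕ} {r : ℕ → ℂ}
    (s : Sys d N r) : Ix N → R
  | Sum.inl i => ![s.e, s.l, s.b, s.k] i
  | Sum.inr (m, i, false) => s.G m i
  | Sum.inr (m, i, true) => s.H m i

/-- The weights of the generators. -/
def wt (N : ℕ) : Ix N → ℕ
  | Sum.inl _ => 1
  | Sum.inr (m, _, false) => 2 * m + 1
  | Sum.inr (m, _, true) => 2 * m + 2

end Pool.Agent.Lib.MP_51f413_gt
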