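import Pool.Agent.Lib.MP_51f413_gt.Wt
import Pool.Agent.Lib.MP_51f413_gt.Sys

/-!
The universal solution of the differential system.
-/

namespace Pool.Agent.Lib.MP_51f413_gt

open MvPolynomial Finset

/-- The polynomial ring on the generators. -/
abbrev PP (N : ℕ) : Type := MvPolynomial (Ix N) ℂ

variable (N : ℕ) (r : ℕ → ℂ)

/-- The variables of the first kind. -/
noncomputable def uG0 (m : ℕ) (i : Fin 4) : PP N :=
  if h : m < N then X (Sum.inr (⟨m, h⟩, i, false)) else 0

/-- The variables of the second kind. -/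
noncomputable def uH (m : ℕ) (i : Fin 4) : PP N :=
  if h : m < N then X (Sum.inr (⟨m, h⟩, i, true)) else 0

/-- The variables of the first kind, closed up at the top. -/
noncomputable def uG (m : ℕ) (i : Fin 4) : PP N :=
  if m < N then uG0 N m i
  else -∑ j ∈ range N, algebraMap ℂ (PP N) (r j) * X (Sum.inl 0) ^ (2 * (N - j)) * uG0 N j i

/-- The value of the derivation on the variables. -/
noncomputable def uF : Ix N → PP N
  | Sum.inl i => ![X (Sum.inl 1) * X (Sum.inl 0),
      -X (Sum.inl 0) ^ 2 - (uG N r 0 3 - X (Sum.inl 3)) * X (Sum.inl 3) + X (Sum.inl 2) ^ 2,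
      -(X (Sum.inl 1) * X (Sum.inl 2)), (uG N r 0 3 - X (Sum.inl 3)) * X (Sum.inl 1)] i
  | Sum.inr (m, i, false) => uH N m i + (2 * ((m : ℕ) : PP N) + 1) * X (Sum.inl 1) * uG N r m i -
      Om (X (Sum.inl 0)) (X (Sum.inl 2)) (uG N r 0 3 - X (Sum.inl 3)) (uG N r m) i
  | Sum.inr (m, i, true) => uG N r (m + 1) i -
      Xm (X (Sum.inl 0)) (X (Sum.inl 1)) (X (Sum.inl 2)) (X (Sum.inl 3))
        (Xm (X (Sum.inl 0)) (X (Sum.inl 1)) (X (Sum.inl 2)) (X (Sum.inl 3)) (uG N r m)) i +
      (2 * ((m : ℕ) : PP N) + 1) * X (Sum.inl 1) * uH N m i -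
      Om (X (Sum.inl 0)) (X (Sum.inl 2)) (uG N r 0 3 - X (Sum.inl 3)) (uH N m) i

/-- The universal derivation. -/
noncomputable def uD : Derivation ℂ (PP N) (PP N) := mkDerivation ℂ (uF N r)

theorem uG_lt {m : ℕ} (h : m < N) (i : Fin 4) :
    uG N r m i = X (Sum.inr (⟨m, h⟩, i, false)) := by
  simp [uG, uG0, h]

theorem uH_lt {m : ℕ} (h : m < N) (i : Fin 4) : uH N m i = X (Sum.inr (⟨m, h⟩, i, true)) := by
  simp [uH, h]

/-- The universal solution. -/
noncomputable def uS : Sys (uD N r) N r where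
  e := X (Sum.inl 0)
  l := X (Sum.inl 1)
  b := X (Sum.inl 2)
  k := X (Sum.inl 3)
  G := uG N r
  H := uH N
  de := by simp [uD, mkDerivation_X, uF]
  dl := by simp [uD, mkDerivation_X, uF]
  db := by simp [uD, mkDerivation_X, uF]
  dk := by simp [uD, mkDerivation_X, uF]
  dG := by
    intro m hm i
    conv_lhs => rw [uG_lt N r hm]
    simp only [uD, mkDerivation_X, uF]
  dH := by
    intro m hm i
    conv_lhs => rw [uH_lt N hm]
    simp only [uD, mkDerivation_X, uF]
  top := by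
    intro i
    simp only [uG, lt_irrefl, if_false]
    congr 1
    refine Finset.sum_congr rfl fun j hj => ?_
    rw [if_pos (mem_range.1 hj)]

theorem uS_gen (i : Ix N) : (uS N r).gen i = X i := by
  rcases i with i | ⟨m, i, _ | _⟩
  · fin_cases i <;> rfl
  · exact uG_lt N r m.2 i
  · exact uH_lt N m.2 i

theorem wt_pos (i : Ix N) : 0 < wt N i := by
  rcases i with i | ⟨m, i, _ | _⟩ <;> simp [wt]

theorem hom_e : Hom (wt N) 1 (uS N r).e := Hom.X (w := wt N) (Sum.inl 0)
theorem hom_l : Hom (wt N) 1 (uS N r).l := Hom.X (w := wt N) (Sum.inl 1)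
theorem hom_b : Hom (wt N) 1 (uS N r).b := Hom.X (w := wt N) (Sum.inl 2)
theorem hom_k : Hom (wt N) 1 (uS N r).k := Hom.X (w := wt N) (Sum.inl 3)

theorem hom_H (m : ℕ) (i : Fin 4) : Hom (wt N) (2 * m + 2) ((uS N r).H m i) := by
  change Hom (wt N) (2 * m + 2) (uH N m i)
  unfold uH
  split_ifs with h
  · exact Hom.X (w := wt N) (Sum.inr (⟨m, h⟩, i, true))
  · exact Hom.zero _

theorem hom_G {m : ℕ} (hm : m ≤ N) (i : Fin 4) : Hom (wt N) (2 * m + 1) ((uS N r).G m i) := by
  have h0 : ∀ j < N, Hom (wt N) (2 * j + 1) ((uS N r).G j i) := by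
    intro j hj
    change Hom (wt N) (2 * j + 1) (uG N r j i)
    rw [uG_lt N r hj]
    exact Hom.X (w := wt N) (Sum.inr (⟨j, hj⟩, i, false))
  rcases hm.lt_or_eq with h | h
  · exact h0 m h
  · subst h
    rw [(uS m r).top i]
    refine Hom.neg (Hom.sum _ _ fun j hj => ?_)
    have hj' := mem_range.1 hj
    exact (((Hom.const (r j)).mul ((hom_e m r).pow (2 * (m - j)))).mul (h0 j hj')).of_eq
      (by omega)

theorem hom_eta : Hom (wt N) 1 (uS N r).eta := hom_G N r (Nat.zero_le N) 3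

theorem hom_Om {F : Fin 4 → PP N} {j : ℕ} (hF : ∀ i, Hom (wt N) j (F i)) {e b k1 : PP N}
    (he : Hom (wt N) 1 e) (hb : Hom (wt N) 1 b) (hk : Hom (wt N) 1 k1) (i : Fin 4) :
    Hom (wt N) (1 + j) (Om e b k1 F i) := by
  fin_cases i
  · exact (he.mul (hF 1)).neg
  · exact (he.mul (hF 0)).sub (hk.mul (hF 3))
  · exact (hb.mul (hF 3)).neg
  · exact (hk.mul (hF 1)).add (hb.mul (hF 2))

theorem hom_Xm {F : Fin 4 → PP N} {j : ℕ} (hF : ∀ i, Hom (wt N) j (F i)) {e l b k : PP N}
    (he : Hom (wt N) 1 e) (hl : Hom (wt N) 1 l) (hb : Hom (wt N) 1 b) (hk : Hom (wt N) 1 k)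
    (i : Fin 4) : Hom (wt N) (1 + j) (Xm e l b k F i) := by
  fin_cases i
  · exact (he.mul (hF 2)).neg
  · exact (hl.mul (hF 2)).neg.sub (hb.mul (hF 3))
  · exact ((he.mul (hF 0)).add (hl.mul (hF 1))).sub (hk.mul (hF 3))
  · exact (hb.mul (hF 1)).add (hk.mul (hF 2))

theorem hom_odd (m : ℕ) : Hom (wt N) 0 (2 * (m : PP N) + 1) := by
  have := Hom.natCast (w := wt N) (2 * m + 1)
  simpa using this

theorem hom_uD (i : Ix N) : Hom (wt N) (wt N i + 1) (uD N r (X i)) := by
  have he := hom_e N r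
  have hl := hom_l N r
  have hb := hom_b N r
  have hk := hom_k N r
  have hk1 : Hom (wt N) 1 ((uS N r).G 0 3 - (uS N r).k) := (hom_eta N r).sub hk
  rw [← uS_gen N r i]
  rcases i with i | ⟨m, i, _ | _⟩
  · fin_cases i
    · change Hom (wt N) 2 (uD N r (uS N r).e)
      rw [(uS N r).de]
      exact hl.mul he
    · change Hom (wt N) 2 (uD N r (uS N r).l)
      rw [(uS N r).dl]
      exact ((he.pow 2).neg.sub (hk1.mul hk)).add (hb.pow 2)
    · change Hom (wt N) 2 (uD N r (uS N r).b)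
      rw [(uS N r).db]
      exact (hl.mul hb).neg
    · change Hom (wt N) 2 (uD N r (uS N r).k)
      rw [(uS N r).dk]
      exact hk1.mul hl
  · change Hom (wt N) (2 * m + 1 + 1) (uD N r ((uS N r).G m i))
    rw [(uS N r).dG m m.2]
    have hG := fun i => hom_G N r m.2.le i
    exact ((hom_H N r m i).add ((((hom_odd N m).mul hl).mul (hG i)).of_eq (by omega))).sub
      ((hom_Om N hG he hb hk1 i).of_eq (by omega))
  · change Hom (wt N) (2 * m + 2 + 1) (uD N r ((uS N r).H m i))
    rw [(uS N r).dH m m.2]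
    have hG := fun i => hom_G N r m.2.le i
    have hH := fun i => hom_H N r m i
    exact ((((hom_G N r (Nat.succ_le_of_lt m.2) i).of_eq (by omega)).sub
      ((hom_Xm N (hom_Xm N hG he hl hb hk) he hl hb hk i).of_eq (by omega))).add
      ((((hom_odd N m).mul hl).mul (hH i)).of_eq (by omega))).sub
      ((hom_Om N hH he hb hk1 i).of_eq (by omega))

theorem hom_a : Hom (wt N) 2 (uS N r).a :=
  ((((hom_e N r).pow 2).add ((hom_l N r).pow 2)).add ((hom_b N r).pow 2)).add ((hom_k N r).pow 2)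

theorem hom_ax {F : Fin 4 → PP N} {j : ℕ} (hF : ∀ i, Hom (wt N) j (F i)) :
    Hom (wt N) (1 + j) ((uS N r).ax F) :=
  (((hom_k N r).mul (hF 1)).sub ((hom_b N r).mul (hF 2))).add ((hom_l N r).mul (hF 3))

section Eval

variable {N r} {R : Type} [CommRing R] [Algebra ℂ R] {d : Derivation ℂ R R} (s : Sys d N r)

theorem ev_e : aeval s.gen (uS N r).e = s.e := aeval_X _ _
theorem ev_l : aeval s.gen (uS N r).l = s.l := aeval_X _ _
theorem ev_b : aeval s.gen (uS N r).b = s.b := aeval_X _ _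
theorem ev_k : aeval s.gen (uS N r).k = s.k := aeval_X _ _

theorem ev_H {m : ℕ} (hm : m < N) (i : Fin 4) : aeval s.gen ((uS N r).H m i) = s.H m i := by
  change aeval s.gen (uH N m i) = _
  rw [uH_lt N hm, aeval_X]
  rfl

theorem ev_G {m : ℕ} (hm : m ≤ N) (i : Fin 4) : aeval s.gen ((uS N r).G m i) = s.G m i := by
  have h0 : ∀ j < N, aeval s.gen ((uS N r).G j i) = s.G j i := by
    intro j hj
    change aeval s.gen (uG N r j i) = _
    rw [uG_lt N r hj, aeval_X]
    rfl
  rcases hm.lt_or_eq with h | h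
  · exact h0 m h
  · subst h
    rw [(uS m r).top i, s.top i, map_neg, map_sum]
    congr 1
    refine Finset.sum_congr rfl fun j hj => ?_
    rw [map_mul, map_mul, map_pow, ev_e, h0 j (mem_range.1 hj), AlgHom.commutes]

theorem ev_eta : aeval s.gen (uS N r).eta = s.eta := ev_G s (Nat.zero_le N) 3

theorem ev_a : aeval s.gen (uS N r).a = s.a := by
  simp only [Sys.a, map_add, map_pow, ev_e, ev_l, ev_b, ev_k]

theorem ev_X (i : Ix N) : aeval s.gen (uD N r (X i)) = d (s.gen i) := by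
  rw [← uS_gen N r i]
  have h0 := ev_G s (Nat.zero_le N) 3
  rcases i with i | ⟨m, i, _ | _⟩
  · fin_cases i
    · change aeval s.gen (uD N r (uS N r).e) = d s.e
      rw [(uS N r).de, s.de]
      simp only [map_mul, ev_e, ev_l]
    · change aeval s.gen (uD N r (uS N r).l) = d s.l
      rw [(uS N r).dl, s.dl]
      simp only [map_mul, map_add, map_sub, map_neg, map_pow, ev_e, ev_b, ev_k, h0]
    · change aeval s.gen (uD N r (uS N r).b) = d s.b
      rw [(uS N r).db, s.db]
      simp only [map_mul, map_neg, ev_b, ev_l]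
    · change aeval s.gen (uD N r (uS N r).k) = d s.k
      rw [(uS N r).dk, s.dk]
      simp only [map_mul, map_sub, ev_k, ev_l, h0]
  · change aeval s.gen (uD N r ((uS N r).G m i)) = d (s.G m i)
    rw [(uS N r).dG m m.2, s.dG m m.2]
    have hG := fun i => ev_G s m.2.le i
    have hH := fun i => ev_H s m.2 i
    fin_cases i <;>
      simp [Om, map_ofNat, ev_e, ev_l, ev_b, ev_k, h0, hG, hH]
  · change aeval s.gen (uD N r ((uS N r).H m i)) = d (s.H m i)
    rw [(uS N r).dH m m.2, s.dH m m.2]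
    have hG := fun i => ev_G s m.2.le i
    have hG' := fun i => ev_G s (Nat.succ_le_of_lt m.2) i
    have hH := fun i => ev_H s m.2 i
    fin_cases i <;>
      simp [Om, Xm, map_ofNat, ev_e, ev_l, ev_b, ev_k, h0, hG, hG', hH]

theorem ev_D (f : PP N) : aeval s.gen (uD N r f) = d (aeval s.gen f) := by
  induction f using MvPolynomial.induction_on with
  | C c => simp [← algebraMap_eq]
  | add f g hf hg => simp [hf, hg]
  | mul_X f i hf => simp [hf, ev_X]

end Eval

end Pool.Agent.Lib.MP_51f413_gt
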