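import Pool.Agent.Lib.MP_51f413_gt.Centre
import Pool.Agent.Lib.MP_51f413_gt.Univ
import Pool.Agent.Lib.MP_51f413_gt.Cyl
import Pool.Agent.Lib.MP_51f413_gt.End
import Pool.Agent.Lib.MP_51f413_gt.Nak
import Pool.Agent.Lib.MP_51f413_gt.Bad

/-!
The algebraic classification theorem.
-/

namespace Pool.Agent.Lib.MP_51f413_gt

open MvPolynomial

section Frac

variable {P : Type} [CommRing P] [Algebra ℂ P] (q : Ideal P) [q.IsPrime]

/-- The map to the residue field of a prime. -/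
noncomputable def toF : P →ₐ[ℂ] FractionRing (P ⧸ q) :=
  (IsScalarTower.toAlgHom ℂ (P ⧸ q) (FractionRing (P ⧸ q))).comp (Ideal.Quotient.mkₐ ℂ q)

theorem toF_eq_zero (f : P) : toF q f = 0 ↔ f ∈ q := by
  change algebraMap (P ⧸ q) (FractionRing (P ⧸ q)) (Ideal.Quotient.mk q f) = 0 ↔ _
  rw [map_eq_zero_iff _ (IsFractionRing.injective _ _), Ideal.Quotient.eq_zero_iff_mem]

theorem exists_toF_deriv (D : Derivation ℂ P P) (hq : ∀ f ∈ q, D f ∈ q) :
    ∃ d' : Derivation ℂ (FractionRing (P ⧸ q)) (FractionRing (P ⧸ q)),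
      ∀ f, d' (toF q f) = toF q (D f) := by
  obtain ⟨d1, h1⟩ := exists_quot_deriv D q hq
  obtain ⟨d2, h2⟩ := exists_loc_deriv (S := FractionRing (P ⧸ q)) (nonZeroDivisors (P ⧸ q)) d1
  refine ⟨d2, fun f => ?_⟩
  change d2 (algebraMap _ _ (Ideal.Quotient.mk q f)) = algebraMap _ _ (Ideal.Quotient.mk q (D f))
  rw [h2, h1]

end Frac

variable {N : ℕ} {r : ℕ → ℂ}

/-- The first vector is normal modulo the ideal. -/
def NrmMod (N : ℕ) (r : ℕ → ℂ) (q : Ideal (PP N)) : Prop :=
  (uS N r).G 0 0 ∈ q ∧ (uS N r).G 0 1 ∈ q ∧ (uS N r).G 0 2 ∈ q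

theorem NrmMod.mono {p q : Ideal (PP N)} (h : NrmMod N r p) (hpq : p ≤ q) : NrmMod N r q :=
  ⟨hpq h.1, hpq h.2.1, hpq h.2.2⟩

theorem fam_mem {q : Ideal (PP N)} (hs : ∀ f ∈ q, uD N r f ∈ q) (hn : NrmMod N r q)
    (hη : (uS N r).eta ∈ q) (m : Fin N) (i : Fin 4) (t : Bool) :
    X (Sum.inr (m, i, t)) ∈ q := by
  have h := (uS N r).family_mem q hs (by
    intro i
    fin_cases i
    exacts [hn.1, hn.2.1, hn.2.2, hη]) m m.2 i
  rw [← uS_gen N r]
  cases t
  exacts [h.1, h.2]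

theorem all_mem {q : Ideal (PP N)} (hs : ∀ f ∈ q, uD N r f ∈ q) (hn : NrmMod N r q)
    (hη : (uS N r).eta ∈ q) (he : (uS N r).e ∈ q) (hl : (uS N r).l ∈ q) (hb : (uS N r).b ∈ q)
    (hk : (uS N r).k ∈ q) (i : Ix N) : X i ∈ q := by
  rcases i with i | ⟨m, i, t⟩
  · fin_cases i
    exacts [he, hl, hb, hk]
  · exact fam_mem hs hn hη m i t

/-- Good degenerations. -/
structure Good (N : ℕ) (r : ℕ → ℂ) (p q : Ideal (PP N)) : Prop where
  hd : HD (wt N) (uD N r) q
  le : p ≤ q
  he : (uS N r).e ∈ q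
  nt : (uS N r).eta ∉ q ∨ (uS N r).k ^ 2 + (uS N r).b ^ 2 ∉ q

theorem good_step {p q : Ideal (PP N)} (hn : NrmMod N r p) (hq : Good N r p q)
    (hmax : ∀ q', Good N r p q' → ¬ q < q') {j : ℕ} (hj : 0 < j) {π g : PP N}
    (hπ : Hom (wt N) j π) (hg : uD N r π - g * π ∈ q) (hπq : π ∉ q)
    (hb : (uS N r).b ∈ q ∨ π = (uS N r).b) (ha : (uS N r).a ∈ q ∨ π = (uS N r).a) (i : Ix N) :
    (j : PP N) * uD N r ((uS N r).gen i) - (wt N i : PP N) * g * (uS N r).gen i ∈ q := by
  rcases dichotomy (wt_pos N) hq.hd hj hπ hg hπq with ⟨q', hq', hle, hπ', i0, hi0⟩ | h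
  · exfalso
    refine hmax q' ⟨hq', hq.le.trans hle, hle hq.he, ?_⟩
      (lt_of_le_of_ne hle fun e => hπq (e ▸ hπ'))
    by_contra hcon
    push Not at hcon
    obtain ⟨hη, hkb⟩ := hcon
    have hb' : (uS N r).b ∈ q' := hb.elim (fun h => hle h) (fun h => h ▸ hπ')
    have ha' : (uS N r).a ∈ q' := ha.elim (fun h => hle h) (fun h => h ▸ hπ')
    have he' := hle hq.he
    have hk' : (uS N r).k ∈ q' := by
      refine hq'.prime.mem_of_pow_mem 2 ?_
      have := q'.sub_mem hkb (q'.pow_mem_of_mem hb' 2 two_pos)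
      simpa using this
    have hl' : (uS N r).l ∈ q' := by
      refine hq'.prime.mem_of_pow_mem 2 ?_
      have := q'.sub_mem (q'.sub_mem ha' hkb) (q'.pow_mem_of_mem he' 2 two_pos)
      convert this using 1
      simp only [Sys.a]
      ring
    exact hi0 (all_mem hq'.stab (hn.mono (hq.le.trans hle)) hη he' hl' hb' hk' i0)
  · rw [uS_gen]
    exact h i

/-- The solution over the residue field of a stable prime. -/
theorem exists_res (q : Ideal (PP N)) [q.IsPrime] (hs : ∀ f ∈ q, uD N r f ∈ q) :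
    ∃ (d : Derivation ℂ (FractionRing (PP N ⧸ q)) (FractionRing (PP N ⧸ q))) (s : Sys d N r),
      (∀ f, d (toF q f) = toF q (uD N r f)) ∧ s.e = toF q (uS N r).e ∧ s.l = toF q (uS N r).l ∧
      s.b = toF q (uS N r).b ∧ s.k = toF q (uS N r).k ∧
      (∀ m i, s.G m i = toF q ((uS N r).G m i)) ∧ (∀ m i, s.H m i = toF q ((uS N r).H m i)) ∧
      s.eta = toF q (uS N r).eta ∧ s.a = toF q (uS N r).a ∧
      ∀ i, s.gen i = toF q ((uS N r).gen i) := by
  obtain ⟨d, hd⟩ := exists_toF_deriv q (uD N r) hs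
  refine ⟨d, (uS N r).map (toF q) d hd, hd, rfl, rfl, rfl, rfl, fun _ _ => rfl, fun _ _ => rfl,
    rfl, ?_, ?_⟩
  · simp [Sys.a, Sys.map]
  · rintro (i | ⟨m, i, _ | _⟩)
    · fin_cases i <;> rfl
    · rfl
    · rfl

theorem ax_top_mem {q : Ideal (PP N)} (he : (uS N r).e ∈ q) :
    (uS N r).ax ((uS N r).G N) ∈ q := by
  have h : ∀ i, (uS N r).G N i ∈ q := by
    intro i
    rw [(uS N r).top i]
    refine q.neg_mem (q.sum_mem fun j hj => q.mul_mem_right _ (q.mul_mem_left _ ?_))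
    have := Finset.mem_range.1 hj
    exact q.pow_mem_of_mem he _ (by omega)
  exact q.add_mem (q.sub_mem (q.mul_mem_left _ (h 1)) (q.mul_mem_left _ (h 2)))
    (q.mul_mem_left _ (h 3))

/-- The last axial component outside `q` is a Darboux element. -/
theorem exists_darboux {q : Ideal (PP N)} (he : (uS N r).e ∈ q)
    (h0 : (uS N r).ax ((uS N r).G 0) ∉ q) :
    ∃ (j J : ℕ) (π : PP N), 0 < j ∧ Hom (wt N) j π ∧ π ∉ q ∧
      uD N r π - ((2 * J + 1) * (uS N r).l) * π ∈ q := by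
  classical
  have hex : ∃ m, (uS N r).ax ((uS N r).G m) ∈ q := ⟨N, ax_top_mem he⟩
  have hpos : Nat.find hex ≠ 0 := fun h => h0 (h ▸ Nat.find_spec hex)
  obtain ⟨J, hJ⟩ := Nat.exists_eq_succ_of_ne_zero hpos
  have hJN : J < N := by
    have := Nat.find_min' hex (ax_top_mem (N := N) (r := r) he)
    omega
  have h1 : (uS N r).ax ((uS N r).G (J + 1)) ∈ q := by
    have := Nat.find_spec hex
    rwa [hJ] at this
  have h2 : (uS N r).ax ((uS N r).G J) ∉ q := Nat.find_min hex (by omega)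
  by_cases h3 : (uS N r).ax ((uS N r).H J) ∈ q
  · refine ⟨1 + (2 * J + 1), J, _, by omega, hom_ax N r (hom_G N r hJN.le), h2, ?_⟩
    rw [(uS N r).d_axG hJN]
    convert q.sub_mem h3 (q.mul_mem_right ((uS N r).k * (uS N r).G J 0 +
      (uS N r).e * (uS N r).G J 3) he) using 1
    ring
  · refine ⟨1 + (2 * J + 2), J, _, by omega, hom_ax N r (hom_H N r J), h3, ?_⟩
    rw [(uS N r).d_axH hJN]
    convert q.sub_mem h1 (q.mul_mem_right ((uS N r).k * (uS N r).H J 0 +
      (uS N r).e * (uS N r).H J 3 + (uS N r).e * (uS N r).b * (uS N r).G J 2) he) using 1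
    ring

theorem good_eta_mem (hN : 0 < N) {p q : Ideal (PP N)} (hn : NrmMod N r p) (hq : Good N r p q)
    (hmax : ∀ q', Good N r p q' → ¬ q < q')
    (hab : (uS N r).a ∉ q → (uS N r).b ∈ q) : (uS N r).eta ∈ q := by
  have := hq.hd.prime
  obtain ⟨d, s, hd, he, hl, hb, hk, hG, hH, hη, ha, hgen⟩ := exists_res q hq.hd.stab
  have hnq := hn.mono hq.le
  have hns : s.Nrm := ⟨by rw [hG, toF_eq_zero]; exact hnq.1,
    by rw [hG, toF_eq_zero]; exact hnq.2.1, by rw [hG, toF_eq_zero]; exact hnq.2.2⟩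
  have he0 : s.e = 0 := by rw [he, toF_eq_zero]; exact hq.he
  have : CharZero (FractionRing (PP N ⧸ q)) := algebraRat.charZero _
  have euler : ∀ (j : ℕ) (g : PP N), (∀ i, (j : PP N) * uD N r ((uS N r).gen i) -
      (wt N i : PP N) * g * (uS N r).gen i ∈ q) →
      ∀ i, (j : FractionRing (PP N ⧸ q)) * d (s.gen i) = wt N i * toF q g * s.gen i := by
    intro j g h i
    have := (toF_eq_zero q _).2 (h i)
    simp only [map_sub, map_mul, map_natCast, ← hd, ← hgen] at this
    exact sub_eq_zero.1 this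
  rw [← toF_eq_zero q, ← hη]
  by_cases haq : (uS N r).a ∈ q
  · have ha0 : s.a = 0 := by rw [ha, toF_eq_zero]; exact haq
    by_cases hbq : (uS N r).b ∈ q
    · have hb0 : s.b = 0 := by rw [hb, toF_eq_zero]; exact hbq
      by_cases hlq : (uS N r).l ∈ q
      · have hl0 : s.l = 0 := by rw [hl, toF_eq_zero]; exact hlq
        have hk0 : s.k = 0 := by
          have : s.k ^ 2 = 0 := by simpa [Sys.a, he0, hb0, hl0] using ha0
          exact pow_eq_zero_iff two_ne_zero |>.1 this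
        exact s.end_cyl hN hns he0 hb0 hk0 hl0
      · by_contra hη0
        have hl0 : s.l ≠ 0 := by rw [hl, Ne, toF_eq_zero]; exact hlq
        have h0 : (uS N r).ax ((uS N r).G 0) ∉ q := by
          rw [← toF_eq_zero q]
          simp only [Sys.ax, map_add, map_sub, map_mul, ← hG, ← hl, ← hb, ← hk, hns.2.1, hns.2.2]
          simpa [hl0, Sys.eta] using hη0
        obtain ⟨j, J, π, hj, hπ, hπq, hg⟩ := exists_darboux hq.he h0
        have hE := euler j _ (good_step hn hq hmax hj hπ hg hπq (Or.inl hbq) (Or.inl haq))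
        have hj0 : (j : FractionRing (PP N ⧸ q)) ≠ 0 := by exact_mod_cast hj.ne'
        have hc : algebraMap ℂ (FractionRing (PP N ⧸ q)) ((2 * J + 1) / j) =
            (2 * J + 1) / j := by simp [map_ofNat]
        have hE' : ∀ i, d (s.gen i) = wt N i *
            (algebraMap ℂ (FractionRing (PP N ⧸ q)) ((2 * J + 1) / j) * s.l) * s.gen i := by
          intro i
          have := hE i
          simp only [map_mul, map_add, map_natCast, map_one, map_ofNat, ← hl] at this
          rw [hc]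
          field_simp
          linear_combination this
        refine hη0 (s.end_par hN hns he0 hb0 ha0 hl0 ((2 * J + 1) / j) ?_ ?_ ?_)
        · simpa [Sys.gen, wt] using hE' (Sum.inl 1)
        · intro m hm i
          simpa [Sys.gen, wt] using hE' (Sum.inr (⟨m, hm⟩, i, false))
        · intro m hm i
          simpa [Sys.gen, wt] using hE' (Sum.inr (⟨m, hm⟩, i, true))
    · have hb0 : s.b ≠ 0 := by rw [hb, Ne, toF_eq_zero]; exact hbq
      have hE := euler 1 _ (good_step hn hq hmax one_pos (hom_b N r) (g := -(uS N r).l)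
        (by rw [(uS N r).db]; simp) hbq (Or.inr rfl) (Or.inl haq))
      refine s.end_twist he0 ha0 hb0 ?_ ?_
      · simpa [Sys.gen, wt, ← hl] using hE (Sum.inl 1)
      · simpa [Sys.gen, wt, ← hl] using hE (Sum.inl 3)
  · have hbq := hab haq
    have hb0 : s.b = 0 := by rw [hb, toF_eq_zero]; exact hbq
    have ha0 : s.a ≠ 0 := by rw [ha, Ne, toF_eq_zero]; exact haq
    have hE := euler 2 _ (good_step hn hq hmax two_pos (hom_a N r) (g := 0)
      (by rw [(uS N r).d_a]; simp) haq (Or.inl hbq) (Or.inr rfl))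
    have hE' : ∀ i, d (s.gen i) = 0 := by
      intro i
      simpa using hE i
    exact s.end_cone hN hns he0 hb0 (hE' (Sum.inl 1)) (hE' (Sum.inl 3))
      (fun m hm i => hE' (Sum.inr (⟨m, hm⟩, i, false)))
      (fun m hm i => hE' (Sum.inr (⟨m, hm⟩, i, true))) ha0

theorem good_main (hN : 0 < N) {p : Ideal (PP N)} (hp : HD (wt N) (uD N r) p)
    (hn : NrmMod N r p) (he : (uS N r).e ∉ p) (a0 γ : ℂ) (ha0 : a0 ≠ 0)
    (hrel : algebraMap ℂ (PP N) a0 * ((uS N r).e * (uS N r).b) -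
      algebraMap ℂ (PP N) γ * (uS N r).a ∈ p)
    (hex : ∃ q, Good N r p q) : (uS N r).eta ∈ p := by
  obtain ⟨q, hq, hmax⟩ : ∃ q : Ideal (PP N), Good N r p q ∧ ∀ q', Good N r p q' → ¬ q < q' :=
    (set_has_maximal_iff_noetherian (R := PP N) (M := PP N)).2
      inferInstance {q | Good N r p q} hex
  have hunit : ∀ (I : Ideal (PP N)) (c : ℂ) (f : PP N), c ≠ 0 →
      algebraMap ℂ (PP N) c * f ∈ I → f ∈ I := fun I c f hc h =>
    (I.unit_mul_mem_iff_mem ((IsUnit.mk0 c hc).map _)).1 h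
  have hab : (uS N r).a ∉ q → (uS N r).b ∈ q := by
    intro haq
    have hγ : γ = 0 := by
      by_contra hγ
      refine haq (hunit q γ _ hγ ?_)
      have := q.sub_mem (q.mul_mem_left (algebraMap ℂ (PP N) a0)
        (q.mul_mem_right (uS N r).b hq.he)) (hq.le hrel)
      simpa using this
    rw [hγ, map_zero, zero_mul, sub_zero] at hrel
    exact hq.le ((hp.prime.mem_or_mem (hunit p a0 _ ha0 hrel)).resolve_left he)
  have hη := good_eta_mem hN hn hq hmax hab
  have hkb := hq.nt.resolve_left (not_not.2 hη)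
  by_cases haq : (uS N r).a ∈ q
  · have hlq : (uS N r).l ∉ q := by
      intro hl
      apply hkb
      convert q.sub_mem (q.sub_mem haq (q.pow_mem_of_mem hq.he 2 two_pos))
        (q.pow_mem_of_mem hl 2 two_pos) using 1
      simp only [Sys.a]
      ring
    have := hp.prime
    obtain ⟨d1, h1⟩ := exists_quot_deriv (uD N r) p hp.stab
    let s := (uS N r).map (Ideal.Quotient.mkₐ ℂ p) d1 h1
    have hsurj : Function.Surjective (Ideal.Quotient.mk p) := Ideal.Quotient.mk_surjective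
    have hker : RingHom.ker (Ideal.Quotient.mk p) ≤ q := by rw [Ideal.mk_ker]; exact hq.le
    have hmem : ∀ f, Ideal.Quotient.mk p f ∈ q.map (Ideal.Quotient.mk p) ↔ f ∈ q := by
      intro f
      rw [← Ideal.mem_comap, Ideal.comap_map_of_surjective _ hsurj, sup_eq_left.2]
      exact hker
    have := hq.hd.prime
    have hz := s.enneper hN
      ⟨Ideal.Quotient.eq_zero_iff_mem.2 hn.1, Ideal.Quotient.eq_zero_iff_mem.2 hn.2.1,
        Ideal.Quotient.eq_zero_iff_mem.2 hn.2.2⟩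
      (q.map (Ideal.Quotient.mk p)) (Ideal.map_isPrime_of_surjective hsurj hker)
      (by
        intro f hf
        obtain ⟨f, rfl⟩ := hsurj f
        rw [h1, hmem]
        exact hq.hd.stab f ((hmem f).1 hf))
      ((hmem _).2 hq.he)
      (by
        have : s.a = Ideal.Quotient.mk p (uS N r).a := by simp [s, Sys.a, Sys.map]
        rw [this, hmem]
        exact haq)
      ((hmem _).2 hη) (fun h => hlq ((hmem _).1 h))
    exact Ideal.Quotient.eq_zero_iff_mem.1 hz
  · exfalso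
    have hbq := hab haq
    have hE := good_step hn hq hmax two_pos (hom_a N r) (g := 0)
      (by rw [(uS N r).d_a]; simp) haq (Or.inl hbq) (Or.inr rfl) (Sum.inl 1)
    have hE' : algebraMap ℂ (PP N) 2 * uD N r (uS N r).l ∈ q := by
      simpa [Sys.gen, map_ofNat] using hE
    have hdl := hunit q 2 _ two_ne_zero hE'
    rw [(uS N r).dl] at hdl
    apply hkb
    convert q.add_mem (q.add_mem hdl (q.pow_mem_of_mem hq.he 2 two_pos))
      (q.mul_mem_right (uS N r).k hη) using 1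
    simp only [Sys.eta]
    ring

theorem bad_of_no_good {p : Ideal (PP N)} (hp : HD (wt N) (uD N r) p) (hn : NrmMod N r p)
    (hno : ¬ ∃ q, Good N r p q) {K : Type} [Field K] [Algebra ℂ K] {d : Derivation ℂ K K}
    (s : Sys d N r) (he : s.e ≠ 0) (hv : ∀ f ∈ p, aeval s.gen f = 0) : s.Bad := by
  intro V hV
  obtain ⟨P, i0, hP, hx0, hI, hval⟩ := exists_centre (wt_pos N) s.gen ⟨Sum.inl 0, he⟩ V hV
  have hpP : p ≤ P := hI p hp.hom hv
  have hgen : ∀ i, V.valuation (s.gen i) ^ wt N i0 ≤ V.valuation (s.gen i0) ^ wt N i := by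
    intro i
    simpa using (hval _ _ (Hom.X (w := wt N) i)).1
  have hw := (wt_pos N i0).ne'
  by_cases heP : (uS N r).e ∈ P
  · obtain ⟨q, hq, hpq, heq, hqP⟩ := exists_hd_step hp (hom_e N r) (g := (uS N r).l)
      (by rw [(uS N r).de]; simp) P hP hpP heP
    have hng : (uS N r).eta ∈ q ∧ (uS N r).k ^ 2 + (uS N r).b ^ 2 ∈ q := by
      by_contra hcon
      exact hno ⟨q, hq, hpq, heq, not_and_or.1 hcon⟩
    have hX0 : X i0 ∉ P := by
      rw [(hval _ _ (Hom.X (w := wt N) i0)).2]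
      simp
    rcases i0 with i0 | ⟨m, i, t⟩
    · have hw1 : wt N (Sum.inl i0) = 1 := rfl
      simp only [hw1, pow_one] at hval hgen
      have h1 := (hval _ _ (hom_e N r)).2.1 heP
      have h2 := (hval _ _ (hom_eta N r)).2.1 (hqP hng.1)
      have h3 := (hval _ _ (((hom_k N r).pow 2).add ((hom_b N r).pow 2))).2.1 (hqP hng.2)
      rw [ev_e, pow_one] at h1
      rw [ev_eta, pow_one] at h2
      simp only [map_add, map_pow, ev_k, ev_b, mul_one] at h3
      refine ⟨s.gen (Sum.inl i0), hx0, hgen, Or.inr ⟨?_, h1, h2, h3⟩⟩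
      fin_cases i0
      · exact absurd heP hX0
      · exact Or.inl rfl
      · exact Or.inr (Or.inl rfl)
      · exact Or.inr (Or.inr rfl)
    · exact absurd (hqP (fam_mem hq.stab (hn.mono hpq) hng.1 m i t)) hX0
  · refine ⟨s.e, he, fun i => ?_, Or.inl rfl⟩
    have h1 := hval _ _ (hom_e N r)
    rw [ev_e, pow_one] at h1
    have h2 : V.valuation s.e ^ wt N i0 = V.valuation (s.gen i0) :=
      le_antisymm h1.1 (not_lt.1 fun h => heP (h1.2.2 h))
    have h3 := hgen i
    rw [← h2, ← pow_mul, mul_comm, pow_mul] at h3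
    exact (pow_le_pow_iff_left₀ zero_le zero_le hw).1 h3

theorem alg_main {R : Type} [CommRing R] [Algebra ℂ R] {d : Derivation ℂ R R} {N : ℕ}
    {r : ℕ → ℂ} (s : Sys d N r) (hN : 0 < N) (hn : s.Nrm) (a0 δ0 : ℂ) (ha0 : a0 ≠ 0)
    (ha : s.a = algebraMap ℂ R a0) (hb : (s.e * s.b) ^ 2 = algebraMap ℂ R δ0)
    (J : Ideal R) (hJ : ∀ f ∈ J, d f ∈ J)
    (hp : (J.comap (MvPolynomial.aeval s.gen : MvPolynomial (Ix N) ℂ →ₐ[ℂ] R)).IsPrime)
    (he : s.e ∉ J) :
    s.eta ∈ J ∨ (d s.eta - s.l * s.eta ∈ J ∧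
      ((s.eta - 2 * s.k) ^ 2 + 4 * s.b ^ 2 ∈ J ∨ s.l ∈ J)) := by
  set p0 := J.comap (MvPolynomial.aeval s.gen : MvPolynomial (Ix N) ℂ →ₐ[ℂ] R) with hp0
  have hmem : ∀ f, f ∈ p0 ↔ aeval s.gen f ∈ J := fun f => Iff.rfl
  have hs0 : ∀ f ∈ p0, uD N r f ∈ p0 := by
    intro f hf
    rw [hmem, ev_D]
    exact hJ _ hf
  obtain ⟨p, hpH, hpp, hcore⟩ := exists_hd_core (hom_uD N r) p0 hp hs0
  have hn0 : NrmMod N r p0 := by
    refine ⟨?_, ?_, ?_⟩ <;> rw [hmem, ev_G s (Nat.zero_le N)]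
    · rw [hn.1]; exact J.zero_mem
    · rw [hn.2.1]; exact J.zero_mem
    · rw [hn.2.2]; exact J.zero_mem
  have hnp : NrmMod N r p := ⟨hcore _ _ (hom_G N r (Nat.zero_le N) 0) hn0.1,
    hcore _ _ (hom_G N r (Nat.zero_le N) 1) hn0.2.1, hcore _ _ (hom_G N r (Nat.zero_le N) 2) hn0.2.2⟩
  have he0 : (uS N r).e ∉ p0 := by rw [hmem, ev_e]; exact he
  have ha' : (uS N r).a - algebraMap ℂ (PP N) a0 ∈ p0 := by
    rw [hmem, map_sub, ev_a, ha, AlgHom.commutes, sub_self]
    exact J.zero_mem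
  obtain ⟨γ, hγ⟩ : ∃ γ : ℂ, (uS N r).e * (uS N r).b - algebraMap ℂ (PP N) γ ∈ p0 := by
    obtain ⟨γ, hγ⟩ := IsAlgClosed.exists_pow_nat_eq δ0 two_pos
    have : ((uS N r).e * (uS N r).b - algebraMap ℂ (PP N) γ) *
        ((uS N r).e * (uS N r).b - algebraMap ℂ (PP N) (-γ)) ∈ p0 := by
      rw [hmem]
      simp only [map_mul, map_sub, map_neg, ev_e, ev_b, AlgHom.commutes]
      have : (s.e * s.b - algebraMap ℂ R γ) * (s.e * s.b - -algebraMap ℂ R γ) = 0 := by
        rw [← hγ, map_pow] at hb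
        linear_combination hb
      rw [this]
      exact J.zero_mem
    exact (hp.mem_or_mem this).elim (fun h => ⟨_, h⟩) (fun h => ⟨_, h⟩)
  have hrel : algebraMap ℂ (PP N) a0 * ((uS N r).e * (uS N r).b) -
      algebraMap ℂ (PP N) γ * (uS N r).a ∈ p := by
    refine hcore 2 _ ((((Hom.const a0).mul ((hom_e N r).mul (hom_b N r))).of_eq rfl).sub
      (((Hom.const γ).mul (hom_a N r)).of_eq rfl)) ?_
    convert p0.sub_mem (p0.mul_mem_left (algebraMap ℂ (PP N) a0) hγ)
      (p0.mul_mem_left (algebraMap ℂ (PP N) γ) ha') using 1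
    ring
  by_cases hex : ∃ q, Good N r p q
  · left
    have := hpp (good_main hN hpH hnp (fun h => he0 (hpp h)) a0 γ ha0 hrel hex)
    rwa [hmem, ev_eta] at this
  · right
    have := hp
    obtain ⟨d', s', hd, he', hl', hb', hk', hG', hH', hη', ha'', hgen⟩ := exists_res p0 hs0
    have hev : ∀ f, aeval s'.gen f = toF p0 f := by
      intro f
      have : aeval s'.gen = toF p0 := by
        ext i
        rw [aeval_X, hgen, uS_gen]
      rw [this]
    have hne : s'.e ≠ 0 := by rw [he', Ne, toF_eq_zero]; exact he0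
    have hbad := bad_of_no_good hpH hnp hex s' hne
      (fun f hf => by rw [hev, toF_eq_zero]; exact hpp hf)
    have hns : s'.Nrm := ⟨by rw [hG', toF_eq_zero]; exact hn0.1,
      by rw [hG', toF_eq_zero]; exact hn0.2.1, by rw [hG', toF_eq_zero]; exact hn0.2.2⟩
    have hgen' : IntermediateField.adjoin ℂ (Set.range s'.gen) = ⊤ := by
      rw [eq_top_iff]
      intro z _
      obtain ⟨u, v, -, rfl⟩ := IsFractionRing.div_surjective (A := PP N ⧸ p0) z
      have key : ∀ u : PP N ⧸ p0, algebraMap _ (FractionRing (PP N ⧸ p0)) u ∈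
          IntermediateField.adjoin ℂ (Set.range s'.gen) := by
        intro u
        obtain ⟨f, rfl⟩ := Ideal.Quotient.mk_surjective u
        change toF p0 f ∈ _
        rw [← hev]
        refine IntermediateField.algebra_adjoin_le_adjoin ℂ _ ?_
        rw [Algebra.adjoin_range_eq_range_aeval]
        exact ⟨f, rfl⟩
      exact div_mem (key u) (key v)
    have h1 : s'.a = algebraMap ℂ _ a0 := by
      have := (toF_eq_zero p0 _).2 ha'
      rw [map_sub, AlgHom.commutes, ← ha''] at this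
      exact sub_eq_zero.1 this
    have h2 : s'.e * s'.b = algebraMap ℂ _ γ := by
      have := (toF_eq_zero p0 _).2 hγ
      rw [map_sub, AlgHom.commutes, map_mul, ← he', ← hb'] at this
      exact sub_eq_zero.1 this
    obtain ⟨c1, c2⟩ := s'.bad_main hN hns hne a0 γ ha0 h1 h2 hgen' hbad
    refine ⟨?_, ?_⟩
    · have : uD N r (uS N r).eta - (uS N r).l * (uS N r).eta ∈ p0 := by
        rw [← toF_eq_zero p0, map_sub, map_mul, ← hd, ← hη', ← hl', c1, sub_self]
      rwa [hmem, map_sub, map_mul, ev_D, ev_eta, ev_l] at this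
    · rcases c2 with c2 | c2
      · left
        have : ((uS N r).eta - 2 * (uS N r).k) ^ 2 + 4 * (uS N r).b ^ 2 ∈ p0 := by
          rw [← toF_eq_zero p0]
          simp only [map_add, map_sub, map_mul, map_pow, map_ofNat, ← hη', ← hk', ← hb']
          exact c2
        rw [hmem] at this
        simpa only [map_add, map_sub, map_mul, map_pow, map_ofNat, ev_eta, ev_k, ev_b] using this
      · right
        have : (uS N r).l ∈ p0 := by rw [← toF_eq_zero p0, ← hl', c2]
        rwa [hmem, ev_l] at this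

end Pool.Agent.Lib.MP_51f413_gt
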