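import Mathlib

/-!
Polynomial null curves in the complex three-sphere are straight.
-/

namespace Pool.Agent.Lib.MP_51f413_gt

open Polynomial

/-- The inner product in a null frame. -/
def nB {A : Type} [CommRing A] (F G : Fin 4 → A) : A :=
  F 0 * G 0 + 2 * (F 1 * G 2) + 2 * (F 2 * G 1) + F 3 * G 3

lemma cnull_coeff {K : Type} [Field K] (u : K[X]) (n : ℕ) :
    (X * derivative u).coeff n = n * u.coeff n := by
  rcases n with _ | n
  · simp
  · rw [coeff_X_mul, coeff_derivative]
    push_cast
    ring

lemma cnull_natDegree {K : Type} [Field K] (u : K[X]) :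
    (X * derivative u).natDegree ≤ u.natDegree := by
  rw [natDegree_le_iff_coeff_eq_zero]
  intro n hn
  rw [cnull_coeff, coeff_eq_zero_of_natDegree_lt hn, mul_zero]

lemma cnull_wr_ne {K : Type} [Field K] [CharZero K] {u v : K[X]} (hu : u ≠ 0) (hv : v ≠ 0)
    (huv : u.natDegree ≠ v.natDegree) (hW : wronskian u v ≠ 0) :
    (wronskian (derivative u) (derivative v)).degree < (wronskian u v).degree := by
  by_cases h0 : wronskian (derivative u) (derivative v) = 0
  · rw [h0, degree_zero]
    exact bot_lt_iff_ne_bot.2 (mt degree_eq_bot.1 hW)
  have hu' : derivative u ≠ 0 := fun h => h0 (by rw [h, wronskian_zero_left])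
  have hv' : derivative v ≠ 0 := fun h => h0 (by rw [h, wronskian_zero_right])
  have h1 := natDegree_wronskian_lt_add h0
  have h2 : (derivative u).natDegree < u.natDegree :=
    natDegree_derivative_lt (fun h => hu' (derivative_of_natDegree_zero h))
  have h3 : (derivative v).natDegree < v.natDegree :=
    natDegree_derivative_lt (fun h => hv' (derivative_of_natDegree_zero h))
  have e : X * wronskian u v = u * (X * derivative v) - (X * derivative u) * v := by
    rw [wronskian]
    ring
  have h4 : (X * wronskian u v).coeff (u.natDegree + v.natDegree) ≠ 0 := by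
    rw [e, coeff_sub, coeff_mul_add_eq_of_natDegree_le le_rfl (cnull_natDegree v),
      coeff_mul_add_eq_of_natDegree_le (cnull_natDegree u) le_rfl, cnull_coeff, cnull_coeff]
    have a1 : u.coeff u.natDegree ≠ 0 := leadingCoeff_ne_zero.2 hu
    have a2 : v.coeff v.natDegree ≠ 0 := leadingCoeff_ne_zero.2 hv
    have a3 : (v.natDegree : K) - u.natDegree ≠ 0 :=
      sub_ne_zero.2 (fun h => huv (Nat.cast_injective h).symm)
    intro h
    exact mul_ne_zero a3 (mul_ne_zero a1 a2) (by linear_combination h)
  have h5 := le_natDegree_of_ne_zero h4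
  rw [natDegree_X_mul hW] at h5
  exact degree_lt_degree (by omega)

lemma cnull_wr {K : Type} [Field K] [CharZero K] {u v : K[X]} (hW : wronskian u v ≠ 0) :
    (wronskian (derivative u) (derivative v)).degree < (wronskian u v).degree := by
  have hu : u ≠ 0 := fun h => hW (by rw [h, wronskian_zero_left])
  have hv : v ≠ 0 := fun h => hW (by rw [h, wronskian_zero_right])
  by_cases huv : u.natDegree = v.natDegree
  · set c : K := v.leadingCoeff / u.leadingCoeff with hc
    have hlu : u.leadingCoeff ≠ 0 := leadingCoeff_ne_zero.2 hu
    have hlv : v.leadingCoeff ≠ 0 := leadingCoeff_ne_zero.2 hv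
    have hc0 : c ≠ 0 := div_ne_zero hlv hlu
    have e1 : wronskian u (v - C c * u) = wronskian u v := by
      simp only [wronskian, derivative_sub, derivative_C_mul]
      ring
    have e2 : wronskian (derivative u) (derivative (v - C c * u)) =
        wronskian (derivative u) (derivative v) := by
      simp only [wronskian, derivative_sub, derivative_C_mul]
      ring
    have hw : v - C c * u ≠ 0 := fun h => hW (by rw [← e1, h, wronskian_zero_right])
    have hlt : (v - C c * u).degree < v.degree := by
      refine degree_sub_lt_left ?_ hv ?_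
      · rw [degree_C_mul hc0, degree_eq_natDegree hu, degree_eq_natDegree hv, huv]
      · rw [leadingCoeff_mul, leadingCoeff_C, hc, div_mul_cancel₀ _ hlu]
    have hlt' := natDegree_lt_natDegree hw hlt
    rw [← e1, ← e2]
    exact cnull_wr_ne hu hw (by omega) (by rwa [e1])
  · exact cnull_wr_ne hu hv huv hW

lemma cnull_factor {K : Type} [Field K] {α β γ : K[X]} (hβ : β ≠ 0) (h : α ^ 2 + β * γ = 0) :
    ∃ f u v : K[X], f ≠ 0 ∧ α = f * u * v ∧ β = f * u ^ 2 ∧ γ = -(f * v ^ 2) := by
  obtain ⟨v, u, g, hrel, e1, e2⟩ := UniqueFactorizationMonoid.exists_reduced_factors' α β hβ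
  have hg : g ≠ 0 := fun h => hβ (by rw [← e2, h, zero_mul])
  have hu : u ≠ 0 := fun h => hβ (by rw [← e2, h, mul_zero])
  have e3 : g * v * v = u * -γ := by
    apply mul_left_cancel₀ hg
    rw [← e1, ← e2] at h
    linear_combination h
  have hd : u ∣ g := by
    have h1 : u ∣ g * v * v := ⟨_, e3⟩
    exact hrel.symm.dvd_of_dvd_mul_right (hrel.symm.dvd_of_dvd_mul_right h1)
  obtain ⟨f, rfl⟩ := hd
  refine ⟨f, u, v, fun h => hg (by rw [h, mul_zero]), by rw [← e1]; ring, by rw [← e2]; ring, ?_⟩
  apply mul_left_cancel₀ hu
  linear_combination e3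

lemma cnull_sl {K : Type} [Field K] [CharZero K] (a b c d : K[X]) (h0 : a * d - b * c = 1)
    (h1 : derivative a * derivative d - derivative b * derivative c = 0) :
    derivative (derivative a) * derivative (derivative d) -
      derivative (derivative b) * derivative (derivative c) = 0 := by
  have h0' : derivative a * d + a * derivative d - (derivative b * c + b * derivative c) = 0 := by
    have := congrArg derivative h0
    rwa [derivative_sub, derivative_mul, derivative_mul, derivative_one] at this
  obtain ⟨α, hα⟩ : ∃ α, α = d * derivative a - b * derivative c := ⟨_, rfl⟩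
  obtain ⟨β, hβ⟩ : ∃ β, β = d * derivative b - b * derivative d := ⟨_, rfl⟩
  obtain ⟨γ, hγ⟩ : ∃ γ, γ = a * derivative c - c * derivative a := ⟨_, rfl⟩
  have ea : derivative a = a * α + b * γ := by
    rw [hα, hγ]
    linear_combination (-derivative a) * h0
  have eb : derivative b = a * β - b * α := by
    rw [hα, hβ]
    linear_combination (-derivative b) * h0 + b * h0'
  have ec : derivative c = c * α + d * γ := by
    rw [hα, hγ]
    linear_combination (-derivative c) * h0
  have ed : derivative d = c * β - d * α := by
    rw [hα, hβ]
    linear_combination (-derivative d) * h0 + d * h0'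
  have hn : α ^ 2 + β * γ = 0 := by
    rw [ea, eb, ec, ed] at h1
    linear_combination (-1) * h1 - (α ^ 2 + β * γ) * h0
  by_cases hβ0 : β = 0
  · have hα0 : α = 0 := by
      rw [hβ0, zero_mul, add_zero] at hn
      exact pow_eq_zero_iff two_ne_zero |>.1 hn
    rw [eb, ed, hα0, hβ0]
    simp
  obtain ⟨f, u, v, hf, e1, e2, e3⟩ := cnull_factor hβ0 hn
  obtain ⟨s, hs⟩ : ∃ s, s = a * u - b * v := ⟨_, rfl⟩
  obtain ⟨t, ht⟩ : ∃ t, t = c * u - d * v := ⟨_, rfl⟩
  have fa : derivative a = v * (f * s) := by rw [ea, e1, e3, hs]; ring
  have fb : derivative b = u * (f * s) := by rw [eb, e1, e2, hs]; ring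
  have fc : derivative c = v * (f * t) := by rw [ec, e1, e3, ht]; ring
  have fd : derivative d = u * (f * t) := by rw [ed, e1, e2, ht]; ring
  have s1 : derivative s = a * derivative u - b * derivative v := by
    conv_lhs => rw [hs, derivative_sub, derivative_mul, derivative_mul, fa, fb]
    ring
  have t1 : derivative t = c * derivative u - d * derivative v := by
    conv_lhs => rw [ht, derivative_sub, derivative_mul, derivative_mul, fc, fd]
    ring
  have s2 : derivative (derivative s) = -(f * wronskian u v * s) +
      (a * derivative (derivative u) - b * derivative (derivative v)) := by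
    rw [s1, derivative_sub, derivative_mul, derivative_mul, fa, fb, wronskian]
    ring
  have t2 : derivative (derivative t) = -(f * wronskian u v * t) +
      (c * derivative (derivative u) - d * derivative (derivative v)) := by
    rw [t1, derivative_sub, derivative_mul, derivative_mul, fc, fd, wronskian]
    ring
  have w1 : wronskian s t = -wronskian u v := by
    rw [wronskian, wronskian, s1, t1, hs, ht]
    linear_combination (derivative u * v - u * derivative v) * h0
  have w2 : f * wronskian u v ^ 2 = -wronskian (derivative s) (derivative t) -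
      wronskian (derivative u) (derivative v) := by
    have w1' := w1
    rw [wronskian] at w1'
    rw [wronskian.eq_1 (derivative s), wronskian.eq_1 (derivative u), s2, t2]
    rw [s1, t1] at w1' ⊢
    linear_combination (f * wronskian u v) * w1' +
      (derivative (derivative u) * derivative v - derivative u * derivative (derivative v)) * h0
  have hW : wronskian u v = 0 := by
    by_contra hW
    have b1 := cnull_wr hW
    have b2 := cnull_wr (u := s) (v := t) (by rw [w1]; exact neg_ne_zero.2 hW)
    rw [w1, degree_neg] at b2
    have b3 : (wronskian u v).degree ≤ (f * wronskian u v ^ 2).degree :=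
      degree_le_of_dvd ⟨f * wronskian u v, by ring⟩ (mul_ne_zero hf (pow_ne_zero _ hW))
    rw [w2] at b3
    have b4 := degree_sub_le (-wronskian (derivative s) (derivative t))
      (wronskian (derivative u) (derivative v))
    rw [degree_neg] at b4
    exact absurd (b3.trans b4) (not_le.2 (max_lt b2 b1))
  rw [wronskian] at hW
  rw [fa, fb, fc, fd, derivative_mul (f := v), derivative_mul (f := v), derivative_mul (f := u),
    derivative_mul (f := u)]
  linear_combination (f * s * derivative (f * t) - derivative (f * s) * (f * t)) * hW

theorem null_poly {K : Type} [Field K] [Algebra ℂ K] (Y : Fin 4 → K[X]) (h0 : nB Y Y = 1)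
    (h1 : nB (fun c => derivative (Y c)) (fun c => derivative (Y c)) = 0) :
    nB (fun c => derivative (derivative (Y c))) (fun c => derivative (derivative (Y c))) = 0 := by
  have : CharZero K := charZero_of_injective_algebraMap (algebraMap ℂ K).injective
  obtain ⟨I, hI⟩ : ∃ I : K, I * I = -1 :=
    ⟨algebraMap ℂ K Complex.I, by rw [← map_mul, Complex.I_mul_I, map_neg, map_one]⟩
  have hC : (C I : K[X]) * C I = -1 := by rw [← C_mul, hI, C_neg, C_1]
  have h2 : ∀ p : K[X], derivative (2 * p) = 2 * derivative p := fun p => by
    rw [two_mul, two_mul, derivative_add]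
  have := cnull_sl (Y 0 + C I * Y 3) (2 * Y 1) (-(2 * Y 2)) (Y 0 - C I * Y 3)
    (by
      simp only [nB] at h0
      linear_combination h0 - (Y 3) ^ 2 * hC)
    (by
      simp only [nB] at h1
      simp only [derivative_add, derivative_sub, derivative_neg, derivative_C_mul, h2]
      linear_combination h1 - (derivative (Y 3)) ^ 2 * hC)
  simp only [derivative_add, derivative_sub, derivative_neg, derivative_C_mul, h2] at this
  simp only [nB]
  linear_combination this + (derivative (derivative (Y 3))) ^ 2 * hC

end Pool.Agent.Lib.MP_51f413_gt
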