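import Pool.Agent.Lib.MP_51f413_gt.CU
import Pool.Agent.Lib.MP_51f413_gt.CNull
import Pool.Agent.Lib.MP_51f413_gt.Alg
import Pool.Agent.Lib.MP_51f413_gt.CUEq

/-!
A null curve of finite order has vanishing torsion.
-/

namespace Pool.Agent.Lib.MP_51f413_gt

open MvPolynomial

section Aux

variable {K : Type} [Field K] [Algebra ℂ K]

theorem cb1_skew (d : Derivation ℂ K K) (h e q : K) (F G : Fin 4 → K) :
    d (nB F G) = nB (N1 d h e q F) G + nB F (N1 d h e q G) := by
  have h2 : d 2 = 0 := by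
    have := d.map_natCast 2
    simpa using this
  simp only [nB, N1, map_add, Derivation.leibniz, h2, smul_eq_mul, Matrix.cons_val_zero,
    Matrix.cons_val_one, Matrix.cons_val]
  ring

theorem cb1_iter (d : Derivation ℂ K K) (b : ℕ → ℕ → K)
    (hb : ∀ i j, d (b i j) = b (i + 1) j + b i (j + 1)) (n : ℕ) :
    d^[n] (b 0 0) = ∑ ij ∈ Finset.HasAntidiagonal.antidiagonal n, n.choose ij.1 • b ij.1 ij.2 := by
  induction n with
  | zero => simp
  | succ n ih =>
    rw [Finset.sum_antidiagonal_choose_succ_nsmul (M := K) b n]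
    simp only [Function.iterate_succ_apply', ih, map_sum, map_nsmul, hb, smul_add,
      Finset.sum_add_distrib]
    rw [add_comm]
    congr 1
    refine Finset.sum_congr rfl fun ⟨i, j⟩ hij => ?_
    rw [n.choose_symm_of_eq_add (Finset.HasAntidiagonal.mem_antidiagonal.1 hij).symm]

/-- `Y` is the Taylor polynomial of the sequence `z`. -/
def cb1T (Y : Fin 4 → Polynomial K) (z : ℕ → Fin 4 → K) : Prop :=
  ∀ c n, (Y c).coeff n = z n c / (n.factorial : K)

theorem cb1T_deriv {Y : Fin 4 → Polynomial K} {z : ℕ → Fin 4 → K} (h : cb1T Y z) :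
    cb1T (fun c => Polynomial.derivative (Y c)) (fun k => z (k + 1)) := by
  have : CharZero K := charZero_of_injective_algebraMap (algebraMap ℂ K).injective
  intro c n
  have h1 : (n.factorial : K) ≠ 0 := Nat.cast_ne_zero.2 n.factorial_ne_zero
  have h2 : (n : K) + 1 ≠ 0 := Nat.cast_add_one_ne_zero n
  rw [Polynomial.coeff_derivative, h c (n + 1), Nat.factorial_succ]
  push_cast
  field_simp

theorem cb1T_coeff (d : Derivation ℂ K K) (h e q : K) {Y : Fin 4 → Polynomial K}
    {z : ℕ → Fin 4 → K} (hY : cb1T Y z) (hz : ∀ k, z (k + 1) = N1 d h e q (z k)) (n : ℕ) :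
    (nB Y Y).coeff n = d^[n] (nB (z 0) (z 0)) / (n.factorial : K) := by
  have : CharZero K := charZero_of_injective_algebraMap (algebraMap ℂ K).injective
  rw [cb1_iter d (fun i j => nB (z i) (z j)) (fun i j => by rw [cb1_skew d h e q, hz, hz]) n,
    Finset.sum_div]
  simp only [nB, Polynomial.coeff_add, Polynomial.coeff_ofNat_mul]
  simp only [Polynomial.coeff_mul, Finset.mul_sum, ← Finset.sum_add_distrib, hY _ _]
  refine Finset.sum_congr rfl fun ⟨i, j⟩ hij => ?_
  obtain rfl : i + j = n := Finset.HasAntidiagonal.mem_antidiagonal.1 hij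
  have h1 : (i.factorial : K) ≠ 0 := Nat.cast_ne_zero.2 i.factorial_ne_zero
  have h2 : (j.factorial : K) ≠ 0 := Nat.cast_ne_zero.2 j.factorial_ne_zero
  have h3 : (((i + j).choose i : ℕ) : K) ≠ 0 :=
    Nat.cast_ne_zero.2 (Nat.choose_pos (Nat.le_add_right i j)).ne'
  have h4 : ((i + j).factorial : K) = ((i + j).choose i : ℕ) * i.factorial * j.factorial := by
    have := Nat.choose_mul_factorial_mul_factorial (Nat.le_add_right i j)
    rw [Nat.add_sub_cancel_left] at this
    exact_mod_cast this.symm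
  rw [h4, nsmul_eq_mul]
  field_simp

omit [Algebra ℂ K] in
theorem cb1T_exists (z : ℕ → Fin 4 → K) (M : ℕ) (hM : ∀ k, M ≤ k → z k = 0) :
    ∃ Y, cb1T Y z := by
  refine ⟨fun c => ∑ k ∈ Finset.range M, Polynomial.monomial k (z k c / (k.factorial : K)),
    fun c n => ?_⟩
  simp only [Polynomial.finsetSum_coeff, Polynomial.coeff_monomial, Finset.sum_ite_eq',
    Finset.mem_range]
  split_ifs with hn
  · rfl
  · simp [hM n (not_lt.1 hn)]

end Aux

theorem cb1_stable {R : Type} [CommRing R] [Algebra ℂ R] (d : Derivation ℂ R R) (s : Set R)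
    (hs : ∀ f ∈ s, d f ∈ Ideal.span s) (f : R) (hf : f ∈ Ideal.span s) : d f ∈ Ideal.span s := by
  induction hf using Submodule.span_induction with
  | mem f hf => exact hs f hf
  | zero => simp
  | add f g _ _ hf hg => simpa using add_mem hf hg
  | smul a f hf' hf =>
    rw [smul_eq_mul, d.leibniz, smul_eq_mul, smul_eq_mul]
    exact add_mem (Ideal.mul_mem_left _ _ hf) (Ideal.mul_mem_right _ _ hf')

theorem cb1_mono (N : ℕ) {L L' : ℕ} (h : L ≤ L') :
    Ideal.span {f | ∃ n c, N ≤ n ∧ n ≤ L ∧ f = cT n c} ≤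
      Ideal.span {f | ∃ n c, N ≤ n ∧ n ≤ L' ∧ f = cT n c} :=
  Ideal.span_mono fun _ ⟨n, c, h1, h2, h3⟩ => ⟨n, c, h1, h2.trans h, h3⟩

theorem cb1_level (N : ℕ) (g : CP) (hg : g ∈ Ideal.span {f | ∃ n c, N ≤ n ∧ f = cT n c}) :
    ∃ L : ℕ, g ∈ Ideal.span {f | ∃ n c, N ≤ n ∧ n ≤ L ∧ f = cT n c} := by
  induction hg using Submodule.span_induction with
  | mem f hf =>
    obtain ⟨n, c, h1, h2⟩ := hf
    exact ⟨n, Ideal.subset_span ⟨n, c, h1, le_rfl, h2⟩⟩
  | zero => exact ⟨0, zero_mem _⟩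
  | add f g _ _ hf hg =>
    obtain ⟨L, hL⟩ := hf
    obtain ⟨L', hL'⟩ := hg
    exact ⟨max L L', add_mem (cb1_mono N (le_max_left _ _) hL) (cb1_mono N (le_max_right _ _) hL')⟩
  | smul a f _ hf =>
    obtain ⟨L, hL⟩ := hf
    exact ⟨L, Ideal.mul_mem_left _ _ hL⟩

theorem null_field {K : Type} [Field K] [Algebra ℂ K] (d : Derivation ℂ K K) (h e q : K)
    (he : d e = 0) (T : ℕ → Fin 4 → K) (h0 : T 0 = ![0, 1, 0, 0])
    (hT : ∀ n, T (n + 1) = N1 d h e q (T n)) (N : ℕ) (hN : T N = 0) : e * q = 0 := by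
  have : CharZero K := charZero_of_injective_algebraMap (algebraMap ℂ K).injective
  have h1 : d 1 = 0 := d.map_one_eq_zero
  let y : ℕ → Fin 4 → K := fun k => Nat.casesOn k ![1, 0, 0, 0] fun k c => e * T k c
  have hy : ∀ k, y (k + 1) = N1 d h e q (y k) := by
    intro k
    cases k with
    | zero =>
      ext c
      fin_cases c <;> simp [y, N1, h0]
    | succ k =>
      ext c
      fin_cases c <;> simp [y, N1, hT, he] <;> ring
  have hz : ∀ k, T (N + k) = 0 := by
    intro k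
    induction k with
    | zero => exact hN
    | succ k ih =>
      rw [← add_assoc, hT, ih]
      ext c
      fin_cases c <;> simp [N1]
  obtain ⟨Y, hY⟩ := cb1T_exists y (N + 1) (fun k hk => by
    obtain ⟨m, rfl⟩ := Nat.exists_eq_add_of_le hk
    rw [add_right_comm]
    ext c
    simp [y, hz])
  have hY1 := cb1T_deriv hY
  have hY2 := cb1T_deriv hY1
  have e0 : nB Y Y = 1 := by
    ext n
    rw [cb1T_coeff d h e q hY hy n]
    have h5 : nB (y 0) (y 0) = 1 := by simp [y, nB]
    rw [h5]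
    cases n with
    | zero => simp
    | succ n =>
      rw [Function.iterate_succ_apply, h1, Function.iterate_fixed (map_zero d), zero_div,
        Polynomial.coeff_one, if_neg n.succ_ne_zero]
  have e1 : nB (fun c => Polynomial.derivative (Y c)) (fun c => Polynomial.derivative (Y c))
      = 0 := by
    ext n
    rw [cb1T_coeff d h e q hY1 (fun k => hy (k + 1)) n]
    have h5 : nB (y (0 + 1)) (y (0 + 1)) = 0 := by simp [y, nB, h0]
    rw [h5, Function.iterate_fixed (map_zero d), zero_div, Polynomial.coeff_zero]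
  have e2 := cb1T_coeff d h e q hY2 (fun k => hy (k + 1 + 1)) 0
  rw [null_poly Y e0 e1] at e2
  have h5 : nB (y (0 + 1 + 1)) (y (0 + 1 + 1)) = 4 * (e * q) ^ 2 := by
    have h6 : y (0 + 1 + 1) = fun c => e * T (0 + 1) c := rfl
    rw [h6, hT, h0]
    simp [nB, N1]
    ring
  rw [h5] at e2
  simpa using e2.symm

theorem cert_null (N : ℕ) : ∃ L : ℕ, ∀ i < N, ce1 * cq i ∈
    (Ideal.span {f | ∃ n c, N ≤ n ∧ n ≤ L ∧ f = cT n c}).radical := by
  have hst : ∀ f ∈ Ideal.span {f | ∃ n c, N ≤ n ∧ f = cT n c},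
      cd1 f ∈ Ideal.span {f | ∃ n c, N ≤ n ∧ f = cT n c} := by
    refine cb1_stable cd1 _ ?_
    rintro _ ⟨n, c, hn, rfl⟩
    have g0 : ∀ c, cT n c ∈ Ideal.span {f | ∃ n c, N ≤ n ∧ f = cT n c} := fun c =>
      Ideal.subset_span ⟨n, c, hn, rfl⟩
    have g1 : ∀ c, N1 cd1 ch1 ce1 (cq 0) (cT n) c ∈ Ideal.span {f | ∃ n c, N ≤ n ∧ f = cT n c} :=
      fun c => Ideal.subset_span ⟨n + 1, c, by omega, rfl⟩
    fin_cases c
    · have := add_mem (g1 0) (Ideal.mul_mem_left _ (2 * ce1) (g0 2))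
      simpa [N1] using this
    · have := add_mem (sub_mem (g1 1) (Ideal.mul_mem_left _ ce1 (g0 0)))
        (Ideal.mul_mem_left _ ch1 (g0 3))
      convert this using 1
      simp [N1]
      ring
    · have := add_mem (g1 2) (Ideal.mul_mem_left _ (cq 0) (g0 3))
      simpa [N1] using this
    · have := sub_mem (sub_mem (g1 3) (Ideal.mul_mem_left _ (2 * ch1) (g0 2)))
        (Ideal.mul_mem_left _ (2 * cq 0) (g0 1))
      simpa [N1] using this
  have key : ∀ i, ce1 * cq i ∈ (Ideal.span {f | ∃ n c, N ≤ n ∧ f = cT n c}).radical := by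
    intro i
    rw [Ideal.radical_eq_sInf, Submodule.mem_sInf]
    rintro p ⟨hIp, hp⟩
    obtain ⟨q, hq, hqs, hIq, hqp⟩ := exists_stable_prime cd1 _ p hst hp hIp
    obtain ⟨d, hd⟩ := exists_toF_deriv q cd1 hqs
    have h0 : ce1 * cq 0 ∈ q := by
      rw [← toF_eq_zero, map_mul]
      refine null_field d (toF q ch1) _ _ (by rw [hd, cd1_e1, map_zero])
        (fun n c => toF q (cT n c)) ?_ (fun n => ?_) N ?_
      · ext c
        fin_cases c <;> simp [cT]
      · ext c
        fin_cases c <;> simp [cT, cN, N1, hd, map_ofNat]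
      · ext c
        exact (toF_eq_zero q _).2 (hIq (Ideal.subset_span ⟨N, c, le_rfl, rfl⟩))
    refine hqp ?_
    induction i with
    | zero => exact h0
    | succ i ih => simpa using hqs _ ih
  have key2 : ∀ i, ∃ L : ℕ, ce1 * cq i ∈
      (Ideal.span {f | ∃ n c, N ≤ n ∧ n ≤ L ∧ f = cT n c}).radical := by
    intro i
    obtain ⟨m, hm⟩ := key i
    obtain ⟨L, hL⟩ := cb1_level N _ hm
    exact ⟨L, m, hL⟩
  choose L hL using key2
  exact ⟨(Finset.range N).sup L, fun i hi => Ideal.radical_mono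
    (cb1_mono N (Finset.le_sup (f := L) (Finset.mem_range.2 hi))) (hL i)⟩

end Pool.Agent.Lib.MP_51f413_gt
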