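import Pool.Agent.Lib.MP_51f413_gt.CU

/-!
Homogeneity of the universal system.
-/

namespace Pool.Agent.Lib.MP_51f413_gt

open MvPolynomial

/-- The weights of the variables. -/
def cw : CI → ℤ × ℤ × ℤ :=
  cpoint (1, 0, 1) (0, 1, -1) (1, 0, 1) (0, 1, -1) (fun i => ((i : ℤ) + 1, 0, -1))
    (fun j => (0, (j : ℤ) + 1, 1))

/-- Homogeneous elements of degree `(a, b, s)`. -/
def CH (a b s : ℤ) (f : CP) : Prop := IsWeightedHomogeneous cw f (a, b, s)

/-- The shift of the third degree between the components of a vector. -/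
def csc : Fin 4 → ℤ := ![0, 1, -1, 0]

/-- Homogeneous vectors. -/
def CHV (a b s : ℤ) (F : Fin 4 → CP) : Prop := ∀ c, CH a b (s + csc c) (F c)

theorem chom_ind (P : ℤ × ℤ × ℤ → CP → Prop) (hC : ∀ r : ℂ, P 0 (C r))
    (hX : ∀ d f i, IsWeightedHomogeneous cw f d → P d f → P (d + cw i) (f * X i))
    (h0 : ∀ d, P d 0) (hadd : ∀ d f g, P d f → P d g → P d (f + g)) {d : ℤ × ℤ × ℤ} {f : CP}
    (hf : IsWeightedHomogeneous cw f d) : P d f := by
  have key : ∀ (r : ℂ) (m : CI →₀ ℕ), P (Finsupp.weight cw m) (monomial m r) := by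
    intro r m
    induction m using Finsupp.induction₂ with
    | zero => simpa using hC r
    | add_single a b m h1 h2 ih =>
      clear h1 h2
      induction b with
      | zero => simpa using ih
      | succ b ihb =>
        have h3 := hX _ _ a (isWeightedHomogeneous_monomial cw _ r rfl) ihb
        have h4 : m + Finsupp.single a (b + 1) = m + Finsupp.single a b + Finsupp.single a 1 := by
          rw [Finsupp.single_add, add_assoc]
        rw [h4, map_add _ (m + Finsupp.single a b), monomial_add_single, pow_one,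
          Finsupp.weight_single, one_smul]
        exact h3
  induction hf using IsWeightedHomogeneous.induction_on with
  | zero => exact h0 d
  | add p q _ _ hp hq => exact hadd d p q hp hq
  | monomial m r hm => exact hm ▸ key r m

theorem chom_deriv (D : Derivation ℂ CP CP) (t : ℤ × ℤ × ℤ)
    (hD : ∀ i, IsWeightedHomogeneous cw (D (X i)) (cw i + t)) {d : ℤ × ℤ × ℤ} {f : CP}
    (hf : IsWeightedHomogeneous cw f d) : IsWeightedHomogeneous cw (D f) (d + t) := by
  refine chom_ind (fun d f => IsWeightedHomogeneous cw (D f) (d + t)) (fun r => ?_)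
    (fun d f i h1 h2 => ?_) (fun d => ?_) (fun d f g h1 h2 => ?_) hf
  · rw [← algebraMap_eq, Derivation.map_algebraMap]
    exact isWeightedHomogeneous_zero _ _ _
  · rw [Derivation.leibniz, smul_eq_mul, smul_eq_mul]
    refine IsWeightedHomogeneous.add ?_ ?_
    · rw [add_assoc]
      exact h1.mul (hD i)
    · have := (isWeightedHomogeneous_X ℂ cw i).mul h2
      rwa [← add_assoc, add_comm (cw i) d] at this
  · rw [map_zero]
    exact isWeightedHomogeneous_zero _ _ _
  · rw [map_add]
    exact h1.add h2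

theorem chom_cast {a b s a' b' s' : ℤ} {f : CP} (hf : CH a b s f) (ha : a = a') (hb : b = b')
    (hs : s = s') : CH a' b' s' f := by
  subst ha hb hs
  exact hf

theorem chom_zero (a b s : ℤ) : CH a b s 0 := isWeightedHomogeneous_zero _ _ _

theorem chom_add {a b s : ℤ} {f g : CP} (hf : CH a b s f) (hg : CH a b s g) : CH a b s (f + g) :=
  IsWeightedHomogeneous.add hf hg

theorem chom_sub {a b s : ℤ} {f g : CP} (hf : CH a b s f) (hg : CH a b s g) : CH a b s (f - g) :=
  IsWeightedHomogeneous.sub hf hg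

theorem chom_mul {a b s a' b' s' : ℤ} {f g : CP} (hf : CH a b s f) (hg : CH a' b' s' g) :
    CH (a + a') (b + b') (s + s') (f * g) :=
  IsWeightedHomogeneous.mul hf hg

theorem chom_C (r : ℂ) : CH 0 0 0 (C r) := isWeightedHomogeneous_C cw r

theorem chom_nat (n : ℕ) : CH 0 0 0 (n : CP) := by
  simpa using chom_C (n : ℂ)

theorem chom_two : CH 0 0 0 (2 : CP) := by
  simpa using chom_nat 2

theorem chom_h1 : CH 1 0 1 ch1 := isWeightedHomogeneous_X ℂ cw _
theorem chom_h2 : CH 0 1 (-1) ch2 := isWeightedHomogeneous_X ℂ cw _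
theorem chom_e1 : CH 1 0 1 ce1 := isWeightedHomogeneous_X ℂ cw _
theorem chom_e2 : CH 0 1 (-1) ce2 := isWeightedHomogeneous_X ℂ cw _
theorem chom_q (i : ℕ) : CH (i + 1) 0 (-1) (cq i) := isWeightedHomogeneous_X ℂ cw _
theorem chom_p (j : ℕ) : CH 0 (j + 1) 1 (cp j) := isWeightedHomogeneous_X ℂ cw _

theorem chom_K : CH 1 1 0 cK :=
  chom_sub (chom_add (chom_cast (chom_mul chom_e1 chom_e2) (by norm_num) (by norm_num)
    (by norm_num)) (chom_cast (chom_mul chom_h1 chom_h2) (by norm_num) (by norm_num) (by norm_num)))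
    (chom_cast (chom_mul (chom_q 0) (chom_p 0)) (by norm_num) (by norm_num) (by norm_num))

theorem chom_mk1 (c : ℕ → CP) (hc : ∀ j : ℕ, CH 1 (j + 1) 1 (c j)) {a b s : ℤ} {f : CP}
    (hf : CH a b s f) :
    CH (a + 1) b s (mkDerivation ℂ (cpoint 0 0 0 0 (fun i => cq (i + 1)) c) f) := by
  have h := chom_deriv (mkDerivation ℂ (cpoint 0 0 0 0 (fun i => cq (i + 1)) c)) (1, 0, 0)
    (fun i => ?_) hf
  · simpa [CH] using h
  rw [mkDerivation_X]
  rcases i with i | i | j
  · fin_cases i <;> exact isWeightedHomogeneous_zero _ _ _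
  · exact chom_cast (chom_q (i + 1)) (by simp [cw, cpoint]) (by simp [cw, cpoint])
      (by simp [cw, cpoint])
  · exact chom_cast (hc j) (by simp [cw, cpoint]) (by simp [cw, cpoint]) (by simp [cw, cpoint])

theorem chom_mk2 (c : ℕ → CP) (hc : ∀ i : ℕ, CH (i + 1) 1 (-1) (c i)) {a b s : ℤ} {f : CP}
    (hf : CH a b s f) :
    CH a (b + 1) s (mkDerivation ℂ (cpoint 0 0 0 0 c (fun j => cp (j + 1))) f) := by
  have h := chom_deriv (mkDerivation ℂ (cpoint 0 0 0 0 c (fun j => cp (j + 1)))) (0, 1, 0)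
    (fun i => ?_) hf
  · simpa [CH] using h
  rw [mkDerivation_X]
  rcases i with i | i | j
  · fin_cases i <;> exact isWeightedHomogeneous_zero _ _ _
  · exact chom_cast (hc i) (by simp [cw, cpoint]) (by simp [cw, cpoint]) (by simp [cw, cpoint])
  · exact chom_cast (chom_p (j + 1)) (by simp [cw, cpoint]) (by simp [cw, cpoint])
      (by simp [cw, cpoint])

theorem chom_cb (i : ℕ) : CH (i + 1) 1 (-1) (cb i) := by
  induction i with
  | zero => exact chom_zero _ _ _
  | succ i ih =>
    refine chom_add (chom_cast (chom_mk1 _ (fun _ => chom_zero _ _ _) ih) (by simp) rfl rfl) ?_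
    exact chom_cast (chom_mul (chom_mul (chom_mul chom_two (chom_add (chom_nat i) chom_two))
      chom_K) (chom_q i)) (by push_cast; ring) (by norm_num) (by norm_num)

theorem chom_ca (j : ℕ) : CH 1 (j + 1) 1 (ca j) := by
  induction j with
  | zero => exact chom_zero _ _ _
  | succ j ih =>
    refine chom_add (chom_cast (chom_mk2 _ (fun _ => chom_zero _ _ _) ih) rfl (by simp) rfl) ?_
    exact chom_cast (chom_mul (chom_mul (chom_mul chom_two (chom_add (chom_nat j) chom_two))
      chom_K) (chom_p j)) (by norm_num) (by push_cast; ring) (by norm_num)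

theorem ch_d1 {a b s : ℤ} {f : CP} (hf : CH a b s f) : CH (a + 1) b s (cd1 f) :=
  chom_mk1 ca chom_ca hf

theorem ch_d2 {a b s : ℤ} {f : CP} (hf : CH a b s f) : CH a (b + 1) s (cd2 f) :=
  chom_mk2 cb chom_cb hf

theorem chom_comp {a b s : ℤ} {F : Fin 4 → CP} (hF : CHV a b s F) :
    CH a b s (F 0) ∧ CH a b (s + 1) (F 1) ∧ CH a b (s - 1) (F 2) ∧ CH a b s (F 3) :=
  ⟨chom_cast (hF 0) rfl rfl (by simp [csc]), hF 1, hF 2, chom_cast (hF 3) rfl rfl (by simp [csc])⟩

theorem chom_of_comp {a b s : ℤ} {f0 f1 f2 f3 : CP} (h0 : CH a b s f0) (h1 : CH a b (s + 1) f1)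
    (h2 : CH a b (s - 1) f2) (h3 : CH a b s f3) : CHV a b s ![f0, f1, f2, f3] := by
  intro c
  fin_cases c
  · exact chom_cast h0 rfl rfl (by simp [csc])
  · exact h1
  · exact h2
  · exact chom_cast h3 rfl rfl (by simp [csc])

theorem chv_true {a b s : ℤ} {F : Fin 4 → CP} (hF : CHV a b s F) :
    CHV (a + 1) b s (cN true F) := by
  obtain ⟨h0, h1, h2, h3⟩ := chom_comp hF
  refine chom_of_comp (chom_sub (ch_d1 h0) ?_) (chom_sub (chom_add (ch_d1 h1) ?_) ?_)
    (chom_sub (ch_d1 h2) ?_) (chom_add (chom_add (ch_d1 h3) ?_) ?_)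
  · exact chom_cast (chom_mul (chom_mul chom_two chom_e1) h2) (by ring) (by ring) (by ring)
  · exact chom_cast (chom_mul chom_e1 h0) (by ring) (by ring) (by ring)
  · exact chom_cast (chom_mul chom_h1 h3) (by ring) (by ring) (by ring)
  · exact chom_cast (chom_mul (chom_q 0) h3) (by push_cast; ring) (by ring) (by ring)
  · exact chom_cast (chom_mul (chom_mul chom_two (chom_q 0)) h1) (by push_cast; ring) (by ring)
      (by ring)
  · exact chom_cast (chom_mul (chom_mul chom_two chom_h1) h2) (by ring) (by ring) (by ring)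

theorem chv_false {a b s : ℤ} {F : Fin 4 → CP} (hF : CHV a b s F) :
    CHV a (b + 1) s (cN false F) := by
  obtain ⟨h0, h1, h2, h3⟩ := chom_comp hF
  refine chom_of_comp (chom_sub (ch_d2 h0) ?_) (chom_sub (ch_d2 h1) ?_)
    (chom_sub (chom_add (ch_d2 h2) ?_) ?_) (chom_add (chom_add (ch_d2 h3) ?_) ?_)
  · exact chom_cast (chom_mul (chom_mul chom_two chom_e2) h1) (by ring) (by ring) (by ring)
  · exact chom_cast (chom_mul (chom_p 0) h3) (by ring) (by push_cast; ring) (by ring)
  · exact chom_cast (chom_mul chom_e2 h0) (by ring) (by ring) (by ring)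
  · exact chom_cast (chom_mul chom_h2 h3) (by ring) (by ring) (by ring)
  · exact chom_cast (chom_mul (chom_mul chom_two chom_h2) h1) (by ring) (by ring) (by ring)
  · exact chom_cast (chom_mul (chom_mul chom_two (chom_p 0)) h2) (by ring) (by push_cast; ring)
      (by ring)

theorem chv_V (m : ℕ) : CHV m m 0 (cV m) := by
  induction m with
  | zero =>
    exact chom_of_comp (chom_zero _ _ _) (chom_zero _ _ _) (chom_zero _ _ _)
      (isWeightedHomogeneous_one ℂ cw)
  | succ m ih =>
    push_cast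
    exact chv_true (chv_false ih)

theorem chom_epow (k : ℕ) : CH k k 0 ((ce1 * ce2) ^ k) := by
  induction k with
  | zero => exact isWeightedHomogeneous_one ℂ cw
  | succ k ih =>
    rw [pow_succ]
    exact chom_cast (chom_mul ih (chom_mul chom_e1 chom_e2)) (by push_cast; ring)
      (by push_cast; ring) (by ring)

theorem chv_rel (N : ℕ) (r : ℕ → ℂ) (w : List Bool) :
    CHV ((N + w.count true : ℕ) : ℤ) ((N + w.count false : ℕ) : ℤ) 0 (Rel N r w) := by
  induction w with
  | nil =>
    intro c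
    refine chom_add (chv_V N c) (IsWeightedHomogeneous.sum _ _ _ fun j hj => ?_)
    have hj' := (Finset.mem_range.1 hj).le
    exact chom_cast (chom_mul (chom_mul (chom_C (r j)) (chom_epow (N - j))) (chv_V j c))
      (by simp [hj']) (by simp [hj']) (by ring)
  | cons b w ih =>
    change CHV _ _ 0 (cN b (Rel N r w))
    cases b
    · simpa [add_assoc] using chv_false ih
    · simpa [add_assoc] using chv_true ih

theorem chom_E {d : ℤ × ℤ × ℤ} {f : CP} (hf : IsWeightedHomogeneous cw f d) :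
    cE f = ((d.1 - d.2.1 - d.2.2 : ℤ) : CP) * f := by
  refine chom_ind (fun d f => cE f = ((d.1 - d.2.1 - d.2.2 : ℤ) : CP) * f) (fun r => ?_)
    (fun d f i _ h2 => ?_) (fun d => by simp) (fun d f g h1 h2 => ?_) hf
  · simp [← algebraMap_eq]
  · have hX : cE (X i) = (((cw i).1 - (cw i).2.1 - (cw i).2.2 : ℤ) : CP) * X i := by
      rcases i with i | i | j
      · fin_cases i <;> simp [cE, mkDerivation_X, cpoint, cw]
      · simp only [cE, mkDerivation_X, cpoint, cw, Sum.elim_inr, Sum.elim_inl, cq]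
        push_cast
        ring
      · simp only [cE, mkDerivation_X, cpoint, cw, Sum.elim_inr, cp]
        push_cast
        ring
    rw [Derivation.leibniz, smul_eq_mul, smul_eq_mul, h2, hX]
    simp only [Prod.fst_add, Prod.snd_add]
    push_cast
    ring
  · rw [map_add, h1, h2, mul_add]

/-- Homogeneous elements are eigenvectors of the charge. -/
theorem ch_E {a b s : ℤ} {f : CP} (hf : CH a b s f) : cE f = ((a - b - s : ℤ) : CP) * f := by
  have h := chom_E hf
  dsimp only at h
  exact h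

theorem cE_d1 (f : CP) : cE (cd1 f) - cd1 (cE f) = cd1 f := by
  induction f using MvPolynomial.induction_on with
  | C c => simp [← algebraMap_eq]
  | add f g hf hg => simp only [map_add]; linear_combination hf + hg
  | mul_X f i hf =>
    have h1 : CH (cw i).1 (cw i).2.1 (cw i).2.2 (X i) := isWeightedHomogeneous_X ℂ cw i
    have hX : cE (cd1 (X i)) - cd1 (cE (X i)) = cd1 (X i) := by
      rw [ch_E (ch_d1 h1), ch_E h1, Derivation.leibniz, Derivation.map_intCast]
      simp only [smul_eq_mul]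
      push_cast
      ring
    simp only [Derivation.leibniz, map_add, smul_eq_mul]
    linear_combination f * hX + X i * hf

theorem cE_d2 (f : CP) : cE (cd2 f) - cd2 (cE f) = -cd2 f := by
  induction f using MvPolynomial.induction_on with
  | C c => simp [← algebraMap_eq]
  | add f g hf hg => simp only [map_add]; linear_combination hf + hg
  | mul_X f i hf =>
    have h1 : CH (cw i).1 (cw i).2.1 (cw i).2.2 (X i) := isWeightedHomogeneous_X ℂ cw i
    have hX : cE (cd2 (X i)) - cd2 (cE (X i)) = -cd2 (X i) := by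
      rw [ch_E (ch_d2 h1), ch_E h1, Derivation.leibniz, Derivation.map_intCast]
      simp only [smul_eq_mul]
      push_cast
      ring
    simp only [Derivation.leibniz, map_add, smul_eq_mul]
    linear_combination f * hX + X i * hf

/-- Evaluation at a rescaled point. -/
theorem ch_scale {K : Type} [Field K] [Algebra ℂ K] {a b s : ℤ} {f : CP} (hf : CH a b s f)
    (h1 h2 e1 e2 : K) (q p : ℕ → K) (μ1 μ2 σ : K) (hμ1 : μ1 ≠ 0) (hμ2 : μ2 ≠ 0) (hσ : σ ≠ 0) :
    aeval (cpoint (h1 * (μ1 * σ)) (h2 * (μ2 / σ)) (e1 * (μ1 * σ)) (e2 * (μ2 / σ))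
      (fun i => q i * μ1 ^ (i + 1) / σ) (fun j => p j * μ2 ^ (j + 1) * σ)) f =
      μ1 ^ a * μ2 ^ b * σ ^ s * aeval (cpoint h1 h2 e1 e2 q p) f := by
  refine chom_ind (fun d f => aeval (cpoint (h1 * (μ1 * σ)) (h2 * (μ2 / σ)) (e1 * (μ1 * σ))
      (e2 * (μ2 / σ)) (fun i => q i * μ1 ^ (i + 1) / σ) (fun j => p j * μ2 ^ (j + 1) * σ)) f =
      μ1 ^ d.1 * μ2 ^ d.2.1 * σ ^ d.2.2 * aeval (cpoint h1 h2 e1 e2 q p) f) (fun r => by simp)
    (fun d f i _ h => ?_) (fun d => by simp) (fun d f g h h' => ?_) hf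
  · have hX : cpoint (h1 * (μ1 * σ)) (h2 * (μ2 / σ)) (e1 * (μ1 * σ))
        (e2 * (μ2 / σ)) (fun i => q i * μ1 ^ (i + 1) / σ) (fun j => p j * μ2 ^ (j + 1) * σ) i =
        μ1 ^ (cw i).1 * μ2 ^ (cw i).2.1 * σ ^ (cw i).2.2 * cpoint h1 h2 e1 e2 q p i := by
      rcases i with i | i | j
      · fin_cases i <;> simp [cpoint, cw] <;> ring
      · simp only [cpoint, cw, Sum.elim_inr, Sum.elim_inl, zpow_add₀ hμ1, zpow_natCast, zpow_one,
          zpow_zero, zpow_neg]
        ring
      · simp only [cpoint, cw, Sum.elim_inr, zpow_add₀ hμ2, zpow_natCast, zpow_one, zpow_zero]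
        ring
    rw [map_mul, map_mul, aeval_X, aeval_X, h, hX]
    simp only [Prod.fst_add, Prod.snd_add, zpow_add₀ hμ1, zpow_add₀ hμ2, zpow_add₀ hσ]
    ring
  · rw [map_add, map_add, h, h', mul_add]

theorem chom_cw_nonneg (i : CI) : 0 ≤ (cw i).1 ∧ 0 ≤ (cw i).2.1 := by
  rcases i with i | i | j
  · fin_cases i <;> simp [cpoint, cw]
  · simp only [cpoint, cw, Sum.elim_inr, Sum.elim_inl]
    omega
  · simp only [cpoint, cw, Sum.elim_inr]
    omega

theorem chom_nonneg {d : ℤ × ℤ × ℤ} {f : CP} (hf : IsWeightedHomogeneous cw f d) :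
    f = 0 ∨ (0 ≤ d.1 ∧ 0 ≤ d.2.1) := by
  refine chom_ind (fun d f => f = 0 ∨ (0 ≤ d.1 ∧ 0 ≤ d.2.1)) (fun r => Or.inr (by simp))
    (fun d f i _ h => ?_) (fun d => Or.inl rfl) (fun d f g h h' => ?_) hf
  · rcases h with h | h
    · exact Or.inl (by rw [h, zero_mul])
    · exact Or.inr ⟨add_nonneg h.1 (chom_cw_nonneg i).1, add_nonneg h.2 (chom_cw_nonneg i).2⟩
  · rcases h with h | h
    · rwa [h, zero_add]
    · exact Or.inr h

/-- A homogeneous element involves only jets of bounded order. -/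
theorem ch_supp {R : Type} [CommRing R] [Algebra ℂ R] {a b s : ℤ} {f : CP} (hf : CH a b s f)
    (h1 h2 e1 e2 : R) (q p q' p' : ℕ → R) (hq : ∀ i : ℕ, (i : ℤ) + 1 ≤ a → q i = q' i)
    (hp : ∀ j : ℕ, (j : ℤ) + 1 ≤ b → p j = p' j) :
    aeval (cpoint h1 h2 e1 e2 q p) f = aeval (cpoint h1 h2 e1 e2 q' p') f := by
  refine chom_ind (fun d f => (∀ i : ℕ, (i : ℤ) + 1 ≤ d.1 → q i = q' i) →
      (∀ j : ℕ, (j : ℤ) + 1 ≤ d.2.1 → p j = p' j) →
      aeval (cpoint h1 h2 e1 e2 q p) f = aeval (cpoint h1 h2 e1 e2 q' p') f)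
    (fun r _ _ => by simp) (fun d f i h0 h hq hp => ?_) (fun d _ _ => by simp)
    (fun d f g h h' hq hp => ?_) hf hq hp
  · rcases chom_nonneg h0 with h3 | h3
    · simp [h3]
    have h4 := chom_cw_nonneg i
    simp only [Prod.fst_add, Prod.snd_add] at hq hp
    have hX : cpoint h1 h2 e1 e2 q p i = cpoint h1 h2 e1 e2 q' p' i := by
      rcases i with i | i | j
      · rfl
      · refine hq i ?_
        simp only [cpoint, cw, Sum.elim_inr, Sum.elim_inl]
        omega
      · refine hp j ?_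
        simp only [cpoint, cw, Sum.elim_inr]
        omega
    rw [map_mul, map_mul, aeval_X, aeval_X, hX,
      h (fun k hk => hq k (by omega)) (fun k hk => hp k (by omega))]
  · rw [map_add, map_add, h hq hp, h' hq hp]

end Pool.Agent.Lib.MP_51f413_gt
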