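import Pool.Agent.Lib.MP_51f413_gt.CFold1
import Pool.Agent.Lib.MP_51f413_gt.CHom
import Pool.Agent.Lib.MP_51f413_gt.Alg
import Pool.Agent.Lib.MP_51f413_gt.CUEq

/-!
The limit system has only solutions with `q p = 0`.
-/

namespace Pool.Agent.Lib.MP_51f413_gt

open MvPolynomial

theorem cf2_ext {K σ : Type} [CommRing K] [Algebra ℂ K] (d : Derivation ℂ K K)
    (v : σ → MvPolynomial σ K) :
    ∃ D : Derivation ℂ (MvPolynomial σ K) (MvPolynomial σ K),
      (∀ k, D (C k) = C (d k)) ∧ ∀ i, D (X i) = v i := by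
  let ψ : K →+* TrivSqZeroExt (MvPolynomial σ K) (MvPolynomial σ K) :=
    { toFun := fun f => (C f, C (d f))
      map_one' := TrivSqZeroExt.ext (map_one _) (by
        change C (d 1) = 0
        rw [d.map_one_eq_zero, map_zero])
      map_mul' := fun f g => TrivSqZeroExt.ext (map_mul _ _ _) (by
        change C (d (f * g)) = C f * C (d g) + C (d f) * C g
        rw [d.leibniz, smul_eq_mul, smul_eq_mul, map_add, map_mul, map_mul]
        ring)
      map_zero' := TrivSqZeroExt.ext (map_zero _) (by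
        change C (d 0) = 0
        rw [map_zero, map_zero])
      map_add' := fun f g => TrivSqZeroExt.ext (map_add _ _ _) (by
        change C (d (f + g)) = C (d f) + C (d g)
        rw [map_add, map_add]) }
  let φ : MvPolynomial σ K →+* TrivSqZeroExt (MvPolynomial σ K) (MvPolynomial σ K) :=
    eval₂Hom ψ fun i => (X i, v i)
  have hC : ∀ k, φ (C k) = ψ k := fun k => eval₂Hom_C _ _ _
  have hX : ∀ i, φ (X i) = (X i, v i) := fun i => eval₂Hom_X' _ _ _
  have hfst : ∀ s, (φ s).fst = s := by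
    intro s
    induction s using MvPolynomial.induction_on with
    | C c => rw [hC]; rfl
    | add f g hf hg => rw [map_add, TrivSqZeroExt.fst_add, hf, hg]
    | mul_X f i hf => rw [map_mul, TrivSqZeroExt.fst_mul, hf, hX]; rfl
  have hmul : ∀ a b, (φ (a * b)).snd = a * (φ b).snd + b * (φ a).snd := fun a b => by
    rw [map_mul, TrivSqZeroExt.snd_mul, hfst, hfst]
    simp [mul_comm]
  have hc : ∀ c : ℂ, (φ (algebraMap ℂ _ c)).snd = 0 := fun c => by
    rw [IsScalarTower.algebraMap_apply ℂ K (MvPolynomial σ K), algebraMap_eq, hC]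
    change C (d _) = 0
    rw [Derivation.map_algebraMap, map_zero]
  let D : MvPolynomial σ K →ₗ[ℂ] MvPolynomial σ K :=
    { toFun := fun s => (φ s).snd
      map_add' := fun a b => by rw [map_add, TrivSqZeroExt.snd_add]
      map_smul' := fun c a => by
        rw [Algebra.smul_def, hmul, hc, mul_zero, add_zero, RingHom.id_apply, Algebra.smul_def] }
  refine ⟨Derivation.mk' D fun a b => hmul a b, fun k => ?_, fun i => ?_⟩
  · change (φ (C k)).snd = _
    rw [hC]; rfl
  · change (φ (X i)).snd = _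
    rw [hX]; rfl

theorem cf2_poly_comm {K σ : Type} [CommRing K] [Algebra ℂ K]
    (D D' E : Derivation ℂ (MvPolynomial σ K) (MvPolynomial σ K)) (c : MvPolynomial σ K)
    (hC : ∀ k, D (D' (C k)) - D' (D (C k)) = c * E (C k))
    (hX : ∀ i, D (D' (X i)) - D' (D (X i)) = c * E (X i)) (f : MvPolynomial σ K) :
    D (D' f) - D' (D f) = c * E f := by
  induction f using MvPolynomial.induction_on with
  | C k => exact hC k
  | add f g hf hg => simp only [map_add]; linear_combination hf + hg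
  | mul_X f i hf =>
    simp only [Derivation.leibniz, map_add, smul_eq_mul]
    linear_combination f * hX i + X i * hf

theorem cf2_frac_comm {R L : Type} [CommRing R] [IsDomain R] [Field L] [Algebra R L]
    [IsFractionRing R L] [Algebra ℂ L] (D D' E : Derivation ℂ L L) (c : L)
    (h : ∀ a : R, D (D' (algebraMap R L a)) - D' (D (algebraMap R L a)) = c * E (algebraMap R L a))
    (z : L) : D (D' z) - D' (D z) = c * E z := by
  obtain ⟨a, b, hb, rfl⟩ := IsFractionRing.div_surjective (A := R) z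
  have hb0 : algebraMap R L b ≠ 0 :=
    IsFractionRing.to_map_ne_zero_of_mem_nonZeroDivisors hb
  have ha := h a
  have hb' := h b
  generalize hz : algebraMap R L a / algebraMap R L b = z
  have e : algebraMap R L a = algebraMap R L b * z := by rw [← hz]; field_simp
  rw [e] at ha
  simp only [Derivation.leibniz, map_add, smul_eq_mul] at ha
  refine mul_left_cancel₀ hb0 ?_
  linear_combination ha - z * hb'

theorem cf2_N1 {R S : Type} [CommRing R] [Algebra ℂ R] [CommRing S] [Algebra ℂ S] (φ : R →+* S)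
    (d : Derivation ℂ R R) (D : Derivation ℂ S S) (hd : ∀ f, D (φ f) = φ (d f)) (h e q : R)
    (F : Fin 4 → R) : φ ∘ N1 d h e q F = N1 D (φ h) (φ e) (φ q) (φ ∘ F) := by
  funext c
  fin_cases c <;> simp [N1, hd, map_ofNat]

theorem cf2_N2 {R S : Type} [CommRing R] [Algebra ℂ R] [CommRing S] [Algebra ℂ S] (φ : R →+* S)
    (d : Derivation ℂ R R) (D : Derivation ℂ S S) (hd : ∀ f, D (φ f) = φ (d f)) (h e q : R)
    (F : Fin 4 → R) : φ ∘ N2 d h e q F = N2 D (φ h) (φ e) (φ q) (φ ∘ F) := by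
  funext c
  fin_cases c <;> simp [N2, hd, map_ofNat]

theorem cf2_stable {R : Type} [CommRing R] [Algebra ℂ R] (d : Derivation ℂ R R) (s : Set R)
    (h : ∀ f ∈ s, d f ∈ Ideal.span s) (f : R) (hf : f ∈ Ideal.span s) : d f ∈ Ideal.span s := by
  induction hf using Submodule.span_induction with
  | mem f hf => exact h f hf
  | zero => simp
  | add f g _ _ hf hg => rw [map_add]; exact add_mem hf hg
  | smul a f hf' hf =>
    rw [smul_eq_mul, d.leibniz, smul_eq_mul, smul_eq_mul]
    exact add_mem (Ideal.mul_mem_left _ _ hf) (Ideal.mul_mem_right _ _ hf')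

theorem cf2_mem1 {R : Type} [CommRing R] [Algebra ℂ R] (d : Derivation ℂ R R) (h e q : R)
    (F : Fin 4 → R) (I : Ideal R) (h1 : ∀ c, F c ∈ I) (h2 : ∀ c, N1 d h e q F c ∈ I) (c : Fin 4) :
    d (F c) ∈ I := by
  fin_cases c
  · simpa [N1] using I.add_mem (h2 0) (I.mul_mem_left (2 * e) (h1 2))
  · have := I.add_mem (I.sub_mem (h2 1) (I.mul_mem_left e (h1 0))) (I.mul_mem_left h (h1 3))
    convert this using 1
    simp [N1]; ring
  · simpa [N1] using I.add_mem (h2 2) (I.mul_mem_left q (h1 3))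
  · have := I.sub_mem (I.sub_mem (h2 3) (I.mul_mem_left (2 * h) (h1 2)))
      (I.mul_mem_left (2 * q) (h1 1))
    simpa [N1] using this

theorem cf2_mem2 {R : Type} [CommRing R] [Algebra ℂ R] (d : Derivation ℂ R R) (h e q : R)
    (F : Fin 4 → R) (I : Ideal R) (h1 : ∀ c, F c ∈ I) (h2 : ∀ c, N2 d h e q F c ∈ I) (c : Fin 4) :
    d (F c) ∈ I := by
  fin_cases c
  · simpa [N2] using I.add_mem (h2 0) (I.mul_mem_left (2 * e) (h1 1))
  · simpa [N2] using I.add_mem (h2 1) (I.mul_mem_left q (h1 3))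
  · have := I.add_mem (I.sub_mem (h2 2) (I.mul_mem_left e (h1 0))) (I.mul_mem_left h (h1 3))
    convert this using 1
    simp [N2]; ring
  · have := I.sub_mem (I.sub_mem (h2 3) (I.mul_mem_left (2 * q) (h1 2)))
      (I.mul_mem_left (2 * h) (h1 1))
    simpa [N2] using this

theorem fold_field {K : Type} [Field K] [Algebra ℂ K] (d1 d2 E : Derivation ℂ K K) (h e q p : K)
    (c12 : ∀ f, d2 (d1 f) - d1 (d2 f) = -(2 * (q * p)) * E f)
    (cE1 : ∀ f, E (d1 f) - d1 (E f) = d1 f) (cE2 : ∀ f, E (d2 f) - d2 (E f) = -d2 f)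
    (hh : d1 h = 0 ∧ d2 h = 0 ∧ E h = 0) (he : d1 e = 0 ∧ d2 e = 0 ∧ E e = 0)
    (hq : d2 q = 0 ∧ E q = 2 * q) (hp : d1 p = 0 ∧ E p = -(2 * p))
    (q0 : q ≠ 0) (p0 : p ≠ 0) (V : ℕ → Fin 4 → K) (V0 : V 0 = ![0, 0, 0, 1])
    (hV : ∀ m, V (m + 1) = N1 d1 h e q (N2 d2 0 0 p (V m))) (N : ℕ) : V N ≠ 0 := by
  have : CharZero K := charZero_of_injective_algebraMap (algebraMap ℂ K).injective
  obtain ⟨c, hc, c1, c2, c3⟩ : ∃ c : K, 2 * c = 1 ∧ d1 c = 0 ∧ d2 c = 0 ∧ E c = 0 := by
    refine ⟨algebraMap ℂ K (1 / 2), ?_, by simp only [Derivation.map_algebraMap],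
      by simp only [Derivation.map_algebraMap], by simp only [Derivation.map_algebraMap]⟩
    rw [← map_ofNat (algebraMap ℂ K) 2, ← map_mul]
    norm_num
  have hc' : (2 : MvPolynomial (Fin 4) K) * C c = 1 := by
    rw [← map_ofNat (C : K →+* MvPolynomial (Fin 4) K) 2, ← map_mul, hc, map_one]
  obtain ⟨D1, a1, b1⟩ := cf2_ext (σ := Fin 4) d1 ![C q * X 1, 0, C q * X 3, 0]
  obtain ⟨D2, a2, b2⟩ := cf2_ext (σ := Fin 4) d2 ![0, -(C p * X 0), 0, -(C p * X 2)]
  obtain ⟨D3, a3, b3⟩ := cf2_ext (σ := Fin 4) E ![C c * X 0, -(C c * X 1), C c * X 2, -(C c * X 3)]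
  have k12 := cf2_poly_comm D2 D1 D3 (-(2 * (C q * C p)))
    (fun k => by
      simp only [a1, a2, a3]
      rw [← map_sub, c12]; simp [map_ofNat])
    (fun i => by
      fin_cases i <;> simp [a1, a2, b1, b2, b3, hq.1, hp.1]
      · linear_combination (-(C q * C p * X 0)) * hc'
      · linear_combination (-(C q * C p * X 1)) * hc'
      · linear_combination (-(C q * C p * X 2)) * hc'
      · linear_combination (-(C q * C p * X 3)) * hc')
  have k1 := cf2_poly_comm D3 D1 D1 1
    (fun k => by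
      simp only [a1, a3]
      rw [← map_sub, cE1, one_mul])
    (fun i => by
      fin_cases i <;> simp [a1, a3, b1, b3, hq.2, c1, map_ofNat]
      · linear_combination (-(C q * X 1)) * hc'
      · linear_combination (-(C q * X 3)) * hc')
  have k2 := cf2_poly_comm D3 D2 D2 (-1)
    (fun k => by
      simp only [a2, a3]
      rw [← map_sub, cE2]; simp)
    (fun i => by
      fin_cases i <;> simp [a2, a3, b2, b3, hp.2, c2, map_ofNat]
      · linear_combination (-(C p * X 0)) * hc'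
      · linear_combination (-(C p * X 2)) * hc')
  let P := MvPolynomial (Fin 4) K
  let L := FractionRing P
  obtain ⟨e1, f1⟩ := exists_loc_deriv (S := L) (nonZeroDivisors P) D1
  obtain ⟨e2, f2⟩ := exists_loc_deriv (S := L) (nonZeroDivisors P) D2
  obtain ⟨e3, f3⟩ := exists_loc_deriv (S := L) (nonZeroDivisors P) D3
  let α : P →+* L := algebraMap P L
  have hα : ∀ f, α f = 0 ↔ f = 0 := fun f => map_eq_zero_iff _ (IsFractionRing.injective _ _)
  let ι : K →+* L := α.comp C
  have hι : ∀ k, ι k = α (C k) := fun k => rfl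
  have g1 : ∀ k, e1 (ι k) = ι (d1 k) := fun k => by rw [hι, hι, f1, a1]
  have g2 : ∀ k, e2 (ι k) = ι (d2 k) := fun k => by rw [hι, hι, f2, a2]
  have g3 : ∀ k, e3 (ι k) = ι (E k) := fun k => by rw [hι, hι, f3, a3]
  have hc2 : (2 : L) * α (C c) = 1 := by
    rw [← map_ofNat α 2, ← map_mul, hc', map_one]
  have key := fold_abs e1 e2 e3 (ι h) (ι e) (ι q) (ι p) (α (X 0)) (α (X 1)) (α (X 2)) (α (X 3))
    (cf2_frac_comm (R := P) e2 e1 e3 _ fun a => by
      rw [f1, f2, f2, f1, f3, ← map_sub, k12]; simp [hι, α, map_ofNat]; ring)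
    (fun z => by
      rw [cf2_frac_comm (R := P) e3 e1 e1 1 (fun a => by
        rw [f1, f3, f3, f1, ← map_sub, k1]; simp) z, one_mul])
    (fun z => by
      rw [cf2_frac_comm (R := P) e3 e2 e2 (-1) (fun a => by
        rw [f2, f3, f3, f2, ← map_sub, k2]; simp; ring) z, neg_one_mul])
    (by simp [g1, g2, g3, hh.1, hh.2.1, hh.2.2]) (by simp [g1, g2, g3, he.1, he.2.1, he.2.2])
    (by simp [g2, g3, hq.1, hq.2, map_ofNat]) (by simp [g1, g3, hp.1, hp.2, map_ofNat])
    ⟨by rw [f1, b1]; simp [hι, α], by rw [f2, b2]; simp, by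
      rw [f3, b3]; simp only [Matrix.cons_val_zero, map_mul]; linear_combination α (X 0) * hc2⟩
    ⟨by rw [f1, b1]; simp, by rw [f2, b2]; simp [hι, α], by
      rw [f3, b3]; simp only [Matrix.cons_val_one, Matrix.cons_val_zero, map_mul, map_neg]
      linear_combination (-α (X 1)) * hc2⟩
    ⟨by rw [f1, b1]; simp [hι, α], by rw [f2, b2]; simp, by
      rw [f3, b3]; simp only [Matrix.cons_val, map_mul]; linear_combination α (X 2) * hc2⟩
    ⟨by rw [f1, b1]; simp, by rw [f2, b2]; simp [hι, α], by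
      rw [f3, b3]; simp only [Matrix.cons_val, map_mul, map_neg]
      linear_combination (-α (X 3)) * hc2⟩
    ((map_ne_zero ι).2 q0) ((map_ne_zero ι).2 p0)
    (fun h => X_ne_zero _ ((hα _).1 h)) (fun h => X_ne_zero _ ((hα _).1 h))
    (by
      rw [← map_mul, ← map_mul, ← map_sub, Ne, hα]
      intro h0
      have := congrArg (eval ![1, 0, 0, 1]) h0
      simp at this)
    (fun m => ι ∘ V m) (by rw [V0]; funext c; fin_cases c <;> simp)
    (fun m => by rw [hV, cf2_N1 ι d1 e1 g1, cf2_N2 ι d2 e2 g2, map_zero]) N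
  intro h0
  apply key
  rw [h0]
  funext c
  simp

theorem cert_fold (N : ℕ) (r : ℕ → ℂ) : ∃ L : ℕ, ∀ i ≤ N, ∀ j ≤ N, cq i * cp j ∈
    (Ideal.span ({ch2, ce2} ∪
      {f | ∃ (w : List Bool) (c : Fin 4), w.length ≤ L ∧ f = Rel N r w c})).radical := by
  let S : ℕ → Set CP := fun L => {ch2, ce2} ∪
      {f | ∃ (w : List Bool) (c : Fin 4), w.length ≤ L ∧ f = Rel N r w c}
  have mono : ∀ {L L' : ℕ}, L ≤ L' → Ideal.span (S L) ≤ Ideal.span (S L') := by
    intro L L' h
    refine Ideal.span_mono (Set.union_subset_union_right _ ?_)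
    rintro f ⟨w, c, hw, rfl⟩
    exact ⟨w, c, hw.trans h, rfl⟩
  let T : Set CP := {ch2, ce2} ∪ {f | ∃ (w : List Bool) (c : Fin 4), f = Rel N r w c}
  have fin : ∀ f ∈ Ideal.span T, ∃ L, f ∈ Ideal.span (S L) := by
    intro f hf
    induction hf using Submodule.span_induction with
    | mem f hf =>
      rcases hf with hf | ⟨w, c, rfl⟩
      · exact ⟨0, Ideal.subset_span (Or.inl hf)⟩
      · exact ⟨w.length, Ideal.subset_span (Or.inr ⟨w, c, le_rfl, rfl⟩)⟩
    | zero => exact ⟨0, zero_mem _⟩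
    | add f g _ _ hf hg =>
      obtain ⟨a, ha⟩ := hf
      obtain ⟨b, hb⟩ := hg
      exact ⟨max a b, add_mem (mono (le_max_left _ _) ha) (mono (le_max_right _ _) hb)⟩
    | smul a f _ hf =>
      obtain ⟨b, hb⟩ := hf
      exact ⟨b, Ideal.mul_mem_left _ _ hb⟩
  have hR : ∀ w c, Rel N r w c ∈ Ideal.span T := fun w c => Ideal.subset_span (Or.inr ⟨w, c, rfl⟩)
  have s1 : ∀ f ∈ Ideal.span T, cd1 f ∈ Ideal.span T := cf2_stable _ _ (by
    rintro f ((rfl | rfl) | ⟨w, c, rfl⟩)
    · simp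
    · simp
    · exact cf2_mem1 cd1 ch1 ce1 (cq 0) _ _ (hR w) (hR (true :: w)) c)
  have s2 : ∀ f ∈ Ideal.span T, cd2 f ∈ Ideal.span T := cf2_stable _ _ (by
    rintro f ((rfl | rfl) | ⟨w, c, rfl⟩)
    · simp
    · simp
    · exact cf2_mem2 cd2 ch2 ce2 (cp 0) _ _ (hR w) (hR (false :: w)) c)
  have s3 : ∀ f ∈ Ideal.span T, cE f ∈ Ideal.span T := cf2_stable _ _ (by
    rintro f ((rfl | rfl) | ⟨w, c, rfl⟩)
    · simp
    · simp
    · rw [ch_E (chv_rel N r w c)]
      exact Ideal.mul_mem_left _ _ (hR w c))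
  have main : ∀ i j, cq i * cp j ∈ (Ideal.span T).radical := by
    intro i j
    rw [Ideal.radical_eq_sInf, Submodule.mem_sInf]
    rintro p0 ⟨hp0, hp0'⟩
    obtain ⟨p, hp, hpp⟩ := Ideal.exists_minimalPrimes_le hp0
    refine hpp ?_
    have hprime : p.IsPrime := hp.1.1
    have stab : ∀ d : Derivation ℂ CP CP, (∀ f ∈ Ideal.span T, d f ∈ Ideal.span T) →
        ∀ f ∈ p, d f ∈ p := by
      intro d hd f hf
      obtain ⟨q, hq, hs, h1, h2⟩ := exists_stable_prime d _ p hd hprime hp.1.2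
      exact h2 (hs f (hp.2 ⟨hq, h1⟩ h2 hf))
    by_contra hcon
    have hq0 : cq 0 ∉ p := by
      intro h0
      have : ∀ i, cq i ∈ p := fun i => by
        induction i with
        | zero => exact h0
        | succ i ih => simpa using stab _ s1 _ ih
      exact hcon (p.mul_mem_right _ (this i))
    have hp0 : cp 0 ∉ p := by
      intro h0
      have : ∀ i, cp i ∈ p := fun i => by
        induction i with
        | zero => exact h0
        | succ i ih => simpa using stab _ s2 _ ih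
      exact hcon (p.mul_mem_left _ (this j))
    obtain ⟨d1, f1⟩ := exists_toF_deriv p cd1 (stab _ s1)
    obtain ⟨d2, f2⟩ := exists_toF_deriv p cd2 (stab _ s2)
    obtain ⟨d3, f3⟩ := exists_toF_deriv p cE (stab _ s3)
    have z1 : toF p ch2 = 0 := (toF_eq_zero p _).2 (hp.1.2 (Ideal.subset_span (Or.inl (by simp))))
    have z2 : toF p ce2 = 0 := (toF_eq_zero p _).2 (hp.1.2 (Ideal.subset_span (Or.inl (by simp))))
    have surj : ∀ a : CP ⧸ p, ∃ f, algebraMap _ (FractionRing (CP ⧸ p)) a = toF p f := by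
      intro a
      obtain ⟨f, rfl⟩ := Ideal.Quotient.mk_surjective a
      exact ⟨f, rfl⟩
    refine fold_field d1 d2 d3 (toF p ch1) (toF p ce1) (toF p (cq 0)) (toF p (cp 0))
      (cf2_frac_comm (R := CP ⧸ p) d2 d1 d3 _ fun a => by
        obtain ⟨f, hf⟩ := surj a
        rw [hf, f1, f2, f2, f1, f3, ← map_sub, c_comm]
        simp [cK, z1, z2, map_ofNat])
      (fun z => by
        rw [cf2_frac_comm (R := CP ⧸ p) d3 d1 d1 1 (fun a => by
          obtain ⟨f, hf⟩ := surj a
          rw [hf, f1, f3, f3, f1, ← map_sub, cE_d1, one_mul]) z, one_mul])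
      (fun z => by
        rw [cf2_frac_comm (R := CP ⧸ p) d3 d2 d2 (-1) (fun a => by
          obtain ⟨f, hf⟩ := surj a
          rw [hf, f2, f3, f3, f2, ← map_sub, cE_d2]; simp) z, neg_one_mul])
      (by simp [f1, f2, f3]) (by simp [f1, f2, f3]) (by simp [f2, f3, map_ofNat])
      (by simp [f1, f3, map_ofNat])
      (fun h => hq0 ((toF_eq_zero p _).1 h)) (fun h => hp0 ((toF_eq_zero p _).1 h))
      (fun m => (toF p : CP →+* _) ∘ cV m) (by funext c; fin_cases c <;> simp [cV])
      (fun m => ?_) N ?_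
    · have e : cV (m + 1) = N1 cd1 ch1 ce1 (cq 0) (N2 cd2 ch2 ce2 (cp 0) (cV m)) := rfl
      rw [e, cf2_N1 (toF p : CP →+* _) cd1 d1 f1, cf2_N2 (toF p : CP →+* _) cd2 d2 f2]
      simp only [RingHom.coe_coe, z1, z2]
    · funext c
      have h1 : toF p (cW N r c) = 0 := (toF_eq_zero p _).2 (hp.1.2 (hR [] c))
      rw [cW, map_add, map_sum, Finset.sum_eq_zero, add_zero] at h1
      · exact h1
      · intro k hk
        have : N - k ≠ 0 := by
          have := Finset.mem_range.1 hk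
          omega
        simp [z2, this]
  have main2 : ∀ i j, ∃ L, cq i * cp j ∈ (Ideal.span (S L)).radical := by
    intro i j
    obtain ⟨n, hn⟩ := main i j
    obtain ⟨L, hL⟩ := fin _ hn
    exact ⟨L, n, hL⟩
  choose L hL using main2
  refine ⟨(Finset.range (N + 1) ×ˢ Finset.range (N + 1)).sup fun x => L x.1 x.2,
    fun i hi j hj => Ideal.radical_mono (mono ?_) (hL i j)⟩
  exact Finset.le_sup (f := fun x : ℕ × ℕ => L x.1 x.2) (b := (i, j))
    (by simp only [Finset.mem_product, Finset.mem_range]; omega)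

end Pool.Agent.Lib.MP_51f413_gt
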