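import Pool.Agent.Lib.MP_51f413_gt.CU
import Pool.Agent.Lib.MP_51f413_gt.CUEq

/-!
Linearisation of the universal system in the jets `p`.
-/

namespace Pool.Agent.Lib.MP_51f413_gt

open MvPolynomial

/-- The ideal of negligible terms. -/
noncomputable def cB : Ideal CP := Ideal.span {ch2, ce2} ⊔ Ideal.span (Set.range cp) ^ 2

/-- The ideal of terms of positive order. -/
noncomputable def clinA : Ideal CP := Ideal.span {ch2, ce2} ⊔ Ideal.span (Set.range cp)

theorem clin_span (D : Derivation ℂ CP CP) (s : Set CP) (J : Ideal CP) (hs : Ideal.span s ≤ J)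
    (h : ∀ f ∈ s, D f ∈ J) (f : CP) (hf : f ∈ Ideal.span s) : D f ∈ J := by
  induction hf using Submodule.span_induction with
  | mem f hf => exact h f hf
  | zero => simp
  | add f g _ _ hf hg => simpa using add_mem hf hg
  | smul a f hf' hf =>
    rw [smul_eq_mul, Derivation.leibniz]
    exact add_mem (J.mul_mem_left _ hf) (J.mul_mem_right _ (hs hf'))

theorem clin_sup (D : Derivation ℂ CP CP) {I I' J : Ideal CP} (h : ∀ f ∈ I, D f ∈ J)
    (h' : ∀ f ∈ I', D f ∈ J) (f : CP) (hf : f ∈ I ⊔ I') : D f ∈ J := by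
  obtain ⟨a, ha, b, hb, rfl⟩ := Submodule.mem_sup.1 hf
  rw [map_add]
  exact add_mem (h a ha) (h' b hb)

theorem clin_h2 : ch2 ∈ cB := Ideal.mem_sup_left (Ideal.subset_span (by simp))

theorem clin_e2 : ce2 ∈ cB := Ideal.mem_sup_left (Ideal.subset_span (by simp))

theorem clin_le : cB ≤ clinA := sup_le_sup_left (Ideal.pow_le_self two_ne_zero) _

theorem clin_p (j : ℕ) : cp j ∈ Ideal.span (Set.range cp) := Ideal.subset_span ⟨j, rfl⟩

theorem clin_pA (j : ℕ) : cp j ∈ clinA := Ideal.mem_sup_right (clin_p j)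

theorem clin_mul {f g : CP} (hf : f ∈ Ideal.span (Set.range cp)) (hg : g ∈ clinA) :
    f * g ∈ cB := by
  obtain ⟨a, ha, b, hb, rfl⟩ := Submodule.mem_sup.1 hg
  rw [mul_add]
  refine add_mem (Ideal.mem_sup_left (Ideal.mul_mem_left _ _ ha)) (Ideal.mem_sup_right ?_)
  rw [sq]
  exact Ideal.mul_mem_mul hf hb

theorem clin_K : cK ∈ clinA :=
  sub_mem (add_mem (Ideal.mul_mem_left _ _ (clin_le clin_e2))
    (Ideal.mul_mem_left _ _ (clin_le clin_h2))) (Ideal.mul_mem_left _ _ (clin_pA 0))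

theorem clin_stab (D : Derivation ℂ CP CP) (h1 : D ch2 = 0) (h2 : D ce2 = 0)
    (h3 : ∀ j, D (cp j) ∈ clinA) : (∀ f ∈ clinA, D f ∈ clinA) ∧ ∀ f ∈ cB, D f ∈ cB := by
  have hQ : ∀ f ∈ Ideal.span {ch2, ce2}, D f ∈ cB := clin_span D _ cB le_sup_left (by
    rintro f (rfl | rfl)
    · rw [h1]
      exact zero_mem _
    · rw [h2]
      exact zero_mem _)
  have hP : ∀ f ∈ Ideal.span (Set.range cp), D f ∈ clinA := clin_span D _ clinA le_sup_right (by
    rintro f ⟨j, rfl⟩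
    exact h3 j)
  refine ⟨clin_sup D (fun f hf => clin_le (hQ f hf)) hP, clin_sup D hQ fun f hf => ?_⟩
  rw [sq] at hf
  refine Submodule.mul_induction_on hf (fun a ha b hb => ?_) fun a b ha hb => ?_
  · rw [Derivation.leibniz]
    exact add_mem (clin_mul ha (hP b hb)) (clin_mul hb (hP a ha))
  · rw [map_add]
    exact add_mem ha hb

theorem clin_d2B : ∀ f ∈ cB, cd2 f ∈ cB :=
  (clin_stab cd2 cd2_h2 cd2_e2 fun j => by rw [cd2_p]; exact clin_pA _).2

theorem clin_a (j : ℕ) : ca j ∈ cB := by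
  induction j with
  | zero => exact zero_mem _
  | succ j ih =>
    rw [ca_succ, mul_assoc, mul_comm cK]
    exact add_mem (clin_d2B _ ih) (Ideal.mul_mem_left _ _ (clin_mul (clin_p j) clin_K))

theorem clin_d1 : (∀ f ∈ clinA, cd1 f ∈ clinA) ∧ ∀ f ∈ cB, cd1 f ∈ cB :=
  clin_stab cd1 cd1_h2 cd1_e2 fun j => by rw [cd1_p]; exact clin_le (clin_a j)

theorem clin_b (i : ℕ) : cb i ∈ clinA := by
  induction i with
  | zero => exact zero_mem _
  | succ i ih =>
    rw [cb_succ]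
    exact add_mem (clin_d1.1 _ ih) (Ideal.mul_mem_right _ _ (Ideal.mul_mem_left _ _ clin_K))

theorem clin_d2A (f : CP) : cd2 f ∈ clinA := by
  induction f using MvPolynomial.induction_on with
  | C c => simp [← algebraMap_eq]
  | add f g hf hg => simpa using add_mem hf hg
  | mul_X f i hf =>
    have hX : cd2 (X i) ∈ clinA :=
      ci_cases (fun g => cd2 g ∈ clinA) (by simp) (by simp) (by simp) (by simp)
        (fun i => by rw [cd2_q]; exact clin_b i) (fun j => by rw [cd2_p]; exact clin_pA _) i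
    rw [Derivation.leibniz]
    exact add_mem (Ideal.mul_mem_left _ _ hX) (Ideal.mul_mem_left _ _ hf)

theorem clin_N1 {R : Type} [CommRing R] [Algebra ℂ R] (d : Derivation ℂ R R) (h e q : R)
    (J : Ideal R) (hJ : ∀ f ∈ J, d f ∈ J) (F : Fin 4 → R) (hF : ∀ c, F c ∈ J) (c : Fin 4) :
    N1 d h e q F c ∈ J ∧ N2 d h e q F c ∈ J := by
  have m : ∀ a c, a * F c ∈ J := fun a c => J.mul_mem_left a (hF c)
  have n : ∀ c, d (F c) ∈ J := fun c => hJ _ (hF c)
  fin_cases c
  · exact ⟨sub_mem (n _) (m _ _), sub_mem (n _) (m _ _)⟩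
  · exact ⟨sub_mem (add_mem (n _) (m _ _)) (m _ _), sub_mem (n _) (m _ _)⟩
  · exact ⟨sub_mem (n _) (m _ _), sub_mem (add_mem (n _) (m _ _)) (m _ _)⟩
  · exact ⟨add_mem (add_mem (n _) (m _ _)) (m _ _), add_mem (add_mem (n _) (m _ _)) (m _ _)⟩

theorem clin_N2A (F : Fin 4 → CP) (c : Fin 4) : N2 cd2 ch2 ce2 (cp 0) F c ∈ clinA := by
  have h1 : ∀ a, ch2 * a ∈ clinA := fun a => Ideal.mul_mem_right a _ (clin_le clin_h2)
  have h2 : ∀ a, ce2 * a ∈ clinA := fun a => Ideal.mul_mem_right a _ (clin_le clin_e2)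
  have h3 : ∀ a, cp 0 * a ∈ clinA := fun a => Ideal.mul_mem_right a _ (clin_pA 0)
  have h4 : ∀ a b : CP, a * b ∈ clinA → 2 * a * b ∈ clinA := fun a b h => by
    rw [mul_assoc]
    exact Ideal.mul_mem_left _ _ h
  fin_cases c
  · exact sub_mem (clin_d2A _) (h4 _ _ (h2 _))
  · exact sub_mem (clin_d2A _) (h3 _)
  · exact sub_mem (add_mem (clin_d2A _) (h2 _)) (h1 _)
  · exact add_mem (add_mem (clin_d2A _) (h4 _ _ (h1 _))) (h4 _ _ (h3 _))

theorem clin_true {k n : ℕ} {F : Fin 4 → CP} (h : ∀ c, F c + cp k * cT n c ∈ cB) (c : Fin 4) :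
    cN true F c + cp k * cT (n + 1) c ∈ cB := by
  have e : cN true F c + cp k * cT (n + 1) c =
      N1 cd1 ch1 ce1 (cq 0) (fun c => F c + cp k * cT n c) c - ca k * cT n c := by
    fin_cases c <;> simp [cN, N1, cT, cd1_p] <;> ring
  rw [e]
  exact sub_mem (clin_N1 _ _ _ _ cB clin_d1.2 _ h c).1 (Ideal.mul_mem_right _ _ (clin_a k))

theorem clin_false {k n : ℕ} {F : Fin 4 → CP} (h : ∀ c, F c + cp k * cT n c ∈ cB) (c : Fin 4) :
    cN false F c + cp (k + 1) * cT n c ∈ cB := by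
  have e : cN false F c + cp (k + 1) * cT n c =
      N2 cd2 ch2 ce2 (cp 0) (fun c => F c + cp k * cT n c) c -
        cp k * N2 cd2 ch2 ce2 (cp 0) (cT n) c := by
    fin_cases c <;> simp [cN, N2] <;> ring
  rw [e]
  exact sub_mem (clin_N1 _ _ _ _ cB clin_d2B _ h c).2 (clin_mul (clin_p k) (clin_N2A _ c))

theorem clin_V (m : ℕ) : ∀ c, cV (m + 1) c + cp m * cT (m + 1) c ∈ cB := by
  induction m with
  | zero =>
    refine clin_true fun c => ?_
    fin_cases c <;> simp [cN, N2, cV, cT, clin_h2]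
  | succ m ih => exact clin_true (clin_false ih)

theorem rel_lin {N : ℕ} (hN : 0 < N) (r : ℕ → ℂ) (w : List Bool) (c : Fin 4) :
    Rel N r w c + cp (N - 1 + w.count false) * cT (N + w.count true) c ∈ cB := by
  induction w generalizing c with
  | nil =>
    obtain ⟨m, rfl⟩ := Nat.exists_eq_succ_of_ne_zero hN.ne'
    show cW (m + 1) r c + cp m * cT (m + 1) c ∈ cB
    rw [cW, add_right_comm]
    refine add_mem (clin_V m c) (Ideal.sum_mem _ fun j hj => ?_)
    refine Ideal.mul_mem_right _ _ (Ideal.mul_mem_left _ _ ?_)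
    exact Ideal.pow_mem_of_mem _ (Ideal.mul_mem_left _ _ clin_e2) _
      (Nat.sub_pos_of_lt (Finset.mem_range.1 hj))
  | cons b w ih =>
    cases b
    · simpa [← add_assoc, Rel] using clin_false ih c
    · simpa [← add_assoc, Rel] using clin_true ih c

theorem cT_top1 (i : ℕ) : cT (i + 1) 3 - 2 * cq i ∈ Ideal.span {ch1, ce1} := by
  have h1 : ∀ a, ch1 * a ∈ Ideal.span {ch1, ce1} :=
    fun a => Ideal.mul_mem_right a _ (Ideal.subset_span (by simp))
  have h2 : ∀ a, ce1 * a ∈ Ideal.span {ch1, ce1} :=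
    fun a => Ideal.mul_mem_right a _ (Ideal.subset_span (by simp))
  have hd : ∀ f ∈ Ideal.span {ch1, ce1}, cd1 f ∈ Ideal.span {ch1, ce1} :=
    clin_span cd1 _ _ le_rfl (by rintro f (rfl | rfl) <;> simp)
  have key : cT (i + 1) 0 ∈ Ideal.span {ch1, ce1} ∧ cT (i + 1) 1 ∈ Ideal.span {ch1, ce1} ∧
      cT (i + 1) 3 - 2 * cq i ∈ Ideal.span {ch1, ce1} := by
    induction i with
    | zero => simp [cT, cN, N1]
    | succ i ih =>
      refine ⟨sub_mem (hd _ ih.1) ?_, sub_mem (add_mem (hd _ ih.2.1) (h2 _)) (h1 _), ?_⟩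
      · rw [mul_assoc]
        exact Ideal.mul_mem_left _ _ (h2 _)
      · have e : cT (i + 1 + 1) 3 - 2 * cq (i + 1) = cd1 (cT (i + 1) 3 - 2 * cq i) +
            2 * cq 0 * cT (i + 1) 1 + 2 * (ch1 * cT (i + 1) 2) := by
          rw [cT, two_mul (cq i)]
          simp [cN, N1]
          ring
        rw [e]
        exact add_mem (add_mem (hd _ ih.2.2) (Ideal.mul_mem_left _ _ ih.2.1))
          (Ideal.mul_mem_left _ _ (h1 _))
  exact key.2.2

theorem cT_top2 (i : ℕ) : cT (i + 1) 3 - 2 * cq i ∈ Ideal.span (cq '' {k | k < i}) := by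
  have key : cT (i + 1) 0 ∈ Ideal.span (cq '' {k | k < i}) ∧
      cT (i + 1) 1 ∈ Ideal.span (cq '' {k | k < i}) ∧
      cT (i + 1) 2 ∈ Ideal.span (cq '' {k | k < i}) ∧
      cT (i + 1) 3 - 2 * cq i ∈ Ideal.span (cq '' {k | k < i}) := by
    induction i with
    | zero => simp [cT, cN, N1]
    | succ i ih =>
      obtain ⟨h0, h1, h2, h3⟩ := ih
      have hle : Ideal.span (cq '' {k | k < i}) ≤ Ideal.span (cq '' {k | k < i + 1}) :=
        Ideal.span_mono (Set.image_mono fun k hk => Nat.lt_succ_of_lt hk)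
      have hd : ∀ f ∈ Ideal.span (cq '' {k | k < i}), cd1 f ∈ Ideal.span (cq '' {k | k < i + 1}) :=
        clin_span cd1 _ _ hle (by
          rintro f ⟨k, hk, rfl⟩
          rw [cd1_q]
          exact Ideal.subset_span ⟨k + 1, Nat.succ_lt_succ hk, rfl⟩)
      have h4 : cT (i + 1) 3 ∈ Ideal.span (cq '' {k | k < i + 1}) := by
        rw [← sub_add_cancel (cT (i + 1) 3) (2 * cq i)]
        exact add_mem (hle h3) (Ideal.mul_mem_left _ _
          (Ideal.subset_span ⟨i, Nat.lt_succ_self i, rfl⟩))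
      refine ⟨sub_mem (hd _ h0) (Ideal.mul_mem_left _ _ (hle h2)),
        sub_mem (add_mem (hd _ h1) (Ideal.mul_mem_left _ _ (hle h0))) (Ideal.mul_mem_left _ _ h4),
        sub_mem (hd _ h2) (Ideal.mul_mem_left _ _ h4), ?_⟩
      have e : cT (i + 1 + 1) 3 - 2 * cq (i + 1) = cd1 (cT (i + 1) 3 - 2 * cq i) +
          2 * cq 0 * cT (i + 1) 1 + 2 * ch1 * cT (i + 1) 2 := by
        rw [cT, two_mul (cq i)]
        simp [cN, N1]
        ring
      rw [e]
      exact add_mem (add_mem (hd _ h3) (Ideal.mul_mem_left _ _ (hle h1)))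
        (Ideal.mul_mem_left _ _ (hle h2))
  exact key.2.2.2

end Pool.Agent.Lib.MP_51f413_gt
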