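import Mathlib

/-!
The choice of the scales.
-/

namespace Pool.Agent.Lib.MP_51f413_gt

/-- The admissible rescalings. -/
def TCase {Ω Γ : Type} [Field Ω] [LinearOrderedCommGroupWithZero Γ] (v : Valuation Ω Γ) (n : ℕ)
    (q p : ℕ → Ω) (μ1 μ2 σ : Ω) : Prop :=
  (∀ i, v (q i * μ1 ^ (i + 1) / σ) ≤ 1) ∧ v (μ1 * σ) ≤ 1 ∧
    (((∀ j, v (p j * μ2 ^ (j + 1) * σ) ≤ 1) ∧ v (μ2 / σ) < 1 ∧
        (∃ i ≤ n, v (q i * μ1 ^ (i + 1) / σ) = 1) ∧ ∃ j ≤ n, v (p j * μ2 ^ (j + 1) * σ) = 1) ∨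
      ∃ κ : Γ, κ < 1 ∧ (∀ j, v (p j * μ2 ^ (j + 1) * σ) ≤ κ) ∧
        (∃ j, n < j ∧ v (p j * μ2 ^ (j + 1) * σ) = κ) ∧ v (μ2 / σ) < κ ∧
        ((v (μ1 * σ) = 1 ∧ ∃ i, v (q i * μ1 ^ (i + 1) / σ) = 1) ∨
          (v (μ1 * σ) < 1 ∧ ∃ i, n < i ∧ v (q i * μ1 ^ (i + 1) / σ) = 1)))

section Abstract

variable {G : Type} [AddCommGroup G] [LinearOrder G] [IsOrderedAddMonoid G]

/-- What is used about the upper envelope of the lines. -/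
structure CThrEnv (A : G → G) (a₀ : G) (Lo Hi : G → Prop) : Prop where
  mono : StrictMono A
  onto : ∀ t, ∃ m, A m = t
  root : ∃ m, m + A m = 0
  low : ∀ m, a₀ + m ≤ A m
  thr : (∀ m, Lo m) ∨ ∃ z, (∀ m ≤ z, Lo m) ∧ ∀ m, z ≤ m → Hi m

/-- The additive form of the admissible rescalings. -/
def CThrOK (A B : G → G) (LoA HiA LoB HiB : G → Prop) (m₁ m₂ : G) : Prop :=
  m₁ + A m₁ ≤ 0 ∧ ((A m₁ + B m₂ = 0 ∧ m₂ + B m₂ < 0 ∧ LoA m₁ ∧ LoB m₂) ∨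
    (A m₁ + B m₂ < 0 ∧ HiB m₂ ∧ m₂ - A m₁ < A m₁ + B m₂ ∧
      (m₁ + A m₁ = 0 ∨ (m₁ + A m₁ < 0 ∧ HiA m₁))))

variable {A B : G → G} {a₀ b₀ : G} {LoA HiA LoB HiB : G → Prop}

theorem CThrEnv.sigma (h : CThrEnv A a₀ LoA HiA) : ∃ σ, σ + A σ ≤ 0 ∧ (∀ m ≤ σ, LoA m) ∧
    (σ + A σ = 0 ∨ ∀ m, σ ≤ m → HiA m) := by
  obtain ⟨r, hr⟩ := h.root
  rcases h.thr with h1 | ⟨z, h1, h2⟩
  · exact ⟨r, hr.le, fun m _ => h1 m, Or.inl hr⟩
  · rcases le_total r z with h3 | h3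
    · exact ⟨r, hr.le, fun m hm => h1 m (hm.trans h3), Or.inl hr⟩
    · exact ⟨z, (add_le_add h3 (h.mono.monotone h3)).trans hr.le, h1, Or.inr h2⟩

theorem cthr_neg (hdiv : ∀ x : G, ∃ y : G, 3 • y = x) (hA : CThrEnv A a₀ LoA HiA)
    (star : ∀ m₁ m₂, m₁ + m₂ < A m₁ + B m₂) {σ₁ σ₂ : G} (h1 : σ₁ + A σ₁ ≤ 0)
    (h1' : σ₁ + A σ₁ = 0 ∨ ∀ m, σ₁ ≤ m → HiA m) (h2 : σ₂ + B σ₂ < 0) (h2' : HiB σ₂)
    (hκ : A σ₁ + B σ₂ < 0) : ∃ m₁, CThrOK A B LoA HiA LoB HiB m₁ σ₂ := by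
  have z : ∀ m, m + A m = 0 → A m + B σ₂ < 0 → CThrOK A B LoA HiA LoB HiB m σ₂ := fun m e hm =>
    ⟨e.le, Or.inr ⟨hm, h2', by
      have := star m σ₂
      rwa [eq_neg_of_add_eq_zero_left e, neg_add_eq_sub, ← eq_neg_of_add_eq_zero_left e] at this,
      Or.inl e⟩⟩
  rcases h1' with e | hi
  · exact ⟨σ₁, z σ₁ e hκ⟩
  obtain ⟨r, hr⟩ := hA.root
  rcases lt_or_ge (A r + B σ₂) 0 with h3 | h3
  · exact ⟨r, z r hr h3⟩
  rcases lt_or_ge (σ₂ - A σ₁) (A σ₁ + B σ₂) with h4 | h4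
  · exact ⟨σ₁, h1, Or.inr ⟨hκ, h2', h4, h1.eq_or_lt.imp id fun h => ⟨h, hi _ le_rfl⟩⟩⟩
  obtain ⟨t, ht⟩ := hdiv (σ₂ + B σ₂)
  have ht0 : t < 0 := by
    by_contra h
    exact absurd (ht ▸ nsmul_nonneg (not_lt.1 h) 3) h2.not_ge
  obtain ⟨m, hm⟩ := hA.onto (t - B σ₂)
  have e1 : A m + B σ₂ = t := by rw [hm, sub_add_cancel]
  have h5 : σ₂ - A m < A m + B σ₂ := by
    rw [← sub_pos, show A m + B σ₂ - (σ₂ - A m) = 2 • (A m + B σ₂) - (σ₂ + B σ₂) by abel, e1, ← ht,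
      show 2 • t - 3 • t = -t by abel]
    exact neg_pos.2 ht0
  have h6 : σ₁ ≤ m := by
    by_contra h
    have h7 := (hA.mono (not_le.1 h)).le
    exact absurd ((add_le_add_left h7 _).trans (h4.trans (sub_le_sub_left h7 _))) h5.not_ge
  have h7 : m < r := hA.mono.lt_iff_lt.1 (lt_of_add_lt_add_right ((e1.trans_lt ht0).trans_le h3))
  have h8 : m + A m < 0 := (add_lt_add h7 (hA.mono h7)).trans_eq hr
  exact ⟨m, h8.le, Or.inr ⟨e1.trans_lt ht0, h2', h5, Or.inr ⟨h8, hi m h6⟩⟩⟩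

theorem cthr_abs (hdiv : ∀ x : G, ∃ y : G, 3 • y = x) (hA : CThrEnv A a₀ LoA HiA)
    (hB : CThrEnv B b₀ LoB HiB) (h0 : 0 < a₀ + b₀) :
    ∃ m₁ m₂, CThrOK A B LoA HiA LoB HiB m₁ m₂ ∨ CThrOK B A LoB HiB LoA HiA m₂ m₁ := by
  have star : ∀ m₁ m₂, m₁ + m₂ < A m₁ + B m₂ := fun m₁ m₂ => by
    refine lt_of_lt_of_le ?_ (add_le_add (hA.low m₁) (hB.low m₂))
    rw [add_add_add_comm]
    exact lt_add_of_pos_left _ h0
  have star2 : ∀ m₁ m₂, A m₁ + B m₂ ≤ 0 → m₁ + A m₁ < 0 ∨ m₂ + B m₂ < 0 := fun m₁ m₂ h => by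
    by_contra hc
    rw [not_or, not_lt, not_lt] at hc
    have h1 := add_nonneg hc.1 hc.2
    rw [add_add_add_comm] at h1
    exact absurd (add_neg_of_neg_of_nonpos ((star m₁ m₂).trans_le h) h) h1.not_gt
  obtain ⟨σ₁, a1, a2, a3⟩ := hA.sigma
  obtain ⟨σ₂, b1, b2, b3⟩ := hB.sigma
  rcases le_or_gt 0 (A σ₁ + B σ₂) with h | h
  · obtain ⟨m, hm⟩ := hB.onto (-A σ₁)
    have e : A σ₁ + B m = 0 := by rw [hm, add_neg_cancel]
    have h1 : m ≤ σ₂ := hB.mono.le_iff_le.1 (le_of_add_le_add_left (e.le.trans h))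
    rcases star2 σ₁ m e.le with h2 | h2
    · exact ⟨σ₁, m, Or.inr ⟨(add_le_add h1 (hB.mono.monotone h1)).trans b1,
        Or.inl ⟨(add_comm _ _).trans e, h2, b2 m h1, a2 _ le_rfl⟩⟩⟩
    · exact ⟨σ₁, m, Or.inl ⟨a1, Or.inl ⟨e, h2, a2 _ le_rfl, b2 m h1⟩⟩⟩
  · rcases star2 σ₁ σ₂ h.le with h2 | h2
    · obtain ⟨m, hm⟩ := cthr_neg (LoB := LoA) hdiv hB
        (fun m₁ m₂ => by rw [add_comm m₁, add_comm (B m₁)]; exact star m₂ m₁) b1 b3 h2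
        ((a3.resolve_left h2.ne) _ le_rfl) ((add_comm _ _).trans_lt h)
      exact ⟨σ₁, m, Or.inr hm⟩
    · obtain ⟨m, hm⟩ := cthr_neg (LoB := LoB) hdiv hA star a1 a3 h2
        ((b3.resolve_left h2.ne) _ le_rfl) h
      exact ⟨m, σ₂, Or.inl hm⟩

/-- The upper envelope. -/
def cthrA (Q : Finset ℕ) (hQ : 0 ∈ Q) (a : ℕ → G) (m : G) : G :=
  Q.sup' ⟨0, hQ⟩ fun i => a i + (i + 1) • m

variable {Q : Finset ℕ} (hQ : 0 ∈ Q) (a : ℕ → G)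

omit [IsOrderedAddMonoid G] in
theorem cthr_le (m : G) {i : ℕ} (hi : i ∈ Q) : a i + (i + 1) • m ≤ cthrA Q hQ a m :=
  Finset.le_sup' (fun i => a i + (i + 1) • m) hi

omit [IsOrderedAddMonoid G] in
theorem cthr_att (m : G) : ∃ i ∈ Q, a i + (i + 1) • m = cthrA Q hQ a m := by
  obtain ⟨i, hi, h⟩ := Finset.exists_mem_eq_sup' ⟨0, hQ⟩ fun i => a i + (i + 1) • m
  exact ⟨i, hi, h.symm⟩

theorem cthr_solve (hdiv : ∀ (x : G) (k : ℕ), 0 < k → ∃ y : G, k • y = x) (k : ℕ) (t : G) :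
    ∃ m, k • m + cthrA Q hQ a m = t := by
  choose y hy using fun i => hdiv (t - a i) (k + (i + 1)) (by omega)
  obtain ⟨i₀, h0, hmin⟩ := Finset.exists_min_image Q y ⟨0, hQ⟩
  have e : ∀ i m, k • m + (a i + (i + 1) • m) = a i + (k + (i + 1)) • m := fun i m => by
    rw [add_nsmul m k]
    abel
  refine ⟨y i₀, le_antisymm ?_ ?_⟩
  · obtain ⟨i, hi, h⟩ := cthr_att hQ a (y i₀)
    rw [← h, e, ← add_sub_cancel (a i) t, ← hy i]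
    exact add_le_add_right (nsmul_le_nsmul_right (hmin i hi) _) _
  · refine le_trans (le_of_eq ?_) (add_le_add_right (cthr_le hQ a _ h0) _)
    rw [e, hy, add_sub_cancel]

theorem cthr_env (hdiv : ∀ (x : G) (k : ℕ), 0 < k → ∃ y : G, k • y = x) (n : ℕ) :
    CThrEnv (cthrA Q hQ a) (a 0) (fun m => ∃ i ∈ Q, i ≤ n ∧ a i + (i + 1) • m = cthrA Q hQ a m)
      (fun m => ∃ i ∈ Q, n < i ∧ a i + (i + 1) • m = cthrA Q hQ a m) := by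
  refine ⟨fun m m' h => ?_, fun t => ?_, ?_, fun m => ?_, ?_⟩
  · obtain ⟨i, hi, e⟩ := cthr_att hQ a m
    rw [← e]
    exact (add_lt_add_right (nsmul_lt_nsmul_right i.succ_ne_zero h) _).trans_le
      (cthr_le hQ a m' hi)
  · simpa using cthr_solve hQ a hdiv 0 t
  · simpa using cthr_solve hQ a hdiv 1 0
  · simpa using cthr_le hQ a m hQ
  rcases (Q.filter fun i => n < i).eq_empty_or_nonempty with h | h
  · refine Or.inl fun m => ?_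
    obtain ⟨i, hi, e⟩ := cthr_att hQ a m
    exact ⟨i, hi, not_lt.1 (Finset.filter_eq_empty_iff.1 h hi), e⟩
  have hlo : (Q.filter fun i => i ≤ n).Nonempty := ⟨0, Finset.mem_filter.2 ⟨hQ, Nat.zero_le n⟩⟩
  choose! y hy using fun i i' => hdiv (a i' - a i) (i - i')
  have e : ∀ i i' m, i' ≤ n → n < i →
      a i + (i + 1) • m - (a i' + (i' + 1) • m) = (i - i') • m - (i - i') • y i i' :=
    fun i i' m h1 h2 => by
      rw [hy i i' (by omega), show i + 1 = (i - i') + (i' + 1) by omega, add_nsmul m (i - i')]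
      abel
  choose w hw hmax using fun i => Finset.exists_max_image _ (y i) hlo
  obtain ⟨i₀, h0, hmin⟩ := Finset.exists_min_image _ (fun i => y i (w i)) h
  refine Or.inr ⟨y i₀ (w i₀), fun m hm => ?_, fun m hm => ?_⟩
  · obtain ⟨i, hi, e'⟩ := cthr_att hQ a m
    rcases le_or_gt i n with h1 | h1
    · exact ⟨i, hi, h1, e'⟩
    · obtain ⟨k1, k2⟩ := Finset.mem_filter.1 (hw i)
      refine ⟨w i, k1, k2, le_antisymm (cthr_le hQ a m k1) ?_⟩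
      rw [← e', ← sub_nonpos, e i _ m k2 h1, sub_nonpos]
      exact nsmul_le_nsmul_right (hm.trans (hmin i (Finset.mem_filter.2 ⟨hi, h1⟩))) _
  · obtain ⟨i, hi, e'⟩ := cthr_att hQ a m
    rcases le_or_gt i n with h1 | h1
    · obtain ⟨k1, k2⟩ := Finset.mem_filter.1 h0
      refine ⟨i₀, k1, k2, le_antisymm (cthr_le hQ a m k1) ?_⟩
      rw [← e', ← sub_nonneg, e i₀ i m h1 k2, sub_nonneg]
      exact nsmul_le_nsmul_right ((hmax i₀ i (Finset.mem_filter.2 ⟨hi, h1⟩)).trans hm) _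
    · exact ⟨i, hi, h1, e'⟩

end Abstract

section Val

variable {Ω Γ : Type} [Field Ω] [LinearOrderedCommGroupWithZero Γ]

/-- The exponential. -/
def cthrE (g : Additive Γˣ) : Γ := ((Additive.toMul g : Γˣ) : Γ)

theorem cthrE_le {g g' : Additive Γˣ} : cthrE g ≤ cthrE g' ↔ g ≤ g' := Iff.rfl

theorem cthrE_lt {g g' : Additive Γˣ} : cthrE g < cthrE g' ↔ g < g' := Iff.rfl

theorem cthrE_zero : cthrE (0 : Additive Γˣ) = 1 := rfl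

theorem cthrE_add (g g' : Additive Γˣ) : cthrE (g + g') = cthrE g * cthrE g' := rfl

theorem cthrE_sub (g g' : Additive Γˣ) : cthrE (g - g') = cthrE g / cthrE g' := by
  simp [cthrE]

theorem cthrE_nsmul (g : Additive Γˣ) (k : ℕ) : cthrE (k • g) = cthrE g ^ k := by
  simp [cthrE]

theorem cthr_case (v : Valuation Ω Γ) (n : ℕ) {q p : ℕ → Ω} {Q P : Finset ℕ} (hQ : 0 ∈ Q)
    (hP : 0 ∈ P) {a b : ℕ → Additive Γˣ} (hq : ∀ i, i ∉ Q → q i = 0) (hp : ∀ i, i ∉ P → p i = 0)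
    (ha : ∀ i ∈ Q, v (q i) = cthrE (a i)) (hb : ∀ i ∈ P, v (p i) = cthrE (b i))
    {m₁ m₂ : Additive Γˣ} {μ1 μ2 σ : Ω} (h1 : v μ1 = cthrE m₁) (h2 : v μ2 = cthrE m₂)
    (hσ : v σ = cthrE (cthrA Q hQ a m₁))
    (h : CThrOK (cthrA Q hQ a) (cthrA P hP b)
      (fun m => ∃ i ∈ Q, i ≤ n ∧ a i + (i + 1) • m = cthrA Q hQ a m)
      (fun m => ∃ i ∈ Q, n < i ∧ a i + (i + 1) • m = cthrA Q hQ a m)
      (fun m => ∃ i ∈ P, i ≤ n ∧ b i + (i + 1) • m = cthrA P hP b m)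
      (fun m => ∃ i ∈ P, n < i ∧ b i + (i + 1) • m = cthrA P hP b m) m₁ m₂) :
    TCase v n q p μ1 μ2 σ := by
  have eq : ∀ i ∈ Q, v (q i * μ1 ^ (i + 1) / σ) =
      cthrE (a i + (i + 1) • m₁ - cthrA Q hQ a m₁) := fun i hi => by
    rw [map_div₀, map_mul, map_pow, ha i hi, h1, hσ, cthrE_sub, cthrE_add, cthrE_nsmul]
  have ep : ∀ i ∈ P, v (p i * μ2 ^ (i + 1) * σ) =
      cthrE (cthrA Q hQ a m₁ + (b i + (i + 1) • m₂)) := fun i hi => by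
    rw [map_mul, map_mul, map_pow, hb i hi, h2, hσ, cthrE_add, cthrE_add, cthrE_nsmul, mul_comm]
  have e1 : v (μ1 * σ) = cthrE (m₁ + cthrA Q hQ a m₁) := by rw [map_mul, h1, hσ, cthrE_add]
  have e2 : v (μ2 / σ) = cthrE (m₂ - cthrA Q hQ a m₁) := by rw [map_div₀, h2, hσ, cthrE_sub]
  have q1 : ∀ i ∈ Q, a i + (i + 1) • m₁ = cthrA Q hQ a m₁ → v (q i * μ1 ^ (i + 1) / σ) = 1 :=
    fun i hi e => by rw [eq i hi, e, sub_self, cthrE_zero]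
  have p1 : ∀ j, v (p j * μ2 ^ (j + 1) * σ) ≤ cthrE (cthrA Q hQ a m₁ + cthrA P hP b m₂) :=
    fun j => by
      by_cases hj : j ∈ P
      · rw [ep j hj, cthrE_le]
        exact add_le_add_right (cthr_le hP b m₂ hj) _
      · rw [hp j hj, zero_mul, zero_mul, map_zero]
        exact zero_le
  refine ⟨fun i => ?_, e1.trans_le (cthrE_le.2 h.1), ?_⟩
  · by_cases hi : i ∈ Q
    · exact (eq i hi).trans_le (cthrE_le.2 (sub_nonpos.2 (cthr_le hQ a m₁ hi)))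
    · rw [hq i hi, zero_mul, zero_div, map_zero]
      exact zero_le
  rcases h.2 with ⟨k1, k2, ⟨i, hi, hin, ei⟩, ⟨j, hj, hjn, ej⟩⟩ | ⟨k1, ⟨j, hj, hjn, ej⟩, k3, k4⟩
  · refine Or.inl ⟨fun j => (p1 j).trans_eq (by rw [k1, cthrE_zero]), ?_, ⟨i, hin, q1 i hi ei⟩,
      j, hjn, by rw [ep j hj, ej, k1, cthrE_zero]⟩
    rw [e2, eq_neg_of_add_eq_zero_left k1, sub_neg_eq_add]
    exact cthrE_lt.2 k2
  · refine Or.inr ⟨_, cthrE_lt.2 k1, p1, ⟨j, hjn, by rw [ep j hj, ej]⟩,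
      e2.trans_lt (cthrE_lt.2 k3), ?_⟩
    rcases k4 with k4 | ⟨k4, i, hi, hin, ei⟩
    · obtain ⟨i, hi, ei⟩ := cthr_att hQ a m₁
      exact Or.inl ⟨by rw [e1, k4, cthrE_zero], i, q1 i hi ei⟩
    · exact Or.inr ⟨e1.trans_lt (cthrE_lt.2 k4), i, hin, q1 i hi ei⟩

end Val

theorem threshold {Ω : Type} [Field Ω] [IsAlgClosed Ω] (V : ValuationSubring Ω) (n M : ℕ)
    (q p : ℕ → Ω) (hq : ∀ i, M < i → q i = 0) (hp : ∀ j, M < j → p j = 0)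
    (h : 1 < V.valuation (q 0 * p 0)) :
    ∃ μ1 μ2 σ : Ω, μ1 ≠ 0 ∧ μ2 ≠ 0 ∧ σ ≠ 0 ∧
      (TCase V.valuation n q p μ1 μ2 σ ∨ TCase V.valuation n p q μ2 μ1 σ⁻¹) := by
  classical
  have lg : ∀ x : Ω, ∃ g, x ≠ 0 → V.valuation x = cthrE g := fun x => by
    by_cases hx : x = 0
    · exact ⟨0, fun h => absurd hx h⟩
    · exact ⟨Additive.ofMul (Units.mk0 _ ((Valuation.ne_zero_iff _).2 hx)), fun _ => rfl⟩
  have sur : ∀ g, ∃ x : Ω, x ≠ 0 ∧ V.valuation x = cthrE g := fun g => by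
    obtain ⟨x, hx⟩ := V.valuation_surjective (cthrE g)
    exact ⟨x, (Valuation.ne_zero_iff _).1 (hx.trans_ne (Units.ne_zero _)), hx⟩
  have hdiv : ∀ (x : Additive (V.ValueGroup)ˣ) (k : ℕ), 0 < k → ∃ y, k • y = x := fun x k hk => by
    obtain ⟨u, hu0, hu⟩ := sur x
    obtain ⟨z, hz⟩ := IsAlgClosed.exists_pow_nat_eq u hk
    obtain ⟨g, hg⟩ := lg z
    have hz0 : z ≠ 0 := by
      rintro rfl
      exact hu0 (hz ▸ zero_pow hk.ne')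
    have e : cthrE (k • g) = cthrE x := by rw [cthrE_nsmul, ← hg hz0, ← map_pow, hz, hu]
    exact ⟨g, le_antisymm (cthrE_le.1 e.le) (cthrE_le.1 e.ge)⟩
  choose lg hlg using lg
  have h0 : q 0 * p 0 ≠ 0 := (Valuation.ne_zero_iff _).1 (zero_lt_one.trans h).ne'
  have mem : ∀ (r : ℕ → Ω) (i : ℕ), (∀ i, M < i → r i = 0) →
      (i ∈ (Finset.range (M + 1)).filter (fun i => r i ≠ 0) ↔ r i ≠ 0) := fun r i hr => by
    rw [Finset.mem_filter, Finset.mem_range]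
    exact ⟨fun h => h.2, fun h => ⟨Nat.lt_succ_of_le (not_lt.1 fun h' => h (hr i h')), h⟩⟩
  have hQ := (mem q 0 hq).2 (left_ne_zero_of_mul h0)
  have hP := (mem p 0 hp).2 (right_ne_zero_of_mul h0)
  have q0 : ∀ i, i ∉ (Finset.range (M + 1)).filter (fun i => q i ≠ 0) → q i = 0 :=
    fun i hi => not_not.1 fun h' => hi ((mem q i hq).2 h')
  have p0 : ∀ i, i ∉ (Finset.range (M + 1)).filter (fun i => p i ≠ 0) → p i = 0 :=
    fun i hi => not_not.1 fun h' => hi ((mem p i hp).2 h')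
  have qa : ∀ i ∈ (Finset.range (M + 1)).filter (fun i => q i ≠ 0),
      V.valuation (q i) = cthrE (lg (q i)) := fun i hi => hlg _ ((mem q i hq).1 hi)
  have pb : ∀ i ∈ (Finset.range (M + 1)).filter (fun i => p i ≠ 0),
      V.valuation (p i) = cthrE (lg (p i)) := fun i hi => hlg _ ((mem p i hp).1 hi)
  obtain ⟨m₁, m₂, H⟩ := cthr_abs (fun x => hdiv x 3 (by norm_num))
    (cthr_env hQ (fun i => lg (q i)) hdiv n) (cthr_env hP (fun i => lg (p i)) hdiv n) (by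
      rw [← cthrE_lt, cthrE_zero, cthrE_add, ← qa 0 hQ, ← pb 0 hP, ← map_mul]
      exact h)
  obtain ⟨μ1, a1, b1⟩ := sur m₁
  obtain ⟨μ2, a2, b2⟩ := sur m₂
  rcases H with H | H
  · obtain ⟨σ, a3, b3⟩ := sur (cthrA _ hQ (fun i => lg (q i)) m₁)
    exact ⟨μ1, μ2, σ, a1, a2, a3, Or.inl (cthr_case _ n hQ hP q0 p0 qa pb b1 b2 b3 H)⟩
  · obtain ⟨σ, a3, b3⟩ := sur (cthrA _ hP (fun i => lg (p i)) m₂)
    refine ⟨μ1, μ2, σ⁻¹, a1, a2, inv_ne_zero a3, Or.inr ?_⟩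
    rw [inv_inv]
    exact cthr_case _ n hP hQ p0 q0 pb qa b2 b1 b3 H

end Pool.Agent.Lib.MP_51f413_gt
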