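import Pool.Agent.Lib.MP_51f413_gt.CHom
import Pool.Agent.Lib.MP_51f413_gt.CLin
import Pool.Agent.Lib.MP_51f413_gt.CB1
import Pool.Agent.Lib.MP_51f413_gt.CFold2
import Pool.Agent.Lib.MP_51f413_gt.CThr

/-!
The algebraic theorem for constant mean curvature.
-/

namespace Pool.Agent.Lib.MP_51f413_gt

open MvPolynomial

section Val

variable {Ω : Type} [Field Ω] [Algebra ℂ Ω] (V : ValuationSubring Ω)

theorem calg_le (hc : ∀ c : ℂ, V.valuation (algebraMap ℂ Ω c) ≤ 1) (z : CI → Ω)
    (hz : ∀ i, V.valuation (z i) ≤ 1) (f : CP) : V.valuation (aeval z f) ≤ 1 := by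
  induction f using MvPolynomial.induction_on with
  | C c => simpa using hc c
  | add f g hf hg => rw [map_add]; exact (V.valuation.map_add _ _).trans (max_le hf hg)
  | mul_X f i hf => rw [map_mul, map_mul, aeval_X]; exact mul_le_one' hf (hz i)

/-- The ideal of polynomials whose value is smaller than `t`. -/
def smallId (hc : ∀ c : ℂ, V.valuation (algebraMap ℂ Ω c) ≤ 1) (z : CI → Ω)
    (hz : ∀ i, V.valuation (z i) ≤ 1) (t : V.ValueGroup) (ht : 0 < t) : Ideal CP where
  carrier := {f | V.valuation (aeval z f) < t}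
  add_mem' := fun {f g} hf hg => by
    change V.valuation (aeval z (f + g)) < t
    rw [map_add]
    exact (V.valuation.map_add _ _).trans_lt (max_lt hf hg)
  zero_mem' := by
    change V.valuation (aeval z 0) < t
    simpa using ht
  smul_mem' := fun c f hf => by
    change V.valuation (aeval z (c * f)) < t
    rw [map_mul, map_mul]
    exact (mul_le_of_le_one_left' (calg_le V hc z hz c)).trans_lt hf

/-- The ideal of polynomials whose value is at most `t`. -/
def smallId' (hc : ∀ c : ℂ, V.valuation (algebraMap ℂ Ω c) ≤ 1) (z : CI → Ω)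
    (hz : ∀ i, V.valuation (z i) ≤ 1) (t : V.ValueGroup) : Ideal CP where
  carrier := {f | V.valuation (aeval z f) ≤ t}
  add_mem' := fun {f g} hf hg => by
    change V.valuation (aeval z (f + g)) ≤ t
    rw [map_add]
    exact (V.valuation.map_add _ _).trans (max_le hf hg)
  zero_mem' := by
    change V.valuation (aeval z 0) ≤ t
    simp
  smul_mem' := fun c f hf => by
    change V.valuation (aeval z (c * f)) ≤ t
    rw [map_mul, map_mul]
    exact (mul_le_of_le_one_left' (calg_le V hc z hz c)).trans hf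

theorem calg_case {N : ℕ} (hN : 0 < N) (r : ℕ → ℂ) (L1 L2 M : ℕ)
    (hL1 : ∀ i < N, ce1 * cq i ∈
      (Ideal.span {f | ∃ n c, N ≤ n ∧ n ≤ L1 ∧ f = cT n c}).radical)
    (hL2 : ∀ i ≤ N, ∀ j ≤ N, cq i * cp j ∈ (Ideal.span ({ch2, ce2} ∪
      {f | ∃ (w : List Bool) (c : Fin 4), w.length ≤ L2 ∧ f = Rel N r w c})).radical)
    (hM1 : L1 ≤ M) (hM2 : N + L2 ≤ M)
    (hc : ∀ c : ℂ, V.valuation (algebraMap ℂ Ω c) ≤ 1) (h0 : ℂ) (q p : ℕ → Ω)
    (hq : ∀ i, M < i → q i = 0) (hp : ∀ j, M < j → p j = 0)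
    (hrel : ∀ (w : List Bool) (c : Fin 4), N + w.count true ≤ M + 1 → N + w.count false ≤ M + 1 →
      aeval (cpoint (algebraMap ℂ Ω h0) (algebraMap ℂ Ω h0) 1 1 q p) (Rel N r w c) = 0)
    (μ1 μ2 σ : Ω) (hμ1 : μ1 ≠ 0) (hμ2 : μ2 ≠ 0) (hσ : σ ≠ 0) :
    ¬ TCase V.valuation N q p μ1 μ2 σ := by
  rintro ⟨hq1, he1, hcase⟩
  set z : CI → Ω := cpoint (algebraMap ℂ Ω h0 * (μ1 * σ)) (algebraMap ℂ Ω h0 * (μ2 / σ))
    (1 * (μ1 * σ)) (1 * (μ2 / σ)) (fun i => q i * μ1 ^ (i + 1) / σ)
    (fun j => p j * μ2 ^ (j + 1) * σ) with hzdef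
  have zh1 : aeval z ch1 = algebraMap ℂ Ω h0 * (μ1 * σ) := aeval_X _ _
  have zh2 : aeval z ch2 = algebraMap ℂ Ω h0 * (μ2 / σ) := aeval_X _ _
  have ze1 : aeval z ce1 = μ1 * σ := (aeval_X _ _).trans (one_mul _)
  have ze2 : aeval z ce2 = μ2 / σ := (aeval_X _ _).trans (one_mul _)
  have zq : ∀ i, aeval z (cq i) = q i * μ1 ^ (i + 1) / σ := fun i => aeval_X _ _
  have zp : ∀ j, aeval z (cp j) = p j * μ2 ^ (j + 1) * σ := fun i => aeval_X _ _
  have zrel : ∀ (w : List Bool) (c : Fin 4), N + w.count true ≤ M + 1 →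
      N + w.count false ≤ M + 1 → aeval z (Rel N r w c) = 0 := fun w c h1 h2 => by
    rw [hzdef, ch_scale (chv_rel N r w c) _ _ _ _ _ _ _ _ _ hμ1 hμ2 hσ, hrel w c h1 h2, mul_zero]
  have hle : ∀ y : Ω, V.valuation (algebraMap ℂ Ω h0 * y) ≤ V.valuation y := fun y => by
    rw [map_mul]
    exact mul_le_of_le_one_left' (hc h0)
  have hz : (∀ j, V.valuation (p j * μ2 ^ (j + 1) * σ) ≤ 1) → V.valuation (μ2 / σ) ≤ 1 →
      ∀ i, V.valuation (z i) ≤ 1 := fun h1 h2 i => by
    rw [← aeval_X (R := ℂ) z i]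
    refine ci_cases (fun g => V.valuation (aeval z g) ≤ 1) ?_ ?_ ?_ ?_ (fun i => ?_) (fun j => ?_) i
    · rw [zh1]; exact (hle _).trans he1
    · rw [zh2]; exact (hle _).trans h2
    · rw [ze1]; exact he1
    · rw [ze2]; exact h2
    · rw [zq]; exact hq1 i
    · rw [zp]; exact h1 j
  have hrad : ∀ (hz : ∀ i, V.valuation (z i) ≤ 1) (I : Ideal CP),
      I ≤ smallId V hc z hz 1 one_pos → ∀ f ∈ I.radical, V.valuation (aeval z f) < 1 := by
    rintro hz I hI f ⟨k, hk⟩
    have h1 : V.valuation (aeval z (f ^ k)) < 1 := hI hk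
    rw [map_pow, map_pow] at h1
    by_contra h2
    exact absurd h1 (not_lt.2 (one_le_pow₀ (not_lt.1 h2)))
  rcases hcase with ⟨hp1, he2, ⟨i, hi, hi1⟩, ⟨j, hj, hj1⟩⟩ | ⟨κ, hκ, hp1, ⟨j, hj, hj1⟩, he2, hq2⟩
  · have hz' := hz hp1 he2.le
    have h1 := hrad hz' _ (by
      rw [Ideal.span_le]
      rintro f (hf | ⟨w, c, hw, rfl⟩)
      · rcases hf with rfl | rfl
        · change V.valuation (aeval z ch2) < 1
          rw [zh2]
          exact (hle _).trans_lt he2
        · change V.valuation (aeval z ce2) < 1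
          rw [ze2]
          exact he2
      · change V.valuation (aeval z (Rel N r w c)) < 1
        have h1 := List.count_le_length (a := true) (l := w)
        have h2 := List.count_le_length (a := false) (l := w)
        rw [zrel w c (by omega) (by omega)]
        simp) _ (hL2 i hi j hj)
    rw [map_mul, map_mul, zq, zp, hi1, hj1, mul_one] at h1
    exact lt_irrefl _ h1
  · have hκ0 : 0 < κ := lt_of_le_of_lt zero_le he2
    have hz' := hz (fun j => (hp1 j).trans hκ.le) (he2.trans hκ).le
    have hB : cB ≤ smallId V hc z hz' κ hκ0 := by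
      refine sup_le ?_ ?_
      · rw [Ideal.span_le]
        rintro f (rfl | rfl)
        · change V.valuation (aeval z ch2) < κ
          rw [zh2]
          exact (hle _).trans_lt he2
        · change V.valuation (aeval z ce2) < κ
          rw [ze2]
          exact he2
      · have h1 : Ideal.span (Set.range cp) ≤ smallId' V hc z hz' κ := by
          rw [Ideal.span_le]
          rintro f ⟨j, rfl⟩
          change V.valuation (aeval z (cp j)) ≤ κ
          rw [zp]
          exact hp1 j
        rw [sq, Ideal.mul_le]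
        intro f hf g hg
        change V.valuation (aeval z (f * g)) < κ
        have h2 : V.valuation (aeval z f) ≤ κ := h1 hf
        have h3 : V.valuation (aeval z g) ≤ κ := h1 hg
        rw [map_mul, map_mul]
        calc _ ≤ κ * κ := mul_le_mul' h2 h3
          _ < κ := by simpa using mul_lt_mul_of_pos_left hκ hκ0
    have hjM : j ≤ M := by
      by_contra h
      rw [hp j (not_le.1 h), zero_mul, zero_mul, map_zero] at hj1
      exact hκ0.ne hj1
    have hT : ∀ n c, N ≤ n → n ≤ M + 1 → cT n c ∈ smallId V hc z hz' 1 one_pos := by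
      intro n c h1 h2
      let w : List Bool := List.replicate (n - N) true ++ List.replicate (j + 1 - N) false
      have w1 : w.count true = n - N := by simp [w, List.count_replicate]
      have w2 : w.count false = j + 1 - N := by simp [w, List.count_replicate]
      have h3 : V.valuation (aeval z (Rel N r w c + cp (N - 1 + w.count false) *
        cT (N + w.count true) c)) < κ := hB (rel_lin hN r w c)
      rw [map_add, zrel w c (by omega) (by omega), zero_add, w1, w2,
        show N - 1 + (j + 1 - N) = j by omega, show N + (n - N) = n by omega, map_mul, map_mul,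
        zp, hj1] at h3
      change V.valuation (aeval z (cT n c)) < 1
      exact lt_of_mul_lt_mul_left (a := κ) (by simpa using h3) zero_le
    have h2 : V.valuation (2 : Ω) = 1 := by
      have h3 := hc 2
      have h4 := hc 2⁻¹
      rw [map_ofNat] at h3
      rw [map_inv₀, map_ofNat, map_inv₀] at h4
      have h5 : V.valuation (2 : Ω) ≠ 0 := by
        rw [Ne, map_eq_zero, ← map_ofNat (algebraMap ℂ Ω) 2, map_eq_zero]
        exact two_ne_zero
      exact le_antisymm h3 ((inv_le_one₀ (zero_lt_iff.2 h5)).1 h4)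
    have hhalf : ∀ i, 2 * cq i ∈ smallId V hc z hz' 1 one_pos →
        cq i ∈ smallId V hc z hz' 1 one_pos := fun i h => by
      have h3 : V.valuation (aeval z (2 * cq i)) < 1 := h
      rw [map_mul, map_mul, map_ofNat, h2, one_mul] at h3
      exact h3
    have hbig : ∀ i, M < i → cq i ∈ smallId V hc z hz' 1 one_pos := fun i h => by
      change V.valuation (aeval z (cq i)) < 1
      rw [zq, hq i h]
      simp
    have hfin : ∀ i, cq i ∈ smallId V hc z hz' 1 one_pos →
        V.valuation (q i * μ1 ^ (i + 1) / σ) ≠ 1 := fun i h => by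
      have h3 : V.valuation (aeval z (cq i)) < 1 := h
      rw [zq] at h3
      exact h3.ne
    rcases hq2 with ⟨he, i, hi⟩ | ⟨he, i, hi, hi1⟩
    · refine hfin i ?_ hi
      clear hi
      induction i using Nat.strong_induction_on with
      | _ i ih =>
        by_cases h3 : i < N
        · have h4 := hrad hz' _ (by
            rw [Ideal.span_le]
            rintro f ⟨n, c, h5, h6, rfl⟩
            exact hT n c h5 (by omega)) _ (hL1 i h3)
          rw [map_mul, map_mul, ze1, he, one_mul] at h4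
          exact h4
        by_cases h4 : M < i
        · exact hbig i h4
        · have h5 : Ideal.span (cq '' {k | k < i}) ≤ smallId V hc z hz' 1 one_pos := by
            rw [Ideal.span_le]
            rintro f ⟨k, hk, rfl⟩
            exact ih k hk
          have h6 := Ideal.sub_mem _ (hT (i + 1) 3 (by omega) (by omega)) (h5 (cT_top2 i))
          exact hhalf i (by simpa using h6)
    · refine hfin i ?_ hi1
      by_cases h4 : M < i
      · exact hbig i h4
      · have h5 : Ideal.span {ch1, ce1} ≤ smallId V hc z hz' 1 one_pos := by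
          rw [Ideal.span_le]
          rintro f (rfl | rfl)
          · change V.valuation (aeval z ch1) < 1
            rw [zh1]
            exact (hle _).trans_lt he
          · change V.valuation (aeval z ce1) < 1
            rw [ze1]
            exact he
        have h6 := Ideal.sub_mem _ (hT (i + 1) 3 (by omega) (by omega)) (h5 (cT_top1 i))
        exact hhalf i (by simpa using h6)

end Val

theorem cpoint_map {R S : Type} (φ : R → S) (h1 h2 e1 e2 : R) (q p : ℕ → R) :
    (fun i => φ (cpoint h1 h2 e1 e2 q p i)) =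
      cpoint (φ h1) (φ h2) (φ e1) (φ e2) (fun i => φ (q i)) (fun j => φ (p j)) := by
  funext i
  rcases i with i | i | i
  · fin_cases i <;> rfl
  · rfl
  · rfl

theorem cmc_alg {N : ℕ} (hN : 0 < N) (r : ℕ → ℂ) : ∃ M : ℕ,
    ∀ (K : Type) [Field K] [Algebra ℂ K] (h0 : ℂ) (q p : ℕ → K),
      (∀ i, M < i → q i = 0) → (∀ j, M < j → p j = 0) →
      (∀ (w : List Bool) (c : Fin 4), N + w.count true ≤ M + 1 → N + w.count false ≤ M + 1 →
        aeval (cpoint (algebraMap ℂ K h0) (algebraMap ℂ K h0) 1 1 q p) (Rel N r w c) = 0) →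
      (∀ (w : List Bool) (c : Fin 4), N + w.count true ≤ M + 1 → N + w.count false ≤ M + 1 →
        aeval (cpoint (algebraMap ℂ K h0) (algebraMap ℂ K h0) 1 1 p q) (Rel N r w c) = 0) →
      ∃ c : ℂ, q 0 * p 0 = algebraMap ℂ K c := by
  obtain ⟨L1, hL1⟩ := cert_null N
  obtain ⟨L2, hL2⟩ := cert_fold N r
  refine ⟨L1 + N + L2, fun K _ _ h0 q p hq hp h1 h2 => ?_⟩
  let Ω := AlgebraicClosure K
  let φ : K →ₐ[ℂ] Ω := IsScalarTower.toAlgHom ℂ K Ω
  have hφ : Function.Injective φ := φ.toRingHom.injective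
  have tr : ∀ (q p : ℕ → K) (f : CP),
      aeval (cpoint (algebraMap ℂ K h0) (algebraMap ℂ K h0) 1 1 q p) f = 0 →
      aeval (cpoint (algebraMap ℂ Ω h0) (algebraMap ℂ Ω h0) 1 1 (fun i => φ (q i))
        (fun i => φ (p i))) f = 0 := fun q p f h => by
    have h3 := congrArg φ h
    rw [comp_aeval_apply, cpoint_map, map_zero, map_one, φ.commutes] at h3
    exact h3
  by_cases halg : IsAlgebraic (⊥ : IntermediateField ℂ Ω) (φ (q 0 * p 0))
  · have h3 : IsAlgebraic ℂ (φ (q 0 * p 0)) := by
      have : Algebra.IsAlgebraic ℂ (⊥ : IntermediateField ℂ Ω) :=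
        (IntermediateField.botEquiv ℂ Ω).symm.isAlgebraic
      exact halg.restrictScalars ℂ
    obtain ⟨c, hc⟩ := (IsAlgClosed.algebraMap_bijective_of_isIntegral (k := ℂ)
      (K := algebraicClosure ℂ Ω)).2 ⟨φ (q 0 * p 0), mem_algebraicClosure_iff.2 h3⟩
    refine ⟨c, hφ ?_⟩
    rw [φ.commutes]
    exact (congrArg Subtype.val hc).symm
  · exfalso
    obtain ⟨V, hV, hx⟩ := exists_valuation_pole ⊥ _ halg
    have hc : ∀ c : ℂ, V.valuation (algebraMap ℂ Ω c) ≤ 1 := fun c =>
      (V.valuation_le_one_iff _).2 (hV _ (IntermediateField.algebraMap_mem _ c))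
    have hq' : ∀ i, L1 + N + L2 < i → φ (q i) = 0 := fun i h => by rw [hq i h, map_zero]
    have hp' : ∀ i, L1 + N + L2 < i → φ (p i) = 0 := fun i h => by rw [hp i h, map_zero]
    obtain ⟨μ1, μ2, σ, k1, k2, k3, h | h⟩ := threshold V N (L1 + N + L2) (fun i => φ (q i))
      (fun i => φ (p i)) hq' hp' (by
        rw [← map_mul, ← not_le, V.valuation_le_one_iff]
        exact hx)
    · exact calg_case V hN r L1 L2 _ hL1 hL2 (by omega) (by omega) hc h0 _ _ hq' hp'
        (fun w c a b => tr _ _ _ (h1 w c a b)) μ1 μ2 σ k1 k2 k3 h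
    · exact calg_case V hN r L1 L2 _ hL1 hL2 (by omega) (by omega) hc h0 _ _ hp' hq'
        (fun w c a b => tr _ _ _ (h2 w c a b)) μ2 μ1 σ⁻¹ k2 k1 (inv_ne_zero k3) h

end Pool.Agent.Lib.MP_51f413_gt
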