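import Pool.Agent.Lib.MP_51f413_gt.CU
import Pool.Agent.Lib.MP_51f413_gt.Deriv

/-!
The order of the pole along the fold of the limit surface.
-/

namespace Pool.Agent.Lib.MP_51f413_gt

/-- The difference of a function of the first variable and a function of the second variable is
not invertible in the ring of separated functions. -/
theorem sep_not_unit {L : Type} [Field L] [Algebra ℂ L] (D1 D2 : Derivation ℂ L L)
    (C1 C2 : IntermediateField ℂ L) (h1 : ∀ f ∈ C1, D2 f = 0) (h2 : ∀ f ∈ C2, D1 f = 0)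
    (h3 : ∀ f ∈ C2, D2 f ∈ C2) {u w : L} (hu : u ∈ C1) (hw : w ∈ C2) (hu0 : D1 u ≠ 0)
    (hw0 : D2 w ≠ 0) (a : L) (ha : a ∈ Algebra.adjoin ℂ ((C1 : Set L) ∪ C2)) :
    (w - u) * a ≠ 1 := by
  intro hone
  have hchar : CharZero L := charZero_of_injective_algebraMap (algebraMap ℂ L).injective
  have hspan : ∀ x ∈ Algebra.adjoin ℂ ((C1 : Set L) ∪ C2), x ∈ Submodule.span C2 (C1 : Set L) := by
    intro x hx
    induction hx using Algebra.adjoin_induction with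
    | mem x hx =>
      rcases hx with hx | hx
      · exact Submodule.subset_span hx
      · have h1' : (1 : L) ∈ Submodule.span C2 (C1 : Set L) := Submodule.subset_span C1.one_mem
        have := Submodule.smul_mem _ (⟨x, hx⟩ : C2) h1'
        simpa [IntermediateField.smul_def] using this
    | algebraMap r => exact Submodule.subset_span (C1.algebraMap_mem r)
    | add x y _ _ hx hy => exact Submodule.add_mem _ hx hy
    | mul x y _ _ hx hy =>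
      have hle : Submodule.span C2 (C1 : Set L) * Submodule.span C2 (C1 : Set L)
          ≤ Submodule.span C2 (C1 : Set L) := by
        rw [Submodule.span_mul_span]
        refine Submodule.span_mono ?_
        rintro _ ⟨a, ha, b, hb, rfl⟩
        exact C1.mul_mem ha hb
      exact hle (Submodule.mul_mem_mul hx hy)
  obtain ⟨s, hs, has⟩ := Submodule.mem_span_finite_of_mem_span (hspan a ha)
  have hstab : ∀ x ∈ Submodule.span C2 (s : Set L), D2 x ∈ Submodule.span C2 (s : Set L) := by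
    intro x hx
    induction hx using Submodule.span_induction with
    | mem x hx => rw [h1 x (hs hx)]; exact Submodule.zero_mem _
    | zero => simp
    | add x y _ _ hx hy => rw [map_add]; exact Submodule.add_mem _ hx hy
    | smul c x hx0 hx =>
      have e1 : D2 (c • x) = c • D2 x + (⟨D2 c, h3 c c.2⟩ : C2) • x := by
        simp only [IntermediateField.smul_def, smul_eq_mul, Derivation.leibniz]
        ring
      rw [e1]
      exact Submodule.add_mem _ (Submodule.smul_mem _ _ hx) (Submodule.smul_mem _ _ hx0)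
  have hDa : D2 a = -(a ^ 2 * D2 w) := by
    have e1 : D2 ((w - u) * a) = 0 := by rw [hone]; simp
    rw [Derivation.leibniz, map_sub, h1 u hu] at e1
    simp only [smul_eq_mul, sub_zero] at e1
    linear_combination a * e1 - D2 a * hone
  have hpow : ∀ k : ℕ, a ^ (k + 1) ∈ Submodule.span C2 (s : Set L) := by
    intro k
    induction k with
    | zero => simpa using has
    | succ k ih =>
      have hk : ((k : L) + 1) ≠ 0 := by exact_mod_cast Nat.succ_ne_zero k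
      have hc : (-(((k : L) + 1) * D2 w))⁻¹ ∈ C2 := by
        refine C2.inv_mem (C2.neg_mem (C2.mul_mem ?_ (h3 w hw)))
        exact C2.add_mem (natCast_mem C2 k) C2.one_mem
      have := Submodule.smul_mem _ (⟨_, hc⟩ : C2) (hstab _ ih)
      convert this using 1
      rw [IntermediateField.smul_def, Derivation.leibniz_pow, hDa]
      simp only [smul_eq_mul, nsmul_eq_mul, Nat.add_sub_cancel]
      push_cast
      field_simp
      ring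
  have ha0 : a ≠ 0 := by
    rintro rfl
    simp at hone
  have hint : IsIntegral C2 a := by
    let Nn : Submodule C2 L := Submodule.span C2 (Set.range fun k : ℕ => a ^ (k + 1))
    have hle : Nn ≤ Submodule.span C2 (s : Set L) := by
      refine Submodule.span_le.2 ?_
      rintro _ ⟨k, rfl⟩
      exact hpow k
    have hfin : Module.Finite C2 (Submodule.span C2 (s : Set L)) :=
      Module.Finite.span_of_finite _ s.finite_toSet
    have hfg : Nn.FG := by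
      have := Submodule.finiteDimensional_of_le hle
      exact Module.Finite.iff_fg.1 this
    refine isIntegral_of_smul_mem_submodule Nn ?_ hfg a ?_
    · intro hb
      have : a ^ (0 + 1) ∈ Nn := Submodule.subset_span ⟨0, rfl⟩
      rw [hb] at this
      exact ha0 (by simpa using this)
    · intro n hn
      induction hn using Submodule.span_induction with
      | mem x hx =>
        obtain ⟨k, rfl⟩ := hx
        refine Submodule.subset_span ⟨k + 1, ?_⟩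
        simp only [smul_eq_mul]
        ring
      | zero => simp
      | add x y _ _ hx hy => rw [smul_add]; exact Submodule.add_mem _ hx hy
      | smul c x _ hx => rw [smul_comm]; exact Submodule.smul_mem _ _ hx
  have hD1 : D1 a = 0 := deriv_eq_zero_of_isAlgebraic D1 C2 h2 a hint.isAlgebraic
  have e1 : D1 ((w - u) * a) = 0 := by rw [hone]; simp
  rw [Derivation.leibniz, map_sub, h2 w hw, hD1] at e1
  simp only [smul_eq_mul, mul_zero, zero_sub, zero_add, mul_neg, neg_eq_zero] at e1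
  rcases mul_eq_zero.1 e1 with h | h
  · exact ha0 h
  · exact hu0 h

/-- The common kernel of two derivations. -/
def foldKer {L : Type} [Field L] [Algebra ℂ L] (D D' : Derivation ℂ L L) :
    IntermediateField ℂ L where
  carrier := {f | D f = 0 ∧ D' f = 0}
  mul_mem' := fun {a b} ha hb => by
    obtain ⟨h1, h2⟩ := ha
    obtain ⟨h3, h4⟩ := hb
    constructor <;> simp [Derivation.leibniz, *]
  one_mem' := by constructor <;> simp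
  add_mem' := fun {a b} ha hb => by
    obtain ⟨h1, h2⟩ := ha
    obtain ⟨h3, h4⟩ := hb
    constructor <;> simp [*]
  zero_mem' := by constructor <;> simp
  algebraMap_mem' := fun r => by constructor <;> simp
  inv_mem' := fun a ha => by
    obtain ⟨h1, h2⟩ := ha
    constructor <;> simp [Derivation.leibniz_inv, *]

lemma mem_foldKer {L : Type} [Field L] [Algebra ℂ L] {D D' : Derivation ℂ L L} {f : L} :
    f ∈ foldKer D D' ↔ D f = 0 ∧ D' f = 0 := Iff.rfl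

lemma fold_adjoin_stable {L : Type} [Field L] [Algebra ℂ L] (D : Derivation ℂ L L) (S : Set L)
    (hS : ∀ f ∈ S, D f ∈ Algebra.adjoin ℂ S) :
    ∀ f ∈ Algebra.adjoin ℂ S, D f ∈ Algebra.adjoin ℂ S := by
  intro f hf
  induction hf using Algebra.adjoin_induction with
  | mem x hx => exact hS x hx
  | algebraMap r => simp
  | add x y _ _ hx hy => rw [map_add]; exact Subalgebra.add_mem _ hx hy
  | mul x y hx0 hy0 hx hy =>
    rw [Derivation.leibniz]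
    exact Subalgebra.add_mem _ (Subalgebra.mul_mem _ hx0 hy) (Subalgebra.mul_mem _ hy0 hx)

lemma fold_step2 {L : Type} [Field L] [Algebra ℂ L] (d2 : Derivation ℂ L L)
    (p ψ χ R κ : L) (hψ : d2 ψ = 0) (hχ : d2 χ = -(p * ψ)) (ψ0 : ψ ≠ 0) (χ0 : χ ≠ 0)
    (hR : d2 R = -(κ * p * ψ * χ⁻¹ * R)) (f0 f1 f2 f3 : L) :
    N2 d2 0 0 p ![R * f0 * (ψ⁻¹ * χ⁻¹), R * f1 * (ψ⁻¹ * ψ⁻¹), R * f2 * (χ⁻¹ * χ⁻¹),
        R * f3 * (ψ⁻¹ * χ⁻¹)] =
      ![χ ^ 2 * (R * (ψ * χ)) * ((ψ * χ)⁻¹ * ((χ ^ 2)⁻¹ * d2 f0) + (1 - κ) * (p / χ ^ 4) * f0) *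
          (ψ⁻¹ * χ⁻¹),
        χ ^ 2 * (R * (ψ * χ)) * ((ψ * χ)⁻¹ * ((χ ^ 2)⁻¹ * d2 f1) - (p / χ ^ 4) * (f3 + κ * f1)) *
          (ψ⁻¹ * ψ⁻¹),
        χ ^ 2 * (R * (ψ * χ)) * ((ψ * χ)⁻¹ * ((χ ^ 2)⁻¹ * d2 f2) + (2 - κ) * (p / χ ^ 4) * f2) *
          (χ⁻¹ * χ⁻¹),
        χ ^ 2 * (R * (ψ * χ)) * ((ψ * χ)⁻¹ * ((χ ^ 2)⁻¹ * d2 f3) +
          (p / χ ^ 4) * ((1 - κ) * f3 + 2 * f2)) * (ψ⁻¹ * χ⁻¹)] := by
  funext i
  fin_cases i <;>
    simp [N2, Derivation.leibniz, Derivation.leibniz_inv, hψ, hχ, hR] <;>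
    field_simp <;> ring

lemma fold_step1 {L : Type} [Field L] [Algebra ℂ L] (d1 : Derivation ℂ L L)
    (h e q ψ χ R κ : L) (hψ : d1 ψ = q * χ) (hχ : d1 χ = 0) (ψ0 : ψ ≠ 0) (χ0 : χ ≠ 0)
    (hR : d1 R = κ * q * χ * ψ⁻¹ * R) (g0 g1 g2 g3 : L) :
    N1 d1 h e q ![χ ^ 2 * R * g0 * (ψ⁻¹ * χ⁻¹), χ ^ 2 * R * g1 * (ψ⁻¹ * ψ⁻¹),
        χ ^ 2 * R * g2 * (χ⁻¹ * χ⁻¹), χ ^ 2 * R * g3 * (ψ⁻¹ * χ⁻¹)] =
      ![R * (ψ * χ) ^ 3 * ((ψ * χ)⁻¹ * ((ψ ^ 2)⁻¹ * d1 g0 - 2 * e * (ψ * χ)⁻¹ * g2) +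
          (κ - 1) * (q / ψ ^ 4) * g0) * (ψ⁻¹ * χ⁻¹),
        R * (ψ * χ) ^ 3 * ((ψ * χ)⁻¹ * ((ψ ^ 2)⁻¹ * d1 g1 + (ψ * χ)⁻¹ * (e * g0 - h * g3)) +
          (κ - 2) * (q / ψ ^ 4) * g1) * (ψ⁻¹ * ψ⁻¹),
        R * (ψ * χ) ^ 3 * ((ψ * χ)⁻¹ * ((ψ ^ 2)⁻¹ * d1 g2) +
          (q / ψ ^ 4) * (κ * g2 - g3)) * (χ⁻¹ * χ⁻¹),
        R * (ψ * χ) ^ 3 * ((ψ * χ)⁻¹ * ((ψ ^ 2)⁻¹ * d1 g3 + 2 * h * (ψ * χ)⁻¹ * g2) +
          (q / ψ ^ 4) * (2 * g1 + (κ - 1) * g3)) * (ψ⁻¹ * χ⁻¹)] := by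
  funext i
  fin_cases i <;>
    simp [N1, Derivation.leibniz, Derivation.leibniz_inv, Derivation.leibniz_pow, hψ, hχ, hR] <;>
    field_simp <;> ring

lemma fold_dpow {L : Type} [Field L] [Algebra ℂ L] (d : Derivation ℂ L L) (r t : L)
    (hr : d r = t * r) (k : ℕ) : d (r ^ k) = (k : L) * t * r ^ k := by
  induction k with
  | zero => simp
  | succ k ih =>
    rw [pow_succ, Derivation.leibniz, ih, hr]
    simp only [smul_eq_mul]
    push_cast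
    ring

theorem fold_abs {L : Type} [Field L] [Algebra ℂ L] (d1 d2 E : Derivation ℂ L L)
    (h e q p ψ χ ψ' χ' : L)
    (c12 : ∀ f, d2 (d1 f) - d1 (d2 f) = -(2 * (q * p)) * E f)
    (cE1 : ∀ f, E (d1 f) - d1 (E f) = d1 f) (cE2 : ∀ f, E (d2 f) - d2 (E f) = -d2 f)
    (hh : d1 h = 0 ∧ d2 h = 0 ∧ E h = 0) (he : d1 e = 0 ∧ d2 e = 0 ∧ E e = 0)
    (hq : d2 q = 0 ∧ E q = 2 * q) (hp : d1 p = 0 ∧ E p = -(2 * p))
    (hψ : d1 ψ = q * χ ∧ d2 ψ = 0 ∧ 2 * E ψ = ψ) (hχ : d1 χ = 0 ∧ d2 χ = -(p * ψ) ∧ 2 * E χ = -χ)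
    (hψ' : d1 ψ' = q * χ' ∧ d2 ψ' = 0 ∧ 2 * E ψ' = ψ')
    (hχ' : d1 χ' = 0 ∧ d2 χ' = -(p * ψ') ∧ 2 * E χ' = -χ')
    (q0 : q ≠ 0) (p0 : p ≠ 0) (ψ0 : ψ ≠ 0) (χ0 : χ ≠ 0) (ω0 : ψ * χ' - ψ' * χ ≠ 0)
    (V : ℕ → Fin 4 → L) (V0 : V 0 = ![0, 0, 0, 1])
    (hV : ∀ m, V (m + 1) = N1 d1 h e q (N2 d2 0 0 p (V m))) (N : ℕ) : V N ≠ 0 := by
  have hchar : CharZero L := charZero_of_injective_algebraMap (algebraMap ℂ L).injective
  obtain ⟨hψ1, hψ2, hψE⟩ := hψ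
  obtain ⟨hχ1, hχ2, hχE⟩ := hχ
  obtain ⟨hψ1', hψ2', hψE'⟩ := hψ'
  obtain ⟨hχ1', hχ2', hχE'⟩ := hχ'
  have eψ : E ψ = ψ / 2 := by linear_combination hψE / 2
  have eχ : E χ = -χ / 2 := by linear_combination hχE / 2
  have eψ' : E ψ' = ψ' / 2 := by linear_combination hψE' / 2
  have eχ' : E χ' = -χ' / 2 := by linear_combination hχE' / 2
  obtain ⟨ω, hω⟩ : ∃ ω, ω = ψ * χ' - ψ' * χ := ⟨_, rfl⟩
  rw [← hω] at ω0
  have ω1 : d1 ω = 0 := by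
    rw [hω]; simp [Derivation.leibniz, hψ1, hχ1, hψ1', hχ1']; ring
  have ω2 : d2 ω = 0 := by
    rw [hω]; simp [Derivation.leibniz, hψ2, hχ2, hψ2', hχ2']; ring
  have ωE : E ω = 0 := by
    rw [hω]; simp [Derivation.leibniz, eψ, eχ, eψ', eχ']; ring
  let D1 : Derivation ℂ L L := (ψ ^ 2)⁻¹ • d1
  let D2 : Derivation ℂ L L := (χ ^ 2)⁻¹ • d2
  have hD1 : ∀ f, D1 f = (ψ ^ 2)⁻¹ * d1 f := fun f => rfl
  have hD2 : ∀ f, D2 f = (χ ^ 2)⁻¹ * d2 f := fun f => rfl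
  let C1 := foldKer d2 E
  let C2 := foldKer d1 E
  have s1 : ∀ f ∈ C1, D1 f ∈ C1 := by
    intro f hf
    obtain ⟨h2, hE⟩ := mem_foldKer.1 hf
    have a1 := c12 f
    have a2 := cE1 f
    rw [h2, hE] at a1
    rw [hE] at a2
    simp only [map_zero, sub_zero, mul_zero] at a1 a2
    rw [hD1]
    refine mem_foldKer.2 ⟨?_, ?_⟩
    · simp [Derivation.leibniz, Derivation.leibniz_inv, Derivation.leibniz_pow, hψ2, a1]
    · simp [Derivation.leibniz, Derivation.leibniz_inv, Derivation.leibniz_pow, eψ, a2]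
      field_simp
      ring
  have s2 : ∀ f ∈ C2, D2 f ∈ C2 := by
    intro f hf
    obtain ⟨h2, hE⟩ := mem_foldKer.1 hf
    have a1 := c12 f
    have a2 := cE2 f
    rw [h2, hE] at a1
    rw [hE] at a2
    simp only [map_zero, sub_zero, mul_zero, zero_sub, neg_eq_zero] at a1 a2
    rw [hD2]
    refine mem_foldKer.2 ⟨?_, ?_⟩
    · simp [Derivation.leibniz, Derivation.leibniz_inv, Derivation.leibniz_pow, hχ1, a1]
    · simp [Derivation.leibniz, Derivation.leibniz_inv, Derivation.leibniz_pow, eχ, a2]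
      field_simp
      ring
  have k1 : ∀ f ∈ C1, D2 f = 0 := fun f hf => by rw [hD2, (mem_foldKer.1 hf).1, mul_zero]
  have k2 : ∀ f ∈ C2, D1 f = 0 := fun f hf => by rw [hD1, (mem_foldKer.1 hf).1, mul_zero]
  have hu : ψ' * ψ⁻¹ * ω⁻¹ ∈ C1 := by
    refine mem_foldKer.2 ⟨?_, ?_⟩
    · simp [Derivation.leibniz, Derivation.leibniz_inv, hψ2, hψ2', ω2]
    · simp [Derivation.leibniz, Derivation.leibniz_inv, eψ, eψ', ωE, ω0]
      field_simp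
      ring
  have hw : χ' * χ⁻¹ * ω⁻¹ ∈ C2 := by
    refine mem_foldKer.2 ⟨?_, ?_⟩
    · simp [Derivation.leibniz, Derivation.leibniz_inv, hχ1, hχ1', ω1]
    · simp [Derivation.leibniz, Derivation.leibniz_inv, eχ, eχ', ωE, ω0]
      field_simp
      ring
  have du : D1 (ψ' * ψ⁻¹ * ω⁻¹) = q / ψ ^ 4 := by
    rw [hD1]
    simp only [Derivation.leibniz, Derivation.leibniz_inv, hψ1, hψ1', ω1, smul_eq_mul]
    field_simp
    rw [hω]; ring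
  have dw : D2 (χ' * χ⁻¹ * ω⁻¹) = p / χ ^ 4 := by
    rw [hD2]
    simp only [Derivation.leibniz, Derivation.leibniz_inv, hχ2, hχ2', ω2, smul_eq_mul]
    field_simp
    rw [hω]; ring
  have hδ : χ' * χ⁻¹ * ω⁻¹ - ψ' * ψ⁻¹ * ω⁻¹ = (ψ * χ)⁻¹ := by
    field_simp
    rw [hω]; ring
  have u0 : q / ψ ^ 4 ≠ 0 := div_ne_zero q0 (pow_ne_zero _ ψ0)
  have w0 : p / χ ^ 4 ≠ 0 := div_ne_zero p0 (pow_ne_zero _ χ0)
  have hu1 : q / ψ ^ 4 ∈ C1 := du ▸ s1 _ hu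
  have hw1 : p / χ ^ 4 ∈ C2 := dw ▸ s2 _ hw
  let A := Algebra.adjoin ℂ ((C1 : Set L) ∪ C2)
  have i1 : ∀ f ∈ C1, f ∈ A := fun f hf => Algebra.subset_adjoin (Or.inl hf)
  have i2 : ∀ f ∈ C2, f ∈ A := fun f hf => Algebra.subset_adjoin (Or.inr hf)
  have A1 : ∀ f ∈ A, (ψ ^ 2)⁻¹ * d1 f ∈ A := by
    refine fold_adjoin_stable D1 _ ?_
    rintro f (hf | hf)
    · exact i1 _ (s1 f hf)
    · rw [k2 f hf]; exact Subalgebra.zero_mem _
  have A2 : ∀ f ∈ A, (χ ^ 2)⁻¹ * d2 f ∈ A := by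
    refine fold_adjoin_stable D2 _ ?_
    rintro f (hf | hf)
    · rw [k1 f hf]; exact Subalgebra.zero_mem _
    · exact i2 _ (s2 f hf)
  have Aδ : (ψ * χ)⁻¹ ∈ A := hδ ▸ Subalgebra.sub_mem _ (i2 _ hw) (i1 _ hu)
  have Au : q / ψ ^ 4 ∈ A := i1 _ hu1
  have Aw : p / χ ^ 4 ∈ A := i2 _ hw1
  have Ah : h ∈ A := i1 _ (mem_foldKer.2 ⟨hh.2.1, hh.2.2⟩)
  have Ae : e ∈ A := i1 _ (mem_foldKer.2 ⟨he.2.1, he.2.2⟩)
  have An : ∀ k : ℕ, (k : L) ∈ A := fun k => natCast_mem A k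
  have A2' : (2 : L) ∈ A := by exact_mod_cast An 2
  have r1 : d1 (ψ * χ) = q * χ * ψ⁻¹ * (ψ * χ) := by
    simp only [Derivation.leibniz, hψ1, hχ1, smul_eq_mul]
    field_simp
    ring
  have r2 : d2 (ψ * χ) = -(p * ψ * χ⁻¹) * (ψ * χ) := by
    simp only [Derivation.leibniz, hψ2, hχ2, smul_eq_mul]
    field_simp
    ring
  have key : ∀ m : ℕ, ∃ f0 ∈ A, ∃ f1 ∈ A, ∃ f2 ∈ A, ∃ f3 ∈ A, ∃ a ∈ A, ∃ c : ℂ, c ≠ 0 ∧
      V m = ![(ψ * χ) ^ (4 * m + 1) * f0 * (ψ⁻¹ * χ⁻¹), (ψ * χ) ^ (4 * m + 1) * f1 * (ψ⁻¹ * ψ⁻¹),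
        (ψ * χ) ^ (4 * m + 1) * f2 * (χ⁻¹ * χ⁻¹), (ψ * χ) ^ (4 * m + 1) * f3 * (ψ⁻¹ * χ⁻¹)] ∧
      f1 - f2 + f3 = algebraMap ℂ L c * (q / ψ ^ 4 * (p / χ ^ 4)) ^ m + (ψ * χ)⁻¹ * a := by
    intro m
    induction m with
    | zero =>
      refine ⟨0, A.zero_mem, 0, A.zero_mem, 0, A.zero_mem, 1, A.one_mem, 0, A.zero_mem, 1,
        one_ne_zero, ?_, by simp⟩
      rw [V0]
      funext i
      fin_cases i <;> simp
      field_simp
    | succ m ih =>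
      obtain ⟨f0, a0, f1, a1, f2, a2, f3, a3, a, aa, c, c0, hVm, hν⟩ := ih
      obtain ⟨κ, hκ⟩ : ∃ κ : L, κ = ((4 * m + 1 : ℕ) : L) := ⟨_, rfl⟩
      have Aκ : κ ∈ A := hκ ▸ An _
      have hR2 : d2 ((ψ * χ) ^ (4 * m + 1)) = -(κ * p * ψ * χ⁻¹ * (ψ * χ) ^ (4 * m + 1)) := by
        rw [fold_dpow d2 _ _ r2, hκ]; ring
      have hR1 : d1 ((ψ * χ) ^ (4 * m + 1) * (ψ * χ)) =
          (κ + 1) * q * χ * ψ⁻¹ * ((ψ * χ) ^ (4 * m + 1) * (ψ * χ)) := by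
        rw [← pow_succ, fold_dpow d1 _ _ r1, hκ]; push_cast; ring
      have hstep := hV m
      rw [hVm, fold_step2 d2 p ψ χ _ κ hψ2 hχ2 ψ0 χ0 hR2,
        fold_step1 d1 h e q ψ χ _ (κ + 1) hψ1 hχ1 ψ0 χ0 hR1] at hstep
      obtain ⟨g0, hg0⟩ : ∃ g, g = (ψ * χ)⁻¹ * ((χ ^ 2)⁻¹ * d2 f0) + (1 - κ) * (p / χ ^ 4) * f0 :=
        ⟨_, rfl⟩
      obtain ⟨g1, hg1⟩ : ∃ g, g = (ψ * χ)⁻¹ * ((χ ^ 2)⁻¹ * d2 f1) - (p / χ ^ 4) * (f3 + κ * f1) :=
        ⟨_, rfl⟩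
      obtain ⟨g2, hg2⟩ : ∃ g, g = (ψ * χ)⁻¹ * ((χ ^ 2)⁻¹ * d2 f2) + (2 - κ) * (p / χ ^ 4) * f2 :=
        ⟨_, rfl⟩
      obtain ⟨g3, hg3⟩ : ∃ g, g = (ψ * χ)⁻¹ * ((χ ^ 2)⁻¹ * d2 f3) +
        (p / χ ^ 4) * ((1 - κ) * f3 + 2 * f2) := ⟨_, rfl⟩
      rw [← hg0, ← hg1, ← hg2, ← hg3] at hstep
      have b0 : g0 ∈ A := hg0 ▸ A.add_mem (A.mul_mem Aδ (A2 _ a0))
        (A.mul_mem (A.mul_mem (A.sub_mem A.one_mem Aκ) Aw) a0)
      have b1 : g1 ∈ A := hg1 ▸ A.sub_mem (A.mul_mem Aδ (A2 _ a1))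
        (A.mul_mem Aw (A.add_mem a3 (A.mul_mem Aκ a1)))
      have b2 : g2 ∈ A := hg2 ▸ A.add_mem (A.mul_mem Aδ (A2 _ a2))
        (A.mul_mem (A.mul_mem (A.sub_mem A2' Aκ) Aw) a2)
      have b3 : g3 ∈ A := hg3 ▸ A.add_mem (A.mul_mem Aδ (A2 _ a3))
        (A.mul_mem Aw (A.add_mem (A.mul_mem (A.sub_mem A.one_mem Aκ) a3) (A.mul_mem A2' a2)))
      have Aκ1 : κ + 1 ∈ A := A.add_mem Aκ A.one_mem
      have hpw : (ψ * χ) ^ (4 * m + 1) * (ψ * χ) * (ψ * χ) ^ 3 = (ψ * χ) ^ (4 * (m + 1) + 1) := by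
        ring
      rw [hpw] at hstep
      refine ⟨_, ?_, _, ?_, _, ?_, _, ?_,
        (ψ ^ 2)⁻¹ * d1 g1 - (ψ ^ 2)⁻¹ * d1 g2 + (ψ ^ 2)⁻¹ * d1 g3 +
          (ψ * χ)⁻¹ * (e * g0 - h * g3 + 2 * h * g2) +
          (κ + 1) * (q / ψ ^ 4) * ((χ ^ 2)⁻¹ * d2 f1 - (χ ^ 2)⁻¹ * d2 f2 + (χ ^ 2)⁻¹ * d2 f3 -
            κ * (p / χ ^ 4) * a), ?_,
        -(((4 * m + 1 : ℕ) : ℂ) + 1) * ((4 * m + 1 : ℕ) : ℂ) * c, ?_, hstep, ?_⟩
      · exact A.add_mem (A.mul_mem Aδ (A.sub_mem (A1 _ b0)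
          (A.mul_mem (A.mul_mem (A.mul_mem A2' Ae) Aδ) b2)))
          (A.mul_mem (A.mul_mem (A.sub_mem Aκ1 A.one_mem) Au) b0)
      · exact A.add_mem (A.mul_mem Aδ (A.add_mem (A1 _ b1)
          (A.mul_mem Aδ (A.sub_mem (A.mul_mem Ae b0) (A.mul_mem Ah b3)))))
          (A.mul_mem (A.mul_mem (A.sub_mem Aκ1 A2') Au) b1)
      · exact A.add_mem (A.mul_mem Aδ (A1 _ b2))
          (A.mul_mem Au (A.sub_mem (A.mul_mem Aκ1 b2) b3))
      · exact A.add_mem (A.mul_mem Aδ (A.add_mem (A1 _ b3)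
          (A.mul_mem (A.mul_mem (A.mul_mem A2' Ah) Aδ) b2)))
          (A.mul_mem Au (A.add_mem (A.mul_mem A2' b1) (A.mul_mem (A.sub_mem Aκ1 A.one_mem) b3)))
      · exact A.add_mem (A.add_mem (A.add_mem (A.sub_mem (A1 _ b1) (A1 _ b2)) (A1 _ b3))
          (A.mul_mem Aδ (A.add_mem (A.sub_mem (A.mul_mem Ae b0) (A.mul_mem Ah b3))
            (A.mul_mem (A.mul_mem A2' Ah) b2))))
          (A.mul_mem (A.mul_mem Aκ1 Au) (A.sub_mem (A.add_mem (A.sub_mem (A2 _ a1) (A2 _ a2))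
            (A2 _ a3)) (A.mul_mem (A.mul_mem Aκ Aw) aa)))
      · refine mul_ne_zero (mul_ne_zero (neg_ne_zero.2 ?_) ?_) c0
        · exact_mod_cast Nat.succ_ne_zero (4 * m + 1)
        · exact_mod_cast Nat.succ_ne_zero (4 * m)
      · have hc : algebraMap ℂ L (-(((4 * m + 1 : ℕ) : ℂ) + 1) * ((4 * m + 1 : ℕ) : ℂ) * c) =
            -(κ + 1) * κ * algebraMap ℂ L c := by
          rw [hκ]; simp only [map_mul, map_neg, map_add, map_natCast, map_one]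
        rw [hc, pow_succ]
        have hg : g1 - g2 + g3 = (ψ * χ)⁻¹ * ((χ ^ 2)⁻¹ * d2 f1 - (χ ^ 2)⁻¹ * d2 f2 +
            (χ ^ 2)⁻¹ * d2 f3) - κ * (p / χ ^ 4) * (f1 - f2 + f3) := by
          rw [hg1, hg2, hg3]; ring
        rw [hν] at hg
        linear_combination (κ + 1) * (q / ψ ^ 4) * hg
  intro hN
  obtain ⟨f0, a0, f1, a1, f2, a2, f3, a3, a, aa, c, c0, hVm, hν⟩ := key N
  rw [hN] at hVm
  have hR0 : (ψ * χ) ^ (4 * N + 1) ≠ 0 := pow_ne_zero _ (mul_ne_zero ψ0 χ0)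
  have z1 : f1 = 0 := by
    have := congrFun hVm 1
    simpa [hR0, ψ0, χ0] using this
  have z2 : f2 = 0 := by
    have := congrFun hVm 2
    simpa [hR0, ψ0, χ0] using this
  have z3 : f3 = 0 := by
    have := congrFun hVm 3
    simpa [hR0, ψ0, χ0] using this
  rw [z1, z2, z3] at hν
  have cL : algebraMap ℂ L c ≠ 0 := by simpa using c0
  refine sep_not_unit D1 D2 C1 C2 k1 k2 s2 hu hw (du ▸ u0) (dw ▸ w0)
    (-(a * algebraMap ℂ L c⁻¹ * ((q / ψ ^ 4)⁻¹ * (p / χ ^ 4)⁻¹) ^ N)) ?_ ?_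
  · exact A.neg_mem (A.mul_mem (A.mul_mem aa (A.algebraMap_mem _))
      (A.pow_mem (A.mul_mem (i1 _ (C1.inv_mem hu1)) (i2 _ (C2.inv_mem hw1))) N))
  · rw [hδ, map_inv₀, ← mul_inv, inv_pow]
    have t0 : (q / ψ ^ 4 * (p / χ ^ 4)) ^ N ≠ 0 := pow_ne_zero _ (mul_ne_zero u0 w0)
    obtain ⟨t, ht⟩ : ∃ t, t = (q / ψ ^ 4 * (p / χ ^ 4)) ^ N := ⟨_, rfl⟩
    rw [← ht] at hν t0 ⊢
    have e1 : (ψ * χ)⁻¹ * a = -(algebraMap ℂ L c * t) := by linear_combination -hν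
    calc (ψ * χ)⁻¹ * -(a * (algebraMap ℂ L c)⁻¹ * t⁻¹)
        = -((ψ * χ)⁻¹ * a) * (algebraMap ℂ L c)⁻¹ * t⁻¹ := by ring
      _ = 1 := by rw [e1]; field_simp

end Pool.Agent.Lib.MP_51f413_gt
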