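import Pool.Agent.Lib.MP_51f413_gt.Geo
import Pool.Agent.Lib.MP_51f413_gt.Sys

/-!
The invariants of a finite type surface satisfy the differential system.
-/

namespace Pool.Agent.Lib.MP_51f413_gt

variable {R : Type} [CommRing R] [Algebra ℂ R]

/-- A finite type decomposition gives a monic polynomial in the Laplacian that kills the mean
curvature vector. -/
theorem exists_tower (L : R →ₗ[ℂ] R) (hL : L 1 = 0) (x : Fin 4 → R) (c : Fin 4 → ℂ) (k : ℕ)
    (y : Fin k → Fin 4 → R) (μ : Fin k → ℂ) (hy : ∀ i a, L (y i a) = μ i • y i a)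
    (hx : ∀ a, x a = algebraMap ℂ R (c a) + ∑ i, y i a) :
    ∃ (N : ℕ) (r : ℕ → ℂ) (V : ℕ → Fin 4 → R), 0 < N ∧ V 0 = qV L x ∧
      (∀ m a, V (m + 1) a = L (V m a)) ∧
      ∀ a, V N a = -∑ j ∈ Finset.range N, algebraMap ℂ R (r j) * V j a := by
  let Q : Polynomial ℂ := Polynomial.X * ∏ i, (Polynomial.X - Polynomial.C (μ i))
  have hm : (∏ i, (Polynomial.X - Polynomial.C (μ i))).Monic :=
    Polynomial.monic_prod_of_monic _ _ fun i _ => Polynomial.monic_X_sub_C _
  have hQ : Q.Monic := Polynomial.monic_X.mul hm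
  have hd : 0 < Q.natDegree := by
    rw [Polynomial.monic_X.natDegree_mul hm, Polynomial.natDegree_X]
    omega
  have h1 : Polynomial.aeval L Q 1 = 0 := by
    rw [Module.End.aeval_apply_of_mem_apply_eq_smul (μ := 0) (by rw [hL, zero_smul])]
    simp [Q]
  have h2 : ∀ i a, Polynomial.aeval L Q (y i a) = 0 := fun i a => by
    rw [Module.End.aeval_apply_of_mem_apply_eq_smul (hy i a), Polynomial.eval_mul,
      Polynomial.eval_prod, Finset.prod_eq_zero (Finset.mem_univ i) (by simp), mul_zero, zero_smul]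
  have h3 : ∀ a, qV L x a = (2 * c a) • (1 : R) + ∑ i, (μ i + 2) • y i a := fun a => by
    rw [qV, hx, Algebra.algebraMap_eq_smul_one, map_add, map_smul, hL, map_sum]
    simp only [hy, add_smul, Finset.sum_add_distrib, two_smul, two_mul, smul_zero]
    abel
  refine ⟨Q.natDegree, Q.coeff, fun m a => (L ^ m) (qV L x a), hd, rfl, fun m a => ?_, fun a => ?_⟩
  · simp only [pow_succ', Module.End.mul_apply]
  · have h4 : Polynomial.aeval L Q (qV L x a) = 0 := by
      rw [h3]
      simp only [map_add, map_smul, map_sum, h1, h2, smul_zero, Finset.sum_const_zero, add_zero]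
    rw [Polynomial.aeval_eq_sum_range, Finset.sum_range_succ, hQ.coeff_natDegree, one_smul,
      LinearMap.add_apply, LinearMap.sum_apply] at h4
    simp only [LinearMap.smul_apply] at h4
    simp only [Algebra.smul_def] at h4
    exact eq_neg_of_add_eq_zero_right h4

theorem fsys_der_Xv (D : Derivation ℂ R R) (X : Matrix (Fin 4) (Fin 4) ℂ) (w : Fin 4 → R)
    (a : Fin 4) : D (Xv X w a) = Xv X (dv D w) a := by
  simp only [Xv, dv, map_sum, Derivation.leibniz, Derivation.map_algebraMap, smul_eq_mul,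
    mul_zero, add_zero]

theorem fsys_lap (C : Conf R) (F : Frame C) {w : Fin 4 → R} (hw : ∀ a, C.T (w a) = Xv C.X w a)
    (a : Fin 4) : C.T (C.Lap (w a)) = Xv C.X (fun c => C.Lap (w c)) a := by
  have h1 : C.T C.Si = 0 := by
    have := congrArg C.T C.hS
    rw [Derivation.leibniz, F.TS, Derivation.map_one_eq_zero, smul_eq_mul, smul_eq_mul] at this
    linear_combination C.Si * this - C.T C.Si * C.hS
  have h2 : C.T (C.Lap (w a)) = C.Lap (C.T (w a)) := by
    simp only [Conf.Lap, Derivation.leibniz, Derivation.leibniz_pow, h1, map_add, C.comm,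
      smul_eq_mul, mul_zero, smul_zero, add_zero]
  rw [h2, hw, Conf.Lap]
  simp only [fsys_der_Xv]
  simp only [Xv, dv, Conf.Lap, Fin.sum_univ_four]
  ring

theorem fsys_ipX (C : Conf R) (F : Frame C) (w : Fin 4 → R) (u : R) (i : Fin 4) :
    u * ip (Xv C.X w) (F.f i) = Xm C.S F.l F.b F.k (fun j => u * ip w (F.f j)) i := by
  have h1 : ip (Xv C.X w) (F.f i) = -ip w (Xv C.X (F.f i)) := by
    simp only [ip, Xv, Finset.sum_mul, Finset.mul_sum, ← Finset.sum_neg_distrib]
    rw [Finset.sum_comm]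
    refine Finset.sum_congr rfl fun a _ => Finset.sum_congr rfl fun c _ => ?_
    rw [C.skew c a, map_neg]
    ring
  rw [h1]
  fin_cases i
  · simp [ip, F.X0, Xm, Fin.sum_univ_four]
    ring
  · simp [ip, F.X1, Xm, Fin.sum_univ_four]
    ring
  · simp [ip, F.X2, Xm, Fin.sum_univ_four]
    ring
  · simp [ip, F.X3, Xm, Fin.sum_univ_four]
    ring

theorem fsys_N (C : Conf R) (F : Frame C) (w : Fin 4 → R) (m : ℕ) (i : Fin 4) :
    C.N (C.S ^ (2 * m + 1) * ip w (F.f i)) = C.S ^ (2 * m + 1) * ip (dv C.N w) (F.f i) +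
      (2 * m + 1) * F.l * (C.S ^ (2 * m + 1) * ip w (F.f i)) -
      Om C.S F.b F.k1 (fun j => C.S ^ (2 * m + 1) * ip w (F.f j)) i := by
  have h1 : C.N (C.S ^ (2 * m + 1)) = (2 * m + 1) * F.l * C.S ^ (2 * m + 1) := by
    rw [Derivation.leibniz_pow, F.NS]
    simp only [Nat.add_sub_cancel, smul_eq_mul, nsmul_eq_mul]
    push_cast
    ring
  rw [Derivation.leibniz, h1]
  generalize C.S ^ (2 * m + 1) = u
  fin_cases i
  · simp [ip, dv, F.N0, Om, Fin.sum_univ_four]
    ring
  · simp [ip, dv, F.N1, Om, Fin.sum_univ_four]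
    ring
  · simp [ip, dv, F.N2, Om, Fin.sum_univ_four]
    ring
  · simp [ip, dv, F.N3, Om, Fin.sum_univ_four]
    ring

theorem fsys_mat (C : Conf R) (F : Frame C) :
    Matrix.of F.f * C.X.map (algebraMap ℂ R) * (Matrix.of F.f).transpose =
      !![0, 0, -C.S, 0; 0, 0, -F.l, -F.b; C.S, F.l, 0, -F.k; 0, F.b, F.k, 0] := by
  ext i j
  have h1 : (Matrix.of F.f * C.X.map (algebraMap ℂ R) * (Matrix.of F.f).transpose) i j =
      1 * ip (Xv C.X (F.f j)) (F.f i) := by
    simp only [Matrix.mul_apply, Matrix.of_apply, Matrix.map_apply, Matrix.transpose_apply, ip, Xv,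
      Fin.sum_univ_four]
    ring
  rw [h1, fsys_ipX]
  simp only [F.orth]
  fin_cases i <;> fin_cases j <;> simp [Xm]

theorem exists_sys (C : Conf R) (F : Frame C) (N : ℕ) (r : ℕ → ℂ) (V : ℕ → Fin 4 → R)
    (h0 : V 0 = qV C.Lap C.x) (hV : ∀ m a, V (m + 1) a = C.Lap (V m a))
    (htop : ∀ a, V N a = -∑ j ∈ Finset.range N, algebraMap ℂ R (r j) * V j a) :
    ∃ s : Sys C.N N r, s.Nrm ∧ s.e = C.S ∧ s.l = F.l ∧ s.b = F.b ∧ s.k = F.k ∧
      s.eta = F.k + F.k1 ∧
      s.a = algebraMap ℂ R ((∑ a, ∑ c, C.X a c ^ 2) / 2) ∧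
      (s.e * s.b) ^ 2 = algebraMap ℂ R C.X.det := by
  have hG0 : ∀ i, C.S ^ (2 * 0 + 1) * ip (V 0) (F.f i) =
      (F.k + F.k1) * if 3 = i then 1 else 0 := fun i => by
    rw [← F.orth, h0]
    simp only [ip, F.hV, Fin.sum_univ_four]
    linear_combination (F.k + F.k1) * (F.f 3 0 * F.f i 0 + F.f 3 1 * F.f i 1 + F.f 3 2 * F.f i 2 +
      F.f 3 3 * F.f i 3) * C.hS
  have hk : C.S ^ (2 * 0 + 1) * ip (V 0) (F.f 3) - F.k = F.k1 := by
    rw [hG0]
    simp
  have hT : ∀ m a, C.T (V m a) = Xv C.X (V m) a := by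
    intro m
    induction m with
    | zero =>
      intro a
      have h2 : C.T 2 = 0 := by simpa using C.T.map_natCast 2
      rw [h0, qV, map_add, fsys_lap C F C.Tx, Derivation.leibniz, h2, C.Tx]
      simp only [Xv, qV, Fin.sum_univ_four, smul_eq_mul]
      ring
    | succ m ih =>
      intro a
      rw [hV, fsys_lap C F ih, show V (m + 1) = fun c => C.Lap (V m c) from funext (hV m)]
  have hNN : ∀ m, dv C.N (dv C.N (V m)) =
      fun a => C.S ^ 2 * V (m + 1) a - Xv C.X (Xv C.X (V m)) a := fun m => by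
    funext a
    have h1 : C.T (C.T (V m a)) = Xv C.X (Xv C.X (V m)) a := by
      rw [hT, fsys_der_Xv, show dv C.T (V m) = Xv C.X (V m) from funext (hT m)]
    rw [hV, Conf.Lap, h1]
    simp only [dv]
    linear_combination (-(Xv C.X (Xv C.X (V m)) a + C.N (C.N (V m a))) * (C.S * C.Si + 1)) * C.hS
  have hFF : (Matrix.of F.f).transpose * Matrix.of F.f = 1 := by
    ext a c
    rw [Matrix.mul_apply, Matrix.one_apply, ← F.compl]
    rfl
  refine ⟨{ e := C.S, l := F.l, b := F.b, k := F.k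
            G := fun m i => C.S ^ (2 * m + 1) * ip (V m) (F.f i)
            H := fun m i => C.S ^ (2 * m + 1) * ip (dv C.N (V m)) (F.f i)
            de := F.NS
            dl := by rw [hk]; exact F.Nl
            db := F.Nb
            dk := by rw [hk]; exact F.Nk
            dG := fun m _ i => by rw [hk]; exact fsys_N C F _ m i
            dH := fun m _ i => ?_
            top := fun i => ?_ }, ⟨?_, ?_, ?_⟩, rfl, rfl, rfl, rfl, ?_, ?_, ?_⟩
  · rw [hk, fsys_N, hNN, ← funext (fsys_ipX C F (V m) (C.S ^ (2 * m + 1))), ← fsys_ipX]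
    simp only [ip, Fin.sum_univ_four]
    ring
  · have h1 : ip (V N) (F.f i) =
        -∑ j ∈ Finset.range N, algebraMap ℂ R (r j) * ip (V j) (F.f i) := by
      simp only [ip, htop, neg_mul, Finset.sum_neg_distrib, Finset.sum_mul, Finset.mul_sum,
        mul_assoc]
      rw [Finset.sum_comm]
    rw [h1, mul_neg, Finset.mul_sum]
    refine congrArg _ (Finset.sum_congr rfl fun j hj => ?_)
    have h2 : 2 * N + 1 = 2 * (N - j) + (2 * j + 1) := by
      have := Finset.mem_range.1 hj
      omega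
    rw [h2, pow_add]
    ring
  · exact (hG0 0).trans (by simp)
  · exact (hG0 1).trans (by simp)
  · exact (hG0 2).trans (by simp)
  · exact (hG0 3).trans (by simp)
  · have h1 := congrArg (fun M : Matrix (Fin 4) (Fin 4) R => (M * M.transpose).trace) (fsys_mat C F)
    simp only [Matrix.transpose_mul, Matrix.transpose_transpose] at h1
    rw [Matrix.mul_assoc _ _ (_ * _), ← Matrix.mul_assoc (Matrix.of F.f).transpose, hFF,
      Matrix.one_mul, Matrix.mul_assoc, Matrix.trace_mul_comm, Matrix.mul_assoc, Matrix.mul_assoc,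
      hFF, Matrix.mul_one] at h1
    have h2 : algebraMap ℂ R (∑ a, ∑ c, C.X a c ^ 2) =
        2 * (C.S ^ 2 + F.l ^ 2 + F.b ^ 2 + F.k ^ 2) := by
      simp only [Matrix.trace, Matrix.diag, Matrix.mul_apply, Matrix.transpose_apply,
        Fin.sum_univ_four] at h1
      simp at h1
      simp only [Fin.sum_univ_four, map_add, map_pow]
      linear_combination h1
    have h3 : algebraMap ℂ R 2⁻¹ * 2 = 1 := by
      rw [← map_ofNat (algebraMap ℂ R) 2, ← map_mul]
      simp
    rw [div_eq_mul_inv, map_mul, h2]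
    show C.S ^ 2 + F.l ^ 2 + F.b ^ 2 + F.k ^ 2 = _
    linear_combination -(C.S ^ 2 + F.l ^ 2 + F.b ^ 2 + F.k ^ 2) * h3
  · have h1 := congrArg Matrix.det (fsys_mat C F)
    have h2 := congrArg Matrix.det hFF
    rw [Matrix.det_mul, Matrix.det_one] at h2
    rw [Matrix.det_mul, Matrix.det_mul, ← RingHom.mapMatrix_apply, ← RingHom.map_det] at h1
    have h3 : Matrix.det !![0, 0, -C.S, 0; 0, 0, -F.l, -F.b; C.S, F.l, 0, -F.k; 0, F.b, F.k, 0] =
        (C.S * F.b) ^ 2 := by
      simp [Matrix.det_succ_row_zero, Fin.sum_univ_succ, Fin.succAbove]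
      ring
    show (C.S * F.b) ^ 2 = _
    linear_combination -h1 - h3 + algebraMap ℂ R C.X.det * h2

end Pool.Agent.Lib.MP_51f413_gt
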