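import Pool.Agent.Lib.MP_51f413_gt.Geo

/-!
Geometric meaning of the algebraic alternatives.
-/

namespace Pool.Agent.Lib.MP_51f413_gt

variable {R : Type} [CommRing R] [Algebra ℂ R]

namespace Frame

variable {C : Conf R} (F : Frame C) (J : Ideal R)

include F in
theorem fin_TSi : C.T C.Si = 0 := by
  have h := congrArg C.T C.hS
  rw [Derivation.leibniz, F.TS, Derivation.map_one_eq_zero] at h
  simp only [smul_eq_mul] at h
  linear_combination C.Si * h - C.T C.Si * C.hS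

theorem fin_NSi : C.N C.Si = -(F.l * C.Si) := by
  have h := congrArg C.N C.hS
  rw [Derivation.leibniz, F.NS, Derivation.map_one_eq_zero] at h
  simp only [smul_eq_mul] at h
  linear_combination C.Si * h - (C.N C.Si + F.l * C.Si) * C.hS

/-- The mean curvature. -/
def finH : R := C.Si * (F.k + F.k1)

/-- The defect of constant mean curvature. -/
def finE : R := C.N (F.k + F.k1) - F.l * (F.k + F.k1)

theorem fin_TH : C.T F.finH = 0 := by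
  simp [finH, Derivation.leibniz, F.fin_TSi, F.Tk, F.Tk1]

theorem fin_NH : C.N F.finH = C.Si * F.finE := by
  rw [finH, Derivation.leibniz, F.fin_NSi, finE]
  simp only [smul_eq_mul]
  ring

theorem fin_Nk1 : C.N F.k1 = F.finE + F.l * F.k := by
  rw [finE, map_add, F.Nk]
  ring

theorem fin_HS : F.finH * C.S = F.k + F.k1 := by
  rw [finH]
  linear_combination (F.k + F.k1) * C.hS

theorem fin_V (a : Fin 4) : qV C.Lap C.x a = F.finH * F.f 3 a := F.hV a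

theorem fin_x (a : Fin 4) : C.x a = F.f 0 a := by rw [F.f0]

theorem fin_T0 (a : Fin 4) : C.T (F.f 0 a) = C.S * F.f 2 a := by rw [F.Tf, F.X0]

theorem fin_T1 (a : Fin 4) : C.T (F.f 1 a) = F.l * F.f 2 a + F.b * F.f 3 a := by rw [F.Tf, F.X1]

theorem fin_T2 (a : Fin 4) :
    C.T (F.f 2 a) = -(C.S * F.f 0 a) - F.l * F.f 1 a + F.k * F.f 3 a := by rw [F.Tf, F.X2]

theorem fin_T3 (a : Fin 4) : C.T (F.f 3 a) = -(F.b * F.f 1 a) - F.k * F.f 2 a := by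
  rw [F.Tf, F.X3]

theorem fin_ip (p0 p1 p2 p3 q0 q1 q2 q3 : R) :
    ∑ a, (p0 * F.f 0 a + p1 * F.f 1 a + p2 * F.f 2 a + p3 * F.f 3 a) *
      (q0 * F.f 0 a + q1 * F.f 1 a + q2 * F.f 2 a + q3 * F.f 3 a) =
      p0 * q0 + p1 * q1 + p2 * q2 + p3 * q3 := by
  have h00 : ip (F.f 0) (F.f 0) = 1 := by rw [F.orth]; rfl
  have h11 : ip (F.f 1) (F.f 1) = 1 := by rw [F.orth]; rfl
  have h22 : ip (F.f 2) (F.f 2) = 1 := by rw [F.orth]; rfl
  have h33 : ip (F.f 3) (F.f 3) = 1 := by rw [F.orth]; rfl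
  have h01 : ip (F.f 0) (F.f 1) = 0 := by rw [F.orth]; rfl
  have h02 : ip (F.f 0) (F.f 2) = 0 := by rw [F.orth]; rfl
  have h03 : ip (F.f 0) (F.f 3) = 0 := by rw [F.orth]; rfl
  have h12 : ip (F.f 1) (F.f 2) = 0 := by rw [F.orth]; rfl
  have h13 : ip (F.f 1) (F.f 3) = 0 := by rw [F.orth]; rfl
  have h23 : ip (F.f 2) (F.f 3) = 0 := by rw [F.orth]; rfl
  simp only [ip, Fin.sum_univ_four] at h00 h11 h22 h33 h01 h02 h03 h12 h13 h23 ⊢
  linear_combination p0 * q0 * h00 + p1 * q1 * h11 + p2 * q2 * h22 + p3 * q3 * h33 +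
    (p0 * q1 + p1 * q0) * h01 + (p0 * q2 + p2 * q0) * h02 + (p0 * q3 + p3 * q0) * h03 +
    (p1 * q2 + p2 * q1) * h12 + (p1 * q3 + p3 * q1) * h13 + (p2 * q3 + p3 * q2) * h23

theorem fin_c : qc C.Lap C.x = F.finH ^ 2 := by
  have h := F.fin_ip 0 0 0 F.finH 0 0 0 F.finH
  simp only [zero_mul, zero_add] at h
  simp only [qc, ip, F.fin_V]
  rw [h, sq]

theorem fin_TV (a : Fin 4) :
    C.T (qV C.Lap C.x a) = -(F.finH * (F.b * F.f 1 a + F.k * F.f 2 a)) := by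
  rw [F.fin_V, Derivation.leibniz, F.fin_TH, F.fin_T3]
  simp only [smul_eq_mul]
  ring

theorem fin_NV (a : Fin 4) : C.N (qV C.Lap C.x a) =
    C.N F.finH * F.f 3 a - F.finH * (F.k1 * F.f 1 a + F.b * F.f 2 a) := by
  rw [F.fin_V, Derivation.leibniz, F.N3]
  simp only [smul_eq_mul]
  ring

theorem fin_LV (a : Fin 4) : C.Lap (qV C.Lap C.x a) =
    (C.Si ^ 2 * (F.finH * (F.k + F.k1) * C.S)) * F.f 0 a +
      (C.Si ^ 2 * (-(F.finH * F.finE) - 2 * C.N F.finH * F.k1)) * F.f 1 a +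
      (C.Si ^ 2 * (-(2 * C.N F.finH * F.b))) * F.f 2 a +
      (C.Si ^ 2 * (C.N (C.N F.finH) - F.finH * (F.k ^ 2 + F.k1 ^ 2 + 2 * F.b ^ 2))) * F.f 3 a := by
  rw [Conf.Lap, F.fin_TV, F.fin_NV]
  simp only [map_neg, map_sub, map_add, Derivation.leibniz, smul_eq_mul, F.fin_TH, F.Tb, F.Tk,
    F.fin_T1, F.fin_T2, F.N1, F.N2, F.N3, F.Nb, F.fin_Nk1]
  ring

theorem fin_P : qP C.Lap C.x =
    F.finH * (C.Si ^ 2 * (C.N (C.N F.finH) - F.finH * (F.k ^ 2 + F.k1 ^ 2 + 2 * F.b ^ 2))) := by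
  have h := F.fin_ip 0 0 0 F.finH (C.Si ^ 2 * (F.finH * (F.k + F.k1) * C.S))
    (C.Si ^ 2 * (-(F.finH * F.finE) - 2 * C.N F.finH * F.k1))
    (C.Si ^ 2 * (-(2 * C.N F.finH * F.b)))
    (C.Si ^ 2 * (C.N (C.N F.finH) - F.finH * (F.k ^ 2 + F.k1 ^ 2 + 2 * F.b ^ 2)))
  simp only [zero_mul, zero_add] at h
  rw [← h, qP, ip]
  refine Finset.sum_congr rfl fun a _ => ?_
  rw [F.fin_LV, F.fin_V]

theorem fin_nu (h : C.N (F.k + F.k1) - F.l * (F.k + F.k1) ∈ J) : C.N F.finH ∈ J := by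
  rw [F.fin_NH]
  exact J.mul_mem_left _ h

theorem fin_two (D : Derivation ℂ R R) : D 2 = 0 := by
  have h := D.map_natCast 2
  simpa using h

/-- The main part of the matrix `qZ`. -/
def finW (a b : Fin 4) : R :=
  F.k1 * (F.f 1 a * F.f 1 b) + F.b * (F.f 1 a * F.f 2 b + F.f 2 a * F.f 1 b) +
    F.k * (F.f 2 a * F.f 2 b) - C.S * (F.f 0 a * F.f 3 b + F.f 3 a * F.f 0 b) +
    (F.k + F.k1) * (F.f 3 a * F.f 3 b)

theorem fin_Lap_mul (C : Conf R) (u w : R) :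
    C.Lap (u * w) - u * C.Lap w - w * C.Lap u =
      2 * C.Si ^ 2 * (C.T u * C.T w + C.N u * C.N w) := by
  simp only [Conf.Lap, Derivation.leibniz, map_add, smul_eq_mul]
  ring

theorem fin_Z (a b : Fin 4) : qZ C.Lap C.x a b =
    2 * (C.Si * F.finH) * F.finW a b - 2 * C.Si * (F.f 3 a * F.f 1 b) * C.N F.finH := by
  rw [qZ, fin_Lap_mul, F.fin_TV, F.fin_NV, F.fin_V, F.fin_V, F.fin_x, F.fin_x, F.fin_T0, F.N0,
    finW]
  have h1 : C.Si * (F.k + F.k1) = F.finH := rfl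
  linear_combination (2 * C.Si * (F.finH * (F.b * F.f 1 a + F.k * F.f 2 a) * F.f 2 b -
    (C.N F.finH * F.f 3 a - F.finH * (F.k1 * F.f 1 a + F.b * F.f 2 a)) * F.f 1 b) +
    2 * F.finH * (F.f 0 a * F.f 3 b + F.f 3 a * F.f 0 b)) * C.hS -
    2 * F.finH * (F.f 3 a * F.f 3 b) * h1

theorem fin_TW (a b : Fin 4) : C.T (F.finW a b) =
    (F.f 3 a * F.f 2 b + F.f 2 a * F.f 3 b) * C.N F.l +
      ((F.k1 - F.k) * (F.f 1 a * F.f 2 b + F.f 2 a * F.f 1 b) +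
        2 * F.b * (F.f 2 a * F.f 2 b - F.f 1 a * F.f 1 b)) * F.l := by
  simp only [finW, map_sub, map_add, Derivation.leibniz, smul_eq_mul, F.Tb, F.Tk, F.Tk1, F.TS,
    F.fin_T0, F.fin_T1, F.fin_T2, F.fin_T3, F.Nl]
  ring

theorem fin_NW (a b : Fin 4) : C.N (F.finW a b) =
    (F.f 3 a * F.f 1 b + F.f 1 a * F.f 3 b) * C.N F.l +
      (F.k * (F.f 1 a * F.f 1 b) - F.b * (F.f 1 a * F.f 2 b + F.f 2 a * F.f 1 b) +
        F.k1 * (F.f 2 a * F.f 2 b) - C.S * (F.f 0 a * F.f 3 b + F.f 3 a * F.f 0 b) +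
        (F.k + F.k1) * (F.f 3 a * F.f 3 b)) * F.l +
      (F.f 1 a * F.f 1 b + F.f 3 a * F.f 3 b) * F.finE := by
  simp only [finW, map_sub, map_add, Derivation.leibniz, smul_eq_mul, F.Nb, F.Nk, F.fin_Nk1, F.NS,
    F.N0, F.N1, F.N2, F.N3, F.Nl]
  ring

theorem fin_WW (a b : Fin 4) : ∑ m, F.finW a m * F.finW m b =
    (F.k + F.k1) * F.finW a b + C.S ^ 2 * (if a = b then 1 else 0) +
      (F.f 1 a * F.f 1 b + F.f 2 a * F.f 2 b) * C.N F.l := by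
  have h := F.fin_ip (-(C.S * F.f 3 a)) (F.k1 * F.f 1 a + F.b * F.f 2 a)
    (F.b * F.f 1 a + F.k * F.f 2 a) ((F.k + F.k1) * F.f 3 a - C.S * F.f 0 a)
    (-(C.S * F.f 3 b)) (F.k1 * F.f 1 b + F.b * F.f 2 b)
    (F.b * F.f 1 b + F.k * F.f 2 b) ((F.k + F.k1) * F.f 3 b - C.S * F.f 0 b)
  rw [← F.compl a b, F.Nl]
  simp only [finW, Fin.sum_univ_four] at h ⊢
  linear_combination h

/-- Constant mean curvature. -/
theorem fin_cmc (h : C.N (F.k + F.k1) - F.l * (F.k + F.k1) ∈ J) :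
    C.T (qc C.Lap C.x) ∈ J ∧ C.N (qc C.Lap C.x) ∈ J := by
  rw [F.fin_c, sq, Derivation.leibniz, Derivation.leibniz, F.fin_TH]
  refine ⟨by simp, ?_⟩
  simp only [smul_eq_mul]
  exact J.add_mem (J.mul_mem_left _ (F.fin_nu J h)) (J.mul_mem_left _ (F.fin_nu J h))

/-- Umbilical surfaces. -/
theorem fin_umb (hN : ∀ f ∈ J, C.N f ∈ J)
    (h : C.N (F.k + F.k1) - F.l * (F.k + F.k1) ∈ J)
    (hu : (F.k + F.k1 - 2 * F.k) ^ 2 + 4 * F.b ^ 2 ∈ J) :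
    2 * qP C.Lap C.x + qc C.Lap C.x ^ 2 ∈ J ∧ ip (qV C.Lap C.x) C.x = 0 ∧
      ∑ a, ((2 * C.T (qV C.Lap C.x a) + qc C.Lap C.x * C.T (C.x a)) ^ 2 +
        (2 * C.N (qV C.Lap C.x a) + qc C.Lap C.x * C.N (C.x a)) ^ 2) ∈ J := by
  have hν := F.fin_nu J h
  have h1 : C.Si * (F.k + F.k1) = F.finH := rfl
  refine ⟨?_, ?_, ?_⟩
  · have e : 2 * qP C.Lap C.x + qc C.Lap C.x ^ 2 =
        2 * F.finH * C.Si ^ 2 * C.N (C.N F.finH) -
          F.finH ^ 2 * C.Si ^ 2 * ((F.k + F.k1 - 2 * F.k) ^ 2 + 4 * F.b ^ 2) := by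
      rw [F.fin_P, F.fin_c]
      linear_combination (-(F.finH ^ 2 * (C.Si * (F.k + F.k1) + F.finH))) * h1
    rw [e]
    exact J.sub_mem (J.mul_mem_left _ (hN _ hν)) (J.mul_mem_left _ hu)
  · have h2 := F.fin_ip 0 0 0 F.finH 1 0 0 0
    simp only [zero_mul, zero_add, mul_zero, add_zero, one_mul] at h2
    simp only [ip, F.fin_V, F.fin_x]
    exact h2
  · have h2 := F.fin_ip 0 (-(2 * F.finH * F.b)) (F.finH * (F.k + F.k1 - 2 * F.k)) 0
      0 (-(2 * F.finH * F.b)) (F.finH * (F.k + F.k1 - 2 * F.k)) 0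
    have h3 := F.fin_ip 0 (-(F.finH * (F.k + F.k1 - 2 * F.k))) (-(2 * F.finH * F.b))
      (2 * C.N F.finH) 0 (-(F.finH * (F.k + F.k1 - 2 * F.k))) (-(2 * F.finH * F.b))
      (2 * C.N F.finH)
    have eT : ∀ a, 2 * C.T (qV C.Lap C.x a) + qc C.Lap C.x * C.T (C.x a) =
        0 * F.f 0 a + (-(2 * F.finH * F.b)) * F.f 1 a +
          (F.finH * (F.k + F.k1 - 2 * F.k)) * F.f 2 a + 0 * F.f 3 a := by
      intro a
      rw [F.fin_TV, F.fin_c, F.fin_x, F.fin_T0]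
      linear_combination F.finH * F.f 2 a * F.fin_HS
    have eN : ∀ a, 2 * C.N (qV C.Lap C.x a) + qc C.Lap C.x * C.N (C.x a) =
        0 * F.f 0 a + (-(F.finH * (F.k + F.k1 - 2 * F.k))) * F.f 1 a +
          (-(2 * F.finH * F.b)) * F.f 2 a + (2 * C.N F.finH) * F.f 3 a := by
      intro a
      rw [F.fin_NV, F.fin_c, F.fin_x, F.N0]
      linear_combination F.finH * F.f 1 a * F.fin_HS
    simp only [eT, eN, sq]
    rw [Finset.sum_add_distrib, h2, h3]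
    have e := J.add_mem (J.mul_mem_left (2 * F.finH ^ 2) hu)
      (J.mul_mem_left (4 * C.N F.finH) hν)
    convert e using 1
    ring

/-- Products of circles. -/
theorem fin_tor (hN : ∀ f ∈ J, C.N f ∈ J) (hT : ∀ f ∈ J, C.T f ∈ J)
    (h : C.N (F.k + F.k1) - F.l * (F.k + F.k1) ∈ J) (hl : F.l ∈ J) :
    qP C.Lap C.x + qc C.Lap C.x ^ 2 + 2 * qc C.Lap C.x ∈ J ∧
      (∀ a b, C.T (qZ C.Lap C.x a b) ∈ J ∧ C.N (qZ C.Lap C.x a b) ∈ J) ∧
      (∀ a b, qZ C.Lap C.x a b - qZ C.Lap C.x b a ∈ J) ∧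
      (∀ a b, ∑ m, qZ C.Lap C.x a m * qZ C.Lap C.x m b - 2 * qc C.Lap C.x * qZ C.Lap C.x a b -
        (if a = b then 4 * qc C.Lap C.x else 0) ∈ J) ∧
      ∑ a, qZ C.Lap C.x a a - 4 * qc C.Lap C.x ∈ J ∧
      ∑ a, ∑ b, C.x a * qZ C.Lap C.x a b * C.x b ∈ J := by
  have hν := F.fin_nu J h
  have hμ := hN _ hl
  have hE : F.finE ∈ J := h
  have h1 : C.Si * (F.k + F.k1) = F.finH := rfl
  refine ⟨?_, fun a b => ⟨?_, ?_⟩, fun a b => ?_, fun a b => ?_, ?_, ?_⟩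
  · have e : qP C.Lap C.x + qc C.Lap C.x ^ 2 + 2 * qc C.Lap C.x =
        F.finH * C.Si ^ 2 * C.N (C.N F.finH) - 2 * F.finH ^ 2 * C.Si ^ 2 * C.N F.l := by
      rw [F.fin_P, F.fin_c, F.Nl]
      linear_combination (-(F.finH ^ 2 * (C.Si * (F.k + F.k1) + F.finH))) * h1 -
        2 * F.finH ^ 2 * (C.S * C.Si + 1) * C.hS
    rw [e]
    exact J.sub_mem (J.mul_mem_left _ (hN _ hν)) (J.mul_mem_left _ hμ)
  · rw [F.fin_Z, map_sub]
    refine J.sub_mem ?_ (hT _ (J.mul_mem_left _ hν))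
    rw [Derivation.leibniz, Derivation.leibniz, Derivation.leibniz, fin_two, F.fin_TH, F.fin_TSi,
      F.fin_TW]
    simp only [smul_eq_mul, mul_zero, add_zero]
    exact J.mul_mem_left _ (J.add_mem (J.mul_mem_left _ hμ) (J.mul_mem_left _ hl))
  · rw [F.fin_Z, map_sub]
    refine J.sub_mem ?_ (hN _ (J.mul_mem_left _ hν))
    rw [Derivation.leibniz, Derivation.leibniz, Derivation.leibniz, fin_two, F.fin_NSi,
      F.fin_NW]
    simp only [smul_eq_mul, mul_zero, add_zero]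
    refine J.add_mem (J.mul_mem_left _ (J.add_mem (J.add_mem (J.mul_mem_left _ hμ)
      (J.mul_mem_left _ hl)) (J.mul_mem_left _ hE))) (J.mul_mem_left _ (J.mul_mem_left _
        (J.add_mem (J.mul_mem_left _ hν) (J.mul_mem_left _ (J.neg_mem (J.mul_mem_right _ hl))))))
  · have e : qZ C.Lap C.x a b - qZ C.Lap C.x b a =
        2 * C.Si * (F.f 3 b * F.f 1 a - F.f 3 a * F.f 1 b) * C.N F.finH := by
      rw [F.fin_Z, F.fin_Z, finW, finW]
      ring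
    rw [e]
    exact J.mul_mem_left _ hν
  · have e : ∑ m, qZ C.Lap C.x a m * qZ C.Lap C.x m b =
        4 * (C.Si * F.finH) ^ 2 * ∑ m, F.finW a m * F.finW m b +
          (∑ m, (-(2 * (C.Si * F.finH) * F.finW a m * (2 * C.Si * (F.f 3 m * F.f 1 b))) -
            2 * C.Si * (F.f 3 a * F.f 1 m) * qZ C.Lap C.x m b)) * C.N F.finH := by
      rw [Finset.mul_sum, Finset.sum_mul, ← Finset.sum_add_distrib]
      refine Finset.sum_congr rfl fun m _ => ?_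
      rw [F.fin_Z a m, F.fin_Z m b]
      ring
    rw [e, F.fin_WW, F.fin_c, F.fin_Z a b]
    generalize (∑ m, (-(2 * (C.Si * F.finH) * F.finW a m * (2 * C.Si * (F.f 3 m * F.f 1 b))) -
      2 * C.Si * (F.f 3 a * F.f 1 m) * qZ C.Lap C.x m b)) = u
    have e2 := J.add_mem (J.mul_mem_left
      (4 * (C.Si * F.finH) ^ 2 * (F.f 1 a * F.f 1 b + F.f 2 a * F.f 2 b)) hμ)
      (J.mul_mem_left (u + 4 * F.finH ^ 2 * C.Si * (F.f 3 a * F.f 1 b)) hν)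
    convert e2 using 1
    split_ifs
    · linear_combination 4 * C.Si * F.finH ^ 2 * F.finW a b * h1 +
        4 * F.finH ^ 2 * (C.S * C.Si + 1) * C.hS
    · linear_combination 4 * C.Si * F.finH ^ 2 * F.finW a b * h1
  · have h2 := F.fin_ip 0 1 0 0 0 F.k1 F.b 0
    have h3 := F.fin_ip 0 0 1 0 0 F.b F.k 0
    have h4 := F.fin_ip 0 0 0 1 (-(2 * C.S)) 0 0 (F.k + F.k1)
    have h5 := F.fin_ip 0 0 0 1 0 1 0 0
    have e : ∑ a, qZ C.Lap C.x a a - 4 * qc C.Lap C.x = 0 := by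
      simp only [F.fin_Z, F.fin_c, finW, Fin.sum_univ_four] at h2 h3 h4 h5 ⊢
      linear_combination 2 * (C.Si * F.finH) * (h2 + h3 + h4) - 2 * C.Si * C.N F.finH * h5 +
        4 * F.finH * h1
    rw [e]
    exact J.zero_mem
  · have h2 := F.fin_ip 1 0 0 0 0 1 0 0
    have h3 := F.fin_ip 1 0 0 0 0 0 1 0
    have h4 := F.fin_ip 1 0 0 0 0 0 0 1
    simp only [zero_mul, zero_add, mul_zero, add_zero, one_mul] at h2 h3 h4
    have e : ∑ a, ∑ b, C.x a * qZ C.Lap C.x a b * C.x b =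
        2 * (C.Si * F.finH) * (F.k1 * (∑ a, F.f 0 a * F.f 1 a) ^ 2 +
          2 * F.b * (∑ a, F.f 0 a * F.f 1 a) * (∑ a, F.f 0 a * F.f 2 a) +
          F.k * (∑ a, F.f 0 a * F.f 2 a) ^ 2 -
          2 * C.S * (∑ a, F.f 0 a * F.f 0 a) * (∑ a, F.f 0 a * F.f 3 a) +
          (F.k + F.k1) * (∑ a, F.f 0 a * F.f 3 a) ^ 2) -
          2 * C.Si * (∑ a, F.f 0 a * F.f 3 a) * (∑ a, F.f 0 a * F.f 1 a) * C.N F.finH := by
      simp only [F.fin_Z, F.fin_x, finW, Fin.sum_univ_four]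
      ring
    rw [e, h2, h3, h4]
    simp

end Frame

end Pool.Agent.Lib.MP_51f413_gt
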