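import Pool.Agent.Lib.MP_51f413_gt.Geo

/-!
Existence of the moving frame.
-/

namespace Pool.Agent.Lib.MP_51f413_gt

variable {R : Type} [CommRing R] [Algebra ℂ R]

theorem frame_two {a : R} (h : 2 * a = 0) : a = 0 := by
  have e : algebraMap ℂ R 2⁻¹ * 2 = 1 := by
    rw [← map_ofNat (algebraMap ℂ R) 2, ← map_mul, inv_mul_cancel₀ two_ne_zero, map_one]
  rw [← one_mul a, ← e, mul_assoc, h, mul_zero]

omit [Algebra ℂ R] in
theorem frame_comm (u v : Fin 4 → R) : ip u v = ip v u := by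
  simp only [ip, mul_comm]

omit [Algebra ℂ R] in
theorem frame_add (u v w : Fin 4 → R) : ip (u + v) w = ip u w + ip v w := by
  simp only [ip, Pi.add_apply, add_mul, Finset.sum_add_distrib]

omit [Algebra ℂ R] in
theorem frame_add' (u v w : Fin 4 → R) : ip w (u + v) = ip w u + ip w v := by
  simp only [ip, Pi.add_apply, mul_add, Finset.sum_add_distrib]

omit [Algebra ℂ R] in
theorem frame_smul (c : R) (u v : Fin 4 → R) : ip (c • u) v = c * ip u v := by
  simp only [ip, Pi.smul_apply, smul_eq_mul, Finset.mul_sum, mul_assoc]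

omit [Algebra ℂ R] in
theorem frame_smul' (c : R) (u v : Fin 4 → R) : ip v (c • u) = c * ip v u := by
  rw [frame_comm, frame_smul, frame_comm]

theorem frame_d (D : Derivation ℂ R R) (u v : Fin 4 → R) :
    D (ip u v) = ip (dv D u) v + ip u (dv D v) := by
  simp only [ip, dv, map_sum, Derivation.leibniz, smul_eq_mul, ← Finset.sum_add_distrib]
  exact Finset.sum_congr rfl fun a _ => by ring

theorem frame_dX (D : Derivation ℂ R R) (X : Matrix (Fin 4) (Fin 4) ℂ) (u : Fin 4 → R) :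
    dv D (Xv X u) = Xv X (dv D u) := by
  funext a
  simp only [dv, Xv, map_sum, Derivation.leibniz, Derivation.map_algebraMap, smul_eq_mul,
    mul_zero, add_zero]

theorem frame_dsmul (D : Derivation ℂ R R) (c : R) (u : Fin 4 → R) :
    dv D (c • u) = D c • u + c • dv D u := by
  funext a
  simp only [dv, Pi.smul_apply, Pi.add_apply, smul_eq_mul, Derivation.leibniz]
  ring

theorem frame_Xsmul (X : Matrix (Fin 4) (Fin 4) ℂ) (c : R) (u : Fin 4 → R) :
    Xv X (c • u) = c • Xv X u := by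
  funext a
  simp only [Xv, Pi.smul_apply, smul_eq_mul, Finset.mul_sum]
  exact Finset.sum_congr rfl fun a _ => by ring

theorem frame_Xadd (X : Matrix (Fin 4) (Fin 4) ℂ) (u v : Fin 4 → R) :
    Xv X (u + v) = Xv X u + Xv X v := by
  funext a
  simp only [Xv, Pi.add_apply, mul_add, Finset.sum_add_distrib]

theorem frame_skew {X : Matrix (Fin 4) (Fin 4) ℂ} (h : ∀ a c, X a c = -X c a) (u v : Fin 4 → R) :
    ip (Xv X u) v = -ip u (Xv X v) := by
  simp only [ip, Xv, Finset.sum_mul, Finset.mul_sum, ← Finset.sum_neg_distrib]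
  rw [Finset.sum_comm]
  refine Finset.sum_congr rfl fun a _ => Finset.sum_congr rfl fun c _ => ?_
  rw [h c a, map_neg]
  ring

theorem frame_skew_self {X : Matrix (Fin 4) (Fin 4) ℂ} (h : ∀ a c, X a c = -X c a)
    (u : Fin 4 → R) : ip (Xv X u) u = 0 := by
  apply frame_two
  have := frame_skew h u u
  rw [frame_comm u] at this
  linear_combination this

omit [Algebra ℂ R] in
theorem frame_cross (u v w : Fin 4 → R) (huu : ip u u = 1) (hvv : ip v v = 1) (hww : ip w w = 1)
    (huv : ip u v = 0) (huw : ip u w = 0) (hvw : ip v w = 0) :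
    ∃ z : Fin 4 → R, ip u z = 0 ∧ ip v z = 0 ∧ ip w z = 0 ∧ ip z z = 1 := by
  let m : Fin 4 → Fin 4 → Fin 4 → R := fun a b c =>
    u a * (v b * w c - v c * w b) - u b * (v a * w c - v c * w a) + u c * (v a * w b - v b * w a)
  refine ⟨![m 1 2 3, -m 0 2 3, m 0 1 3, -m 0 1 2], ?_, ?_, ?_, ?_⟩
  · simp only [ip, Fin.sum_univ_four, m, Matrix.cons_val]
    ring
  · simp only [ip, Fin.sum_univ_four, m, Matrix.cons_val]
    ring
  · simp only [ip, Fin.sum_univ_four, m, Matrix.cons_val]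
    ring
  · have e : ip ![m 1 2 3, -m 0 2 3, m 0 1 3, -m 0 1 2] ![m 1 2 3, -m 0 2 3, m 0 1 3, -m 0 1 2] =
        ip u u * (ip v v * ip w w - ip v w ^ 2) - ip u v * (ip u v * ip w w - ip v w * ip u w) +
          ip u w * (ip u v * ip v w - ip v v * ip u w) := by
      simp only [ip, Fin.sum_univ_four, m, Matrix.cons_val]
      ring
    rw [e, huu, hvv, hww, huv, huw, hvw]
    ring

omit [Algebra ℂ R] in
theorem frame_compl {f : Fin 4 → Fin 4 → R}
    (h : ∀ i j, ip (f i) (f j) = if i = j then 1 else 0) (a c : Fin 4) :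
    ∑ i, f i a * f i c = if a = c then 1 else 0 := by
  have h1 : Matrix.of f * (Matrix.of f).transpose = 1 := by
    ext i j
    rw [Matrix.one_apply, ← h i j]
    rfl
  have h3 : (Matrix.of f).transpose * Matrix.of f = 1 := mul_eq_one_comm.1 h1
  have h2 := congrFun (congrFun h3 a) c
  rw [Matrix.one_apply] at h2
  exact h2

omit [Algebra ℂ R] in
theorem frame_exp {f : Fin 4 → Fin 4 → R}
    (h : ∀ i j, ip (f i) (f j) = if i = j then 1 else 0) (w : Fin 4 → R) :
    w = ip w (f 0) • f 0 + ip w (f 1) • f 1 + ip w (f 2) • f 2 + ip w (f 3) • f 3 := by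
  funext a
  have e : ∑ c, w c * ∑ i, f i c * f i a = w a := by
    simp only [frame_compl h, mul_ite, mul_one, mul_zero, Finset.sum_ite_eq', Finset.mem_univ,
      if_true]
  rw [← e]
  simp only [ip, Fin.sum_univ_four, Pi.add_apply, Pi.smul_apply, smul_eq_mul]
  ring

theorem frame_exists (C : Conf R) : ∃ f : Fin 4 → Fin 4 → R,
    (∀ i j, ip (f i) (f j) = if i = j then 1 else 0) ∧ f 0 = C.x ∧ f 1 = C.Si • dv C.N C.x ∧
      f 2 = C.Si • Xv C.X C.x := by
  have h01 : ip C.x (dv C.N C.x) = 0 := by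
    apply frame_two
    have := frame_d C.N C.x C.x
    rw [C.unit, Derivation.map_one_eq_zero, frame_comm] at this
    linear_combination -this
  have h02 : ip C.x (Xv C.X C.x) = 0 := by rw [frame_comm, frame_skew_self C.skew]
  have a1 : ip (C.Si • dv C.N C.x) (C.Si • dv C.N C.x) = 1 := by
    rw [frame_smul, frame_smul', C.nn]
    linear_combination (C.S * C.Si + 1) * C.hS
  have a2 : ip (C.Si • Xv C.X C.x) (C.Si • Xv C.X C.x) = 1 := by
    rw [frame_smul, frame_smul', ← C.hS2]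
    linear_combination (C.S * C.Si + 1) * C.hS
  have a3 : ip C.x (C.Si • dv C.N C.x) = 0 := by rw [frame_smul', h01, mul_zero]
  have a4 : ip C.x (C.Si • Xv C.X C.x) = 0 := by rw [frame_smul', h02, mul_zero]
  have a5 : ip (C.Si • dv C.N C.x) (C.Si • Xv C.X C.x) = 0 := by
    rw [frame_smul, frame_smul', C.nt, mul_zero, mul_zero]
  obtain ⟨z, z1, z2, z3, z4⟩ := frame_cross _ _ _ C.unit a1 a2 a3 a4 a5
  refine ⟨![C.x, C.Si • dv C.N C.x, C.Si • Xv C.X C.x, z], fun i j => ?_, rfl, rfl, rfl⟩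
  have a3' := (frame_comm _ _).trans a3
  have a4' := (frame_comm _ _).trans a4
  have a5' := (frame_comm _ _).trans a5
  have z1' := (frame_comm _ _).trans z1
  have z2' := (frame_comm _ _).trans z2
  have z3' := (frame_comm _ _).trans z3
  have := C.unit
  fin_cases i <;> fin_cases j <;> simp <;> assumption

theorem exists_frame (C : Conf R) : Nonempty (Frame C) := by
  obtain ⟨f, ho, f0, f1, f2⟩ := frame_exists C
  have hS := C.hS
  have sk : ∀ (D : Derivation ℂ R R) i j, ip (dv D (f i)) (f j) = -ip (dv D (f j)) (f i) := by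
    intro D i j
    have := frame_d D (f i) (f j)
    rw [ho, frame_comm (f i)] at this
    have h0 : D (if i = j then 1 else 0) = 0 := by
      split_ifs
      · exact D.map_one_eq_zero
      · exact map_zero D
    linear_combination h0 - this
  have sk0 : ∀ (D : Derivation ℂ R R) i, ip (dv D (f i)) (f i) = 0 := fun D i =>
    frame_two (by linear_combination sk D i i)
  have xk : ∀ i j, ip (Xv C.X (f i)) (f j) = -ip (Xv C.X (f j)) (f i) := fun i j => by
    rw [frame_skew C.skew, frame_comm]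
  have xk0 : ∀ i, ip (Xv C.X (f i)) (f i) = 0 := fun i => frame_skew_self C.skew _
  obtain ⟨l, hl⟩ : ∃ l, l = ip (Xv C.X (f 1)) (f 2) := ⟨_, rfl⟩
  obtain ⟨b, hb⟩ : ∃ b, b = ip (Xv C.X (f 1)) (f 3) := ⟨_, rfl⟩
  obtain ⟨k, hk⟩ : ∃ k, k = ip (Xv C.X (f 2)) (f 3) := ⟨_, rfl⟩
  obtain ⟨k1, hk1⟩ : ∃ k1, k1 = ip (dv C.N (f 1)) (f 3) := ⟨_, rfl⟩
  have X0 : Xv C.X (f 0) = C.S • f 2 := by rw [f0, f2, smul_smul, hS, one_smul]
  have N0 : dv C.N (f 0) = C.S • f 1 := by rw [f0, f1, smul_smul, hS, one_smul]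
  have T0 : dv C.T (f 0) = Xv C.X (f 0) := by
    rw [f0]
    exact funext C.Tx
  have X1 : Xv C.X (f 1) = l • f 2 + b • f 3 := by
    rw [frame_exp ho (Xv C.X (f 1)), xk 1 0, X0, xk0, frame_smul, ho, ← hl, ← hb]
    simp
  have X2 : Xv C.X (f 2) = (-C.S) • f 0 + (-l) • f 1 + k • f 3 := by
    rw [frame_exp ho (Xv C.X (f 2)), xk 2 0, X0, xk0, frame_smul, ho, xk 2 1, ← hl, ← hk]
    simp
  have X3 : Xv C.X (f 3) = (-b) • f 1 + (-k) • f 2 := by
    rw [frame_exp ho (Xv C.X (f 3)), xk 3 0, X0, xk0, frame_smul, ho, xk 3 1, xk 3 2, ← hb, ← hk]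
    simp
  have hS2 : C.S * C.S = ip (Xv C.X (f 0)) (Xv C.X (f 0)) := by rw [f0, ← C.hS2, sq]
  have NS : C.N C.S = l * C.S := by
    have h1 := congrArg C.N hS2
    rw [frame_d, frame_dX, N0, frame_comm (Xv C.X (f 0)), frame_Xsmul, X0, frame_smul,
      frame_smul', ← hl, Derivation.leibniz, smul_eq_mul] at h1
    have h2 : C.S * C.N C.S - C.S * (C.S * l) = 0 := frame_two (by linear_combination h1)
    linear_combination C.Si * h2 - (C.N C.S - l * C.S) * hS
  have TS : C.T C.S = 0 := by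
    have h1 := congrArg C.T hS2
    rw [frame_d, frame_dX, T0, frame_comm (Xv C.X (f 0)), frame_skew_self C.skew,
      Derivation.leibniz, smul_eq_mul] at h1
    have h2 : C.S * C.T C.S = 0 := frame_two (by linear_combination h1)
    linear_combination C.Si * h2 - C.T C.S * hS
  have NSi : C.N C.Si = -(l * C.Si) := by
    have h1 := congrArg C.N hS
    rw [Derivation.leibniz, smul_eq_mul, smul_eq_mul, NS, Derivation.map_one_eq_zero] at h1
    linear_combination C.Si * h1 - (C.N C.Si + l * C.Si) * hS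
  have TSi : C.T C.Si = 0 := by
    have h1 := congrArg C.T hS
    rw [Derivation.leibniz, smul_eq_mul, smul_eq_mul, TS, Derivation.map_one_eq_zero] at h1
    linear_combination C.Si * h1 - C.T C.Si * hS
  have N2 : dv C.N (f 2) = b • f 3 := by
    have e : dv C.N (f 2) = (-l) • f 2 + Xv C.X (f 1) := by
      rw [f2, f1, frame_dsmul, frame_dX, NSi, frame_Xsmul, smul_smul, neg_mul]
    rw [e, X1, neg_smul, neg_add_cancel_left]
  have N1 : dv C.N (f 1) = (-C.S) • f 0 + k1 • f 3 := by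
    rw [frame_exp ho (dv C.N (f 1)), sk C.N 1 0, N0, sk0, frame_smul, ho, sk C.N 1 2, N2,
      frame_smul, ho, ← hk1]
    simp
  have N3 : dv C.N (f 3) = (-k1) • f 1 + (-b) • f 2 := by
    rw [frame_exp ho (dv C.N (f 3)), sk C.N 3 0, N0, sk0, frame_smul, ho, sk C.N 3 2, N2,
      frame_smul, ho, sk C.N 3 1, ← hk1]
    simp
  have TN : ∀ u : Fin 4 → R, dv C.T (dv C.N u) = dv C.N (dv C.T u) := fun u =>
    funext fun a => C.comm (u a)
  have T1 : dv C.T (f 1) = Xv C.X (f 1) := by
    rw [f1, frame_dsmul, TSi, zero_smul, zero_add, TN, ← f0, T0, frame_dX, frame_Xsmul]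
  have T2 : dv C.T (f 2) = Xv C.X (f 2) := by
    rw [f2, frame_dsmul, TSi, zero_smul, zero_add, frame_dX, ← f0, T0, frame_Xsmul]
  have T3 : dv C.T (f 3) = Xv C.X (f 3) := by
    rw [frame_exp ho (dv C.T (f 3)), frame_exp ho (Xv C.X (f 3)), sk C.T 3 0, sk C.T 3 1,
      sk C.T 3 2, sk0, xk0, T0, T1, T2, xk 3 0, xk 3 1, xk 3 2]
  have Tf : ∀ i, dv C.T (f i) = Xv C.X (f i) := by
    intro i
    fin_cases i
    exacts [T0, T1, T2, T3]
  have TX : ∀ i j, C.T (ip (Xv C.X (f i)) (f j)) = 0 := by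
    intro i j
    rw [frame_d, frame_dX, Tf, Tf, frame_skew C.skew (Xv C.X (f i)), neg_add_cancel]
  refine ⟨⟨f, l, b, k, k1, ho, frame_compl ho, f0, NS, TS, fun a => ?_, fun a => ?_, fun a => ?_,
    fun a => ?_, fun a => ?_, fun a => ?_, fun a => ?_, fun a => ?_,
    fun i a => congrFun (Tf i) a, ?_, ?_, ?_, hl ▸ TX 1 2, hb ▸ TX 1 3, hk ▸ TX 2 3, ?_,
    fun a => ?_⟩⟩
  · exact congrFun N0 a
  · simpa [dv] using congrFun N1 a
  · exact congrFun N2 a
  · simpa [dv, sub_eq_add_neg] using congrFun N3 a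
  · exact congrFun X0 a
  · exact congrFun X1 a
  · simpa [sub_eq_add_neg] using congrFun X2 a
  · simpa [sub_eq_add_neg] using congrFun X3 a
  · have := congrArg C.N hl
    rw [frame_d, frame_dX, N1, N2, frame_Xadd, frame_Xsmul, frame_Xsmul, frame_add, frame_smul,
      frame_smul, frame_smul', X0, frame_smul, ho, xk 3 2, ← hk, ← hb, if_pos rfl] at this
    linear_combination this
  · have := congrArg C.N hb
    rw [frame_d, frame_dX, N1, N3, frame_Xadd, frame_Xsmul, frame_Xsmul, frame_add, frame_smul,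
      frame_smul, frame_add', frame_smul', frame_smul', X0, frame_smul, ho, xk0, xk0, ← hl,
      if_neg (by decide)] at this
    linear_combination this
  · have := congrArg C.N hk
    rw [frame_d, frame_dX, N2, N3, frame_Xsmul, frame_smul, frame_add', frame_smul', frame_smul',
      xk0, xk0, xk 2 1, ← hl] at this
    linear_combination this
  · rw [hk1, frame_d, TN, T1, T3, frame_dX, frame_skew C.skew, neg_add_cancel]
  · have e1 : dv C.T (dv C.T (f 0)) = C.S • ((-C.S) • f 0 + (-l) • f 1 + k • f 3) := by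
      rw [T0, frame_dX, T0, X0, frame_Xsmul, X2]
    have e2 : dv C.N (dv C.N (f 0)) = (l * C.S) • f 1 + C.S • ((-C.S) • f 0 + k1 • f 3) := by
      rw [N0, frame_dsmul, NS, N1]
    have e3 := congrFun e1 a
    have e4 := congrFun e2 a
    simp only [dv, Pi.smul_apply, Pi.add_apply, smul_eq_mul] at e3 e4
    rw [qV, Conf.Lap, ← f0, e3, e4]
    linear_combination (-2 * f 0 a * (C.S * C.Si + 1) + C.Si * (k + k1) * f 3 a) * hS

end Pool.Agent.Lib.MP_51f413_gt
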