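import Pool.Agent.Lib.MP_51f413_gt.Conf
import Pool.Agent.Lib.MP_51f413_gt.Frame
import Pool.Agent.Lib.MP_51f413_gt.FSys
import Pool.Agent.Lib.MP_51f413_gt.Fin
import Pool.Agent.Lib.MP_51f413_gt.Alg

/-!
The local classification over a differential ring.
-/

namespace Pool.Agent.Lib.MP_51f413_gt

variable {R : Type} [CommRing R] [Algebra ℂ R]

/-- The Laplace operator as a linear map. -/
def Geo0.lapL (G : Geo0 R) : R →ₗ[ℂ] R where
  toFun := G.Lap
  map_add' := by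
    intro f g
    simp only [Geo0.Lap, mul_add, map_add, Finset.sum_add_distrib]
  map_smul' := by
    intro c f
    simp only [Geo0.Lap, Derivation.map_smul, mul_smul_comm, RingHom.id_apply,
      ← Finset.smul_sum]

theorem geo_local (G : Geo0 R) (K : Kil G) (ha : ∑ a, ∑ c, K.X a c ^ 2 ≠ 0) (c : Fin 4 → ℂ)
    (k : ℕ) (y : Fin k → Fin 4 → R) (μ : Fin k → ℂ) (hy : ∀ i a, G.Lap (y i a) = μ i • y i a)
    (hx : ∀ a, G.x a = algebraMap ℂ R (c a) + ∑ i, y i a) :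
    ∃ (N : ℕ) (ψ : MvPolynomial (Ix N) ℂ →+* R), ∀ J : Ideal R,
      (∀ i, ∀ f ∈ J, G.d i f ∈ J) → (J.comap ψ).IsPrime → G.Alt J := by
  obtain ⟨C, n, hCx, hCX, hCS, hCSi, hLap, hT, hNn, hcompl, hcomb⟩ := exists_conf G K
  have hL : C.Lap = G.Lap := funext hLap
  obtain ⟨F⟩ := exists_frame C
  obtain ⟨N, r, V, hN, h0, hV, htop⟩ := exists_tower G.lapL (by simp [Geo0.lapL, Geo0.Lap]) G.x c k
    y μ hy hx
  obtain ⟨s, hn, he, hl, hb, hk, hη, hsa, hdet⟩ := exists_sys C F N r V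
    (by rw [h0, hL, hCx]; rfl) (by intro m a; rw [hV, hL]; rfl) htop
  refine ⟨N, (MvPolynomial.aeval s.gen : MvPolynomial (Ix N) ℂ →ₐ[ℂ] R), fun J hJ hp => ?_⟩
  have hJT : ∀ f ∈ J, C.T f ∈ J := by
    intro f hf
    rw [hT]
    exact J.sum_mem fun i _ => J.mul_mem_left _ (hJ i f hf)
  have hJN : ∀ f ∈ J, C.N f ∈ J := by
    intro f hf
    rw [hNn]
    exact J.sum_mem fun i _ => J.mul_mem_left _ (hJ i f hf)
  have hd : ∀ f, C.T f ∈ J → C.N f ∈ J → ∀ i, G.d i f ∈ J := by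
    intro f h1 h2 i
    obtain ⟨α, β, h⟩ := hcomb i
    rw [h]
    exact J.add_mem (J.mul_mem_left _ h1) (J.mul_mem_left _ h2)
  have heJ : s.e ∉ J := by
    intro h
    apply hp.ne_top
    rw [Ideal.eq_top_iff_one, Ideal.mem_comap, map_one, ← C.hS]
    exact J.mul_mem_right _ (he ▸ h)
  have hmain := alg_main s hN hn _ _ (div_ne_zero (hCX ▸ ha) two_ne_zero) hsa hdet J hJN hp heJ
  rw [hη, hl, hk, hb] at hmain
  have hcm : C.N (F.k + F.k1) - F.l * (F.k + F.k1) ∈ J := by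
    rcases hmain with h | h
    · exact J.sub_mem (hJN _ h) (J.mul_mem_left _ h)
    · exact h.1
  have hc := F.fin_cmc J hcm
  unfold Geo0.Alt Geo0.Y
  rw [← hL, ← hCx]
  refine ⟨hd _ hc.1 hc.2, ?_⟩
  rcases hmain with h | ⟨-, h | h⟩
  · left
    intro a
    rw [F.hV]
    exact J.mul_mem_right _ (J.mul_mem_left _ h)
  · right
    left
    obtain ⟨u1, u2, u3⟩ := F.fin_umb J hJN hcm h
    refine ⟨u1, u2 ▸ J.zero_mem, ?_⟩
    convert J.mul_mem_left (K.Si ^ 2 * G.δ ^ 2) u3 using 1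
    rw [Finset.mul_sum]
    refine Finset.sum_congr rfl fun a _ => ?_
    have e : ∀ i j, G.adj i j = K.Si ^ 2 * G.δ ^ 2 * (K.t i * K.t j + n i * n j) := by
      intro i j
      rw [hcompl]
      have h1 := K.hS
      have h2 := G.hδ
      have : K.Si ^ 2 * G.δ ^ 2 * (K.S ^ 2 * G.δi ^ 2 * G.adj i j) =
          (K.S * K.Si) ^ 2 * (G.δ * G.δi) ^ 2 * G.adj i j := by ring
      rw [this, h1, h2]
      ring
    simp only [hT, hNn, e, Fin.sum_univ_two]
    ring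
  · right
    right
    obtain ⟨u1, u2, u3⟩ := F.fin_tor J hJN hJT hcm h
    exact ⟨u1, fun i a b => hd _ (u2 a b).1 (u2 a b).2 i, u3⟩

end Pool.Agent.Lib.MP_51f413_gt
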