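import Pool.Agent.Lib.MP_51f413_gt.NF
import Pool.Agent.Lib.MP_51f413_gt.Frame

/-!
Existence of null frames.
-/

namespace Pool.Agent.Lib.MP_51f413_gt

variable {R : Type} [CommRing R] [Algebra ℂ R]

omit [Algebra ℂ R] in
theorem nfex_lin (p q : R) (u v w : Fin 4 → R) :
    ip (fun a => p * u a + q * v a) w = p * ip u w + q * ip v w := by
  simp only [ip, Fin.sum_univ_four]
  ring

theorem nfex_self (D : Derivation ℂ R R) {u : Fin 4 → R} {c : R} (h : ip u u = c) (hc : D c = 0) :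
    ip (dv D u) u = 0 := by
  apply frame_two
  have := frame_d D u u
  rw [h, hc, frame_comm u] at this
  linear_combination -this

/-- The mean curvature vector is normal to the sphere radius and to the surface. -/
theorem Geo0.qV_normal (G : Geo0 R) :
    ip (qV G.Lap G.x) G.x = 0 ∧ ∀ i, ip (qV G.Lap G.x) (dv (G.d i) G.x) = 0 := by
  have hδ := G.hδ
  have hD : G.δ ^ 2 = G.g 0 0 * G.g 1 1 - G.g 0 1 ^ 2 := G.hδ2
  have g10 : G.g 1 0 = G.g 0 1 := frame_comm _ _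
  have hx : ∀ i, ip (dv (G.d i) G.x) G.x = 0 := fun i => nfex_self _ G.unit (G.d i).map_one_eq_zero
  obtain ⟨P0, hP0⟩ : ∃ P : Fin 4 → R, P = fun a => G.δi * G.g 1 1 * dv (G.d 0) G.x a +
    G.δi * -G.g 0 1 * dv (G.d 1) G.x a := ⟨_, rfl⟩
  obtain ⟨P1, hP1⟩ : ∃ P : Fin 4 → R, P = fun a => G.δi * -G.g 0 1 * dv (G.d 0) G.x a +
    G.δi * G.g 0 0 * dv (G.d 1) G.x a := ⟨_, rfl⟩
  have hL : ∀ a, G.Lap (G.x a) = G.δi * (G.d 0 (P0 a) + G.d 1 (P1 a)) := by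
    intro a
    rw [hP0, hP1]
    simp only [map_add, Geo0.Lap, Geo0.adj, Fin.sum_univ_two]
    rfl
  have key : ∀ w, ip (qV G.Lap G.x) w = G.δi * (G.d 0 (ip P0 w) + G.d 1 (ip P1 w) -
      ip P0 (dv (G.d 0) w) - ip P1 (dv (G.d 1) w)) + 2 * ip G.x w := by
    intro w
    rw [frame_d, frame_d]
    simp only [ip, qV, hL, dv, Fin.sum_univ_four]
    ring
  have p0 : ∀ w, ip P0 w = G.δi * G.g 1 1 * ip (dv (G.d 0) G.x) w +
      G.δi * -G.g 0 1 * ip (dv (G.d 1) G.x) w := fun w => by rw [hP0, nfex_lin]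
  have p1 : ∀ w, ip P1 w = G.δi * -G.g 0 1 * ip (dv (G.d 0) G.x) w +
      G.δi * G.g 0 0 * ip (dv (G.d 1) G.x) w := fun w => by rw [hP1, nfex_lin]
  have q00 : ip P0 (dv (G.d 0) G.x) = G.δ := by
    rw [p0]
    change G.δi * G.g 1 1 * G.g 0 0 + G.δi * -G.g 0 1 * G.g 1 0 = _
    rw [g10]
    linear_combination (-G.δi) * hD + G.δ * hδ
  have q01 : ip P0 (dv (G.d 1) G.x) = 0 := by
    rw [p0]
    change G.δi * G.g 1 1 * G.g 0 1 + G.δi * -G.g 0 1 * G.g 1 1 = _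
    ring
  have q10 : ip P1 (dv (G.d 0) G.x) = 0 := by
    rw [p1]
    change G.δi * -G.g 0 1 * G.g 0 0 + G.δi * G.g 0 0 * G.g 1 0 = _
    rw [g10]
    ring
  have q11 : ip P1 (dv (G.d 1) G.x) = G.δ := by
    rw [p1]
    change G.δi * -G.g 0 1 * G.g 0 1 + G.δi * G.g 0 0 * G.g 1 1 = _
    linear_combination (-G.δi) * hD + G.δ * hδ
  have hc : dv (G.d 0) (dv (G.d 1) G.x) = dv (G.d 1) (dv (G.d 0) G.x) :=
    funext fun a => G.comm _
  have dd : ∀ k, ip P0 (dv (G.d k) (dv (G.d 0) G.x)) + ip P1 (dv (G.d k) (dv (G.d 1) G.x)) =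
      G.d k G.δ := by
    intro k
    have a00 : G.d k (G.g 0 0) = _ := frame_d _ _ _
    have a01 : G.d k (G.g 0 1) = _ := frame_d _ _ _
    have a11 : G.d k (G.g 1 1) = _ := frame_d _ _ _
    rw [frame_comm] at a00 a01 a11
    have h1 := congrArg (G.d k) hD
    simp only [sq, map_sub, Derivation.leibniz, smul_eq_mul] at h1
    rw [a00, a01, a11] at h1
    rw [p0, p1]
    refine sub_eq_zero.1 (frame_two ?_)
    linear_combination (-G.δi) * h1 + 2 * G.d k G.δ * hδ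
  refine ⟨?_, fun i => ?_⟩
  · rw [key, q00, q11, p0, p1, hx, hx, G.unit]
    simp only [mul_zero, add_zero, map_zero]
    linear_combination (-2) * hδ
  · rw [key, frame_comm G.x, hx]
    fin_cases i
    · have := dd 0
      simp only [Fin.zero_eta]
      rw [q00, q10, map_zero, ← hc]
      linear_combination (-G.δi) * this
    · have := dd 1
      simp only [Fin.mk_one]
      rw [q01, q11, map_zero, hc]
      linear_combination (-G.δi) * this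

/-- Two null derivations and a unit normal give a null frame. -/
theorem exists_NF_of (D1 D2 : Derivation ℂ R R) (γ1 γ2 : R) (x ξ : Fin 4 → R)
    (comm : ∀ f, D2 (D1 f) - D1 (D2 f) = γ2 * D1 f + γ1 * D2 f) (hx : ip x x = 1)
    (h11 : ip (dv D1 x) (dv D1 x) = 0) (h22 : ip (dv D2 x) (dv D2 x) = 0)
    (h12 : ip (dv D1 x) (dv D2 x) = 2) (hξ : ip ξ ξ = 1) (hξ0 : ip ξ x = 0)
    (hξ1 : ip ξ (dv D1 x) = 0) (hξ2 : ip ξ (dv D2 x) = 0) :
    ∃ F : NF R, F.D1 = D1 ∧ F.D2 = D2 ∧ F.γ1 = γ1 ∧ F.γ2 = γ2 ∧ F.x = x ∧ F.ξ = ξ := by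
  obtain ⟨h, hh⟩ : ∃ h : R, h * 2 = 1 := ⟨algebraMap ℂ R 2⁻¹, by
    rw [← map_ofNat (algebraMap ℂ R) 2, ← map_mul, inv_mul_cancel₀ two_ne_zero, map_one]⟩
  have h10 : ip (dv D1 x) x = 0 := nfex_self _ hx D1.map_one_eq_zero
  have h20 : ip (dv D2 x) x = 0 := nfex_self _ hx D2.map_one_eq_zero
  obtain ⟨e1, he1⟩ : ∃ e1, e1 = dv D1 x := ⟨_, rfl⟩
  obtain ⟨e2, he2⟩ : ∃ e2, e2 = dv D2 x := ⟨_, rfl⟩
  rw [← he1] at h11 h12 hξ1 h10
  rw [← he2] at h22 h12 hξ2 h20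
  have h21 := (frame_comm _ _).trans h12
  have h01 := (frame_comm _ _).trans h10
  have h02 := (frame_comm _ _).trans h20
  have h0ξ := (frame_comm _ _).trans hξ0
  have h1ξ := (frame_comm _ _).trans hξ1
  have h2ξ := (frame_comm _ _).trans hξ2
  have gram : ∀ a0 a1 a2 a3 b0 b1 b2 b3 : R,
      ∑ a, (a0 * x a + a1 * e1 a + a2 * e2 a + a3 * ξ a) *
        (b0 * x a + b1 * e1 a + b2 * e2 a + b3 * ξ a) =
        a0 * b0 + 2 * (a1 * b2) + 2 * (a2 * b1) + a3 * b3 := by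
    intro a0 a1 a2 a3 b0 b1 b2 b3
    simp only [ip, Fin.sum_univ_four] at *
    linear_combination a0 * b0 * hx + a1 * b1 * h11 + a2 * b2 * h22 + a3 * b3 * hξ +
      (a1 * b2 + a2 * b1) * h12 + (a0 * b1 + a1 * b0) * h10 + (a0 * b2 + a2 * b0) * h20 +
      (a0 * b3 + a3 * b0) * hξ0 + (a1 * b3 + a3 * b1) * hξ1 + (a2 * b3 + a3 * b2) * hξ2
  have compl : ∀ a b, 2 * (x a * x b + ξ a * ξ b) + (e1 a * e2 b + e2 a * e1 b) =
      if a = b then 2 else 0 := by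
    intro a b
    have k1 : Matrix.of ![x, e1, e2, ξ] * (Matrix.of ![x, h • e2, h • e1, ξ]).transpose = 1 := by
      ext i j
      change ip (![x, e1, e2, ξ] i) (![x, h • e2, h • e1, ξ] j) = _
      fin_cases i <;> fin_cases j <;>
        simp [frame_smul', hx, h11, h22, h12, h21, hξ, hξ0, hξ1, hξ2, h10, h20, h01, h02, h0ξ,
          h1ξ, h2ξ, hh]
    have k3 : (Matrix.of ![x, h • e2, h • e1, ξ]).transpose * Matrix.of ![x, e1, e2, ξ] = 1 :=
      mul_eq_one_comm.1 k1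
    have k2 := congrFun (congrFun k3 a) b
    rw [Matrix.one_apply, Matrix.mul_apply, Fin.sum_univ_four] at k2
    simp only [Matrix.transpose_apply, Matrix.of_apply, Matrix.cons_val, Pi.smul_apply,
      smul_eq_mul] at k2
    split_ifs at k2 ⊢
    · linear_combination 2 * k2 - (e1 a * e2 b + e2 a * e1 b) * hh
    · linear_combination 2 * k2 - (e1 a * e2 b + e2 a * e1 b) * hh
  have ex : ∀ (w : Fin 4 → R) (c0 c1 c2 c3 : R), ip w x = c0 → ip w e2 = 2 * c1 →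
      ip w e1 = 2 * c2 → ip w ξ = c3 → ∀ a, w a = c0 * x a + c1 * e1 a + c2 * e2 a + c3 * ξ a := by
    intro w c0 c1 c2 c3 k0 k1 k2 k3 a
    have e : ∑ c, w c * (2 * (x c * x a + ξ c * ξ a) + (e1 c * e2 a + e2 c * e1 a)) =
        w a * 2 := by
      simp only [compl, mul_ite, mul_zero, Finset.sum_ite_eq', Finset.mem_univ, if_true]
    simp only [ip, Fin.sum_univ_four] at e k0 k1 k2 k3
    refine sub_eq_zero.1 (frame_two ?_)
    linear_combination -e + 2 * x a * k0 + e1 a * k1 + e2 a * k2 + 2 * ξ a * k3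
  have ind : ∀ c1 c2 c3 : R, (∀ a, c1 * e1 a + c2 * e2 a + c3 * ξ a = 0) →
      c1 = 0 ∧ c2 = 0 ∧ c3 = 0 := by
    intro c1 c2 c3 k
    have k' : ∀ b1 b2 b3 : R, 2 * (c1 * b2) + 2 * (c2 * b1) + c3 * b3 = 0 := by
      intro b1 b2 b3
      have := gram 0 c1 c2 c3 0 b1 b2 b3
      simp only [zero_mul, zero_add, k, Finset.sum_const_zero] at this
      exact this.symm
    exact ⟨frame_two (by linear_combination k' 0 1 0), frame_two (by linear_combination k' 1 0 0),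
      by linear_combination k' 0 0 1⟩
  have two : ∀ D : Derivation ℂ R R, D 2 = 0 := fun D => D.map_natCast 2
  have sk : ∀ (D : Derivation ℂ R R) (u v : Fin 4 → R), ip u v = 0 →
      ip (dv D u) v = -ip u (dv D v) := by
    intro D u v k
    have := frame_d D u v
    rw [k, map_zero] at this
    linear_combination -this
  have s12 : ∀ D : Derivation ℂ R R, ip (dv D e1) e2 = -ip (dv D e2) e1 := by
    intro D
    have := frame_d D e1 e2
    rw [h12, two, frame_comm e1] at this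
    linear_combination -this
  have s11 : ∀ D : Derivation ℂ R R, ip (dv D e1) e1 = 0 := fun D => nfex_self D h11 (map_zero D)
  have s22 : ∀ D : Derivation ℂ R R, ip (dv D e2) e2 = 0 := fun D => nfex_self D h22 (map_zero D)
  have sξ : ∀ D : Derivation ℂ R R, ip (dv D ξ) ξ = 0 := fun D => nfex_self D hξ D.map_one_eq_zero
  have cx : ∀ w, ip (dv D2 e1) w - ip (dv D1 e2) w = γ2 * ip e1 w + γ1 * ip e2 w := by
    intro w
    have k : ∀ a, D2 (e1 a) = D1 (e2 a) + (γ2 * e1 a + γ1 * e2 a) := by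
      intro a
      rw [he1, he2, dv, dv]
      linear_combination comm (x a)
    simp only [ip, dv, k, Fin.sum_univ_four]
    ring
  have c1 : ip (dv D1 e2) e1 = 2 * -γ1 := by
    have := cx e1
    rw [s11, h11, h21] at this
    linear_combination -this
  have c2 : ip (dv D2 e1) e2 = 2 * γ2 := by
    have := cx e2
    rw [s22, h22, h12] at this
    linear_combination this
  have c3 : ip (dv D2 e1) ξ = ip (dv D1 e2) ξ := by
    have := cx ξ
    rw [h1ξ, h2ξ] at this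
    linear_combination this
  obtain ⟨q, hq⟩ : ∃ q, ip (dv D1 e1) ξ = 2 * q :=
    ⟨h * ip (dv D1 e1) ξ, by linear_combination (-ip (dv D1 e1) ξ) * hh⟩
  obtain ⟨p, hp⟩ : ∃ p, ip (dv D2 e2) ξ = 2 * p :=
    ⟨h * ip (dv D2 e2) ξ, by linear_combination (-ip (dv D2 e2) ξ) * hh⟩
  obtain ⟨H, hH⟩ : ∃ H, ip (dv D1 e2) ξ = 2 * H :=
    ⟨h * ip (dv D1 e2) ξ, by linear_combination (-ip (dv D1 e2) ξ) * hh⟩
  have x1 : ∀ a, D1 (x a) = e1 a := fun a => by rw [he1]; rfl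
  have x2 : ∀ a, D2 (x a) = e2 a := fun a => by rw [he2]; rfl
  have e11 : ∀ a, D1 (e1 a) = γ1 * e1 a + 2 * q * ξ a := fun a => by
    have := ex (dv D1 e1) 0 γ1 0 _ (by rw [sk _ _ _ h10, ← he1, h11, neg_zero])
      (by rw [s12, c1]; ring) (by rw [s11, mul_zero]) hq a
    rw [dv] at this
    linear_combination this
  have e21 : ∀ a, D2 (e1 a) = γ2 * e1 a - 2 * x a + 2 * H * ξ a := fun a => by
    have := ex (dv D2 e1) (-2) γ2 0 _ (by rw [sk _ _ _ h10, ← he2, h12]) c2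
      (by rw [s11, mul_zero]) (c3.trans hH) a
    rw [dv] at this
    linear_combination this
  have e12 : ∀ a, D1 (e2 a) = -(γ1 * e2 a) - 2 * x a + 2 * H * ξ a := fun a => by
    have := ex (dv D1 e2) (-2) 0 _ _ (by rw [sk _ _ _ h20, ← he1, h21])
      (by rw [s22, mul_zero]) c1 hH a
    rw [dv] at this
    linear_combination this
  have e22 : ∀ a, D2 (e2 a) = -(γ2 * e2 a) + 2 * p * ξ a := fun a => by
    have := ex (dv D2 e2) 0 0 (-γ2) _ (by rw [sk _ _ _ h20, ← he2, h22, neg_zero])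
      (by rw [s22, mul_zero]) (by linear_combination s12 D2 - c2) hp a
    rw [dv] at this
    linear_combination this
  have n1 : ∀ a, D1 (ξ a) = -(H * e1 a) - q * e2 a := fun a => by
    have := ex (dv D1 ξ) 0 (-H) (-q) 0 (by rw [sk _ _ _ hξ0, ← he1, hξ1, neg_zero])
      (by rw [sk _ _ _ hξ2, frame_comm, hH]; ring) (by rw [sk _ _ _ hξ1, frame_comm, hq]; ring)
      (sξ _) a
    rw [dv] at this
    linear_combination this
  have n2 : ∀ a, D2 (ξ a) = -(p * e1 a) - H * e2 a := fun a => by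
    have := ex (dv D2 ξ) 0 (-p) (-H) 0 (by rw [sk _ _ _ hξ0, ← he2, hξ2, neg_zero])
      (by rw [sk _ _ _ hξ2, frame_comm, hp]; ring)
      (by rw [sk _ _ _ hξ1, frame_comm, c3, hH]; ring) (sξ _) a
    rw [dv] at this
    linear_combination this
  have i1 := ind (2 * (1 + H ^ 2 - q * p) - (D1 γ2 - D2 γ1 + 2 * γ1 * γ2)) 0
    (2 * (D2 q - 2 * γ2 * q - D1 H)) fun a => by
      have k := comm (e1 a)
      rw [e11, e21] at k
      simp only [map_add, map_sub, Derivation.leibniz, smul_eq_mul, two, e11, e21, x1, n1,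
        n2] at k
      linear_combination k
  have i2 := ind 0 (D1 γ2 - D2 γ1 + 2 * γ1 * γ2 - 2 * (1 + H ^ 2 - q * p))
    (2 * (D2 H - (D1 p + 2 * γ1 * p))) fun a => by
      have k := comm (e2 a)
      rw [e12, e22] at k
      simp only [map_add, map_sub, map_neg, Derivation.leibniz, smul_eq_mul, two, e12, e22, x2,
        n1, n2] at k
      linear_combination k
  exact ⟨⟨D1, D2, γ1, γ2, x, e1, e2, ξ, H, q, p, comm, x1, x2, e11, e21, e12, e22, n1, n2, gram,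
    compl, sub_eq_zero.1 (frame_two i1.2.2), (sub_eq_zero.1 (frame_two i2.2.2)).symm,
    (sub_eq_zero.1 i1.1).symm⟩, rfl, rfl, rfl, rfl, rfl, rfl⟩

theorem exists_NF (G : Geo0 R) (gi : R) (hgi : G.g 0 0 * gi = 1) (ξ : Fin 4 → R)
    (hξ : ip ξ ξ = 1) (hξ0 : ip ξ G.x = 0) (hξ1 : ∀ i, ip ξ (dv (G.d i) G.x) = 0) :
    ∃ (F : NF R) (n1 n2 : Fin 2 → R), F.x = G.x ∧ F.ξ = ξ ∧ (∀ f, F.Lap f = G.Lap f) ∧
      (∀ f, F.D1 f = ∑ i, n1 i * G.d i f) ∧ (∀ f, F.D2 f = ∑ i, n2 i * G.d i f) ∧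
      (∀ i j, n1 i * n2 j + n2 i * n1 j = 2 * G.δi ^ 2 * G.adj i j) ∧
      ∀ i, ∃ α β : R, ∀ f, G.d i f = α * F.D1 f + β * F.D2 f := by
  have hδ := G.hδ
  have hD : G.δ ^ 2 = G.g 0 0 * G.g 1 1 - G.g 0 1 ^ 2 := G.hδ2
  have g10 : G.g 1 0 = G.g 0 1 := frame_comm _ _
  obtain ⟨h, hh⟩ : ∃ h : R, h * 2 = 1 := ⟨algebraMap ℂ R 2⁻¹, by
    rw [← map_ofNat (algebraMap ℂ R) 2, ← map_mul, inv_mul_cancel₀ two_ne_zero, map_one]⟩
  obtain ⟨I, hI, dI⟩ : ∃ I : R, I * I = -1 ∧ ∀ D : Derivation ℂ R R, D I = 0 :=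
    ⟨algebraMap ℂ R Complex.I, by rw [← map_mul, Complex.I_mul_I, map_neg, map_one],
      fun D => D.map_algebraMap _⟩
  have two : ∀ D : Derivation ℂ R R, D 2 = 0 := fun D => D.map_natCast 2
  obtain ⟨a0, ha0⟩ : ∃ a0, a0 = gi * G.δi * (-G.g 0 1 + I * G.δ) := ⟨_, rfl⟩
  obtain ⟨a1, ha1⟩ : ∃ a1, a1 = G.δi := ⟨_, rfl⟩
  obtain ⟨b0, hb0⟩ : ∃ b0, b0 = G.δi * (-G.g 0 1 - I * G.δ) := ⟨_, rfl⟩
  obtain ⟨b1, hb1⟩ : ∃ b1, b1 = G.δi * G.g 0 0 := ⟨_, rfl⟩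
  obtain ⟨D1, hD1⟩ : ∃ T : Derivation ℂ R R, ∀ f, T f = a0 * G.d 0 f + a1 * G.d 1 f :=
    ⟨a0 • G.d 0 + a1 • G.d 1, fun f => by simp⟩
  obtain ⟨D2, hD2⟩ : ∃ T : Derivation ℂ R R, ∀ f, T f = b0 * G.d 0 f + b1 * G.d 1 f :=
    ⟨b0 • G.d 0 + b1 • G.d 1, fun f => by simp⟩
  have det : G.δ * (a0 * b1 - a1 * b0) = 2 * I := by
    rw [ha0, ha1, hb0, hb1]
    linear_combination G.δ * G.δi ^ 2 * (-G.g 0 1 + I * G.δ) * hgi + 2 * I * (G.δ * G.δi + 1) * hδ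
  have c00 : a0 * b0 + b0 * a0 = 2 * G.δi ^ 2 * G.g 1 1 := by
    rw [ha0, hb0]
    linear_combination 2 * G.δi ^ 2 * gi * hD - 2 * G.δi ^ 2 * gi * G.δ ^ 2 * hI +
      2 * G.δi ^ 2 * G.g 1 1 * hgi
  have c01 : a0 * b1 + b0 * a1 = 2 * G.δi ^ 2 * -G.g 0 1 := by
    rw [ha0, ha1, hb0, hb1]
    linear_combination G.δi ^ 2 * (-G.g 0 1 + I * G.δ) * hgi
  have c11 : a1 * b1 + b1 * a1 = 2 * G.δi ^ 2 * G.g 0 0 := by
    rw [ha1, hb1]
    ring
  obtain ⟨γ1, hγ1⟩ : ∃ γ1, γ1 = G.δi * (G.d 0 (G.δ * a0) + G.d 1 (G.δ * a1)) := ⟨_, rfl⟩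
  obtain ⟨γ2, hγ2⟩ : ∃ γ2, γ2 = -(G.δi * (G.d 0 (G.δ * b0) + G.d 1 (G.δ * b1))) := ⟨_, rfl⟩
  have z : ∀ k, G.d k (G.δ * (a0 * b1 - a1 * b0)) = 0 := fun k => by
    rw [det, Derivation.leibniz, dI, two, smul_zero, smul_zero, add_zero]
  have z0 : D2 a0 - D1 b0 = γ2 * a0 + γ1 * b0 := by
    have k := z 1
    rw [hD1, hD2, hγ1, hγ2]
    simp only [Derivation.leibniz, map_sub, smul_eq_mul] at k ⊢
    linear_combination G.δi * k +
      (a0 * (G.d 0 b0) - b0 * G.d 0 a0 - b1 * G.d 1 a0 + a1 * G.d 1 b0) * hδ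
  have z1 : D2 a1 - D1 b1 = γ2 * a1 + γ1 * b1 := by
    have k := z 0
    rw [hD1, hD2, hγ1, hγ2]
    simp only [Derivation.leibniz, map_sub, smul_eq_mul] at k ⊢
    linear_combination (-G.δi) * k +
      (a1 * (G.d 1 b1) - b1 * G.d 1 a1 - b0 * G.d 0 a1 + a0 * G.d 0 b1) * hδ
  have comm : ∀ f, D2 (D1 f) - D1 (D2 f) = γ2 * D1 f + γ1 * D2 f := fun f => by
    rw [hD1 f, hD2 f]
    simp only [map_add, Derivation.leibniz, smul_eq_mul]
    rw [hD1 (G.d 0 f), hD1 (G.d 1 f), hD2 (G.d 0 f), hD2 (G.d 1 f), G.comm]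
    linear_combination G.d 0 f * z0 + G.d 1 f * z1
  have v1 : dv D1 G.x = fun a => a0 * dv (G.d 0) G.x a + a1 * dv (G.d 1) G.x a :=
    funext fun a => hD1 _
  have v2 : dv D2 G.x = fun a => b0 * dv (G.d 0) G.x a + b1 * dv (G.d 1) G.x a :=
    funext fun a => hD2 _
  have gg : ∀ s0 s1 t0 t1 : R, ip (fun a => s0 * dv (G.d 0) G.x a + s1 * dv (G.d 1) G.x a)
      (fun a => t0 * dv (G.d 0) G.x a + t1 * dv (G.d 1) G.x a) =
      s0 * t0 * G.g 0 0 + (s0 * t1 + s1 * t0) * G.g 0 1 + s1 * t1 * G.g 1 1 := by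
    intro s0 s1 t0 t1
    simp only [Geo0.g, ip, Fin.sum_univ_four]
    ring
  have h11 : ip (dv D1 G.x) (dv D1 G.x) = 0 := by
    rw [v1, gg, ha0, ha1]
    linear_combination G.δi ^ 2 * gi * (-G.g 0 1 + I * G.δ) ^ 2 * hgi +
      G.δi ^ 2 * gi * G.δ ^ 2 * hI - G.δi ^ 2 * gi * hD - G.δi ^ 2 * G.g 1 1 * hgi
  have h22 : ip (dv D2 G.x) (dv D2 G.x) = 0 := by
    rw [v2, gg, hb0, hb1]
    linear_combination G.δi ^ 2 * G.g 0 0 * G.δ ^ 2 * hI - G.δi ^ 2 * G.g 0 0 * hD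
  have h12 : ip (dv D1 G.x) (dv D2 G.x) = 2 := by
    rw [v1, v2, gg]
    linear_combination h * G.g 0 0 * c00 + G.g 0 1 * c01 + h * G.g 1 1 * c11 -
      (a0 * b0 * G.g 0 0 + a1 * b1 * G.g 1 1 - 2 * G.δi ^ 2 * G.g 0 0 * G.g 1 1) * hh -
      2 * G.δi ^ 2 * hD + 2 * (G.δ * G.δi + 1) * hδ
  have hn : ∀ s0 s1 : R, ip ξ (fun a => s0 * dv (G.d 0) G.x a + s1 * dv (G.d 1) G.x a) = 0 := by
    intro s0 s1
    rw [frame_comm, nfex_lin, frame_comm, hξ1, frame_comm, hξ1]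
    ring
  obtain ⟨F, f1, f2, f3, -, f5, f6⟩ := exists_NF_of D1 D2 γ1 γ2 G.x ξ comm G.unit h11 h22 h12 hξ
    hξ0 (by rw [v1, hn]) (by rw [v2, hn])
  refine ⟨F, ![a0, a1], ![b0, b1], f5, f6, fun f => ?_, fun f => ?_, fun f => ?_, fun i j => ?_,
    fun i => ?_⟩
  · have k0 : 2 * (G.δi * G.g 1 1 * G.d 0 f + G.δi * -G.g 0 1 * G.d 1 f) =
        G.δ * a0 * D2 f + G.δ * b0 * D1 f := by
      rw [hD1, hD2]
      linear_combination (-(G.δ * G.d 0 f)) * c00 - G.δ * G.d 1 f * c01 -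
        2 * (G.δi * G.g 1 1 * G.d 0 f + G.δi * -G.g 0 1 * G.d 1 f) * hδ
    have k1 : 2 * (G.δi * -G.g 0 1 * G.d 0 f + G.δi * G.g 0 0 * G.d 1 f) =
        G.δ * a1 * D2 f + G.δ * b1 * D1 f := by
      rw [hD1, hD2]
      linear_combination (-(G.δ * G.d 0 f)) * c01 - G.δ * G.d 1 f * c11 -
        2 * (G.δi * -G.g 0 1 * G.d 0 f + G.δi * G.g 0 0 * G.d 1 f) * hδ
    have e : G.Lap f = G.δi * (G.d 0 (G.δi * G.g 1 1 * G.d 0 f + G.δi * -G.g 0 1 * G.d 1 f) +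
        G.d 1 (G.δi * -G.g 0 1 * G.d 0 f + G.δi * G.g 0 0 * G.d 1 f)) := by
      rw [map_add, map_add]
      simp only [Geo0.Lap, Geo0.adj, Fin.sum_univ_two]
      rfl
    have m0 := congrArg (G.d 0) k0
    have m1 := congrArg (G.d 1) k1
    rw [Derivation.leibniz, two, map_add _ (_ * D2 f), Derivation.leibniz _ _ (D2 f),
      Derivation.leibniz _ _ (D1 f)] at m0 m1
    simp only [smul_eq_mul] at m0 m1
    have m2 := comm f
    have m3 := hD1 (D2 f)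
    have m4 := hD2 (D1 f)
    rw [NF.Lap, f1, f2, f3, e]
    refine sub_eq_zero.1 (frame_two ?_)
    linear_combination (-G.δi) * m0 - G.δi * m1 - m2 + m3 + m4 + D2 f * hγ1 - D1 f * hγ2 -
      (a0 * G.d 0 (D2 f) + a1 * G.d 1 (D2 f) + (b0 * G.d 0 (D1 f) + b1 * G.d 1 (D1 f))) * hδ
  · rw [Fin.sum_univ_two, f1]
    exact hD1 f
  · rw [Fin.sum_univ_two, f2]
    exact hD2 f
  · fin_cases i <;> fin_cases j
    · exact c00
    · exact c01
    · change a1 * b0 + b1 * a0 = 2 * G.δi ^ 2 * -G.g 0 1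
      linear_combination c01
    · exact c11
  · have hρ : -(h * I * G.δ) * (a0 * b1 - a1 * b0) = 1 := by
      linear_combination (-(h * I)) * det - 2 * h * hI + hh
    rw [f1, f2]
    fin_cases i
    · refine ⟨-(h * I * G.δ) * b1, h * I * G.δ * a1, fun f => ?_⟩
      change G.d 0 f = _
      rw [hD1, hD2]
      linear_combination (-(G.d 0 f)) * hρ
    · refine ⟨h * I * G.δ * b0, -(h * I * G.δ) * a0, fun f => ?_⟩
      change G.d 1 f = _
      rw [hD1, hD2]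
      linear_combination (-(G.d 1 f)) * hρ

end Pool.Agent.Lib.MP_51f413_gt
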