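import Pool.Agent.Lib.MP_51f413_gt.NF

/-!
Surfaces with constant mean curvature and constant curvature.
-/

namespace Pool.Agent.Lib.MP_51f413_gt

namespace NF

variable {R : Type} [CommRing R] [Algebra ℂ R] (F : NF R) (J : Ideal R)

theorem qV_eq (a : Fin 4) : qV F.Lap F.x a = 2 * F.H * F.ξ a := by
  rw [qV, Lap, F.x2, F.e12]
  ring

theorem qc_eq : qc F.Lap F.x = 4 * F.H ^ 2 := by
  have h := F.gram 0 0 0 (2 * F.H) 0 0 0 (2 * F.H)
  simp only [zero_mul, zero_add, mul_zero] at h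
  simp only [qc, ip, F.qV_eq]
  rw [h]
  ring

theorem nffin_two (D : Derivation ℂ R R) : D 2 = 0 := by
  have h := D.map_natCast 2
  simpa using h

theorem nffin_four (D : Derivation ℂ R R) : D 4 = 0 := by
  have h := D.map_natCast 4
  simpa using h

theorem nffin_D1V (h1 : F.D1 F.H = 0) (a : Fin 4) :
    F.D1 (qV F.Lap F.x a) = -(2 * F.H * (F.H * F.e1 a + F.q * F.e2 a)) := by
  rw [F.qV_eq, Derivation.leibniz, Derivation.leibniz, nffin_two, h1, F.n1]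
  simp only [smul_eq_mul]
  ring

theorem nffin_D2V (h2 : F.D2 F.H = 0) (a : Fin 4) :
    F.D2 (qV F.Lap F.x a) = -(2 * F.H * (F.p * F.e1 a + F.H * F.e2 a)) := by
  rw [F.qV_eq, Derivation.leibniz, Derivation.leibniz, nffin_two, h2, F.n2]
  simp only [smul_eq_mul]
  ring

theorem nffin_D1p (h2 : F.D2 F.H = 0) : F.D1 F.p = -(2 * F.γ1 * F.p) := by
  linear_combination F.cod2 + h2

theorem nffin_D2q (h1 : F.D1 F.H = 0) : F.D2 F.q = 2 * F.γ2 * F.q := by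
  linear_combination F.cod1 + h1

theorem nffin_LV (h1 : F.D1 F.H = 0) (h2 : F.D2 F.H = 0) (a : Fin 4) :
    F.Lap (qV F.Lap F.x a) = (4 * F.H ^ 2) * F.x a + 0 * F.e1 a + 0 * F.e2 a +
      (-(4 * F.H * (F.q * F.p + F.H ^ 2))) * F.ξ a := by
  rw [Lap, F.nffin_D2V h2]
  simp only [map_neg, map_add, Derivation.leibniz, smul_eq_mul, nffin_two, h1, F.nffin_D1p h2,
    F.e11, F.e12]
  ring

theorem nffin_P (h1 : F.D1 F.H = 0) (h2 : F.D2 F.H = 0) :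
    qP F.Lap F.x = -(8 * F.H ^ 2 * (F.q * F.p + F.H ^ 2)) := by
  have h := F.gram 0 0 0 (2 * F.H) (4 * F.H ^ 2) 0 0 (-(4 * F.H * (F.q * F.p + F.H ^ 2)))
  have e : qP F.Lap F.x = ∑ a, (0 * F.x a + 0 * F.e1 a + 0 * F.e2 a + 2 * F.H * F.ξ a) *
      (4 * F.H ^ 2 * F.x a + 0 * F.e1 a + 0 * F.e2 a +
        -(4 * F.H * (F.q * F.p + F.H ^ 2)) * F.ξ a) := by
    rw [qP, ip]
    refine Finset.sum_congr rfl fun a _ => ?_
    rw [F.nffin_LV h1 h2, F.qV_eq]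
    ring
  rw [e, h]
  ring

/-- The main part of the matrix `qZ`. -/
def nffinW (a b : Fin 4) : R :=
  F.H * (F.e1 a * F.e2 b + F.e2 a * F.e1 b) + F.q * (F.e2 a * F.e2 b) + F.p * (F.e1 a * F.e1 b) -
    2 * (F.x a * F.ξ b + F.ξ a * F.x b) + 4 * F.H * (F.ξ a * F.ξ b)

theorem nffin_Lap_mul (u w : R) :
    F.Lap (u * w) - u * F.Lap w - w * F.Lap u = F.D1 u * F.D2 w + F.D2 u * F.D1 w := by
  simp only [Lap, Derivation.leibniz, map_add, smul_eq_mul]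
  ring

theorem nffin_Z (h1 : F.D1 F.H = 0) (h2 : F.D2 F.H = 0) (a b : Fin 4) :
    qZ F.Lap F.x a b = 2 * F.H * F.nffinW a b := by
  rw [qZ, nffin_Lap_mul, F.nffin_D1V h1, F.nffin_D2V h2, F.qV_eq, F.qV_eq, F.x1, F.x2, nffinW]
  ring

theorem nffin_D1W (h1 : F.D1 F.H = 0) (h2 : F.D2 F.H = 0) (a b : Fin 4) :
    F.D1 (F.nffinW a b) = (F.e2 a * F.e2 b) * (F.D1 F.q - 2 * F.γ1 * F.q) -
      2 * (F.e1 a * F.ξ b + F.ξ a * F.e1 b) * (1 + F.H ^ 2 - F.q * F.p) := by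
  simp only [nffinW, map_sub, map_add, Derivation.leibniz, smul_eq_mul, nffin_two, nffin_four, h1,
    F.nffin_D1p h2, F.e11, F.e12, F.x1, F.n1]
  ring

theorem nffin_D2W (h1 : F.D1 F.H = 0) (h2 : F.D2 F.H = 0) (a b : Fin 4) :
    F.D2 (F.nffinW a b) = (F.e1 a * F.e1 b) * (F.D2 F.p + 2 * F.γ2 * F.p) -
      2 * (F.e2 a * F.ξ b + F.ξ a * F.e2 b) * (1 + F.H ^ 2 - F.q * F.p) := by
  simp only [nffinW, map_sub, map_add, Derivation.leibniz, smul_eq_mul, nffin_two, nffin_four, h2,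
    F.nffin_D2q h1, F.e21, F.e22, F.x2, F.n2]
  ring

theorem nffin_WW (a b : Fin 4) : ∑ m, F.nffinW a m * F.nffinW m b =
    4 * F.H * F.nffinW a b + 2 * (if a = b then 2 else 0) -
      2 * (F.e1 a * F.e2 b + F.e2 a * F.e1 b) * (1 + F.H ^ 2 - F.q * F.p) := by
  have h := F.gram (-(2 * F.ξ a)) (F.H * F.e2 a + F.p * F.e1 a) (F.H * F.e1 a + F.q * F.e2 a)
    (4 * F.H * F.ξ a - 2 * F.x a) (-(2 * F.ξ b)) (F.H * F.e2 b + F.p * F.e1 b)
    (F.H * F.e1 b + F.q * F.e2 b) (4 * F.H * F.ξ b - 2 * F.x b)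
  rw [← F.compl a b]
  simp only [nffinW, Fin.sum_univ_four] at h ⊢
  linear_combination h

theorem nffin_cancel {c : ℂ} (hc : c ≠ 0) {f : R} (h : algebraMap ℂ R c * f ∈ J) : f ∈ J := by
  have h2 := J.mul_mem_left (algebraMap ℂ R c⁻¹) h
  rwa [← mul_assoc, ← map_mul, inv_mul_cancel₀ hc, map_one, one_mul] at h2

/-- Umbilical surfaces. -/
theorem fin_umb (h1 : F.D1 F.H = 0) (h2 : F.D2 F.H = 0) (hu : F.q * F.p ∈ J) :
    2 * qP F.Lap F.x + qc F.Lap F.x ^ 2 ∈ J ∧ ip (qV F.Lap F.x) F.x = 0 ∧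
      ∑ a, (2 * F.D1 (qV F.Lap F.x a) + qc F.Lap F.x * F.D1 (F.x a)) *
        (2 * F.D2 (qV F.Lap F.x a) + qc F.Lap F.x * F.D2 (F.x a)) ∈ J := by
  refine ⟨?_, ?_, ?_⟩
  · have e : 2 * qP F.Lap F.x + qc F.Lap F.x ^ 2 = -(16 * F.H ^ 2) * (F.q * F.p) := by
      rw [F.nffin_P h1 h2, F.qc_eq]
      ring
    rw [e]
    exact J.mul_mem_left _ hu
  · have h := F.gram 0 0 0 (2 * F.H) 1 0 0 0
    simp only [zero_mul, zero_add, mul_zero, add_zero, one_mul] at h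
    simp only [ip, F.qV_eq]
    exact h
  · have h := F.gram 0 0 (-(4 * F.H * F.q)) 0 0 (-(4 * F.H * F.p)) 0 0
    have e : ∑ a, (2 * F.D1 (qV F.Lap F.x a) + qc F.Lap F.x * F.D1 (F.x a)) *
        (2 * F.D2 (qV F.Lap F.x a) + qc F.Lap F.x * F.D2 (F.x a)) =
        ∑ a, (0 * F.x a + 0 * F.e1 a + -(4 * F.H * F.q) * F.e2 a + 0 * F.ξ a) *
          (0 * F.x a + -(4 * F.H * F.p) * F.e1 a + 0 * F.e2 a + 0 * F.ξ a) := by
      refine Finset.sum_congr rfl fun a _ => ?_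
      rw [F.nffin_D1V h1, F.nffin_D2V h2, F.qc_eq, F.x1, F.x2]
      ring
    rw [e, h]
    convert J.mul_mem_left (32 * F.H ^ 2) hu using 1
    ring

/-- Products of circles. -/
theorem fin_tor (h1 : F.D1 F.H = 0) (h2 : F.D2 F.H = 0) (hJ1 : ∀ f ∈ J, F.D1 f ∈ J)
    (hJ2 : ∀ f ∈ J, F.D2 f ∈ J) (c : ℂ) (hc : c ≠ 0) (hu : F.q * F.p - algebraMap ℂ R c ∈ J) :
    qP F.Lap F.x + qc F.Lap F.x ^ 2 + 2 * qc F.Lap F.x ∈ J ∧
      (∀ a b, F.D1 (qZ F.Lap F.x a b) ∈ J ∧ F.D2 (qZ F.Lap F.x a b) ∈ J) ∧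
      (∀ a b, qZ F.Lap F.x a b - qZ F.Lap F.x b a ∈ J) ∧
      (∀ a b, ∑ m, qZ F.Lap F.x a m * qZ F.Lap F.x m b - 2 * qc F.Lap F.x * qZ F.Lap F.x a b -
        (if a = b then 4 * qc F.Lap F.x else 0) ∈ J) ∧
      ∑ a, qZ F.Lap F.x a a - 4 * qc F.Lap F.x ∈ J ∧
      ∑ a, ∑ b, F.x a * qZ F.Lap F.x a b * F.x b ∈ J := by
  have hq1 : F.D1 F.q - 2 * F.γ1 * F.q ∈ J := by
    refine nffin_cancel J hc ?_
    have h3 := hJ1 _ hu
    rw [map_sub, Derivation.leibniz, F.nffin_D1p h2, Derivation.map_algebraMap] at h3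
    simp only [smul_eq_mul] at h3
    convert J.sub_mem (J.mul_mem_left F.q h3)
      (J.mul_mem_left (F.D1 F.q - 2 * F.γ1 * F.q) hu) using 1
    ring
  have hp1 : F.D2 F.p + 2 * F.γ2 * F.p ∈ J := by
    refine nffin_cancel J hc ?_
    have h3 := hJ2 _ hu
    rw [map_sub, Derivation.leibniz, F.nffin_D2q h1, Derivation.map_algebraMap] at h3
    simp only [smul_eq_mul] at h3
    convert J.sub_mem (J.mul_mem_left F.p h3)
      (J.mul_mem_left (F.D2 F.p + 2 * F.γ2 * F.p) hu) using 1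
    ring
  have hK : 1 + F.H ^ 2 - F.q * F.p ∈ J := by
    have e : F.D2 (F.D1 F.q - 2 * F.γ1 * F.q) - 3 * F.γ2 * (F.D1 F.q - 2 * F.γ1 * F.q) =
        4 * (1 + F.H ^ 2 - F.q * F.p) * F.q := by
      have h3 := F.comm F.q
      rw [F.nffin_D2q h1] at h3
      simp only [map_sub, Derivation.leibniz, smul_eq_mul, nffin_two, F.nffin_D2q h1] at h3 ⊢
      linear_combination h3 + 2 * F.q * F.gauss
    have h4 : 4 * (1 + F.H ^ 2 - F.q * F.p) * F.q ∈ J := by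
      rw [← e]
      exact J.sub_mem (hJ2 _ hq1) (J.mul_mem_left _ hq1)
    refine nffin_cancel J (mul_ne_zero (by norm_num : (4 : ℂ) ≠ 0) hc) ?_
    convert J.sub_mem (J.mul_mem_left F.p h4)
      (J.mul_mem_left (4 * (1 + F.H ^ 2 - F.q * F.p)) hu) using 1
    rw [map_mul, map_ofNat]
    ring
  refine ⟨?_, fun a b => ⟨?_, ?_⟩, fun a b => ?_, fun a b => ?_, ?_, ?_⟩
  · convert J.mul_mem_left (8 * F.H ^ 2) hK using 1
    rw [F.nffin_P h1 h2, F.qc_eq]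
    ring
  · rw [F.nffin_Z h1 h2, Derivation.leibniz, Derivation.leibniz, nffin_two, h1,
      F.nffin_D1W h1 h2]
    simp only [smul_eq_mul, mul_zero, add_zero]
    exact J.mul_mem_left _ (J.sub_mem (J.mul_mem_left _ hq1) (J.mul_mem_left _ hK))
  · rw [F.nffin_Z h1 h2, Derivation.leibniz, Derivation.leibniz, nffin_two, h2,
      F.nffin_D2W h1 h2]
    simp only [smul_eq_mul, mul_zero, add_zero]
    exact J.mul_mem_left _ (J.sub_mem (J.mul_mem_left _ hp1) (J.mul_mem_left _ hK))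
  · have e : qZ F.Lap F.x a b - qZ F.Lap F.x b a = 0 := by
      rw [F.nffin_Z h1 h2, F.nffin_Z h1 h2, nffinW, nffinW]
      ring
    rw [e]
    exact J.zero_mem
  · have e : ∑ m, qZ F.Lap F.x a m * qZ F.Lap F.x m b =
        4 * F.H ^ 2 * ∑ m, F.nffinW a m * F.nffinW m b := by
      rw [Finset.mul_sum]
      refine Finset.sum_congr rfl fun m _ => ?_
      rw [F.nffin_Z h1 h2 a m, F.nffin_Z h1 h2 m b]
      ring
    rw [e, F.nffin_WW, F.qc_eq, F.nffin_Z h1 h2 a b]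
    convert J.mul_mem_left (-(8 * F.H ^ 2 * (F.e1 a * F.e2 b + F.e2 a * F.e1 b))) hK using 1
    split_ifs <;> ring
  · have h3 := F.gram 0 1 0 0 0 F.p F.H 0
    have h4 := F.gram 0 0 1 0 0 F.H F.q 0
    have h5 := F.gram 0 0 0 1 (-4) 0 0 (4 * F.H)
    have e : ∑ a, qZ F.Lap F.x a a - 4 * qc F.Lap F.x = 0 := by
      simp only [F.nffin_Z h1 h2, F.qc_eq, nffinW, Fin.sum_univ_four] at h3 h4 h5 ⊢
      linear_combination 2 * F.H * (h3 + h4 + h5)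
    rw [e]
    exact J.zero_mem
  · have h3 := F.gram 1 0 0 0 0 1 0 0
    have h4 := F.gram 1 0 0 0 0 0 1 0
    have h5 := F.gram 1 0 0 0 0 0 0 1
    simp only [zero_mul, zero_add, mul_zero, add_zero, one_mul] at h3 h4 h5
    have e : ∑ a, ∑ b, F.x a * qZ F.Lap F.x a b * F.x b =
        2 * F.H * (2 * F.H * (∑ a, F.x a * F.e1 a) * (∑ a, F.x a * F.e2 a) +
          F.q * (∑ a, F.x a * F.e2 a) ^ 2 + F.p * (∑ a, F.x a * F.e1 a) ^ 2 -
          4 * (∑ a, F.x a * F.x a) * (∑ a, F.x a * F.ξ a) +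
          4 * F.H * (∑ a, F.x a * F.ξ a) ^ 2) := by
      simp only [F.nffin_Z h1 h2, nffinW, Fin.sum_univ_four]
      ring
    rw [e, h3, h4, h5]
    simp

end NF

end Pool.Agent.Lib.MP_51f413_gt
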