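import Pool.Agent.Lib.MP_51f413_gt.NF
import Pool.Agent.Lib.MP_51f413_gt.CHom
import Pool.Agent.Lib.MP_51f413_gt.CUEq

/-!
The jets of a finite type surface of constant mean curvature satisfy the universal relations.
-/

namespace Pool.Agent.Lib.MP_51f413_gt

open MvPolynomial

theorem nfrel_adjoin {R : Type} [CommRing R] [Algebra ℂ R] (d : Derivation ℂ CP CP)
    (D : Derivation ℂ R R) (γ : R) (φ : CP →ₐ[ℂ] R) (s : Set CP)
    (h : ∀ f ∈ s, φ (d f) = D (φ f) - γ * φ (cE f)) (f : CP) (hf : f ∈ Algebra.adjoin ℂ s) :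
    φ (d f) = D (φ f) - γ * φ (cE f) := by
  induction hf using Algebra.adjoin_induction with
  | mem f hf => exact h f hf
  | algebraMap c => simp only [Derivation.map_algebraMap, AlgHom.commutes, map_zero, mul_zero, sub_zero]
  | add f g _ _ hf hg =>
    simp only [map_add, hf, hg]
    ring
  | mul f g _ _ hf hg =>
    simp only [Derivation.leibniz, map_add, map_mul, smul_eq_mul, hf, hg]
    ring

theorem nfrel_two {R : Type} [CommRing R] [Algebra ℂ R] (D : Derivation ℂ R R) (i : ℕ) :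
    D ((i : R) + 2) = 0 := by
  have := D.map_natCast (i + 2)
  rwa [Nat.cast_add, Nat.cast_ofNat] at this

theorem nfrel_cb_mem (i : ℕ) :
    cb i ∈ Algebra.adjoin ℂ ({ch1, ch2, ce1, ce2, cp 0} ∪ Set.range cq : Set CP) := by
  set s : Set CP := {ch1, ch2, ce1, ce2, cp 0} ∪ Set.range cq
  have hq : ∀ i, cq i ∈ Algebra.adjoin ℂ s := fun i => Algebra.subset_adjoin (Or.inr ⟨i, rfl⟩)
  have hst : ∀ f ∈ s, cd1 f ∈ Algebra.adjoin ℂ s := by
    rintro f (hf | ⟨i, rfl⟩)
    · simp only [Set.mem_insert_iff, Set.mem_singleton_iff] at hf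
      rcases hf with rfl | rfl | rfl | rfl | rfl <;> simp
    · simpa using hq (i + 1)
  have hK : cK ∈ Algebra.adjoin ℂ s :=
    sub_mem (add_mem (mul_mem (Algebra.subset_adjoin (by simp [s]))
      (Algebra.subset_adjoin (by simp [s]))) (mul_mem (Algebra.subset_adjoin (by simp [s]))
      (Algebra.subset_adjoin (by simp [s])))) (mul_mem (hq 0) (Algebra.subset_adjoin (by simp [s])))
  induction i with
  | zero => exact zero_mem _
  | succ i ih =>
    rw [cb_succ]
    exact add_mem (deriv_mem_adjoin _ s hst _ ih) (mul_mem (mul_mem (mul_mem (ofNat_mem _ 2)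
      (add_mem (natCast_mem _ i) (ofNat_mem _ 2))) hK) (hq i))

theorem nfrel_ca_mem (j : ℕ) :
    ca j ∈ Algebra.adjoin ℂ ({ch1, ch2, ce1, ce2, cq 0} ∪ Set.range cp : Set CP) := by
  set s : Set CP := {ch1, ch2, ce1, ce2, cq 0} ∪ Set.range cp
  have hq : ∀ i, cp i ∈ Algebra.adjoin ℂ s := fun i => Algebra.subset_adjoin (Or.inr ⟨i, rfl⟩)
  have hst : ∀ f ∈ s, cd2 f ∈ Algebra.adjoin ℂ s := by
    rintro f (hf | ⟨i, rfl⟩)
    · simp only [Set.mem_insert_iff, Set.mem_singleton_iff] at hf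
      rcases hf with rfl | rfl | rfl | rfl | rfl <;> simp
    · simpa using hq (i + 1)
  have hK : cK ∈ Algebra.adjoin ℂ s :=
    sub_mem (add_mem (mul_mem (Algebra.subset_adjoin (by simp [s]))
      (Algebra.subset_adjoin (by simp [s]))) (mul_mem (Algebra.subset_adjoin (by simp [s]))
      (Algebra.subset_adjoin (by simp [s])))) (mul_mem (Algebra.subset_adjoin (by simp [s])) (hq 0))
  induction j with
  | zero => exact zero_mem _
  | succ i ih =>
    rw [ca_succ]
    exact add_mem (deriv_mem_adjoin _ s hst _ ih) (mul_mem (mul_mem (mul_mem (ofNat_mem _ 2)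
      (add_mem (natCast_mem _ i) (ofNat_mem _ 2))) hK) (hq i))

theorem nfrel_E_cb (i : ℕ) : cE (cb i) = ((i : CP) + 1) * cb i := by
  have h := cE_d2 (cq i)
  rw [cE_q, Derivation.leibniz, nfrel_two, cd2_q, smul_zero, smul_eq_mul] at h
  linear_combination h

theorem nfrel_E_ca (j : ℕ) : cE (ca j) = -(((j : CP) + 1) * ca j) := by
  have h := cE_d1 (cp j)
  rw [cE_p, map_neg, Derivation.leibniz, nfrel_two, cd1_p, smul_zero, smul_eq_mul] at h
  linear_combination h

namespace NF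

variable {R : Type} [CommRing R] [Algebra ℂ R] (F : NF R)

/-- Evaluation of the universal ring at the jets. -/
noncomputable def ev : CP →ₐ[ℂ] R := aeval (cpoint F.H F.H 1 1 F.jq F.jp)

theorem nfrel_h1 : F.ev ch1 = F.H := by simp [ev, ch1, cpoint]
theorem nfrel_h2 : F.ev ch2 = F.H := by simp [ev, ch2, cpoint]
theorem nfrel_e1 : F.ev ce1 = 1 := by simp [ev, ce1, cpoint]
theorem nfrel_e2 : F.ev ce2 = 1 := by simp [ev, ce2, cpoint]
theorem nfrel_q (i : ℕ) : F.ev (cq i) = F.jq i := by simp [ev, cq, cpoint]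
theorem nfrel_p (j : ℕ) : F.ev (cp j) = F.jp j := by simp [ev, cp, cpoint]

theorem nfrel_K : F.ev cK = 1 + F.H ^ 2 - F.q * F.p := by
  simp only [cK, map_sub, map_add, map_mul, nfrel_h1, nfrel_h2, nfrel_e1, nfrel_e2, nfrel_q,
    nfrel_p, jq, jp]
  ring

theorem nfrel_d1_q (i : ℕ) :
    F.ev (cd1 (cq i)) = F.D1 (F.ev (cq i)) - F.γ1 * F.ev (cE (cq i)) := by
  simp only [cd1_q, cE_q, map_mul, map_add, map_natCast, map_ofNat, nfrel_q, jq]
  ring

theorem nfrel_d2_p (j : ℕ) :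
    F.ev (cd2 (cp j)) = F.D2 (F.ev (cp j)) - F.γ2 * F.ev (cE (cp j)) := by
  simp only [cd2_p, cE_p, map_neg, map_mul, map_add, map_natCast, map_ofNat, nfrel_p, jp]
  ring

theorem nfrel_cb (h1 : F.D1 F.H = 0) (h2 : F.D2 F.H = 0) (i : ℕ) :
    F.ev (cb i) = F.D2 (F.jq i) - ((i : R) + 2) * F.γ2 * F.jq i := by
  induction i with
  | zero =>
    simp only [cb, jq, map_zero, Nat.cast_zero]
    linear_combination -F.cod1 - h1
  | succ i ih =>
    have h := nfrel_adjoin cd1 F.D1 F.γ1 F.ev _ (by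
      rintro f (hf | ⟨i, rfl⟩)
      · simp only [Set.mem_insert_iff, Set.mem_singleton_iff] at hf
        rcases hf with rfl | rfl | rfl | rfl | rfl
        · simp [nfrel_h1, h1]
        · simp [nfrel_h2, h1]
        · simp [nfrel_e1]
        · simp [nfrel_e2]
        · simp only [cd1_p0, cE_p, map_zero, map_neg, map_mul, map_add, map_ofNat, nfrel_p, jp,
            Nat.cast_zero]
          linear_combination -F.cod2 - h2
      · exact F.nfrel_d1_q i) _ (nfrel_cb_mem i)
    rw [cb_succ, map_add, h, nfrel_E_cb]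
    simp only [map_mul, map_add, map_sub, map_natCast, map_ofNat, map_one, nfrel_K, nfrel_q, ih, jq,
      Derivation.leibniz, smul_eq_mul, Nat.cast_add, Nat.cast_one]
    have k1 := nfrel_two F.D1 i
    have k2 := nfrel_two F.D2 i
    rw [map_add] at k1 k2
    linear_combination -F.comm (F.jq i) - ((i : R) + 2) * F.jq i * F.gauss
      - F.jq i * F.γ2 * k1 + F.jq i * F.γ1 * k2

theorem nfrel_ca (h1 : F.D1 F.H = 0) (h2 : F.D2 F.H = 0) (j : ℕ) :
    F.ev (ca j) = F.D1 (F.jp j) + ((j : R) + 2) * F.γ1 * F.jp j := by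
  induction j with
  | zero =>
    simp only [ca, jp, map_zero, Nat.cast_zero]
    linear_combination -F.cod2 - h2
  | succ i ih =>
    have h := nfrel_adjoin cd2 F.D2 F.γ2 F.ev _ (by
      rintro f (hf | ⟨i, rfl⟩)
      · simp only [Set.mem_insert_iff, Set.mem_singleton_iff] at hf
        rcases hf with rfl | rfl | rfl | rfl | rfl
        · simp [nfrel_h1, h2]
        · simp [nfrel_h2, h2]
        · simp [nfrel_e1]
        · simp [nfrel_e2]
        · simp only [cd2_q0, cE_q, map_zero, map_mul, map_add, map_ofNat, nfrel_q, jq,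
            Nat.cast_zero]
          linear_combination -F.cod1 - h1
      · exact F.nfrel_d2_p i) _ (nfrel_ca_mem i)
    rw [ca_succ, map_add, h, nfrel_E_ca]
    simp only [map_mul, map_add, map_neg, map_natCast, map_ofNat, map_one, nfrel_K, nfrel_p, ih, jp,
      Derivation.leibniz, smul_eq_mul, Nat.cast_add, Nat.cast_one]
    have k1 := nfrel_two F.D1 i
    have k2 := nfrel_two F.D2 i
    rw [map_add] at k1 k2
    linear_combination F.comm (F.jp i) - ((i : R) + 2) * F.jp i * F.gauss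
      - F.jp i * F.γ2 * k1 + F.jp i * F.γ1 * k2

theorem ev_d1 (h1 : F.D1 F.H = 0) (h2 : F.D2 F.H = 0) (f : CP) :
    F.ev (cd1 f) = F.D1 (F.ev f) - F.γ1 * F.ev (cE f) := by
  refine nfrel_adjoin cd1 F.D1 F.γ1 F.ev (Set.range X) ?_ f (by
    rw [adjoin_range_X]
    exact Algebra.mem_top)
  rintro _ ⟨i, rfl⟩
  refine ci_cases (fun g => F.ev (cd1 g) = F.D1 (F.ev g) - F.γ1 * F.ev (cE g))
    (by simp [nfrel_h1, h1]) (by simp [nfrel_h2, h1]) (by simp [nfrel_e1]) (by simp [nfrel_e2])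
    F.nfrel_d1_q (fun j => ?_) i
  simp only [cd1_p, F.nfrel_ca h1 h2, cE_p, map_neg, map_mul, map_add, map_natCast, map_ofNat,
    nfrel_p]
  ring

theorem ev_d2 (h1 : F.D1 F.H = 0) (h2 : F.D2 F.H = 0) (f : CP) :
    F.ev (cd2 f) = F.D2 (F.ev f) - F.γ2 * F.ev (cE f) := by
  refine nfrel_adjoin cd2 F.D2 F.γ2 F.ev (Set.range X) ?_ f (by
    rw [adjoin_range_X]
    exact Algebra.mem_top)
  rintro _ ⟨i, rfl⟩
  refine ci_cases (fun g => F.ev (cd2 g) = F.D2 (F.ev g) - F.γ2 * F.ev (cE g))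
    (by simp [nfrel_h1, h2]) (by simp [nfrel_h2, h2]) (by simp [nfrel_e1]) (by simp [nfrel_e2])
    (fun j => ?_) F.nfrel_d2_p i
  simp only [cd2_q, F.nfrel_cb h1 h2, cE_q, map_mul, map_add, map_natCast, map_ofNat, nfrel_q]
  ring

/-- The vector with given components in the frame. -/
noncomputable def nfrelVec (G : Fin 4 → CP) (a : Fin 4) : R :=
  F.ev (G 0) * F.x a + F.ev (G 1) * F.e1 a + F.ev (G 2) * F.e2 a + F.ev (G 3) * F.ξ a

theorem nfrel_true (h1 : F.D1 F.H = 0) (h2 : F.D2 F.H = 0) {a b : ℤ} {G : Fin 4 → CP}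
    (hG : CHV a b 0 G) (c : Fin 4) : F.nfrelVec (cN true G) c =
      F.D1 (F.nfrelVec G c) - ((a : R) - b) * F.γ1 * F.nfrelVec G c := by
  simp only [nfrelVec, cN, if_true, N1, Matrix.cons_val_zero, Matrix.cons_val_one,
    Matrix.cons_val, map_add, map_sub, map_mul, map_ofNat, F.ev_d1 h1 h2, ch_E (hG _), map_intCast,
    nfrel_h1, nfrel_e1, nfrel_q, jq, Derivation.leibniz, smul_eq_mul, F.x1, F.e11, F.e12, F.n1, csc]
  push_cast
  ring

theorem nfrel_false (h1 : F.D1 F.H = 0) (h2 : F.D2 F.H = 0) {a b : ℤ} {G : Fin 4 → CP}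
    (hG : CHV a b 0 G) (c : Fin 4) : F.nfrelVec (cN false G) c =
      F.D2 (F.nfrelVec G c) - ((a : R) - b) * F.γ2 * F.nfrelVec G c := by
  simp only [nfrelVec, cN, Bool.false_eq_true, if_false, N2, Matrix.cons_val_zero,
    Matrix.cons_val_one, Matrix.cons_val, map_add, map_sub, map_mul, map_ofNat, F.ev_d2 h1 h2,
    ch_E (hG _), map_intCast, nfrel_h2, nfrel_e2, nfrel_p, jp, Derivation.leibniz, smul_eq_mul,
    F.x2, F.e21, F.e22, F.n2, csc]
  push_cast
  ring

theorem nfrel_comp {G : Fin 4 → CP} (h : ∀ a, F.nfrelVec G a = 0) (c : Fin 4) :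
    F.ev (G c) = 0 := by
  have k : ∀ b0 b1 b2 b3 : R, F.ev (G 0) * b0 + 2 * (F.ev (G 1) * b2) + 2 * (F.ev (G 2) * b1) +
      F.ev (G 3) * b3 = 0 := fun b0 b1 b2 b3 => by
    rw [← F.gram]
    exact Finset.sum_eq_zero fun a _ => mul_eq_zero_of_left (h a) _
  have h2 : algebraMap ℂ R 2⁻¹ * 2 = 1 := by
    rw [← map_ofNat (algebraMap ℂ R) 2, ← map_mul, inv_mul_cancel₀ two_ne_zero, map_one]
  fin_cases c
  · simpa using k 1 0 0 0
  · exact (by linear_combination algebraMap ℂ R 2⁻¹ * k 0 0 1 0 - F.ev (G 1) * h2 : F.ev (G 1) = 0)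
  · exact (by linear_combination algebraMap ℂ R 2⁻¹ * k 0 1 0 0 - F.ev (G 2) * h2 : F.ev (G 2) = 0)
  · simpa using k 0 0 0 1

theorem rel_zero (h1 : F.D1 F.H = 0) (h2 : F.D2 F.H = 0) (N : ℕ) (r : ℕ → ℂ)
    (V : ℕ → Fin 4 → R) (h0 : V 0 = F.ξ) (hV : ∀ m a, V (m + 1) a = F.Lap (V m a))
    (htop : ∀ a, V N a = -∑ j ∈ Finset.range N, algebraMap ℂ R (r j) * V j a)
    (w : List Bool) (c : Fin 4) : F.ev (Rel N r w c) = 0 := by
  have hv : ∀ m a, F.nfrelVec (cV m) a = V m a := by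
    intro m
    induction m with
    | zero => simp [nfrelVec, cV, h0]
    | succ m ih =>
      intro a
      rw [cV, F.nfrel_true h1 h2 (chv_false (chv_V m)), F.nfrel_false h1 h2 (chv_V m), ih, hV, Lap,
        sub_self, zero_mul, zero_mul, sub_zero]
      push_cast
      ring
  refine F.nfrel_comp (fun a => ?_) c
  induction w with
  | nil =>
    have e : F.nfrelVec (Rel N r []) a = F.nfrelVec (cV N) a +
        ∑ j ∈ Finset.range N, algebraMap ℂ R (r j) * F.nfrelVec (cV j) a := by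
      simp only [nfrelVec, Rel, List.foldr_nil, cW, map_add, map_sum, map_mul, map_pow,
        AlgHom.commutes, nfrel_e1, nfrel_e2, one_pow, mul_one, mul_add, add_mul, Finset.sum_mul,
        Finset.sum_add_distrib, mul_assoc]
      ring_nf
    rw [e, hv, htop]
    simp only [hv, neg_add_cancel]
  | cons b w ih =>
    change F.nfrelVec (cN b (Rel N r w)) a = 0
    cases b
    · rw [F.nfrel_false h1 h2 (chv_rel N r w), ih, map_zero, mul_zero, sub_zero]
    · rw [F.nfrel_true h1 h2 (chv_rel N r w), ih, map_zero, mul_zero, sub_zero]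

end NF

end Pool.Agent.Lib.MP_51f413_gt
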