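import Pool.Agent.Lib.MP_51f413_gt.CAlg
import Pool.Agent.Lib.MP_51f413_gt.NFEx
import Pool.Agent.Lib.MP_51f413_gt.NFRel
import Pool.Agent.Lib.MP_51f413_gt.NFFin
import Pool.Agent.Lib.MP_51f413_gt.GLoc

/-!
The local classification for constant mean curvature over a differential ring.
-/

namespace Pool.Agent.Lib.MP_51f413_gt

open MvPolynomial

variable {R : Type} [CommRing R] [Algebra ℂ R]

/-- Truncation of a sequence. -/
def trunc {A : Type} [Zero A] (M : ℕ) (u : Fin (M + 1) → A) (i : ℕ) : A :=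
  if h : i < M + 1 then u ⟨i, h⟩ else 0

/-- The product `q p` is constant modulo a stable ideal with prime trace. -/
theorem NF.qp_const (F : NF R) (h0 : ℂ) (hH : F.H = algebraMap ℂ R h0) {N : ℕ} (hN : 0 < N)
    (r : ℕ → ℂ) (V : ℕ → Fin 4 → R) (V0 : V 0 = F.ξ) (hV : ∀ m a, V (m + 1) a = F.Lap (V m a))
    (htop : ∀ a, V N a = -∑ j ∈ Finset.range N, algebraMap ℂ R (r j) * V j a) :
    ∃ (M : ℕ) (ψ : MvPolynomial (Fin (M + 1) ⊕ Fin (M + 1)) ℂ →+* R), ∀ J : Ideal R,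
      (J.comap ψ).IsPrime → ∃ c : ℂ, F.q * F.p - algebraMap ℂ R c ∈ J := by
  obtain ⟨M, hM⟩ := cmc_alg hN r
  let P := MvPolynomial (Fin (M + 1) ⊕ Fin (M + 1)) ℂ
  let ψ : P →ₐ[ℂ] R := aeval (Sum.elim (fun i => F.jq i) (fun i => F.jp i))
  refine ⟨M, ψ.toRingHom, fun J hJ => ?_⟩
  set 𝔭 : Ideal P := J.comap ψ.toRingHom with h𝔭
  let a : ℕ → P := trunc M fun i => X (Sum.inl i)
  let b : ℕ → P := trunc M fun i => X (Sum.inr i)
  have ha : ∀ i, i ≤ M → ψ (a i) = F.jq i := fun i hi => by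
    rw [show a i = X (Sum.inl ⟨i, Nat.lt_succ_of_le hi⟩) from dif_pos _]
    exact aeval_X _ _
  have hb : ∀ i, i ≤ M → ψ (b i) = F.jp i := fun i hi => by
    rw [show b i = X (Sum.inr ⟨i, Nat.lt_succ_of_le hi⟩) from dif_pos _]
    exact aeval_X _ _
  have h1 : F.D1 F.H = 0 := by rw [hH, Derivation.map_algebraMap]
  have h2 : F.D2 F.H = 0 := by rw [hH, Derivation.map_algebraMap]
  have key : ∀ (F' : NF R) (a b : ℕ → P), F'.H = algebraMap ℂ R h0 → V 0 = F'.ξ →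
      (∀ m a, V (m + 1) a = F'.Lap (V m a)) → (∀ i, i ≤ M → ψ (a i) = F'.jq i) →
      (∀ i, i ≤ M → ψ (b i) = F'.jp i) → ∀ (w : List Bool) (c : Fin 4),
      N + w.count true ≤ M + 1 → N + w.count false ≤ M + 1 →
      aeval (cpoint (algebraMap ℂ _ h0) (algebraMap ℂ _ h0) 1 1 (fun i => toF 𝔭 (a i))
        (fun i => toF 𝔭 (b i))) (Rel N r w c) = 0 := by
    intro F' a b hH V0 hV ha hb w c w1 w2
    have h3 := F'.rel_zero (by rw [hH, Derivation.map_algebraMap])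
      (by rw [hH, Derivation.map_algebraMap]) N r V V0 hV htop w c
    have h4 : aeval (cpoint (algebraMap ℂ P h0) (algebraMap ℂ P h0) 1 1 a b) (Rel N r w c) ∈ 𝔭 := by
      change ψ _ ∈ J
      rw [comp_aeval_apply, cpoint_map, map_one, ψ.commutes, ← hH,
        ch_supp (chv_rel N r w c) _ _ _ _ _ _ F'.jq F'.jp (fun i hi => ha i (by omega))
          (fun i hi => hb i (by omega))]
      change F'.ev _ ∈ J
      rw [h3]
      exact J.zero_mem
    have h5 := (toF_eq_zero 𝔭 _).2 h4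
    rw [comp_aeval_apply, cpoint_map, map_one, (toF 𝔭).commutes] at h5
    exact h5
  obtain ⟨c, hc⟩ := hM (FractionRing (P ⧸ 𝔭)) h0 (fun i => toF 𝔭 (a i)) (fun i => toF 𝔭 (b i))
    (fun i hi => by simp [a, trunc, show ¬ i < M + 1 by omega])
    (fun i hi => by simp [b, trunc, show ¬ i < M + 1 by omega])
    (key F a b hH V0 hV ha hb)
    (key F.swap b a hH V0 (fun m a => by rw [hV, F.swap_Lap])
      (fun i hi => by rw [hb i hi, F.swap_jq]) (fun i hi => by rw [ha i hi, F.swap_jp]))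
  refine ⟨c, ?_⟩
  have h3 : a 0 * b 0 - algebraMap ℂ P c ∈ 𝔭 := by
    rw [← toF_eq_zero, map_sub, map_mul, (toF 𝔭).commutes, hc, sub_self]
  have h4 : ψ (a 0 * b 0 - algebraMap ℂ P c) ∈ J := h3
  rw [map_sub, map_mul, ψ.commutes, ha 0 (Nat.zero_le _), hb 0 (Nat.zero_le _)] at h4
  exact h4

theorem geo_cmc (G : Geo0 R) (gi : R) (hgi : G.g 0 0 * gi = 1) (h0 : ℂ) (hh0 : h0 ≠ 0)
    (hc0 : qc G.Lap G.x = algebraMap ℂ R (4 * h0 ^ 2)) (c : Fin 4 → ℂ)
    (k : ℕ) (y : Fin k → Fin 4 → R) (μ : Fin k → ℂ) (hy : ∀ i a, G.Lap (y i a) = μ i • y i a)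
    (hx : ∀ a, G.x a = algebraMap ℂ R (c a) + ∑ i, y i a) :
    ∃ (M : ℕ) (ψ : MvPolynomial (Fin (M + 1) ⊕ Fin (M + 1)) ℂ →+* R), ∀ J : Ideal R,
      (∀ i, ∀ f ∈ J, G.d i f ∈ J) → (J.comap ψ).IsPrime → G.Alt J := by
  obtain ⟨N, r, V, hN, V0, hV, htop⟩ := exists_tower G.lapL (by simp [Geo0.lapL, Geo0.Lap]) G.x c k
    y μ hy hx
  let t : R := algebraMap ℂ R (2 * h0)⁻¹
  have ht : t * (2 * algebraMap ℂ R h0) = 1 := by
    rw [← map_ofNat (algebraMap ℂ R) 2, ← map_mul, ← map_mul,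
      inv_mul_cancel₀ (mul_ne_zero two_ne_zero hh0), map_one]
  have hlin : ∀ u : Fin 4 → R, ip (fun a => t * qV G.Lap G.x a) u = t * ip (qV G.Lap G.x) u :=
    fun u => by simp only [ip, Finset.mul_sum, mul_assoc]
  have hc1 : qc G.Lap G.x = 4 * algebraMap ℂ R h0 ^ 2 := by
    rw [hc0, map_mul, map_pow, map_ofNat]
  obtain ⟨F, n1, n2, hFx, hFξ, hLap, hD1, hD2, hadj, hcomb⟩ := exists_NF G gi hgi
    (fun a => t * qV G.Lap G.x a)
    (by
      have h1 : ip (fun a => t * qV G.Lap G.x a) (fun a => t * qV G.Lap G.x a) =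
          t ^ 2 * qc G.Lap G.x := by
        simp only [qc, ip, Fin.sum_univ_four]
        ring
      rw [h1, hc1]
      linear_combination (t * (2 * algebraMap ℂ R h0) + 1) * ht)
    (by rw [hlin, G.qV_normal.1, mul_zero]) (fun i => by rw [hlin, G.qV_normal.2, mul_zero])
  have hL : F.Lap = G.Lap := funext hLap
  have hH : F.H = algebraMap ℂ R h0 := by
    have h1 := F.gram 0 0 0 1 0 0 0 1
    have h2 : ∀ a, F.ξ a = t * (2 * F.H * F.ξ a) := fun a => by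
      rw [← F.qV_eq, hL, hFx, hFξ]
    have h3 : ∑ a, F.ξ a * F.ξ a = t * (2 * F.H) * ∑ a, F.ξ a * F.ξ a := by
      rw [Finset.mul_sum]
      refine Finset.sum_congr rfl fun a _ => ?_
      linear_combination F.ξ a * h2 a
    simp only [zero_mul, zero_add, one_mul, mul_zero, mul_one] at h1
    rw [h1, mul_one] at h3
    linear_combination algebraMap ℂ R h0 * (-h3) - F.H * ht
  have h1 : F.D1 F.H = 0 := by rw [hH, Derivation.map_algebraMap]
  have h2 : F.D2 F.H = 0 := by rw [hH, Derivation.map_algebraMap]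
  obtain ⟨M, ψ, hψ⟩ := F.qp_const h0 hH hN r (fun m a => t * V m a)
    (by rw [hFξ, V0]; rfl)
    (fun m a => by
      rw [hV, hL]
      change _ = G.lapL _
      rw [← Algebra.smul_def, ← Algebra.smul_def, map_smul])
    (fun a => by
      simp only [htop, mul_neg, Finset.mul_sum]
      exact congrArg _ (Finset.sum_congr rfl fun j _ => by ring))
  refine ⟨M, ψ, fun J hJ hp => ?_⟩
  obtain ⟨c0, hc0⟩ := hψ J hp
  have hJ1 : ∀ f ∈ J, F.D1 f ∈ J := fun f hf => by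
    rw [hD1]
    exact J.sum_mem fun i _ => J.mul_mem_left _ (hJ i f hf)
  have hJ2 : ∀ f ∈ J, F.D2 f ∈ J := fun f hf => by
    rw [hD2]
    exact J.sum_mem fun i _ => J.mul_mem_left _ (hJ i f hf)
  have hd : ∀ f, F.D1 f ∈ J → F.D2 f ∈ J → ∀ i, G.d i f ∈ J := by
    intro f h1 h2 i
    obtain ⟨α, β, h⟩ := hcomb i
    rw [h]
    exact J.add_mem (J.mul_mem_left _ h1) (J.mul_mem_left _ h2)
  refine ⟨fun i => by rw [hc1, ← map_pow, ← map_ofNat (algebraMap ℂ R) 4, ← map_mul,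
    Derivation.map_algebraMap]; exact J.zero_mem, Or.inr ?_⟩
  unfold Geo0.Y
  rw [← hL, ← hFx]
  by_cases hc : c0 = 0
  · left
    rw [hc, map_zero, sub_zero] at hc0
    obtain ⟨u1, u2, u3⟩ := F.fin_umb J h1 h2 hc0
    refine ⟨u1, u2 ▸ J.zero_mem, ?_⟩
    convert J.mul_mem_left (G.δ ^ 2) u3 using 1
    rw [Finset.mul_sum]
    refine Finset.sum_congr rfl fun a _ => ?_
    have e2 : algebraMap ℂ R 2⁻¹ * 2 = 1 := by
      rw [← map_ofNat (algebraMap ℂ R) 2, ← map_mul]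
      simp
    have e : ∀ i j, G.adj i j = algebraMap ℂ R 2⁻¹ * G.δ ^ 2 * (n1 i * n2 j + n2 i * n1 j) := by
      intro i j
      rw [hadj]
      have h3 := G.hδ
      have : algebraMap ℂ R 2⁻¹ * G.δ ^ 2 * (2 * G.δi ^ 2 * G.adj i j) =
          (algebraMap ℂ R 2⁻¹ * 2) * (G.δ * G.δi) ^ 2 * G.adj i j := by ring
      rw [this, e2, h3]
      ring
    simp only [hD1, hD2, e, Fin.sum_univ_two]
    generalize qc F.Lap F.x = u, G.d 0 (qV F.Lap F.x a) = v0, G.d 1 (qV F.Lap F.x a) = v1,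
      G.d 0 (F.x a) = x0, G.d 1 (F.x a) = x1
    linear_combination G.δ ^ 2 * ((2 * (n1 0 * v0 + n1 1 * v1) + u * (n1 0 * x0 + n1 1 * x1)) *
      (2 * (n2 0 * v0 + n2 1 * v1) + u * (n2 0 * x0 + n2 1 * x1))) * e2
  · right
    obtain ⟨u1, u2, u3⟩ := F.fin_tor J h1 h2 hJ1 hJ2 c0 hc hc0
    exact ⟨u1, fun i a b => hd _ (u2 a b).1 (u2 a b).2 i, u3⟩

end Pool.Agent.Lib.MP_51f413_gt
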