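import Pool.Agent.Lib.MP_51f413_gt.Loc
import Pool.Agent.Lib.MP_51f413_gt.CGeo

/-!
The local alternatives for a finite type surface of constant mean curvature.
-/

namespace Pool.Agent.Lib.MP_51f413_gt

open scoped ContDiff

theorem exists_ralt_cmc {U : Set E} {x : E → Fin 4 → ℝ} (h : Imm U x) (hne : U.Nonempty)
    (c0 : ℝ) (hc0 : 0 < c0)
    (hcmc : ∀ p ∈ U, ∑ m : Fin 4, (LB x (fun q => x q m) p + 2 * x p m) ^ 2 = c0)
    (c : Fin 4 → ℝ) (k : ℕ) (y : Fin k → E → Fin 4 → ℝ) (μ : Fin k → ℝ)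
    (hy : ∀ i, ContDiffOn ℝ ∞ (y i) U)
    (hμ : ∀ i, ∀ p ∈ U, ∀ m : Fin 4, LB x (fun q => y i q m) p = μ i * y i p m)
    (hx : ∀ p ∈ U, x p = c + ∑ i, y i p) :
    ∃ W : Set E, IsOpen W ∧ W.Nonempty ∧ W ⊆ U ∧ RAlt x W := by
  obtain ⟨G, hd, hGx, hg, hL⟩ := exists_geo0 h
  have hne0 : ∀ p ∈ U, gm x p 0 0 ≠ 0 := fun p hp => (h.gm_pos hp).1.ne'
  obtain ⟨gi, hgi⟩ := Rep.exists_of_smooth ((hg 0 0).smooth.inv hne0)
  have hgi' : G.g 0 0 * gi = 1 :=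
    (((hg 0 0).mul hgi).congr fun p hp => mul_inv_cancel₀ (hne0 p hp)).unique Rep.one
  have hY : ∀ i a, ∃ F : Sm U, Rep F (fun q => y i q a) := fun i a =>
    Rep.exists_of_smooth (contDiffOn_pi.mp (hy i) a)
  choose Y hY using hY
  have hV : ∀ a, Rep (qV G.Lap G.x a) (qV (LB x) (cpt x) a) := fun a =>
    loc_add (hL _ _ (hGx a)) (loc_mul loc_two (hGx a))
  have hc : qc G.Lap G.x = algebraMap ℂ (Sm U) (4 * ((Real.sqrt c0 / 2 : ℝ) : ℂ) ^ 2) := by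
    have e : 4 * ((Real.sqrt c0 / 2 : ℝ) : ℂ) ^ 2 = (c0 : ℂ) := by
      have h1 : 4 * (Real.sqrt c0 / 2) ^ 2 = c0 := by
        rw [div_pow, Real.sq_sqrt hc0.le]
        ring
      exact_mod_cast h1
    rw [e]
    refine ((Rep.sum Finset.univ fun a _ => (hV a).mul (hV a)).congr fun p hp => ?_).unique
      (Rep.const c0)
    rw [← hcmc p hp]
    exact Finset.sum_congr rfl fun m _ => (sq _).symm
  obtain ⟨M, ψ, hψ⟩ := geo_cmc G gi hgi' _
    (Complex.ofReal_ne_zero.2 (div_pos (Real.sqrt_pos.2 hc0) two_pos).ne') hc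
    (fun a => (c a : ℂ)) k Y (fun i => (μ i : ℂ))
    (fun i a => by
      rw [Algebra.smul_def]
      exact ((hL _ _ (hY i a)).congr fun p hp => hμ i p hp a).unique
        ((Rep.const (μ i)).mul (hY i a)))
    (fun a => by
      refine (hGx a).unique (((Rep.const (c a)).add
        (Rep.sum Finset.univ fun i _ => hY i a)).congr fun p hp => ?_)
      simp only [cpt, hx p hp, Pi.add_apply, Finset.sum_apply])
  obtain ⟨W, hWo, hWn, hWs, hWp⟩ := exists_prime h.isOpen hne ψ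
  refine ⟨W, hWo, hWn, hWs, ralt_of_alt h G hd hGx hg hL W hWs (hψ _ ?_ hWp)⟩
  intro i f hf
  rw [hd]
  exact pd_mem_van h.isOpen hWo i f hf

end Pool.Agent.Lib.MP_51f413_gt
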