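import Pool.Agent.Lib.MP_51f413_gt.CLoc
import Pool.Agent.Lib.MP_51f413_gt.Main

/-!
Finite type surfaces of the three-sphere with constant mean curvature.
-/

namespace Pool.Agent.Lib.MP_51f413_gt

theorem cmc_main :
    ∀ (U : Set (Fin 2 → ℝ)) (x : (Fin 2 → ℝ) → Fin 4 → ℝ),
      IsOpen U → IsConnected U →
      ContDiffOn ℝ ((⊤ : ℕ∞) : WithTop ℕ∞) x U →
      (∀ p ∈ U, Function.Injective (fderiv ℝ x p)) →
      (∀ p ∈ U, ∑ m : Fin 4, x p m ^ 2 = 1) →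
      ∀ (g : (Fin 2 → ℝ) → Matrix (Fin 2) (Fin 2) ℝ),
      (∀ (p : Fin 2 → ℝ) (i j : Fin 2),
        g p i j = ∑ m : Fin 4,
          (fderiv ℝ x p (Pi.single i (1 : ℝ))) m * (fderiv ℝ x p (Pi.single j (1 : ℝ))) m) →
      ∀ (L : ((Fin 2 → ℝ) → ℝ) → (Fin 2 → ℝ) → ℝ),
      (∀ (f : (Fin 2 → ℝ) → ℝ) (p : Fin 2 → ℝ),
        L f p = (Real.sqrt (g p).det)⁻¹ *
          ∑ i : Fin 2, ∑ j : Fin 2,
            fderiv ℝ (fun q : Fin 2 → ℝ =>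
              Real.sqrt (g q).det * (g q)⁻¹ i j * fderiv ℝ f q (Pi.single j (1 : ℝ)))
              p (Pi.single i (1 : ℝ))) →
      (∃ (c : Fin 4 → ℝ) (k : ℕ) (y : Fin k → (Fin 2 → ℝ) → Fin 4 → ℝ) (μ : Fin k → ℝ),
        (∀ i, ContDiffOn ℝ ((⊤ : ℕ∞) : WithTop ℕ∞) (y i) U) ∧
        (∀ i, ∃ p ∈ U, ∃ q ∈ U, y i p ≠ y i q) ∧
        (∀ i, ∀ p ∈ U, ∀ m : Fin 4, L (fun q => y i q m) p = μ i * y i p m) ∧
        (∀ p ∈ U, x p = c + ∑ i, y i p)) →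
      (∃ c : ℝ, ∀ p ∈ U, ∑ m : Fin 4, (L (fun q => x q m) p + 2 * x p m) ^ 2 = c) →
      (∀ p ∈ U, ∀ m : Fin 4, L (fun q => x q m) p = -2 * x p m) ∨
      (∃ (a : Fin 4 → ℝ) (d : ℝ), a ≠ 0 ∧ ∀ p ∈ U, ∑ m : Fin 4, a m * x p m = d) ∨
      (∃ (a : ℝ) (u v : Fin 4 → ℝ), 0 < a ∧ a < 1 ∧
        ∑ m : Fin 4, u m ^ 2 = 1 ∧ ∑ m : Fin 4, v m ^ 2 = 1 ∧ ∑ m : Fin 4, u m * v m = 0 ∧
        ∀ p ∈ U, (∑ m : Fin 4, u m * x p m) ^ 2 + (∑ m : Fin 4, v m * x p m) ^ 2 = a ^ 2) := by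
  intro U x hU hc hx hinj hunit g hg L hL hft hK
  obtain ⟨c, k, y, μ, hy, -, hμ, hxy⟩ := hft
  obtain ⟨c0, hc0⟩ := hK
  have hg' : g = gm x := by
    funext p i j
    exact hg p i j
  have hL' : L = LB x := by
    funext f p
    rw [hL, hg']
    rfl
  subst hL'
  have h : Imm U x := ⟨hU, hx, hinj, hunit⟩
  obtain ⟨p0, hp0⟩ := hc.nonempty
  have hnn : 0 ≤ c0 := hc0 p0 hp0 ▸ Finset.sum_nonneg fun m _ => sq_nonneg _
  rcases hnn.eq_or_lt with rfl | hpos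
  · refine Or.inl fun p hp m => ?_
    have h1 := hc0 p hp
    rw [Finset.sum_eq_zero_iff_of_nonneg fun a _ => sq_nonneg _] at h1
    have h2 := pow_eq_zero_iff two_ne_zero |>.1 (h1 m (Finset.mem_univ m))
    linarith
  refine glue h hc ?_
  intro W0 ho hne hWU
  exact exists_ralt_cmc (h.mono ho hWU) hne c0 hpos (fun p hp => hc0 p (hWU hp)) c k y μ
    (fun i => (hy i).mono hWU) (fun i p hp => hμ i p (hWU hp)) (fun p hp => hxy p (hWU hp))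

end Pool.Agent.Lib.MP_51f413_gt
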