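import Mathlib

/-!
The universal differential ring of a surface of constant mean curvature.
-/

namespace Pool.Agent.Lib.MP_51f413_gt

open MvPolynomial

section Ops

variable {R : Type} [CommRing R] [Algebra ℂ R]

/-- Covariant derivative of a vector along the first null direction. -/
def N1 (d : Derivation ℂ R R) (h e q : R) (F : Fin 4 → R) : Fin 4 → R :=
  ![d (F 0) - 2 * e * F 2, d (F 1) + e * F 0 - h * F 3, d (F 2) - q * F 3,
    d (F 3) + 2 * q * F 1 + 2 * h * F 2]

/-- Covariant derivative of a vector along the second null direction. -/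
def N2 (d : Derivation ℂ R R) (h e p : R) (F : Fin 4 → R) : Fin 4 → R :=
  ![d (F 0) - 2 * e * F 1, d (F 1) - p * F 3, d (F 2) + e * F 0 - h * F 3,
    d (F 3) + 2 * h * F 1 + 2 * p * F 2]

end Ops

/-- The variables: `h1, h2, e1, e2`, the jets `q i` and the jets `p j`. -/
abbrev CI : Type := Fin 4 ⊕ (ℕ ⊕ ℕ)

/-- The universal ring. -/
abbrev CP : Type := MvPolynomial CI ℂ

/-- A point with the given coordinates. -/
def cpoint {R : Type} (h1 h2 e1 e2 : R) (q p : ℕ → R) : CI → R :=
  Sum.elim ![h1, h2, e1, e2] (Sum.elim q p)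

noncomputable section

/-- Mean curvature, first copy. -/
def ch1 : CP := X (Sum.inl 0)
/-- Mean curvature, second copy. -/
def ch2 : CP := X (Sum.inl 1)
/-- Curvature scale of the sphere, first copy. -/
def ce1 : CP := X (Sum.inl 2)
/-- Curvature scale of the sphere, second copy. -/
def ce2 : CP := X (Sum.inl 3)
/-- Jets of the Hopf differential. -/
def cq (i : ℕ) : CP := X (Sum.inr (Sum.inl i))
/-- Jets of the conjugate Hopf differential. -/
def cp (j : ℕ) : CP := X (Sum.inr (Sum.inr j))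

/-- The Gauss curvature. -/
def cK : CP := ce1 * ce2 + ch1 * ch2 - cq 0 * cp 0

/-- Shift of the jets `q`. -/
def aux1 : Derivation ℂ CP CP := mkDerivation ℂ (cpoint 0 0 0 0 (fun i => cq (i + 1)) (fun _ => 0))

/-- Shift of the jets `p`. -/
def aux2 : Derivation ℂ CP CP := mkDerivation ℂ (cpoint 0 0 0 0 (fun _ => 0) (fun j => cp (j + 1)))

/-- The second derivative of the jets `q`. -/
def cb : ℕ → CP
  | 0 => 0
  | i + 1 => aux1 (cb i) + 2 * ((i : CP) + 2) * cK * cq i

/-- The first derivative of the jets `p`. -/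
def ca : ℕ → CP
  | 0 => 0
  | j + 1 => aux2 (ca j) + 2 * ((j : CP) + 2) * cK * cp j

/-- The first derivation. -/
def cd1 : Derivation ℂ CP CP := mkDerivation ℂ (cpoint 0 0 0 0 (fun i => cq (i + 1)) ca)

/-- The second derivation. -/
def cd2 : Derivation ℂ CP CP := mkDerivation ℂ (cpoint 0 0 0 0 cb (fun j => cp (j + 1)))

/-- The charge derivation. -/
def cE : Derivation ℂ CP CP :=
  mkDerivation ℂ (cpoint 0 0 0 0 (fun i => ((i : CP) + 2) * cq i) (fun j => -(((j : CP) + 2) * cp j)))

/-- The covariant derivatives on vectors. -/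
def cN (b : Bool) (F : Fin 4 → CP) : Fin 4 → CP :=
  if b then N1 cd1 ch1 ce1 (cq 0) F else N2 cd2 ch2 ce2 (cp 0) F

/-- The iterated Laplacians of the unit normal. -/
def cV : ℕ → Fin 4 → CP
  | 0 => ![0, 0, 0, 1]
  | m + 1 => cN true (cN false (cV m))

/-- The finite type equation. -/
def cW (N : ℕ) (r : ℕ → ℂ) : Fin 4 → CP := fun c =>
  cV N c + ∑ j ∈ Finset.range N, algebraMap ℂ CP (r j) * (ce1 * ce2) ^ (N - j) * cV j c

/-- The derivatives of the finite type equation. -/
def Rel (N : ℕ) (r : ℕ → ℂ) (w : List Bool) : Fin 4 → CP := w.foldr cN (cW N r)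

/-- The derivatives of the first null vector along itself. -/
def cT : ℕ → Fin 4 → CP
  | 0 => ![0, 1, 0, 0]
  | n + 1 => cN true (cT n)

end

@[simp] theorem cd1_h1 : cd1 ch1 = 0 := by simp [cd1, ch1, mkDerivation_X, cpoint]
@[simp] theorem cd1_h2 : cd1 ch2 = 0 := by simp [cd1, ch2, mkDerivation_X, cpoint]
@[simp] theorem cd1_e1 : cd1 ce1 = 0 := by simp [cd1, ce1, mkDerivation_X, cpoint]
@[simp] theorem cd1_e2 : cd1 ce2 = 0 := by simp [cd1, ce2, mkDerivation_X, cpoint]
@[simp] theorem cd1_q (i : ℕ) : cd1 (cq i) = cq (i + 1) := by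
  simp [cd1, cq, mkDerivation_X, cpoint]
theorem cd1_p (j : ℕ) : cd1 (cp j) = ca j := by simp [cd1, cp, mkDerivation_X, cpoint]
@[simp] theorem cd2_h1 : cd2 ch1 = 0 := by simp [cd2, ch1, mkDerivation_X, cpoint]
@[simp] theorem cd2_h2 : cd2 ch2 = 0 := by simp [cd2, ch2, mkDerivation_X, cpoint]
@[simp] theorem cd2_e1 : cd2 ce1 = 0 := by simp [cd2, ce1, mkDerivation_X, cpoint]
@[simp] theorem cd2_e2 : cd2 ce2 = 0 := by simp [cd2, ce2, mkDerivation_X, cpoint]
@[simp] theorem cd2_p (j : ℕ) : cd2 (cp j) = cp (j + 1) := by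
  simp [cd2, cp, mkDerivation_X, cpoint]
theorem cd2_q (i : ℕ) : cd2 (cq i) = cb i := by simp [cd2, cq, mkDerivation_X, cpoint]
@[simp] theorem cE_h1 : cE ch1 = 0 := by simp [cE, ch1, mkDerivation_X, cpoint]
@[simp] theorem cE_h2 : cE ch2 = 0 := by simp [cE, ch2, mkDerivation_X, cpoint]
@[simp] theorem cE_e1 : cE ce1 = 0 := by simp [cE, ce1, mkDerivation_X, cpoint]
@[simp] theorem cE_e2 : cE ce2 = 0 := by simp [cE, ce2, mkDerivation_X, cpoint]
@[simp] theorem cE_q (i : ℕ) : cE (cq i) = ((i : CP) + 2) * cq i := by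
  simp [cE, cq, mkDerivation_X, cpoint]
@[simp] theorem cE_p (j : ℕ) : cE (cp j) = -(((j : CP) + 2) * cp j) := by
  simp [cE, cp, mkDerivation_X, cpoint]
@[simp] theorem cd1_p0 : cd1 (cp 0) = 0 := cd1_p 0
@[simp] theorem cd2_q0 : cd2 (cq 0) = 0 := cd2_q 0

/-- Every variable is one of the named ones. -/
theorem ci_cases (P : CP → Prop) (h1 : P ch1) (h2 : P ch2) (h3 : P ce1) (h4 : P ce2)
    (hq : ∀ i, P (cq i)) (hp : ∀ j, P (cp j)) (i : CI) : P (X i) := by
  rcases i with i | i | j
  · fin_cases i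
    exacts [h1, h2, h3, h4]
  · exact hq i
  · exact hp j

/-- Two derivations agree on a subalgebra generated by elements on which they agree. -/
theorem deriv_eq_on_adjoin (D D' : Derivation ℂ CP CP) (s : Set CP) (h : ∀ f ∈ s, D f = D' f)
    (f : CP) (hf : f ∈ Algebra.adjoin ℂ s) : D f = D' f := by
  induction hf using Algebra.adjoin_induction with
  | mem f hf => exact h f hf
  | algebraMap c => simp
  | add f g _ _ hf hg => simp [hf, hg]
  | mul f g _ _ hf hg => simp [hf, hg]

theorem deriv_mem_adjoin (D : Derivation ℂ CP CP) (s : Set CP)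
    (h : ∀ f ∈ s, D f ∈ Algebra.adjoin ℂ s) (f : CP) (hf : f ∈ Algebra.adjoin ℂ s) :
    D f ∈ Algebra.adjoin ℂ s := by
  induction hf using Algebra.adjoin_induction with
  | mem f hf => exact h f hf
  | algebraMap c => simp
  | add f g _ _ hf hg => simpa using add_mem hf hg
  | mul f g hf' hg' hf hg => simpa using add_mem (mul_mem hf' hg) (mul_mem hg' hf)

theorem cd1_cb (i : ℕ) : cd1 (cb i) = aux1 (cb i) := by
  let s : Set CP := {ch1, ch2, ce1, ce2, cp 0} ∪ Set.range cq
  have hq : ∀ i, cq i ∈ Algebra.adjoin ℂ s := fun i =>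
    Algebra.subset_adjoin (Or.inr ⟨i, rfl⟩)
  have hag : ∀ f ∈ s, cd1 f = aux1 f := by
    rintro f (hf | ⟨i, rfl⟩)
    · simp only [Set.mem_insert_iff, Set.mem_singleton_iff] at hf
      rcases hf with rfl | rfl | rfl | rfl | rfl <;>
        simp [aux1, ch1, ch2, ce1, ce2, cp, cd1, ca, mkDerivation_X, cpoint]
    · simp [aux1, cq, cd1, mkDerivation_X, cpoint]
  have hst : ∀ f ∈ s, aux1 f ∈ Algebra.adjoin ℂ s := by
    intro f hf
    rw [← hag f hf]
    rcases hf with hf | ⟨i, rfl⟩
    · simp only [Set.mem_insert_iff, Set.mem_singleton_iff] at hf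
      rcases hf with rfl | rfl | rfl | rfl | rfl <;> simp
    · simpa using hq (i + 1)
  have hK : cK ∈ Algebra.adjoin ℂ s :=
    sub_mem (add_mem (mul_mem (Algebra.subset_adjoin (by simp [s]))
      (Algebra.subset_adjoin (by simp [s]))) (mul_mem (Algebra.subset_adjoin (by simp [s]))
      (Algebra.subset_adjoin (by simp [s])))) (mul_mem (hq 0) (Algebra.subset_adjoin (by simp [s])))
  refine deriv_eq_on_adjoin _ _ s hag _ ?_
  induction i with
  | zero => exact zero_mem _
  | succ i ih =>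
    exact add_mem (deriv_mem_adjoin _ s hst _ ih) (mul_mem (mul_mem (mul_mem (ofNat_mem _ 2)
      (add_mem (natCast_mem _ i) (ofNat_mem _ 2))) hK) (hq i))

theorem cd2_ca (j : ℕ) : cd2 (ca j) = aux2 (ca j) := by
  let s : Set CP := {ch1, ch2, ce1, ce2, cq 0} ∪ Set.range cp
  have hq : ∀ i, cp i ∈ Algebra.adjoin ℂ s := fun i =>
    Algebra.subset_adjoin (Or.inr ⟨i, rfl⟩)
  have hag : ∀ f ∈ s, cd2 f = aux2 f := by
    rintro f (hf | ⟨i, rfl⟩)
    · simp only [Set.mem_insert_iff, Set.mem_singleton_iff] at hf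
      rcases hf with rfl | rfl | rfl | rfl | rfl <;>
        simp [aux2, ch1, ch2, ce1, ce2, cq, cd2, cb, mkDerivation_X, cpoint]
    · simp [aux2, cp, cd2, mkDerivation_X, cpoint]
  have hst : ∀ f ∈ s, aux2 f ∈ Algebra.adjoin ℂ s := by
    intro f hf
    rw [← hag f hf]
    rcases hf with hf | ⟨i, rfl⟩
    · simp only [Set.mem_insert_iff, Set.mem_singleton_iff] at hf
      rcases hf with rfl | rfl | rfl | rfl | rfl <;> simp
    · simpa using hq (i + 1)
  have hK : cK ∈ Algebra.adjoin ℂ s :=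
    sub_mem (add_mem (mul_mem (Algebra.subset_adjoin (by simp [s]))
      (Algebra.subset_adjoin (by simp [s]))) (mul_mem (Algebra.subset_adjoin (by simp [s]))
      (Algebra.subset_adjoin (by simp [s])))) (mul_mem (Algebra.subset_adjoin (by simp [s])) (hq 0))
  refine deriv_eq_on_adjoin _ _ s hag _ ?_
  induction j with
  | zero => exact zero_mem _
  | succ i ih =>
    exact add_mem (deriv_mem_adjoin _ s hst _ ih) (mul_mem (mul_mem (mul_mem (ofNat_mem _ 2)
      (add_mem (natCast_mem _ i) (ofNat_mem _ 2))) hK) (hq i))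

theorem cb_succ (i : ℕ) : cb (i + 1) = cd1 (cb i) + 2 * ((i : CP) + 2) * cK * cq i := by
  rw [cd1_cb]; rfl

theorem ca_succ (j : ℕ) : ca (j + 1) = cd2 (ca j) + 2 * ((j : CP) + 2) * cK * cp j := by
  rw [cd2_ca]; rfl

/-- The commutator of the two derivations is the curvature times the charge. -/
theorem c_comm (f : CP) : cd2 (cd1 f) - cd1 (cd2 f) = 2 * cK * cE f := by
  induction f using MvPolynomial.induction_on with
  | C c => simp [← algebraMap_eq]
  | add f g hf hg => simp only [map_add]; linear_combination hf + hg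
  | mul_X f i hf =>
    have hX : cd2 (cd1 (X i)) - cd1 (cd2 (X i)) = 2 * cK * cE (X i) := by
      refine ci_cases (fun g => cd2 (cd1 g) - cd1 (cd2 g) = 2 * cK * cE g) (by simp) (by simp)
        (by simp) (by simp) (fun i => ?_) (fun j => ?_) i
      · simp only [cd1_q, cd2_q, cE_q, cb_succ]; ring
      · simp only [cd2_p, cd1_p, cE_p, ca_succ]; ring
    simp only [Derivation.leibniz, map_add, smul_eq_mul]
    linear_combination f * hX + X i * hf

end Pool.Agent.Lib.MP_51f413_gt
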