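import Pool.Agent.Lib.MP_51f413_gt.Wt

/-!
The centre of a valuation and the dichotomy for Darboux elements.
-/

namespace Pool.Agent.Lib.MP_51f413_gt

open MvPolynomial

variable {ι : Type} [Fintype ι] {w : ι → ℕ}
  {D : Derivation ℂ (MvPolynomial ι ℂ) (MvPolynomial ι ℂ)}

/-- A valuation extends along a field embedding. -/
theorem centre_ext {K L : Type} [Field K] [Field L] (φ : K →+* L) (V : ValuationSubring K) :
    ∃ V' : ValuationSubring L, V.valuation.IsEquiv (V'.valuation.comap φ) := by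
  obtain ⟨A, h, hl⟩ := IsLocalRing.exists_factor_valuationRing (φ.comp V.subtype)
  refine ⟨A, Valuation.isEquiv_iff_val_le_one.mpr fun {x} => ?_⟩
  rw [Valuation.comap_apply, V.valuation_le_one_iff, A.valuation_le_one_iff]
  constructor
  · intro hx
    exact h ⟨x, hx⟩
  · intro hx
    by_contra hn
    have hx0 : x ≠ 0 := by
      rintro rfl
      exact hn V.zero_mem
    have hi : x⁻¹ ∈ V := (V.mem_or_inv_mem x).resolve_left hn
    have hu : IsUnit ((φ.comp V.subtype).codRestrict A.toSubring h ⟨x⁻¹, hi⟩) := by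
      refine isUnit_iff_exists_inv.mpr ⟨⟨φ x, hx⟩, Subtype.ext ?_⟩
      show φ x⁻¹ * φ x = 1
      rw [← map_mul, inv_mul_cancel₀ hx0, map_one]
    obtain ⟨x', hx'⟩ := isUnit_iff_exists_inv.mp (hl.1 _ hu)
    have h1 : x⁻¹ * (x' : K) = 1 := congrArg Subtype.val hx'
    have h2 : (x' : K) = x := by
      rw [inv_mul_eq_one₀ hx0] at h1
      exact h1.symm
    exact hn (h2 ▸ x'.2)

omit [Fintype ι] in
/-- Evaluation at a rescaled point. -/
theorem centre_scale {L : Type} [CommRing L] [Algebra ℂ L] (w : ι → ℕ) (z : ι → L) (t : L)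
    (f : MvPolynomial ι ℂ) :
    aeval (fun i => z i * t ^ w i) f
      = (sc w f).eval₂ (aeval z : MvPolynomial ι ℂ →ₐ[ℂ] L).toRingHom t := by
  induction f using MvPolynomial.induction_on with
  | C a =>
    have h1 : sc w (C a) = Polynomial.C (C a) := by
      rw [sc, aeval_C]
      rfl
    rw [h1, Polynomial.eval₂_C, aeval_C]
    exact (aeval_C z a).symm
  | add f g hf hg => rw [map_add, map_add, Polynomial.eval₂_add, hf, hg]
  | mul_X f i hf =>
    have h1 : sc w (X i) = Polynomial.monomial (w i) (X i) := by rw [sc, aeval_X]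
    rw [map_mul, map_mul, Polynomial.eval₂_mul, hf, h1, Polynomial.eval₂_monomial, aeval_X]
    congr 2
    exact (aeval_X z i).symm

/-- The function field of a differential prime. -/
theorem centre_field {q : Ideal (MvPolynomial ι ℂ)} (hq : HD w D q) :
    ∃ (K : Type) (_ : Field K) (_ : Algebra ℂ K) (x : ι → K) (d : Derivation ℂ K K),
      (∀ f, aeval x f = 0 ↔ f ∈ q) ∧ ∀ f, d (aeval x f) = aeval x (D f) := by
  haveI := hq.prime
  obtain ⟨d₁, hd₁⟩ := exists_quot_deriv D q hq.stab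
  obtain ⟨d₂, hd₂⟩ := exists_loc_deriv (S := FractionRing (MvPolynomial ι ℂ ⧸ q))
    (nonZeroDivisors (MvPolynomial ι ℂ ⧸ q)) d₁
  have hx : ∀ f : MvPolynomial ι ℂ,
      aeval (fun i => algebraMap (MvPolynomial ι ℂ ⧸ q) (FractionRing (MvPolynomial ι ℂ ⧸ q))
        (Ideal.Quotient.mk q (X i))) f
      = algebraMap (MvPolynomial ι ℂ ⧸ q) (FractionRing (MvPolynomial ι ℂ ⧸ q))
        (Ideal.Quotient.mk q f) := by
    intro f
    induction f using MvPolynomial.induction_on with
    | C a =>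
      rw [aeval_C, IsScalarTower.algebraMap_apply ℂ (MvPolynomial ι ℂ ⧸ q)
        (FractionRing (MvPolynomial ι ℂ ⧸ q))]
      rfl
    | add f g hf hg => rw [map_add, map_add, map_add, hf, hg]
    | mul_X f i hf => rw [map_mul, map_mul, map_mul, hf, aeval_X]
  refine ⟨FractionRing (MvPolynomial ι ℂ ⧸ q), inferInstance, inferInstance,
    fun i => algebraMap (MvPolynomial ι ℂ ⧸ q) _ (Ideal.Quotient.mk q (X i)), d₂, fun f => ?_,
    fun f => ?_⟩
  · rw [hx, map_eq_zero_iff _ (IsFractionRing.injective _ _), Ideal.Quotient.eq_zero_iff_mem]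
  · rw [hx, hx, hd₂, hd₁]

theorem centre_deriv_pow {K : Type} [CommRing K] [Algebra ℂ K] (d : Derivation ℂ K K) {a g : K}
    (h : d a = g * a) (n : ℕ) : d (a ^ n) = n * g * a ^ n := by
  induction n with
  | zero => simp
  | succ n ih =>
    rw [pow_succ, d.leibniz, ih, h, smul_eq_mul, smul_eq_mul]
    push_cast
    ring

/-- The centre of a valuation on the weighted projective space. -/
theorem exists_centre (hw : ∀ i, 0 < w i) {K : Type} [Field K] [Algebra ℂ K] (x : ι → K)
    (hx : ∃ i, x i ≠ 0) (V : ValuationSubring K) (hV : ∀ c : ℂ, algebraMap ℂ K c ∈ V) :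
    ∃ (p : Ideal (MvPolynomial ι ℂ)) (i0 : ι), p.IsPrime ∧ x i0 ≠ 0 ∧
      (∀ I, IsH w I → (∀ f ∈ I, aeval x f = 0) → I ≤ p) ∧
      ∀ j f, Hom w j f →
        V.valuation (aeval x f) ^ w i0 ≤ V.valuation (x i0) ^ j ∧
        (f ∈ p ↔ V.valuation (aeval x f) ^ w i0 < V.valuation (x i0) ^ j) := by
  classical
  obtain ⟨i₁, hi₁⟩ := hx
  obtain ⟨V', hV'⟩ := centre_ext (algebraMap K (AlgebraicClosure K)) V
  have hν : ∀ i, ∃ ν : AlgebraicClosure K, ν ^ w i = algebraMap K (AlgebraicClosure K) (x i) :=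
    fun i => IsAlgClosed.exists_pow_nat_eq _ (hw i)
  choose ν hν using hν
  obtain ⟨i0, -, hi0⟩ := Finset.exists_max_image Finset.univ (fun i => V'.valuation (ν i))
    ⟨i₁, Finset.mem_univ _⟩
  have hν₁ : ν i₁ ≠ 0 := fun h => by
    have h1 := hν i₁
    rw [h, zero_pow (hw i₁).ne', eq_comm, map_eq_zero] at h1
    exact hi₁ h1
  have hμ : 0 < V'.valuation (ν i0) :=
    lt_of_lt_of_le ((Valuation.pos_iff _).mpr hν₁) (hi0 i₁ (Finset.mem_univ _))
  have hμ0 : ν i0 ≠ 0 := (Valuation.pos_iff _).mp hμ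
  have hx0 : x i0 ≠ 0 := fun h => by
    have h1 := hν i0
    rw [h, map_zero] at h1
    exact hμ0 (pow_eq_zero_iff (hw i0).ne' |>.mp h1)
  set y : ι → AlgebraicClosure K :=
    fun i => algebraMap K (AlgebraicClosure K) (x i) * (ν i0)⁻¹ ^ w i with hy
  have hyV : ∀ i, y i ∈ V' := fun i => by
    rw [← V'.valuation_le_one_iff]
    show V'.valuation (algebraMap K (AlgebraicClosure K) (x i) * (ν i0)⁻¹ ^ w i) ≤ 1
    rw [← hν i, ← mul_pow, map_pow, map_mul, map_inv₀]
    exact pow_le_one₀ zero_le' (mul_inv_le_one_of_le₀ (hi0 i (Finset.mem_univ _)) zero_le')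
  have hfV : ∀ f : MvPolynomial ι ℂ, aeval y f ∈ V' := fun f => by
    induction f using MvPolynomial.induction_on with
    | C a =>
      rw [aeval_C, IsScalarTower.algebraMap_apply ℂ K (AlgebraicClosure K),
        ← V'.valuation_le_one_iff]
      have h1 := (Valuation.isEquiv_iff_val_le_one.mp hV' (x := algebraMap ℂ K a)).mp
        ((V.valuation_le_one_iff _).mpr (hV a))
      exact h1
    | add f g hf hg =>
      rw [map_add]
      exact V'.add_mem _ _ hf hg
    | mul_X f i hf =>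
      rw [map_mul, aeval_X]
      exact V'.mul_mem _ _ hf (hyV i)
  let ψ : MvPolynomial ι ℂ →+* V' :=
    (aeval y : MvPolynomial ι ℂ →ₐ[ℂ] AlgebraicClosure K).toRingHom.codRestrict V' hfV
  have hp : ∀ f, f ∈ Ideal.comap ψ (IsLocalRing.maximalIdeal V') ↔ V'.valuation (aeval y f) < 1 :=
    fun f => by
      rw [Ideal.mem_comap, V'.valuation_lt_one_iff]
      rfl
  have hz : ∀ f : MvPolynomial ι ℂ, aeval (fun i => algebraMap K (AlgebraicClosure K) (x i)) f
      = algebraMap K (AlgebraicClosure K) (aeval x f) := fun f =>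
    MvPolynomial.aeval_algebraMap_apply (AlgebraicClosure K) x f
  refine ⟨Ideal.comap ψ (IsLocalRing.maximalIdeal V'), i0, Ideal.IsPrime.comap ψ, hx0, ?_, ?_⟩
  · intro I hI hIx f hf
    rw [hp, hy, centre_scale, Polynomial.eval₂_eq_sum, Polynomial.sum_def, Finset.sum_eq_zero]
    · simp
    · intro j _
      have h1 : (aeval (fun i => algebraMap K (AlgebraicClosure K) (x i)) :
          MvPolynomial ι ℂ →ₐ[ℂ] AlgebraicClosure K).toRingHom ((sc w f).coeff j) = 0 := by
        show aeval (fun i => algebraMap K (AlgebraicClosure K) (x i)) ((sc w f).coeff j) = 0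
        rw [hz, hIx _ (hI f hf j), map_zero]
      rw [h1, zero_mul]
  · intro j f hf
    have h1 : aeval y f = algebraMap K (AlgebraicClosure K) (aeval x f) * (ν i0)⁻¹ ^ j := by
      rw [hy, centre_scale, hf, Polynomial.eval₂_monomial]
      congr 1
      exact hz f
    have h2 : V'.valuation (aeval y f)
        = V'.valuation (algebraMap K (AlgebraicClosure K) (aeval x f))
          / V'.valuation (ν i0) ^ j := by
      rw [h1, map_mul, map_pow, map_inv₀, inv_pow, div_eq_mul_inv]
    have h3 : 0 < V'.valuation (ν i0) ^ j := pow_pos hμ j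
    have h4 : (V'.valuation.comap (algebraMap K (AlgebraicClosure K))) (aeval x f ^ w i0)
        = V'.valuation (algebraMap K (AlgebraicClosure K) (aeval x f)) ^ w i0 := by
      rw [Valuation.comap_apply, map_pow, map_pow]
    have h5 : (V'.valuation.comap (algebraMap K (AlgebraicClosure K))) (x i0 ^ j)
        = (V'.valuation (ν i0) ^ j) ^ w i0 := by
      rw [Valuation.comap_apply, map_pow, ← hν i0, map_pow, map_pow, ← pow_mul, ← pow_mul, mul_comm]
    rw [hp, ← map_pow V.valuation, ← map_pow V.valuation, hV'.le_iff_le, hV'.lt_iff_lt, h4, h5,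
      pow_le_pow_iff_left₀ zero_le' zero_le' (hw i0).ne',
      pow_lt_pow_iff_left₀ zero_le' zero_le' (hw i0).ne', h2, div_lt_one₀ h3]
    refine ⟨?_, Iff.rfl⟩
    have h6 := (V'.valuation_le_one_iff _).mpr (hfV f)
    rwa [h2, div_le_one₀ h3] at h6

/-- Dichotomy: a homogeneous Darboux element either cuts out a bigger relevant homogeneous
differential prime, or the derivation is a multiple of the Euler derivation. -/
theorem dichotomy (hw : ∀ i, 0 < w i) {q : Ideal (MvPolynomial ι ℂ)} (hq : HD w D q) {j : ℕ}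
    (hj : 0 < j) {π g : MvPolynomial ι ℂ} (hπ : Hom w j π) (hg : D π - g * π ∈ q) (hπq : π ∉ q) :
    (∃ q', HD w D q' ∧ q ≤ q' ∧ π ∈ q' ∧ ∃ i, MvPolynomial.X i ∉ q') ∨
      ∀ i, (j : MvPolynomial ι ℂ) * D (MvPolynomial.X i) - (w i : MvPolynomial ι ℂ) * g *
        MvPolynomial.X i ∈ q := by
  obtain ⟨K, _, _, x, d, hx, hd⟩ := centre_field hq
  have hπ0 : aeval x π ≠ 0 := fun h => hπq ((hx π).mp h)
  have hdπ : d (aeval x π) = aeval x g * aeval x π := by
    have h1 := (hx _).mpr hg
    rw [map_sub, map_mul, sub_eq_zero] at h1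
    rw [hd, h1]
  by_cases halg : ∀ i, IsAlgebraic (⊥ : IntermediateField ℂ K) (x i ^ j / aeval x π ^ w i)
  · right
    intro i
    have h1 : d (x i ^ j / aeval x π ^ w i) = 0 := by
      refine deriv_eq_zero_of_isAlgebraic d ⊥ (fun f hf => ?_) _ (halg i)
      obtain ⟨c, rfl⟩ := IntermediateField.mem_bot.mp hf
      exact d.map_algebraMap c
    have h2 : x i ^ j = x i ^ j / aeval x π ^ w i * aeval x π ^ w i :=
      (div_mul_cancel₀ _ (pow_ne_zero _ hπ0)).symm
    have h3 : d (x i ^ j) = w i * aeval x g * x i ^ j := by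
      conv_lhs => rw [h2]
      rw [d.leibniz, h1, centre_deriv_pow d hdπ, smul_zero, add_zero, smul_eq_mul]
      conv_rhs => rw [h2]
      ring
    have h4 : aeval x (D (X i)) = d (x i) := by rw [← hd, aeval_X]
    rw [← hx, map_sub, map_mul, map_mul, map_mul, map_natCast, map_natCast, aeval_X, h4]
    by_cases hxi : x i = 0
    · rw [hxi, map_zero, mul_zero, mul_zero, sub_zero]
    · obtain ⟨j', rfl⟩ : ∃ j', j = j' + 1 := ⟨j - 1, by omega⟩
      rw [d.leibniz_pow, Nat.add_sub_cancel, nsmul_eq_mul, smul_eq_mul] at h3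
      apply mul_left_cancel₀ (pow_ne_zero j' hxi)
      rw [pow_succ] at h3
      linear_combination h3
  · left
    push Not at halg
    obtain ⟨i, hi⟩ := halg
    obtain ⟨V, hV, hyV⟩ := exists_valuation_pole ⊥ _ hi
    have hxi : x i ≠ 0 := fun h => hyV (by
      rw [h, zero_pow hj.ne', zero_div]
      exact V.zero_mem)
    obtain ⟨p, i0, hp, -, hI, hH⟩ := exists_centre hw x ⟨i, hxi⟩ V
      fun c => hV _ (IntermediateField.mem_bot.mpr ⟨c, rfl⟩)
    have hqp : q ≤ p := hI q hq.hom fun f hf => (hx f).mpr hf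
    have h1 : V.valuation (aeval x π) ^ w i < V.valuation (x i) ^ j := by
      rw [← V.valuation_le_one_iff, not_le, map_div₀, map_pow, map_pow,
        one_lt_div₀ (pow_pos ((Valuation.pos_iff _).mpr hπ0) _)] at hyV
      exact hyV
    have h2 : V.valuation (x i) ^ w i0 ≤ V.valuation (x i0) ^ w i := by
      have h3 := (hH _ _ (Hom.X i)).1
      rwa [aeval_X] at h3
    have hπp : π ∈ p := by
      rw [(hH _ _ hπ).2]
      refine lt_of_pow_lt_pow_left₀ (w i) zero_le' ?_
      calc (V.valuation (aeval x π) ^ w i0) ^ w i = (V.valuation (aeval x π) ^ w i) ^ w i0 := by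
            rw [← pow_mul, ← pow_mul, mul_comm]
        _ < (V.valuation (x i) ^ j) ^ w i0 := pow_lt_pow_left₀ h1 zero_le' (hw i0).ne'
        _ = (V.valuation (x i) ^ w i0) ^ j := by rw [← pow_mul, ← pow_mul, mul_comm]
        _ ≤ (V.valuation (x i0) ^ w i) ^ j := pow_le_pow_left₀ zero_le' h2 j
        _ = (V.valuation (x i0) ^ j) ^ w i := by rw [← pow_mul, ← pow_mul, mul_comm]
    obtain ⟨q', hq', hqq', hπq', hq'p⟩ := exists_hd_step hq hπ hg p hp hqp hπp
    refine ⟨q', hq', hqq', hπq', i0, fun h => ?_⟩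
    have h3 := ((hH _ _ (Hom.X i0)).2).mp (hq'p h)
    rw [aeval_X] at h3
    exact lt_irrefl _ h3

end Pool.Agent.Lib.MP_51f413_gt
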