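import Pool.Agent.Lib.MP_51f413_gt.Geo

/-!
Conformal coordinates adapted to a Killing field.
-/

namespace Pool.Agent.Lib.MP_51f413_gt

variable {R : Type} [CommRing R] [Algebra ℂ R]

omit [Algebra ℂ R] in
theorem conf_ip_comm (u v : Fin 4 → R) : ip u v = ip v u := by
  simp only [ip, mul_comm]

omit [Algebra ℂ R] in
theorem conf_ip_lin (p q : R) (u v w : Fin 4 → R) :
    ip (fun a => p * u a + q * v a) w = p * ip u w + q * ip v w := by
  simp only [ip, Fin.sum_univ_four]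
  ring

theorem conf_der_ip (D : Derivation ℂ R R) (u v : Fin 4 → R) :
    D (ip u v) = ip (dv D u) v + ip u (dv D v) := by
  simp only [ip, dv, Fin.sum_univ_four, map_add, Derivation.leibniz, smul_eq_mul]
  ring

theorem conf_dv_Xv (D : Derivation ℂ R R) (X : Matrix (Fin 4) (Fin 4) ℂ) (u : Fin 4 → R) :
    dv D (Xv X u) = Xv X (dv D u) := by
  funext a
  simp only [dv, Xv, map_sum, Derivation.leibniz, Derivation.map_algebraMap, smul_eq_mul,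
    mul_zero, add_zero]

theorem conf_skew {X : Matrix (Fin 4) (Fin 4) ℂ} (h : ∀ a c, X a c = -X c a) (u w : Fin 4 → R) :
    ip (Xv X u) w = -ip u (Xv X w) := by
  simp only [ip, Xv, Finset.sum_mul, Finset.mul_sum, ← Finset.sum_neg_distrib]
  rw [Finset.sum_comm]
  refine Finset.sum_congr rfl fun a _ => Finset.sum_congr rfl fun c _ => ?_
  rw [h c a, map_neg]
  ring

theorem conf_two {y : R} (h : 2 * y = 0) : y = 0 := by
  have k : algebraMap ℂ R (1 / 2) * 2 = 1 := by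
    rw [← map_ofNat (algebraMap ℂ R) 2, ← map_mul]
    norm_num
  linear_combination algebraMap ℂ R (1 / 2) * h - y * k

theorem conf_skew_self {X : Matrix (Fin 4) (Fin 4) ℂ} (h : ∀ a c, X a c = -X c a)
    (u : Fin 4 → R) : ip (Xv X u) u = 0 := by
  have k := conf_skew h u u
  rw [conf_ip_comm u] at k
  exact conf_two (by linear_combination k)

/-- A commuting frame is divergence free for the inverse of its determinant. -/
theorem conf_div (d0 d1 T N : Derivation ℂ R R) {t0 t1 n0 n1 ρ : R}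
    (hT : ∀ f, T f = t0 * d0 f + t1 * d1 f) (hN : ∀ f, N f = n0 * d0 f + n1 * d1 f)
    (z0 : T n0 = N t0) (z1 : T n1 = N t1) (hρ : ρ * (t1 * n0 - t0 * n1) = 1) :
    d0 (ρ * t0) + d1 (ρ * t1) = 0 := by
  have k := congrArg T hρ
  rw [Derivation.map_one_eq_zero] at k
  simp only [Derivation.leibniz, map_sub, smul_eq_mul] at k ⊢
  rw [z0, z1, hT ρ, hT t0, hT t1, hN t0, hN t1] at k
  linear_combination ρ * k - (ρ * d0 t0 + t0 * d0 ρ + (ρ * d1 t1 + t1 * d1 ρ)) * hρ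

theorem exists_conf (G : Geo0 R) (K : Kil G) :
    ∃ (C : Conf R) (n : Fin 2 → R), C.x = G.x ∧ C.X = K.X ∧ C.S = K.S ∧ C.Si = K.Si ∧
      (∀ f, C.Lap f = G.Lap f) ∧
      (∀ f, C.T f = ∑ i, K.t i * G.d i f) ∧ (∀ f, C.N f = ∑ i, n i * G.d i f) ∧
      (∀ i j, K.t i * K.t j + n i * n j = K.S ^ 2 * G.δi ^ 2 * G.adj i j) ∧
      ∀ i, ∃ α β : R, ∀ f, G.d i f = α * C.T f + β * C.N f := by
  obtain ⟨T0, hT0⟩ : ∃ T0, T0 = K.t 0 * G.g 0 0 + K.t 1 * G.g 0 1 := ⟨_, rfl⟩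
  obtain ⟨T1, hT1⟩ : ∃ T1, T1 = K.t 0 * G.g 0 1 + K.t 1 * G.g 1 1 := ⟨_, rfl⟩
  obtain ⟨n0, hn0⟩ : ∃ n0, n0 = G.δi * T1 := ⟨_, rfl⟩
  obtain ⟨n1, hn1⟩ : ∃ n1, n1 = -(G.δi * T0) := ⟨_, rfl⟩
  obtain ⟨T, hT⟩ : ∃ T : Derivation ℂ R R, ∀ f, T f = K.t 0 * G.d 0 f + K.t 1 * G.d 1 f :=
    ⟨K.t 0 • G.d 0 + K.t 1 • G.d 1, fun f => by simp⟩
  obtain ⟨N, hN⟩ : ∃ N : Derivation ℂ R R, ∀ f, N f = n0 * G.d 0 f + n1 * G.d 1 f :=
    ⟨n0 • G.d 0 + n1 • G.d 1, fun f => by simp⟩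
  have hδ := G.hδ
  have hS := K.hS
  have hD : G.δ ^ 2 = G.g 0 0 * G.g 1 1 - G.g 0 1 ^ 2 := G.hδ2
  have hD' : G.δi ^ 2 * (G.g 0 0 * G.g 1 1 - G.g 0 1 ^ 2) = 1 := by
    rw [← hD]
    linear_combination (G.δ * G.δi + 1) * hδ
  have g10 : G.g 1 0 = G.g 0 1 := conf_ip_comm _ _
  have Tx : ∀ a, T (G.x a) = Xv K.X G.x a := fun a => by
    rw [hT, ← K.ht a, Fin.sum_univ_two]
  have Txv : dv T G.x = Xv K.X G.x := funext Tx
  have hX : Xv K.X G.x = fun a => K.t 0 * dv (G.d 0) G.x a + K.t 1 * dv (G.d 1) G.x a := by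
    funext a
    rw [← Tx, hT]
    rfl
  have hNx : dv N G.x = fun a => n0 * dv (G.d 0) G.x a + n1 * dv (G.d 1) G.x a :=
    funext fun a => hN _
  have i0 : ip (dv (G.d 0) G.x) (Xv K.X G.x) = T0 := by
    rw [conf_ip_comm, hX, conf_ip_lin, hT0, ← g10]
    rfl
  have i1 : ip (dv (G.d 1) G.x) (Xv K.X G.x) = T1 := by
    rw [conf_ip_comm, hX, conf_ip_lin, hT1]
    rfl
  have j0 : ip (dv (G.d 0) G.x) (dv N G.x) = G.δ * K.t 1 := by
    rw [conf_ip_comm, hNx, conf_ip_lin]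
    change n0 * G.g 0 0 + n1 * G.g 1 0 = _
    rw [g10, hn0, hn1, hT0, hT1]
    linear_combination (-(G.δi * K.t 1)) * hD + G.δ * K.t 1 * hδ
  have j1 : ip (dv (G.d 1) G.x) (dv N G.x) = -(G.δ * K.t 0) := by
    rw [conf_ip_comm, hNx, conf_ip_lin]
    change n0 * G.g 0 1 + n1 * G.g 1 1 = _
    rw [hn0, hn1, hT0, hT1]
    linear_combination (G.δi * K.t 0) * hD - G.δ * K.t 0 * hδ
  have hS2 : K.S ^ 2 = K.t 0 * T0 + K.t 1 * T1 := by
    rw [K.hS2, ← i0, ← i1, ← conf_ip_lin, ← hX]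
  have nn : ip (dv N G.x) (dv N G.x) = K.S ^ 2 := by
    have : ip (dv N G.x) (dv N G.x) = n0 * (G.δ * K.t 1) + n1 * -(G.δ * K.t 0) := by
      rw [← j0, ← j1, ← conf_ip_lin, ← hNx]
    rw [this, hS2, hn0, hn1]
    linear_combination (K.t 0 * T0 + K.t 1 * T1) * hδ
  have nt : ip (dv N G.x) (Xv K.X G.x) = 0 := by
    rw [hNx, conf_ip_lin, i0, i1, hn0, hn1]
    ring
  have hcomm : ∀ f, T (N f) - N (T f) =
      (T n0 - N (K.t 0)) * G.d 0 f + (T n1 - N (K.t 1)) * G.d 1 f := fun f => by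
    rw [hN f, hT f]
    simp only [map_add, Derivation.leibniz, smul_eq_mul]
    rw [hT (G.d 0 f), hT (G.d 1 f), hN (G.d 0 f), hN (G.d 1 f), G.comm]
    ring
  have hW : (fun a => (T n0 - N (K.t 0)) * dv (G.d 0) G.x a + (T n1 - N (K.t 1)) *
      dv (G.d 1) G.x a) = fun a => 1 * dv T (dv N G.x) a + -1 * Xv K.X (dv N G.x) a := by
    funext a
    rw [← conf_dv_Xv, ← Txv]
    simp only [dv]
    rw [← hcomm]
    ring
  have w1 : (T n0 - N (K.t 0)) * T0 + (T n1 - N (K.t 1)) * T1 = 0 := by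
    rw [← i0, ← i1, ← conf_ip_lin, hW, conf_ip_lin]
    have k := congrArg T nt
    rw [conf_der_ip, map_zero, conf_dv_Xv, Txv] at k
    rw [conf_skew K.skew]
    linear_combination k
  have w2 : (T n0 - N (K.t 0)) * (G.δ * K.t 1) + (T n1 - N (K.t 1)) * -(G.δ * K.t 0) = 0 := by
    rw [← j0, ← j1, ← conf_ip_lin, hW, conf_ip_lin, conf_skew_self K.skew]
    have k := congrArg T nn
    rw [K.hS2, conf_der_ip, conf_der_ip, conf_dv_Xv, Txv, conf_ip_comm (Xv K.X G.x),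
      conf_skew_self K.skew, conf_ip_comm (dv N G.x)] at k
    refine conf_two ?_
    linear_combination k
  have w3 : (T n0 - N (K.t 0)) * K.t 1 - (T n1 - N (K.t 1)) * K.t 0 = 0 := by
    linear_combination G.δi * w2 -
      ((T n0 - N (K.t 0)) * K.t 1 - (T n1 - N (K.t 1)) * K.t 0) * hδ
  have hSS : K.Si ^ 2 * (K.t 0 * T0 + K.t 1 * T1) = 1 := by
    rw [← hS2]
    linear_combination (K.S * K.Si + 1) * hS
  have z0 : T n0 = N (K.t 0) := by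
    linear_combination K.Si ^ 2 * K.t 0 * w1 + K.Si ^ 2 * T1 * w3 - (T n0 - N (K.t 0)) * hSS
  have z1 : T n1 = N (K.t 1) := by
    linear_combination K.Si ^ 2 * K.t 1 * w1 - K.Si ^ 2 * T0 * w3 - (T n1 - N (K.t 1)) * hSS
  have comm : ∀ f, T (N f) = N (T f) := fun f => by
    have k := hcomm f
    rw [z0, z1] at k
    linear_combination k
  have c00 : K.t 0 * K.t 0 + n0 * n0 = K.S ^ 2 * G.δi ^ 2 * G.g 1 1 := by
    rw [hS2, hn0, hT0, hT1]
    linear_combination (-(K.t 0 * K.t 0)) * hD'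
  have c01 : K.t 0 * K.t 1 + n0 * n1 = K.S ^ 2 * G.δi ^ 2 * -G.g 0 1 := by
    rw [hS2, hn0, hn1, hT0, hT1]
    linear_combination (-(K.t 0 * K.t 1)) * hD'
  have c11 : K.t 1 * K.t 1 + n1 * n1 = K.S ^ 2 * G.δi ^ 2 * G.g 0 0 := by
    rw [hS2, hn1, hT0, hT1]
    linear_combination (-(K.t 1 * K.t 1)) * hD'
  have hρ : G.δ * K.Si ^ 2 * (K.t 1 * n0 - K.t 0 * n1) = 1 := by
    rw [hn0, hn1]
    linear_combination K.Si ^ 2 * (K.t 0 * T0 + K.t 1 * T1) * hδ + hSS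
  have dT := conf_div (G.d 0) (G.d 1) T N hT hN z0 z1 hρ
  have dN := conf_div (ρ := -(G.δ * K.Si ^ 2)) (G.d 0) (G.d 1) N T hN hT z0.symm z1.symm
    (by linear_combination hρ)
  have hSi : K.Si ^ 2 * K.S ^ 2 = 1 := by linear_combination (K.S * K.Si + 1) * hS
  refine ⟨⟨T, N, comm, G.x, G.unit, K.X, K.skew, K.S, K.Si, hS, K.hS2, Tx, nn, nt⟩, ![n0, n1],
    rfl, rfl, rfl, rfl, fun f => ?_, fun f => ?_, fun f => ?_, fun i j => ?_, fun i => ?_⟩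
  · have a0 : G.δi * G.g 1 1 * G.d 0 f + G.δi * -G.g 0 1 * G.d 1 f =
        G.δ * K.Si ^ 2 * K.t 0 * T f + G.δ * K.Si ^ 2 * n0 * N f := by
      rw [hT, hN]
      linear_combination (-(G.δ * K.Si ^ 2 * G.d 0 f)) * c00 - G.δ * K.Si ^ 2 * G.d 1 f * c01 -
        (G.δi * G.g 1 1 * G.d 0 f + G.δi * -G.g 0 1 * G.d 1 f) * (G.δ * G.δi * hSi + hδ)
    have a1 : G.δi * -G.g 0 1 * G.d 0 f + G.δi * G.g 0 0 * G.d 1 f =
        G.δ * K.Si ^ 2 * K.t 1 * T f + G.δ * K.Si ^ 2 * n1 * N f := by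
      rw [hT, hN]
      linear_combination (-(G.δ * K.Si ^ 2 * G.d 0 f)) * c01 - G.δ * K.Si ^ 2 * G.d 1 f * c11 -
        (G.δi * -G.g 0 1 * G.d 0 f + G.δi * G.g 0 0 * G.d 1 f) * (G.δ * G.δi * hSi + hδ)
    have e : G.Lap f = G.δi * (G.d 0 (G.δi * G.g 1 1 * G.d 0 f + G.δi * -G.g 0 1 * G.d 1 f) +
        G.d 1 (G.δi * -G.g 0 1 * G.d 0 f + G.δi * G.g 0 0 * G.d 1 f)) := by
      rw [map_add, map_add]
      simp only [Geo0.Lap, Geo0.adj, Fin.sum_univ_two]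
      rfl
    rw [e, a0, a1]
    change K.Si ^ 2 * (T (T f) + N (N f)) = _
    rw [neg_mul, neg_mul, map_neg, map_neg] at dN
    rw [hT (T f), hN (N f), map_add, map_add, Derivation.leibniz _ _ (T f),
      Derivation.leibniz _ _ (T f), Derivation.leibniz _ _ (N f), Derivation.leibniz _ _ (N f)]
    simp only [smul_eq_mul]
    linear_combination (-(G.δi * T f)) * dT + G.δi * N f * dN -
      K.Si ^ 2 * (K.t 0 * G.d 0 (T f) + K.t 1 * G.d 1 (T f) +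
        (n0 * G.d 0 (N f) + n1 * G.d 1 (N f))) * hδ
  · rw [Fin.sum_univ_two]
    exact hT f
  · rw [Fin.sum_univ_two]
    exact hN f
  · fin_cases i <;> fin_cases j
    · exact c00
    · exact c01
    · change K.t 1 * K.t 0 + n1 * n0 = K.S ^ 2 * G.δi ^ 2 * -G.g 0 1
      linear_combination c01
    · exact c11
  · fin_cases i
    · refine ⟨K.Si ^ 2 * T0, K.Si ^ 2 * (G.δ * K.t 1), fun f => ?_⟩
      change G.d 0 f = K.Si ^ 2 * T0 * T f + K.Si ^ 2 * (G.δ * K.t 1) * N f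
      rw [hT, hN, hn0, hn1]
      linear_combination (-(G.d 0 f)) * hSS -
        K.Si ^ 2 * K.t 1 * (T1 * G.d 0 f - T0 * G.d 1 f) * hδ
    · refine ⟨K.Si ^ 2 * T1, K.Si ^ 2 * -(G.δ * K.t 0), fun f => ?_⟩
      change G.d 1 f = K.Si ^ 2 * T1 * T f + K.Si ^ 2 * -(G.δ * K.t 0) * N f
      rw [hT, hN, hn0, hn1]
      linear_combination (-(G.d 1 f)) * hSS +
        K.Si ^ 2 * K.t 0 * (T1 * G.d 0 f - T0 * G.d 1 f) * hδ

end Pool.Agent.Lib.MP_51f413_gt
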