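import Mathlib

/-!
On a function field of one variable a derivation with `d e = l * e` acts at every zero of `e`
like a logarithmic derivative.
-/

namespace Pool.Agent.Lib.MP_51f413_gt

open IntermediateField

/-- `σ` is a normalised order function at `V`, and `d / l` acts on leading terms through `σ`. -/
structure IsGauge {K : Type} [Field K] [Algebra ℂ K] (d : Derivation ℂ K K) (l : K)
    (V : ValuationSubring K) (σ : K → ℚ) : Prop where
  const : ∀ c : ℂ, algebraMap ℂ K c ∈ V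
  mul : ∀ f g, f ≠ 0 → g ≠ 0 → σ (f * g) = σ f + σ g
  le_iff : ∀ f, f ≠ 0 → (V.valuation f ≤ 1 ↔ 0 ≤ σ f)
  log : ∀ f, f ≠ 0 → V.valuation (d f / (l * f) - (σ f : K)) < 1

section aux

open Polynomial

variable {K Γ : Type*} [Field K] [Algebra ℂ K] [LinearOrderedCommGroupWithZero Γ]
  {v : Valuation K Γ}

/-- The value of a polynomial in two variables. -/
noncomputable def gaugeEv (t y : K) : ℂ[X][X] →+* K :=
  eval₂RingHom (aeval t : ℂ[X] →ₐ[ℂ] K).toRingHom y

theorem gauge_ev_C (t y : K) (a : ℂ[X]) : gaugeEv t y (C a) = aeval t a := by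
  simp [gaugeEv]

theorem gauge_ev_X (t y : K) : gaugeEv t y X = y := by
  simp [gaugeEv]

theorem gauge_ev_eval (t : K) (s : ℂ[X]) (P : ℂ[X][X]) :
    gaugeEv t (aeval t s) P = aeval t (P.eval s) :=
  eval₂_hom (aeval t : ℂ[X] →ₐ[ℂ] K).toRingHom s

theorem gauge_const (hc : ∀ c : ℂ, v (algebraMap ℂ K c) ≤ 1) {c : ℂ} (h : c ≠ 0) :
    v (algebraMap ℂ K c) = 1 := by
  refine le_antisymm (hc c) ?_
  have h1 : v (algebraMap ℂ K c) * v (algebraMap ℂ K c⁻¹) = 1 := by
    rw [← map_mul, ← map_mul, mul_inv_cancel₀ h, map_one, map_one]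
  rw [← h1]
  exact mul_le_of_le_one_right' (hc _)

theorem gauge_poly_le (hc : ∀ c : ℂ, v (algebraMap ℂ K c) ≤ 1) {t : K} (ht : v t ≤ 1)
    (a : ℂ[X]) : v (aeval t a) ≤ 1 := by
  induction a using Polynomial.induction_on' with
  | add p q hp hq => rw [map_add]; exact v.map_add_le hp hq
  | monomial n c =>
    rw [aeval_monomial, map_mul, map_pow]
    exact mul_le_one' (hc c) (pow_le_one' ht n)

theorem gauge_poly_sub (hc : ∀ c : ℂ, v (algebraMap ℂ K c) ≤ 1) {t : K} (ht : v t ≤ 1)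
    (a : ℂ[X]) : v (aeval t a - algebraMap ℂ K (a.coeff 0)) ≤ v t := by
  have h := congrArg (aeval t) (X_mul_divX_add a)
  rw [map_add, map_mul, aeval_X, aeval_C] at h
  rw [← h, add_sub_cancel_right, map_mul]
  exact mul_le_of_le_one_right' (gauge_poly_le hc ht _)

theorem gauge_poly_ord (hc : ∀ c : ℂ, v (algebraMap ℂ K c) ≤ 1) {t : K} (ht : v t < 1)
    {a : ℂ[X]} (ha : a ≠ 0) : ∃ i : ℕ, X ^ i ∣ a ∧ v (aeval t a) = v t ^ i := by
  obtain ⟨b, h1, h2⟩ := exists_eq_pow_rootMultiplicity_mul_and_not_dvd a ha 0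
  rw [C_0, sub_zero] at h1 h2
  refine ⟨_, Dvd.intro _ h1.symm, ?_⟩
  have h3 : v (algebraMap ℂ K (b.coeff 0)) = 1 :=
    gauge_const hc fun h => h2 (X_dvd_iff.2 h)
  have h4 : v (aeval t b) = 1 := by
    have h5 := (gauge_poly_sub hc ht.le b).trans_lt ht
    rw [← h3] at h5 ⊢
    simpa using v.map_add_eq_of_lt_right h5
  conv_lhs => rw [h1]
  rw [map_mul, map_pow, aeval_X, map_mul, map_pow, h4, mul_one]

theorem gauge_ev_le (hc : ∀ c : ℂ, v (algebraMap ℂ K c) ≤ 1) {t y : K} (ht : v t ≤ 1)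
    (hy : v y ≤ 1) (P : ℂ[X][X]) : v (gaugeEv t y P) ≤ 1 := by
  induction P using Polynomial.induction_on with
  | C a => rw [gauge_ev_C]; exact gauge_poly_le hc ht a
  | add p q hp hq => rw [map_add]; exact v.map_add_le hp hq
  | monomial n a ih =>
    rw [pow_succ, ← mul_assoc, map_mul, gauge_ev_X, map_mul]
    exact mul_le_one' ih hy

theorem gauge_ev_sub (hc : ∀ c : ℂ, v (algebraMap ℂ K c) ≤ 1) {t y y' : K} (ht : v t ≤ 1)
    (hy : v y ≤ 1) (hy' : v y' ≤ 1) (P : ℂ[X][X]) :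
    v (gaugeEv t y P - gaugeEv t y' P) ≤ v (y - y') := by
  induction P using Polynomial.induction_on with
  | C a => simp [gauge_ev_C]
  | add p q hp hq =>
    rw [map_add, map_add, add_sub_add_comm]
    exact v.map_add_le hp hq
  | monomial n a ih =>
    rw [pow_succ, ← mul_assoc, map_mul _ _ X, map_mul _ _ X, gauge_ev_X, gauge_ev_X]
    have h1 := gauge_ev_le hc ht hy' (C a * X ^ n)
    generalize gaugeEv t y (C a * X ^ n) = A at ih
    generalize gaugeEv t y' (C a * X ^ n) = B at ih h1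
    rw [show A * y - B * y' = (A - B) * y + B * (y - y') by ring]
    refine v.map_add_le ?_ ?_
    · rw [map_mul]
      exact (mul_le_of_le_one_right' hy).trans ih
    · rw [map_mul]
      exact mul_le_of_le_one_left' h1

theorem gauge_ev_res (hc : ∀ c : ℂ, v (algebraMap ℂ K c) ≤ 1) {t y : K} (ht : v t ≤ 1)
    (hy : v y ≤ 1) (P : ℂ[X][X]) :
    v (gaugeEv t y P - aeval y (P.map constantCoeff)) ≤ v t := by
  induction P using Polynomial.induction_on with
  | C a =>
    rw [gauge_ev_C, map_C, aeval_C]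
    exact gauge_poly_sub hc ht a
  | add p q hp hq =>
    rw [map_add, Polynomial.map_add, map_add, add_sub_add_comm]
    exact v.map_add_le hp hq
  | monomial n a ih =>
    rw [pow_succ, ← mul_assoc, map_mul _ _ X, Polynomial.map_mul, map_X, map_mul _ _ X,
      gauge_ev_X, aeval_X, ← sub_mul, map_mul]
    exact (mul_le_of_le_one_right' hy).trans ih

/-- Every element is algebraic over the polynomials in any transcendental element. -/
theorem gauge_alg {K : Type} [Field K] [Algebra ℂ K] {e t : K} (he : Transcendental ℂ e)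
    [FiniteDimensional ℂ⟮e⟯ K] (ht : Transcendental ℂ t) (g : K) :
    ∃ P : ℂ[X][X], P ≠ 0 ∧ gaugeEv t g P = 0 := by
  have h1 : IsTranscendenceBasis ℂ fun _ : Unit => e := by
    rw [(algebraicIndependent_unique_type_iff.2 he).isTranscendenceBasis_iff_isAlgebraic,
      Set.range_const, ← IntermediateField.isAlgebraic_adjoin_iff_top]
    infer_instance
  have h2 : IsTranscendenceBasis ℂ fun _ : Unit => t :=
    (algebraicIndependent_unique_type_iff.2 ht).isTranscendenceBasis_of_lift_trdeg_le_of_finite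
      h1.lift_cardinalMk_eq_trdeg.ge
  have h3 := h2.isAlgebraic
  rw [Set.range_const] at h3
  obtain ⟨p, hp0, hp⟩ := h3.1 g
  have h4 : p.map (algebraMap (Algebra.adjoin ℂ {t}) K) ∈
      lifts (aeval t : ℂ[X] →ₐ[ℂ] K).toRingHom := by
    rw [lifts_iff_coeff_lifts]
    intro n
    rw [coeff_map]
    exact (Algebra.adjoin_singleton_eq_range_aeval ℂ t).le (p.coeff n).2
  obtain ⟨P, hP⟩ := (mem_lifts _).1 h4
  refine ⟨P, fun h => ?_, ?_⟩
  · rw [h, Polynomial.map_zero] at hP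
    exact (Polynomial.map_ne_zero_iff Subtype.val_injective).2 hp0 hP.symm
  · rw [gaugeEv, coe_eval₂RingHom, ← eval_map, hP, eval_map_algebraMap, hp]

/-- The residue field consists of constants. -/
theorem gauge_res (hc : ∀ c : ℂ, v (algebraMap ℂ K c) ≤ 1) {t : K} (ht : v t < 1)
    (htr : Transcendental ℂ t) {g : K} (hg : v g ≤ 1) {P : ℂ[X][X]} (hP : P ≠ 0)
    (h : gaugeEv t g P = 0) : ∃ c : ℂ, v (g - algebraMap ℂ K c) < 1 := by
  classical
  have h1 : gaugeEv t g P.primPart = 0 := by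
    rw [eq_C_content_mul_primPart P, map_mul, gauge_ev_C] at h
    refine (mul_eq_zero.1 h).resolve_left fun h2 => hP (content_eq_zero_iff.1 ?_)
    exact transcendental_iff.1 htr _ h2
  have h2 : P.primPart.map constantCoeff ≠ 0 := fun h3 => by
    refine not_isUnit_X (R := ℂ) (isPrimitive_primPart P X ((C_dvd_iff_dvd_coeff _ _).2 fun i => ?_))
    have := congrArg (fun q => coeff q i) h3
    simp only [coeff_map, coeff_zero, constantCoeff_apply] at this
    exact X_dvd_iff.2 this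
  have h3 := (gauge_ev_res hc ht.le hg P.primPart).trans_lt ht
  rw [h1, zero_sub, Valuation.map_neg] at h3
  generalize P.primPart.map constantCoeff = p at h2 h3
  by_contra hne
  have h4 : ∀ c : ℂ, v (g - algebraMap ℂ K c) = 1 := fun c =>
    le_antisymm (v.map_sub_le hg (hc c)) (not_lt.1 fun h5 => hne ⟨c, h5⟩)
  rw [(IsAlgClosed.splits p).eq_prod_roots, map_mul, aeval_C, map_mul,
    gauge_const hc (leadingCoeff_ne_zero.2 h2), one_mul, map_multiset_prod, map_multiset_prod,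
    Multiset.map_map, Multiset.map_map, Multiset.prod_eq_one] at h3
  · exact lt_irrefl _ h3
  · intro x hx
    obtain ⟨c, -, rfl⟩ := Multiset.mem_map.1 hx
    simpa using h4 c

/-- Approximation by polynomials in a uniformiser. -/
theorem gauge_approx {π : K} (hπ0 : π ≠ 0) (hdiv : ∀ g, v g < 1 → v g ≤ v π)
    (hres : ∀ g, v g ≤ 1 → ∃ c : ℂ, v (g - algebraMap ℂ K c) < 1) {g : K} (hg : v g ≤ 1)
    (k : ℕ) : ∃ s : ℂ[X], v (g - aeval π s) ≤ v π ^ k := by
  induction k with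
  | zero => exact ⟨0, by simpa using hg⟩
  | succ k ih =>
    obtain ⟨s, hs⟩ := ih
    have h0 : π ^ k ≠ 0 := pow_ne_zero _ hπ0
    have h1 : 0 < v π ^ k := by
      rw [← map_pow]
      exact zero_lt_iff.2 ((Valuation.ne_zero_iff v).2 h0)
    obtain ⟨c, hc⟩ := hres ((g - aeval π s) / π ^ k) (by
      rw [map_div₀, map_pow, div_le_one₀ h1]
      exact hs)
    refine ⟨s + C c * X ^ k, ?_⟩
    have e : g - aeval π (s + C c * X ^ k) =
        π ^ k * ((g - aeval π s) / π ^ k - algebraMap ℂ K c) := by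
      rw [map_add, map_mul, map_pow, aeval_C, aeval_X]
      field_simp
      ring
    rw [e, map_mul, map_pow, pow_succ]
    exact mul_le_mul_right (hdiv _ hc) _

theorem gauge_chain (θ : Derivation ℂ K K) (t : K) (P : ℂ[X][X]) : ∃ Q : ℂ[X][X],
    (∀ y, θ (gaugeEv t y P) = gaugeEv t y Q * θ t + gaugeEv t y (derivative P) * θ y) ∧
      ∀ s : ℂ[X], derivative (P.eval s) = Q.eval s + (derivative P).eval s * derivative s := by
  induction P using Polynomial.induction_on with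
  | C a =>
    refine ⟨C (derivative a), fun y => ?_, fun s => by simp⟩
    rw [gauge_ev_C, gauge_ev_C, derivative_C, map_zero, zero_mul, add_zero,
      Derivation.comp_aeval_eq, smul_eq_mul]
  | add p q hp hq =>
    obtain ⟨Q1, a1, a2⟩ := hp
    obtain ⟨Q2, b1, b2⟩ := hq
    refine ⟨Q1 + Q2, fun y => ?_, fun s => ?_⟩
    · simp only [map_add, a1, b1]
      ring
    · simp only [map_add, eval_add, a2, b2]
      ring
  | monomial n a ih =>
    obtain ⟨Q, a1, a2⟩ := ih
    rw [pow_succ, ← mul_assoc]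
    generalize C a * X ^ n = p at a1 a2
    refine ⟨Q * X, fun y => ?_, fun s => ?_⟩
    · simp only [derivative_mul, derivative_X, mul_one, map_add, map_mul, gauge_ev_X,
        Derivation.leibniz, smul_eq_mul, a1]
      ring
    · simp only [derivative_mul, derivative_X, mul_one, eval_add, eval_mul, eval_X, a2]
      ring

/-- A derivation is controlled by its value at a uniformiser. -/
theorem gauge_deriv (hc : ∀ c : ℂ, v (algebraMap ℂ K c) ≤ 1) (θ : Derivation ℂ K K) {π : K}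
    (hπ : v π < 1) (htr : Transcendental ℂ π) (hπ0 : π ≠ 0) (hdiv : ∀ g, v g < 1 → v g ≤ v π)
    (harch : ∀ f, f ≠ 0 → ∃ k : ℕ, v π ^ k ≤ v f)
    (halg : ∀ g, ∃ P : ℂ[X][X], P ≠ 0 ∧ gaugeEv π g P = 0) {g : K} (hg : v g ≤ 1) :
    v (θ g) ≤ v (θ π) := by
  classical
  have hres : ∀ g, v g ≤ 1 → ∃ c : ℂ, v (g - algebraMap ℂ K c) < 1 := fun g hg => by
    obtain ⟨P, hP, h⟩ := halg g
    exact gauge_res hc hπ htr hg hP h
  have hex : ∃ n, ∃ P : ℂ[X][X], P ≠ 0 ∧ gaugeEv π g P = 0 ∧ P.natDegree = n := by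
    obtain ⟨P, hP, h⟩ := halg g
    exact ⟨_, P, hP, h, rfl⟩
  obtain ⟨P, hP, h, hn⟩ := Nat.find_spec hex
  have hd : P.natDegree ≠ 0 := fun h0 => by
    rw [eq_C_of_natDegree_eq_zero h0] at h hP
    rw [gauge_ev_C] at h
    exact hP (by rw [transcendental_iff.1 htr _ h, map_zero])
  have hB : gaugeEv π g (derivative P) ≠ 0 := fun h0 =>
    Nat.find_min hex (hn ▸ natDegree_derivative_lt hd)
      ⟨_, fun h1 => hd (derivative_eq_zero.1 h1), h0, rfl⟩
  obtain ⟨Q, hQ1, hQ2⟩ := gauge_chain θ π P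
  obtain ⟨k, hk⟩ := harch _ hB
  obtain ⟨s, hs⟩ := gauge_approx hπ0 hdiv hres hg (k + 1)
  have hπp : 0 < v π := zero_lt_iff.2 ((Valuation.ne_zero_iff v).2 hπ0)
  have hk1 : v π ^ (k + 1) ≤ v π ^ k := pow_le_pow_of_le_one zero_le hπ.le (Nat.le_succ k)
  have hs1 : v (aeval π s) ≤ 1 := gauge_poly_le hc hπ.le s
  have hsub := fun R => (gauge_ev_sub hc hπ.le hg hs1 R).trans hs
  have hA : v (aeval π (derivative (P.eval s))) ≤ v π ^ k := by
    by_cases h0 : P.eval s = 0
    · simp [h0]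
    obtain ⟨i, hi, hi'⟩ := gauge_poly_ord hc hπ h0
    have h1 := hsub P
    rw [h, zero_sub, Valuation.map_neg, gauge_ev_eval, hi',
      pow_le_pow_iff_right_of_lt_one₀ hπp hπ] at h1
    obtain ⟨b, hb⟩ := pow_sub_one_dvd_derivative_of_pow_dvd ((pow_dvd_pow X h1).trans hi)
    rw [hb, map_mul, map_pow, aeval_X, map_mul, map_pow, Nat.add_sub_cancel]
    exact mul_le_of_le_one_right' (gauge_poly_le hc hπ.le b)
  have hB' : v (gaugeEv π (aeval π s) (derivative P)) ≤ v (gaugeEv π g (derivative P)) := by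
    rw [show gaugeEv π (aeval π s) (derivative P) = gaugeEv π g (derivative P) -
      (gaugeEv π g (derivative P) - gaugeEv π (aeval π s) (derivative P)) by ring]
    exact v.map_sub_le le_rfl ((hsub _).trans (hk1.trans hk))
  have hQ : v (gaugeEv π g Q) ≤ v (gaugeEv π g (derivative P)) := by
    have e : gaugeEv π g Q = (gaugeEv π g Q - gaugeEv π (aeval π s) Q) +
        (aeval π (derivative (P.eval s)) -
          gaugeEv π (aeval π s) (derivative P) * aeval π (derivative s)) := by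
      rw [hQ2, map_add, map_mul, gauge_ev_eval, gauge_ev_eval]
      ring
    rw [e]
    refine v.map_add_le ((hsub _).trans (hk1.trans hk)) (v.map_sub_le (hA.trans hk) ?_)
    rw [map_mul]
    exact (mul_le_of_le_one_right' (gauge_poly_le hc hπ.le _)).trans hB'
  have h1 := hQ1 g
  rw [h, map_zero, eq_comm, add_comm, ← eq_neg_iff_add_eq_zero] at h1
  have h2 := congrArg v h1
  rw [Valuation.map_neg, map_mul, map_mul] at h2
  refine le_of_mul_le_mul_left ?_ (zero_lt_iff.2 ((Valuation.ne_zero_iff v).2 hB))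
  rw [h2]
  exact mul_le_mul_left hQ _

/-- The value group is commensurable with the powers of the value of `e`. -/
theorem gauge_ord (hc : ∀ c : ℂ, v (algebraMap ℂ K c) ≤ 1) {e : K} (he0 : e ≠ 0) (he : v e < 1)
    [FiniteDimensional ℂ⟮e⟯ K] :
    ∃ n : ℕ, 0 < n ∧ ∀ f, f ≠ 0 → ∃ p : ℤ, v f ^ n = v e ^ p := by
  classical
  have hve : v e ≠ 0 := (Valuation.ne_zero_iff v).2 he0
  have hF : ∀ a ∈ ℂ⟮e⟯, a ≠ 0 → ∃ i : ℤ, v a = v e ^ i := fun a ha ha0 => by
    obtain ⟨r, s, rfl⟩ := (IntermediateField.mem_adjoin_simple_iff ℂ a).1 ha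
    obtain ⟨hr, hs⟩ := div_ne_zero_iff.1 ha0
    obtain ⟨i, -, hi⟩ := gauge_poly_ord hc he (a := r) (by rintro rfl; exact hr (map_zero _))
    obtain ⟨j, -, hj⟩ := gauge_poly_ord hc he (a := s) (by rintro rfl; exact hs (map_zero _))
    exact ⟨i - j, by rw [map_div₀, hi, hj, zpow_sub₀ hve, zpow_natCast, zpow_natCast]⟩
  refine ⟨(Module.finrank ℂ⟮e⟯ K).factorial, Nat.factorial_pos _, fun f hf => ?_⟩
  have hvf : v f ≠ 0 := (Valuation.ne_zero_iff v).2 hf
  have hμ0 : minpoly ℂ⟮e⟯ f ≠ 0 := minpoly.ne_zero (Algebra.IsIntegral.isIntegral f)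
  have hdeg : (minpoly ℂ⟮e⟯ f).natDegree ≤ Module.finrank ℂ⟮e⟯ K := minpoly.natDegree_le f
  have hsum := minpoly.aeval ℂ⟮e⟯ f
  generalize minpoly ℂ⟮e⟯ f = μ at hμ0 hdeg hsum
  rw [aeval_def, eval₂_eq_sum, sum_def] at hsum
  have hne : ∀ i ∈ μ.support, algebraMap ℂ⟮e⟯ K (μ.coeff i) ≠ 0 := fun i hi =>
    (_root_.map_ne_zero _).2 (mem_support_iff.1 hi)
  have key : ∀ i ∈ μ.support, ∀ j ∈ μ.support, i < j →
      v (algebraMap ℂ⟮e⟯ K (μ.coeff i) * f ^ i) = v (algebraMap ℂ⟮e⟯ K (μ.coeff j) * f ^ j) →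
      ∃ p : ℤ, v f ^ (Module.finrank ℂ⟮e⟯ K).factorial = v e ^ p := by
    intro i hi j hj hij h
    obtain ⟨a, ha⟩ := hF _ (μ.coeff i).2 (hne i hi)
    obtain ⟨b, hb⟩ := hF _ (μ.coeff j).2 (hne j hj)
    obtain ⟨q, rfl⟩ := Nat.exists_eq_add_of_lt hij
    have hq := (le_natDegree_of_mem_supp _ hj).trans hdeg
    obtain ⟨w, hw⟩ := Nat.dvd_factorial (Nat.succ_pos q)
      (by omega : q + 1 ≤ Module.finrank ℂ⟮e⟯ K)
    rw [map_mul, map_mul, map_pow, map_pow] at h
    change v (μ.coeff i : K) * _ = v (μ.coeff (i + q + 1) : K) * _ at h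
    rw [ha, hb, add_assoc, pow_add, mul_comm (v f ^ i), ← mul_assoc] at h
    have h1 := mul_right_cancel₀ (pow_ne_zero i hvf) h
    have h2 : v f ^ (q + 1) = v e ^ (a - b) := by
      rw [zpow_sub₀ hve, h1, mul_div_cancel_left₀ _ (zpow_ne_zero b hve)]
    exact ⟨(a - b) * w, by rw [hw, pow_mul, h2, zpow_mul, zpow_natCast]⟩
  obtain ⟨j, hj, hmax⟩ := Finset.exists_max_image μ.support
    (fun i => v (algebraMap ℂ⟮e⟯ K (μ.coeff i) * f ^ i)) (nonempty_support_iff.2 hμ0)
  by_contra hcon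
  have h1 := v.map_sum_eq_of_lt (s := μ.support)
    (f := fun i => algebraMap ℂ⟮e⟯ K (μ.coeff i) * f ^ i) hj fun i hi => by
      obtain ⟨hi1, hi2⟩ := Finset.mem_sdiff.1 hi
      refine (hmax i hi1).lt_of_ne fun h => hcon ?_
      rcases lt_or_gt_of_ne (Finset.notMem_singleton.1 hi2) with h3 | h3
      · exact key i hi1 j hj h3 h
      · exact key j hj i hi1 h3 h.symm
  rw [hsum, map_zero] at h1
  exact (Valuation.ne_zero_iff v).2 (mul_ne_zero (hne j hj) (pow_ne_zero j hf)) h1.symm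

end aux

theorem exists_gauge {K : Type} [Field K] [Algebra ℂ K] (d : Derivation ℂ K K) (e l : K)
    (hl : l ≠ 0) (hde : d e = l * e) (he : Transcendental ℂ e) [FiniteDimensional ℂ⟮e⟯ K]
    (V : ValuationSubring K) (hV : ∀ c : ℂ, algebraMap ℂ K c ∈ V) (hev : V.valuation e < 1) :
    ∃ σ : K → ℚ, IsGauge d l V σ ∧ σ e = 1 := by
  classical
  set v := V.valuation with hv
  have hc : ∀ c : ℂ, v (algebraMap ℂ K c) ≤ 1 := fun c => (V.valuation_le_one_iff _).2 (hV c)
  have he0 : e ≠ 0 := by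
    rintro rfl
    exact he isAlgebraic_zero
  have hpos : ∀ {f : K}, f ≠ 0 → 0 < v f := fun hf =>
    zero_lt_iff.2 ((Valuation.ne_zero_iff v).2 hf)
  obtain ⟨N, hN, hex⟩ := gauge_ord hc he0 hev
  choose! o ho using hex
  have huniq : ∀ f, f ≠ 0 → ∀ p : ℤ, v f ^ N = v e ^ p → o f = p := fun f hf p h =>
    zpow_right_injective₀ (hpos he0) hev.ne ((ho f hf).symm.trans h)
  have hle : ∀ f g, f ≠ 0 → g ≠ 0 → (v f ≤ v g ↔ o g ≤ o f) := fun f g hf hg => by
    rw [← pow_le_pow_iff_left₀ zero_le zero_le hN.ne', ho f hf, ho g hg,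
      zpow_le_zpow_iff_right_of_lt_one₀ (hpos he0) hev]
  have ho1 : o 1 = 0 := huniq 1 one_ne_zero 0 (by simp)
  have hoe : o e = N := huniq e he0 N (zpow_natCast _ _).symm
  have hmul : ∀ f g, f ≠ 0 → g ≠ 0 → o (f * g) = o f + o g := fun f g hf hg =>
    huniq _ (mul_ne_zero hf hg) _ (by
      rw [map_mul, mul_pow, ho f hf, ho g hg, zpow_add₀ (hpos he0).ne'])
  have hzp : ∀ f, f ≠ 0 → ∀ j : ℤ, o (f ^ j) = o f * j := fun f hf j =>
    huniq _ (zpow_ne_zero j hf) _ (by
      rw [map_zpow₀, zpow_mul, ← ho f hf, ← zpow_natCast, ← zpow_natCast, ← zpow_mul, ← zpow_mul,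
        mul_comm])
  have hle1 : ∀ f, f ≠ 0 → (v f ≤ 1 ↔ 0 ≤ o f) := fun f hf => by
    rw [← ho1, ← hle f 1 hf one_ne_zero, map_one]
  have hlt1 : ∀ f, f ≠ 0 → (v f < 1 ↔ 0 < o f) := fun f hf => by
    rw [← not_le, ← not_le, ← ho1, ← hle 1 f one_ne_zero hf, map_one]
  obtain ⟨μ, ⟨hμ, π, hπ0, rfl⟩, hmin⟩ := Int.exists_least_of_bdd
    (P := fun m => 0 < m ∧ ∃ f, f ≠ 0 ∧ o f = m) ⟨0, fun z hz => hz.1.le⟩
    ⟨N, by exact_mod_cast hN, e, he0, hoe⟩
  have hπ : v π < 1 := (hlt1 π hπ0).2 hμ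
  have hdiv : ∀ g, v g < 1 → v g ≤ v π := fun g hg => by
    by_cases hg0 : g = 0
    · simp [hg0]
    · exact (hle g π hg0 hπ0).2 (hmin _ ⟨(hlt1 g hg0).1 hg, g, hg0, rfl⟩)
  have hfac : ∀ f, f ≠ 0 → ∃ (u : K) (j : ℤ), v u = 1 ∧ f = u * π ^ j ∧ o f = o π * j :=
    fun f hf => by
      have h0 : f * π ^ (-(o f / o π)) ≠ 0 := mul_ne_zero hf (zpow_ne_zero _ hπ0)
      have h1 : o (f * π ^ (-(o f / o π))) = o f % o π := by
        rw [hmul _ _ hf (zpow_ne_zero _ hπ0), hzp π hπ0, Int.emod_def]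
        ring
      have h2 := Int.emod_nonneg (o f) hμ.ne'
      have h3 := Int.emod_lt_of_pos (o f) hμ
      have h4 : o f % o π = 0 := by
        by_contra h5
        have := hmin _ ⟨lt_of_le_of_ne h2 (Ne.symm h5), _, h0, h1⟩
        omega
      refine ⟨f * π ^ (-(o f / o π)), o f / o π, le_antisymm ((hle1 _ h0).2 (by omega))
        (not_lt.1 fun h => ?_), ?_, ?_⟩
      · have := (hlt1 _ h0).1 h
        omega
      · rw [mul_assoc, ← zpow_add₀ hπ0, neg_add_cancel, zpow_zero, mul_one]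
      · rw [Int.emod_def] at h4
        omega
  have htr : Transcendental ℂ π := fun h => by
    have h1 := IsAlgClosed.degree_eq_one_of_irreducible ℂ (minpoly.irreducible h.isIntegral)
    obtain ⟨c, hc'⟩ := minpoly.degree_eq_one_iff.1 h1
    rw [← hc', gauge_const hc (by rintro rfl; exact hπ0 (by rw [← hc', map_zero]))] at hπ
    exact lt_irrefl _ hπ
  have harch : ∀ f, f ≠ 0 → ∃ k : ℕ, v π ^ k ≤ v f := fun f hf => by
    refine ⟨(o f).toNat, ?_⟩
    rw [← map_pow, hle _ _ (pow_ne_zero _ hπ0) hf, ← zpow_natCast, hzp π hπ0]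
    have h1 := Int.self_le_toNat (o f)
    have h2 : (0 : ℤ) ≤ (o f).toNat := Int.natCast_nonneg _
    nlinarith
  have hD : ∀ g, v g ≤ 1 → v (d g) ≤ v (d π) := fun g hg =>
    gauge_deriv hc d hπ htr hπ0 hdiv harch (gauge_alg he htr) hg
  have : CharZero K := charZero_of_injective_algebraMap (algebraMap ℂ K).injective
  have hlog : ∀ (u : K) (j : ℤ), v u = 1 →
      d (u * π ^ j) / (l * (u * π ^ j)) = d u / (l * u) + j * (d π / (l * π)) ∧
        v (d u / (l * u)) ≤ v (d π / (l * π)) * v π := fun u j hu => by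
    have hu0 : u ≠ 0 := by
      rintro rfl
      simp at hu
    constructor
    · have := zpow_ne_zero j hπ0
      rw [Derivation.leibniz, Derivation.leibniz_zpow, zpow_sub_one₀ hπ0]
      simp only [smul_eq_mul, zsmul_eq_mul]
      field_simp
      ring
    · rw [← map_mul, show d π / (l * π) * π = d π / l by field_simp, map_div₀, map_div₀, map_mul,
        hu, mul_one]
      exact div_le_div_of_nonneg_right (hD u hu.le) zero_le
  have hint : ∀ j : ℤ, v (j : K) ≤ 1 := fun j => by simpa using hc j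
  obtain ⟨u₀, n, hu₀, he1, hn⟩ := hfac e he0
  have hn0 : n ≠ 0 := by
    rintro rfl
    omega
  have hn0' : (n : K) ≠ 0 := Int.cast_ne_zero.2 hn0
  have hvn : v (n : K) = 1 := by
    simpa using gauge_const hc (c := n) (Int.cast_ne_zero.2 hn0)
  obtain ⟨h1, h2⟩ := hlog u₀ n hu₀
  rw [← he1, hde, div_self (mul_ne_zero hl he0)] at h1
  obtain ⟨T, hT⟩ : ∃ T, T = d π / (l * π) := ⟨_, rfl⟩
  rw [← hT] at hlog h1 h2
  have hT1 : v T = 1 := by
    have hT0 : T ≠ 0 := by
      rintro rfl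
      rw [map_zero, zero_mul, le_zero_iff, map_eq_zero] at h2
      rw [h2] at h1
      simp at h1
    have h3 : v (d u₀ / (l * u₀)) < v (n * T) := by
      rw [map_mul, hvn, one_mul]
      exact h2.trans_lt (mul_lt_of_lt_one_right (hpos hT0) hπ)
    have h4 := v.map_add_eq_of_lt_right h3
    rw [← h1, map_one, map_mul, hvn, one_mul] at h4
    exact h4.symm
  rw [hT1, one_mul] at hlog h2
  have hN' : (N : ℚ) ≠ 0 := Nat.cast_ne_zero.2 hN.ne'
  refine ⟨fun f => (o f : ℚ) / N, ⟨hV, fun f g hf hg => ?_, fun f hf => ?_, fun f hf => ?_⟩, ?_⟩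
  · rw [hmul f g hf hg, Int.cast_add, add_div]
  · rw [hle1 f hf, le_div_iff₀ (by exact_mod_cast hN), zero_mul, Int.cast_nonneg_iff]
  · obtain ⟨u, j, hu, hf1, hj⟩ := hfac f hf
    obtain ⟨h3, h4⟩ := hlog u j hu
    have h5 : ((o f : ℚ) / N : ℚ) = j / n := by
      have a1 : (N : ℚ) = o π * n := by exact_mod_cast hoe.symm.trans hn
      have a2 : (o π : ℚ) ≠ 0 := Int.cast_ne_zero.2 hμ.ne'
      rw [hj, a1, Int.cast_mul, mul_div_mul_left _ _ a2]
    rw [← hf1] at h3
    have h6 : d f / (l * f) - (((j : ℚ) / n : ℚ) : K) =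
        d u / (l * u) - j * (d u₀ / (l * u₀)) / n := by
      rw [h3, eq_sub_of_add_eq h1.symm]
      push_cast
      field_simp
      ring
    rw [h5, h6]
    refine v.map_sub_lt (h4.trans_lt hπ) ?_
    rw [map_div₀, hvn, div_one, map_mul]
    exact ((mul_le_of_le_one_left' (hint j)).trans h2).trans_lt hπ
  · simp only [hoe, Int.cast_natCast, div_self hN']

end Pool.Agent.Lib.MP_51f413_gt
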