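import Mathlib

/-!
Surfaces in the three-sphere over a differential ring: definitions.
-/

namespace Pool.Agent.Lib.MP_51f413_gt

open Finset

section Q

variable {A : Type} [CommRing A]

/-- The bilinear inner product of `4`-vectors. -/
def ip (u v : Fin 4 → A) : A := ∑ a, u a * v a

variable (L : A → A) (x : Fin 4 → A)

/-- The mean curvature vector in the sphere. -/
def qV (a : Fin 4) : A := L (x a) + 2 * x a

/-- The squared mean curvature. -/
def qc : A := ip (qV L x) (qV L x)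

/-- The pairing of the mean curvature vector with its Laplacian. -/
def qP : A := ip (qV L x) (fun a => L (qV L x a))

/-- A matrix that is constant along products of circles. -/
def qZ (a b : Fin 4) : A :=
  -(L (qV L x a * x b) - qV L x a * L (x b) - x b * L (qV L x a)) -
    2 * (x a * qV L x b + qV L x a * x b) + 2 * (qV L x a * qV L x b)

end Q

variable {R : Type} [CommRing R] [Algebra ℂ R]

/-- A constant matrix acting on a vector. -/
def Xv (X : Matrix (Fin 4) (Fin 4) ℂ) (u : Fin 4 → R) : Fin 4 → R :=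
  fun a => ∑ c, algebraMap ℂ R (X a c) * u c

/-- The derivative of a vector. -/
def dv (D : Derivation ℂ R R) (u : Fin 4 → R) : Fin 4 → R := fun a => D (u a)

/-- An immersed surface in the unit sphere, in coordinates. -/
structure Geo0 (R : Type) [CommRing R] [Algebra ℂ R] where
  d : Fin 2 → Derivation ℂ R R
  comm : ∀ f, d 0 (d 1 f) = d 1 (d 0 f)
  x : Fin 4 → R
  unit : ip x x = 1
  δ : R
  δi : R
  hδ : δ * δi = 1
  hδ2 : δ ^ 2 = ip (dv (d 0) x) (dv (d 0) x) * ip (dv (d 1) x) (dv (d 1) x) -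
    ip (dv (d 0) x) (dv (d 1) x) ^ 2

namespace Geo0

variable (G : Geo0 R)

/-- The first fundamental form. -/
def g (i j : Fin 2) : R := ip (dv (G.d i) G.x) (dv (G.d j) G.x)

/-- The adjugate of the first fundamental form. -/
def adj : Fin 2 → Fin 2 → R := ![![G.g 1 1, -G.g 0 1], ![-G.g 0 1, G.g 0 0]]

/-- The Laplace operator. -/
def Lap (f : R) : R := G.δi * ∑ i, ∑ j, G.d i (G.δi * G.adj i j * G.d j f)

/-- The derivative of `2 V + c x` when `c` is constant. -/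
def Y (a : Fin 4) (i : Fin 2) : R :=
  2 * G.d i (qV G.Lap G.x a) + qc G.Lap G.x * G.d i (G.x a)

/-- The three alternatives modulo an ideal. -/
def Alt (J : Ideal R) : Prop :=
  (∀ i, G.d i (qc G.Lap G.x) ∈ J) ∧
    ((∀ a, qV G.Lap G.x a ∈ J) ∨
      (2 * qP G.Lap G.x + qc G.Lap G.x ^ 2 ∈ J ∧ ip (qV G.Lap G.x) G.x ∈ J ∧
        ∑ a, ∑ i, ∑ j, G.adj i j * G.Y a i * G.Y a j ∈ J) ∨
      (qP G.Lap G.x + qc G.Lap G.x ^ 2 + 2 * qc G.Lap G.x ∈ J ∧
        (∀ i a b, G.d i (qZ G.Lap G.x a b) ∈ J) ∧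
        (∀ a b, qZ G.Lap G.x a b - qZ G.Lap G.x b a ∈ J) ∧
        (∀ a b, ∑ m, qZ G.Lap G.x a m * qZ G.Lap G.x m b - 2 * qc G.Lap G.x * qZ G.Lap G.x a b -
          (if a = b then 4 * qc G.Lap G.x else 0) ∈ J) ∧
        ∑ a, qZ G.Lap G.x a a - 4 * qc G.Lap G.x ∈ J ∧
        ∑ a, ∑ b, G.x a * qZ G.Lap G.x a b * G.x b ∈ J))

end Geo0

/-- A nowhere vanishing Killing field of the sphere tangent to the surface. -/
structure Kil (G : Geo0 R) where
  X : Matrix (Fin 4) (Fin 4) ℂ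
  skew : ∀ a c, X a c = -X c a
  t : Fin 2 → R
  ht : ∀ a, ∑ i, t i * G.d i (G.x a) = Xv X G.x a
  S : R
  Si : R
  hS : S * Si = 1
  hS2 : S ^ 2 = ip (Xv X G.x) (Xv X G.x)

/-- The surface in conformal coordinates adapted to the Killing field. -/
structure Conf (R : Type) [CommRing R] [Algebra ℂ R] where
  T : Derivation ℂ R R
  N : Derivation ℂ R R
  comm : ∀ f, T (N f) = N (T f)
  x : Fin 4 → R
  unit : ip x x = 1
  X : Matrix (Fin 4) (Fin 4) ℂ
  skew : ∀ a c, X a c = -X c a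
  S : R
  Si : R
  hS : S * Si = 1
  hS2 : S ^ 2 = ip (Xv X x) (Xv X x)
  Tx : ∀ a, T (x a) = Xv X x a
  nn : ip (dv N x) (dv N x) = S ^ 2
  nt : ip (dv N x) (Xv X x) = 0

/-- The Laplace operator in conformal coordinates. -/
def Conf.Lap (C : Conf R) (f : R) : R := C.Si ^ 2 * (C.T (C.T f) + C.N (C.N f))

/-- The moving frame. -/
structure Frame (C : Conf R) where
  f : Fin 4 → Fin 4 → R
  l : R
  b : R
  k : R
  k1 : R
  orth : ∀ i j, ip (f i) (f j) = if i = j then 1 else 0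
  compl : ∀ a c, ∑ i, f i a * f i c = if a = c then 1 else 0
  f0 : f 0 = C.x
  NS : C.N C.S = l * C.S
  TS : C.T C.S = 0
  N0 : ∀ a, C.N (f 0 a) = C.S * f 1 a
  N1 : ∀ a, C.N (f 1 a) = -(C.S * f 0 a) + k1 * f 3 a
  N2 : ∀ a, C.N (f 2 a) = b * f 3 a
  N3 : ∀ a, C.N (f 3 a) = -(k1 * f 1 a) - b * f 2 a
  X0 : ∀ a, Xv C.X (f 0) a = C.S * f 2 a
  X1 : ∀ a, Xv C.X (f 1) a = l * f 2 a + b * f 3 a
  X2 : ∀ a, Xv C.X (f 2) a = -(C.S * f 0 a) - l * f 1 a + k * f 3 a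
  X3 : ∀ a, Xv C.X (f 3) a = -(b * f 1 a) - k * f 2 a
  Tf : ∀ i a, C.T (f i a) = Xv C.X (f i) a
  Nl : C.N l = -C.S ^ 2 - k1 * k + b ^ 2
  Nb : C.N b = -(l * b)
  Nk : C.N k = k1 * l
  Tl : C.T l = 0
  Tb : C.T b = 0
  Tk : C.T k = 0
  Tk1 : C.T k1 = 0
  hV : ∀ a, qV C.Lap C.x a = C.Si * (k + k1) * f 3 a

end Pool.Agent.Lib.MP_51f413_gt
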