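import Pool.Agent.Lib.MP_51f413_gt.Lin

/-!
From the local alternatives to the global statement.
-/

namespace Pool.Agent.Lib.MP_51f413_gt

open scoped ContDiff

/-- The three alternatives on an open set. -/
def RAlt (x : E → Fin 4 → ℝ) (W : Set E) : Prop :=
  (∀ p ∈ W, fderiv ℝ (qc (LB x) (cpt x)) p = 0) ∧
    ((∀ p ∈ W, ∀ a, qV (LB x) (cpt x) a p = 0) ∨
      (∀ p ∈ W, 2 * qP (LB x) (cpt x) p + qc (LB x) (cpt x) p ^ 2 = 0 ∧
        ∑ a, qV (LB x) (cpt x) a p * x p a = 0 ∧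
        ∀ a, (2 : ℝ) • fderiv ℝ (qV (LB x) (cpt x) a) p +
          qc (LB x) (cpt x) p • fderiv ℝ (cpt x a) p = 0) ∨
      (∀ p ∈ W, qP (LB x) (cpt x) p + qc (LB x) (cpt x) p ^ 2 + 2 * qc (LB x) (cpt x) p = 0 ∧
        (∀ a b, fderiv ℝ (qZ (LB x) (cpt x) a b) p = 0) ∧
        (∀ a b, qZ (LB x) (cpt x) a b p = qZ (LB x) (cpt x) b a p) ∧
        (∀ a b, ∑ m, qZ (LB x) (cpt x) a m p * qZ (LB x) (cpt x) m b p =
          2 * qc (LB x) (cpt x) p * qZ (LB x) (cpt x) a b p +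
            if a = b then 4 * qc (LB x) (cpt x) p else 0) ∧
        ∑ a, qZ (LB x) (cpt x) a a p = 4 * qc (LB x) (cpt x) p ∧
        ∑ a, ∑ b, x p a * qZ (LB x) (cpt x) a b p * x p b = 0))

theorem glue_zero {G : Type} [NormedAddCommGroup G] {U : Set E} (hU : IsOpen U) {F : E → G}
    (hF : ContinuousOn F U)
    (h : ∀ W0 : Set E, IsOpen W0 → W0.Nonempty → W0 ⊆ U → ∃ p ∈ W0, F p = 0) :
    ∀ p ∈ U, F p = 0 := by
  intro p hp
  by_contra hn
  obtain ⟨q, hq, h0⟩ := h (U ∩ F ⁻¹' {0}ᶜ) (hF.isOpen_inter_preimage hU isOpen_compl_singleton)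
    ⟨p, hp, hn⟩ Set.inter_subset_left
  exact hq.2 h0

theorem glue_const {U : Set E} (hU : IsOpen U) (hc : IsConnected U) {f : E → ℝ}
    (hf : ContDiffOn ℝ ∞ f U)
    (h : ∀ W0 : Set E, IsOpen W0 → W0.Nonempty → W0 ⊆ U → ∃ p ∈ W0, fderiv ℝ f p = 0) :
    ∃ c, ∀ p ∈ U, f p = c :=
  hU.exists_is_const_of_fderiv_eq_zero hc.isPreconnected (hf.differentiableOn (by simp))
    (glue_zero hU (hf.continuousOn_fderiv_of_isOpen hU (by simp)) h)

theorem glue_fderiv {W : Set E} (hW : IsOpen W) {f : E → ℝ} {c : ℝ} (h : ∀ p ∈ W, f p = c) {p : E}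
    (hp : p ∈ W) : fderiv ℝ f p = 0 := by
  have e : f =ᶠ[nhds p] fun _ => c := by
    filter_upwards [hW.mem_nhds hp] with q hq using h q hq
  rw [e.fderiv_eq]
  simp

section smooth

variable {U : Set E} {x : E → Fin 4 → ℝ}

theorem glue_LB (h : Imm U x) {f : E → ℝ} (hf : ContDiffOn ℝ ∞ f U) :
    ContDiffOn ℝ ∞ (LB x f) U := by
  obtain ⟨G, -, -, -, hG⟩ := exists_geo0 h
  obtain ⟨F, hF⟩ := Rep.exists_of_smooth hf
  exact (hG F f hF).smooth

theorem glue_cpt (h : Imm U x) (a : Fin 4) : ContDiffOn ℝ ∞ (cpt x a) U :=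
  contDiffOn_pi.1 h.smooth a

theorem glue_qV (h : Imm U x) (a : Fin 4) : ContDiffOn ℝ ∞ (qV (LB x) (cpt x) a) U :=
  (glue_LB h (glue_cpt h a)).add (contDiffOn_const.mul (glue_cpt h a))

theorem glue_ip {u v : Fin 4 → E → ℝ} (hu : ∀ a, ContDiffOn ℝ ∞ (u a) U)
    (hv : ∀ a, ContDiffOn ℝ ∞ (v a) U) : ContDiffOn ℝ ∞ (ip u v) U :=
  (ContDiffOn.sum (s := Finset.univ) fun a _ => (hu a).mul (hv a)).congr fun p _ => by
    simp [ip]

theorem glue_qZ (h : Imm U x) (a b : Fin 4) : ContDiffOn ℝ ∞ (qZ (LB x) (cpt x) a b) U :=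
  (((((glue_LB h ((glue_qV h a).mul (glue_cpt h b))).sub
    ((glue_qV h a).mul (glue_LB h (glue_cpt h b)))).sub
    ((glue_cpt h b).mul (glue_LB h (glue_qV h a)))).neg).sub
    (contDiffOn_const.mul (((glue_cpt h a).mul (glue_qV h b)).add
      ((glue_qV h a).mul (glue_cpt h b))))).add
    (contDiffOn_const.mul ((glue_qV h a).mul (glue_qV h b)))

end smooth

theorem glue {U : Set E} {x : E → Fin 4 → ℝ} (h : Imm U x) (hU : IsConnected U)
    (hloc : ∀ W0 : Set E, IsOpen W0 → W0.Nonempty → W0 ⊆ U →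
      ∃ W : Set E, IsOpen W ∧ W.Nonempty ∧ W ⊆ W0 ∧ RAlt x W) :
    (∀ p ∈ U, ∀ m : Fin 4, LB x (fun q => x q m) p = -2 * x p m) ∨
    (∃ (a : Fin 4 → ℝ) (d : ℝ), a ≠ 0 ∧ ∀ p ∈ U, ∑ m : Fin 4, a m * x p m = d) ∨
    (∃ (a : ℝ) (u v : Fin 4 → ℝ), 0 < a ∧ a < 1 ∧
      ∑ m : Fin 4, u m ^ 2 = 1 ∧ ∑ m : Fin 4, v m ^ 2 = 1 ∧ ∑ m : Fin 4, u m * v m = 0 ∧
      ∀ p ∈ U, (∑ m : Fin 4, u m * x p m) ^ 2 + (∑ m : Fin 4, v m * x p m) ^ 2 = a ^ 2) := by
  have ho := h.isOpen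
  have hV := glue_qV h
  have hx := glue_cpt h
  have hsq : ∀ p, qc (LB x) (cpt x) p = ∑ a, qV (LB x) (cpt x) a p ^ 2 := fun p => by
    simp [qc, ip, sq]
  obtain ⟨c, hc⟩ := glue_const ho hU (f := qc (LB x) (cpt x)) (glue_ip hV hV) fun W0 h1 h2 h3 => by
    obtain ⟨W, -, ⟨p, hp⟩, h4, h5⟩ := hloc W0 h1 h2 h3
    exact ⟨p, h4 hp, h5.1 p hp⟩
  obtain ⟨p0, hp0⟩ := hU.nonempty
  have hc0 : 0 ≤ c := by
    rw [← hc p0 hp0, hsq]
    exact Finset.sum_nonneg fun a _ => sq_nonneg _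
  rcases hc0.eq_or_lt with rfl | hc0
  · refine Or.inl fun p hp m => ?_
    have h1 := hc p hp
    rw [hsq, Finset.sum_eq_zero_iff_of_nonneg fun a _ => sq_nonneg _] at h1
    have h2 : LB x (cpt x m) p + 2 * x p m = 0 := pow_eq_zero_iff two_ne_zero |>.1
      (h1 m (Finset.mem_univ m))
    exact (eq_neg_of_add_eq_zero_left h2).trans (neg_mul _ _).symm
  have hno : ∀ p ∈ U, ¬ ∀ a, qV (LB x) (cpt x) a p = 0 := by
    intro p hp h0
    have h1 := hc p hp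
    rw [hsq] at h1
    simp [h0] at h1
    exact hc0.ne h1
  obtain ⟨P, hP⟩ := glue_const ho hU (f := qP (LB x) (cpt x))
    (glue_ip hV fun a => glue_LB h (hV a)) fun W0 h1 h2 h3 => by
      obtain ⟨W, hW, ⟨p, hp⟩, h4, -, h5 | h5 | h5⟩ := hloc W0 h1 h2 h3
      · exact absurd (h5 p hp) (hno p (h3 (h4 hp)))
      · refine ⟨p, h4 hp, glue_fderiv hW (c := -c ^ 2 / 2) (fun q hq => ?_) hp⟩
        have := (h5 q hq).1
        rw [hc q (h3 (h4 hq))] at this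
        linarith
      · refine ⟨p, h4 hp, glue_fderiv hW (c := -c ^ 2 - 2 * c) (fun q hq => ?_) hp⟩
        have := (h5 q hq).1
        rw [hc q (h3 (h4 hq))] at this
        linarith
  by_cases hPc : 2 * P + c ^ 2 = 0
  · have key : ∀ W0 : Set E, IsOpen W0 → W0.Nonempty → W0 ⊆ U → ∃ p ∈ W0,
        ∑ a, qV (LB x) (cpt x) a p * x p a = 0 ∧
        ∀ a, (2 : ℝ) • fderiv ℝ (qV (LB x) (cpt x) a) p + c • fderiv ℝ (cpt x a) p = 0 := by
      intro W0 h1 h2 h3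
      obtain ⟨W, hW, ⟨p, hp⟩, h4, -, h5 | h5 | h5⟩ := hloc W0 h1 h2 h3
      · exact absurd (h5 p hp) (hno p (h3 (h4 hp)))
      · have h6 := (h5 p hp).2
        rw [hc p (h3 (h4 hp))] at h6
        exact ⟨p, h4 hp, h6⟩
      · have := (h5 p hp).1
        rw [hc p (h3 (h4 hp)), hP p (h3 (h4 hp))] at this
        nlinarith
    have h1 : ∀ a, ∃ A, ∀ p ∈ U, 2 * qV (LB x) (cpt x) a p + c * cpt x a p = A := fun a =>
      glue_const ho hU ((contDiffOn_const.mul (hV a)).add (contDiffOn_const.mul (hx a)))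
        fun W0 h1 h2 h3 => by
          obtain ⟨p, hp, -, h4⟩ := key W0 h1 h2 h3
          have d1 := (((hV a).contDiffAt (ho.mem_nhds (h3 hp))).differentiableAt
            (by simp)).hasFDerivAt
          have d2 := (((hx a).contDiffAt (ho.mem_nhds (h3 hp))).differentiableAt
            (by simp)).hasFDerivAt
          exact ⟨p, hp, ((d1.const_mul 2).add (d2.const_mul c)).fderiv.trans (h4 a)⟩
    choose A hA using h1
    have h2 := glue_zero ho (F := fun p => ∑ a, qV (LB x) (cpt x) a p * x p a)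
      (ContDiffOn.sum (s := Finset.univ) fun a _ => (hV a).mul (hx a)).continuousOn
      fun W0 h1 h2 h3 => by
        obtain ⟨p, hp, h4, -⟩ := key W0 h1 h2 h3
        exact ⟨p, hp, h4⟩
    have h3 : ∀ p ∈ U, ∑ m, A m * x p m = c := by
      intro p hp
      have h4 := h2 p hp
      have h5 := h.unit p hp
      simp only [← hA _ p hp, cpt, Fin.sum_univ_four] at h4 h5 ⊢
      linear_combination 2 * h4 + c * h5
    refine Or.inr (Or.inl ⟨A, c, fun h0 => ?_, h3⟩)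
    have := h3 p0 hp0
    simp [h0] at this
    exact hc0.ne this
  · have key : ∀ W0 : Set E, IsOpen W0 → W0.Nonempty → W0 ⊆ U → ∃ p ∈ W0,
        (∀ a b, fderiv ℝ (qZ (LB x) (cpt x) a b) p = 0) ∧
        (∀ a b, qZ (LB x) (cpt x) a b p = qZ (LB x) (cpt x) b a p) ∧
        (∀ a b, ∑ m, qZ (LB x) (cpt x) a m p * qZ (LB x) (cpt x) m b p =
          2 * c * qZ (LB x) (cpt x) a b p + if a = b then 4 * c else 0) ∧
        ∑ a, qZ (LB x) (cpt x) a a p = 4 * c ∧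
        ∑ a, ∑ b, x p a * qZ (LB x) (cpt x) a b p * x p b = 0 := by
      intro W0 h1 h2 h3
      obtain ⟨W, hW, ⟨p, hp⟩, h4, -, h5 | h5 | h5⟩ := hloc W0 h1 h2 h3
      · exact absurd (h5 p hp) (hno p (h3 (h4 hp)))
      · have := (h5 p hp).1
        rw [hc p (h3 (h4 hp)), hP p (h3 (h4 hp))] at this
        exact absurd this hPc
      · have h6 := (h5 p hp).2
        rw [hc p (h3 (h4 hp))] at h6
        exact ⟨p, h4 hp, h6⟩
    have h1 : ∀ a b, ∃ Z, ∀ p ∈ U, qZ (LB x) (cpt x) a b p = Z := fun a b =>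
      glue_const ho hU (glue_qZ h a b) fun W0 h1 h2 h3 => by
        obtain ⟨p, hp, h4, -⟩ := key W0 h1 h2 h3
        exact ⟨p, hp, h4 a b⟩
    choose Z hZ using h1
    have h2 := glue_zero ho (F := fun p => ∑ a, ∑ b, x p a * qZ (LB x) (cpt x) a b p * x p b)
      (ContDiffOn.sum (s := Finset.univ) fun a _ => ContDiffOn.sum (s := Finset.univ) fun b _ =>
        ((hx a).mul (glue_qZ h a b)).mul (hx b)).continuousOn
      fun W0 h1 h2 h3 => by
        obtain ⟨p, hp, -, -, -, -, h4⟩ := key W0 h1 h2 h3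
        exact ⟨p, hp, h4⟩
    obtain ⟨p, hp, -, h3, h4, h5, -⟩ := key U ho ⟨p0, hp0⟩ subset_rfl
    simp only [hZ _ _ p hp] at h3 h4 h5
    obtain ⟨a, u, v, k1, k2, k3, k4, k5, k6⟩ := exists_torus Z c hc0 h3 h4 h5
    refine Or.inr (Or.inr ⟨a, u, v, k1, k2, k3, k4, k5, fun q hq => k6 _ (h.unit q hq) ?_⟩)
    have := h2 q hq
    simpa only [hZ _ _ q hq] using this

end Pool.Agent.Lib.MP_51f413_gt
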