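import Pool.Agent.Lib.MP_51f413_gt.Sys
import Pool.Agent.Lib.MP_51f413_gt.Gauge

/-!
At a place of a function field of one variable the mean curvature cannot have a pole.
-/

namespace Pool.Agent.Lib.MP_51f413_gt

section lat

variable {K : Type} [Field K] [Algebra ℂ K] {d : Derivation ℂ K K} {l : K}
  {V : ValuationSubring K} {σ : K → ℚ}

lemma lat_rat (hσ : IsGauge d l V σ) (c : ℚ) : (c : K) ∈ V := by
  simpa using hσ.const c

lemma lat_rat_unit (hσ : IsGauge d l V σ) {c : ℚ} (hc : c ≠ 0) : V.valuation (c : K) = 1 := by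
  have : CharZero K := charZero_of_injective_algebraMap (algebraMap ℂ K).injective
  have h1 := (V.valuation_le_one_iff _).2 (lat_rat hσ c)
  have h2 := (V.valuation_le_one_iff _).2 (lat_rat hσ c⁻¹)
  rw [Rat.cast_inv, map_inv₀, inv_le_one₀ (zero_lt_iff.2 (by simpa using hc))] at h2
  exact le_antisymm h1 h2

lemma lat_unit (hσ : IsGauge d l V σ) {x : K} (hx : V.valuation x = 1) : x ≠ 0 ∧ σ x = 0 := by
  have h0 : x ≠ 0 := by
    rintro rfl
    simp at hx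
  have h1 := hσ.mul 1 1 one_ne_zero one_ne_zero
  have h2 := hσ.mul x x⁻¹ h0 (inv_ne_zero h0)
  have h3 := (hσ.le_iff x h0).1 hx.le
  have h4 := (hσ.le_iff x⁻¹ (inv_ne_zero h0)).1 (by rw [map_inv₀, hx, inv_one])
  rw [mul_one] at h1
  rw [mul_inv_cancel₀ h0] at h2
  exact ⟨h0, by linarith⟩

omit [Algebra ℂ K] in
lemma lat_small {x y : K} (hx : V.valuation x < 1) (hy : y ∈ V) : V.valuation (x * y) < 1 := by
  rw [map_mul]
  exact mul_lt_one_of_lt_of_le hx ((V.valuation_le_one_iff _).2 hy)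

lemma lat_d (hσ : IsGauge d l V σ) {f w : K} (h : f * w ∈ V) : d f * (w * l⁻¹) ∈ V := by
  by_cases hf : f = 0
  · simp [hf]
  have h1 := add_mem ((V.valuation_le_one_iff _).1 (hσ.log f hf).le) (lat_rat hσ (σ f))
  rw [sub_add_cancel] at h1
  have e : d f * (w * l⁻¹) = d f / (l * f) * (f * w) := by
    rw [div_eq_mul_inv, mul_inv]
    linear_combination (-(d f * l⁻¹ * w)) * mul_inv_cancel₀ hf
  exact e ▸ mul_mem h1 h

lemma lat_step (hσ : IsGauge d l V σ) (hl : l ≠ 0) (hσl : σ l ≤ 0) {f g err w : K} (m : ℕ)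
    (h1 : V.valuation (f * w) = 1) (h2 : σ f < 1) (h3 : d f = g + (2 * m + 1) * l * f - err)
    (h4 : V.valuation (err * (w * l⁻¹)) < 1) :
    V.valuation (g * (w * l⁻¹)) = 1 ∧ σ g < 1 := by
  obtain ⟨h5, h6⟩ := lat_unit hσ h1
  have hf := left_ne_zero_of_mul h5
  have hw := right_ne_zero_of_mul h5
  have hc : σ f - (2 * m + 1) ≠ 0 := by
    have : (0 : ℚ) ≤ m := Nat.cast_nonneg m
    linarith
  have : CharZero K := charZero_of_injective_algebraMap (algebraMap ℂ K).injective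
  have e : g * (w * l⁻¹) = ((σ f - (2 * m + 1) : ℚ) : K) * (f * w) +
      ((d f / (l * f) - (σ f : K)) * (f * w) + err * (w * l⁻¹)) := by
    rw [h3]
    push_cast
    field_simp
    ring
  have h7 : V.valuation (((σ f - (2 * m + 1) : ℚ) : K) * (f * w)) = 1 := by
    rw [map_mul, lat_rat_unit hσ hc, h1, one_mul]
  have h8 : V.valuation (g * (w * l⁻¹)) = 1 := by
    rw [e, V.valuation.map_add_eq_of_lt_left, h7]
    rw [h7]
    exact V.valuation.map_add_lt (lat_small (hσ.log f hf) ((V.valuation_le_one_iff _).1 h1.le)) h4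
  obtain ⟨h9, h10⟩ := lat_unit hσ h8
  have hg := left_ne_zero_of_mul h9
  refine ⟨h8, ?_⟩
  have e1 := hσ.mul _ _ h9 hl
  rw [mul_assoc, mul_assoc, inv_mul_cancel₀ hl, mul_one, hσ.mul _ _ hg hw] at e1
  rw [hσ.mul _ _ hf hw] at h6
  linarith

/-- The lattice attached to the multiplier `w`. -/
def latLam (V : ValuationSubring K) (κ j w : K) (F : Fin 4 → K) : Prop :=
  F 0 * w ∈ V ∧ F 3 * w ∈ V ∧ (F 1 + j * F 2) * (κ * w) ∈ V ∧ (F 1 - j * F 2) * (κ⁻¹ * w) ∈ V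

variable {κ j w : K} {F F' : Fin 4 → K}

omit [Algebra ℂ K] in
lemma latLam.add (h : latLam V κ j w F) (h' : latLam V κ j w F') :
    latLam V κ j w (fun i => F i + F' i) := by
  refine ⟨?_, ?_, ?_, ?_⟩
  · rw [add_mul]
    exact add_mem h.1 h'.1
  · rw [add_mul]
    exact add_mem h.2.1 h'.2.1
  · rw [mul_add, add_add_add_comm, add_mul]
    exact add_mem h.2.2.1 h'.2.2.1
  · rw [mul_add, add_sub_add_comm, add_mul]
    exact add_mem h.2.2.2 h'.2.2.2

omit [Algebra ℂ K] in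
lemma latLam.smul (h : latLam V κ j w F) {c w' : K} (a : K) (hc : c ∈ V) (e : a * w' = c * w) :
    latLam V κ j w' (fun i => a * F i) := by
  refine ⟨?_, ?_, ?_, ?_⟩
  · have e1 : a * F 0 * w' = c * (F 0 * w) := by linear_combination F 0 * e
    exact e1 ▸ mul_mem hc h.1
  · have e1 : a * F 3 * w' = c * (F 3 * w) := by linear_combination F 3 * e
    exact e1 ▸ mul_mem hc h.2.1
  · have e1 : (a * F 1 + j * (a * F 2)) * (κ * w') = c * ((F 1 + j * F 2) * (κ * w)) := by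
      linear_combination (F 1 + j * F 2) * κ * e
    exact e1 ▸ mul_mem hc h.2.2.1
  · have e1 : (a * F 1 - j * (a * F 2)) * (κ⁻¹ * w') = c * ((F 1 - j * F 2) * (κ⁻¹ * w)) := by
      linear_combination (F 1 - j * F 2) * κ⁻¹ * e
    exact e1 ▸ mul_mem hc h.2.2.2

lemma latLam.der (hσ : IsGauge d l V σ) (hdj : d j = 0) (h : latLam V κ j w F) :
    latLam V κ j (w * l⁻¹) (fun i => d (F i)) := by
  refine ⟨lat_d hσ h.1, lat_d hσ h.2.1, ?_, ?_⟩
  · simpa [hdj, mul_assoc] using lat_d hσ h.2.2.1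
  · simpa [hdj, mul_assoc] using lat_d hσ h.2.2.2

omit [Algebra ℂ K] in
lemma latLam.om {e b k1 t i : K} (hκ : κ * κ⁻¹ = 1) (hj : j ^ 2 = -1) (ht : 2 * t = 1)
    (htV : t ∈ V) (h1 : e * κ * i ∈ V) (h2 : e * κ⁻¹ * i ∈ V) (h3 : (k1 + j * b) * κ * i ∈ V)
    (h4 : (k1 - j * b) * κ⁻¹ * i ∈ V) (h : latLam V κ j w F) :
    latLam V κ j (w * i) (Om e b k1 F) := by
  obtain ⟨a0, a3, a1, a2⟩ := h
  unfold latLam
  generalize κ⁻¹ = κ' at *
  refine ⟨?_, ?_, ?_, ?_⟩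
  · have e1 : Om e b k1 F 0 * (w * i) = -(t * (e * κ' * i * ((F 1 + j * F 2) * (κ * w)) +
        e * κ * i * ((F 1 - j * F 2) * (κ' * w)))) := by
      simp only [Om, Matrix.cons_val]
      grind
    exact e1 ▸ neg_mem (mul_mem htV (add_mem (mul_mem h2 a1) (mul_mem h1 a2)))
  · have e1 : Om e b k1 F 3 * (w * i) = t * ((k1 - j * b) * κ' * i * ((F 1 + j * F 2) * (κ * w)) +
        (k1 + j * b) * κ * i * ((F 1 - j * F 2) * (κ' * w))) := by
      simp only [Om, Matrix.cons_val]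
      grind
    exact e1 ▸ mul_mem htV (add_mem (mul_mem h4 a1) (mul_mem h3 a2))
  · have e1 : (Om e b k1 F 1 + j * Om e b k1 F 2) * (κ * (w * i)) =
        e * κ * i * (F 0 * w) - (k1 + j * b) * κ * i * (F 3 * w) := by
      simp only [Om, Matrix.cons_val]
      ring
    exact e1 ▸ sub_mem (mul_mem h1 a0) (mul_mem h3 a3)
  · have e1 : (Om e b k1 F 1 - j * Om e b k1 F 2) * (κ' * (w * i)) =
        e * κ' * i * (F 0 * w) - (k1 - j * b) * κ' * i * (F 3 * w) := by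
      simp only [Om, Matrix.cons_val]
      ring
    exact e1 ▸ sub_mem (mul_mem h2 a0) (mul_mem h4 a3)

omit [Algebra ℂ K] in
lemma latLam.xm {e b k t i : K} (hκ : κ * κ⁻¹ = 1) (hj : j ^ 2 = -1) (ht : 2 * t = 1)
    (hi : l * i = 1) (htV : t ∈ V) (hjV : j ∈ V) (h1 : e * κ * i ∈ V) (h2 : e * κ⁻¹ * i ∈ V)
    (h5 : (b + j * k) * κ * i ∈ V) (h6 : (b - j * k) * κ⁻¹ * i ∈ V) (h : latLam V κ j w F) :
    latLam V κ j (w * i) (Xm e l b k F) := by
  obtain ⟨a0, a3, a1, a2⟩ := h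
  unfold latLam
  generalize κ⁻¹ = κ' at *
  refine ⟨?_, ?_, ?_, ?_⟩
  · have e1 : Xm e l b k F 0 * (w * i) = t * j * (e * κ' * i * ((F 1 + j * F 2) * (κ * w)) -
        e * κ * i * ((F 1 - j * F 2) * (κ' * w))) := by
      simp only [Xm, Matrix.cons_val]
      grind
    exact e1 ▸ mul_mem (mul_mem htV hjV) (sub_mem (mul_mem h2 a1) (mul_mem h1 a2))
  · have e1 : Xm e l b k F 3 * (w * i) = t * ((b - j * k) * κ' * i * ((F 1 + j * F 2) * (κ * w)) +
        (b + j * k) * κ * i * ((F 1 - j * F 2) * (κ' * w))) := by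
      simp only [Xm, Matrix.cons_val]
      grind
    exact e1 ▸ mul_mem htV (add_mem (mul_mem h6 a1) (mul_mem h5 a2))
  · have e1 : (Xm e l b k F 1 + j * Xm e l b k F 2) * (κ * (w * i)) =
        j * (e * κ * i * (F 0 * w) + (F 1 + j * F 2) * (κ * w)) -
          (b + j * k) * κ * i * (F 3 * w) := by
      simp only [Xm, Matrix.cons_val]
      grind
    exact e1 ▸ sub_mem (mul_mem hjV (add_mem (mul_mem h1 a0) a1)) (mul_mem h5 a3)
  · have e1 : (Xm e l b k F 1 - j * Xm e l b k F 2) * (κ' * (w * i)) =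
        -(j * (e * κ' * i * (F 0 * w) + (F 1 - j * F 2) * (κ' * w))) -
          (b - j * k) * κ' * i * (F 3 * w) := by
      simp only [Xm, Matrix.cons_val]
      grind
    exact e1 ▸ sub_mem (neg_mem (mul_mem hjV (add_mem (mul_mem h2 a0) a2))) (mul_mem h6 a3)

end lat

namespace Sys

theorem no_pole {K : Type} [Field K] [Algebra ℂ K] {d : Derivation ℂ K K} {N : ℕ} {r : ℕ → ℂ}
    (s : Sys d N r) (hN : 0 < N) (hn : s.Nrm) (V : ValuationSubring K) (σ : K → ℚ)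
    (hσ : IsGauge d s.l V σ) (hl : s.l ≠ 0) (hη : s.eta ≠ 0) (κ j : K) (hκ : κ ≠ 0)
    (hj : j ^ 2 = -1)
    (h1 : V.valuation (s.e * κ / s.l) < 1) (h2 : V.valuation (s.e / (κ * s.l)) < 1)
    (h3 : V.valuation ((s.eta - s.k + j * s.b) * κ / s.l) ≤ 1)
    (h4 : V.valuation ((s.eta - s.k - j * s.b) / (κ * s.l)) ≤ 1)
    (h5 : V.valuation ((s.b + j * s.k) * κ / s.l) ≤ 1)
    (h6 : V.valuation ((s.b - j * s.k) / (κ * s.l)) ≤ 1)
    (h7 : V.valuation (s.e * s.k / s.l ^ 2) < 1)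
    (h8 : V.valuation (s.e ^ 2 * s.b * κ / s.l ^ 3) < 1)
    (h9 : V.valuation (s.e ^ 2 * s.b / (κ * s.l ^ 3)) < 1)
    (hση : σ s.eta < 1) (hσl : σ s.l ≤ 0) : False := by
  have : CharZero K := charZero_of_injective_algebraMap (algebraMap ℂ K).injective
  have hκ' : κ * κ⁻¹ = 1 := mul_inv_cancel₀ hκ
  have hi : s.l * s.l⁻¹ = 1 := mul_inv_cancel₀ hl
  have ht : 2 * ((1 / 2 : ℚ) : K) = 1 := by push_cast; norm_num
  have htV := lat_rat hσ (1 / 2)
  generalize ((1 / 2 : ℚ) : K) = t at ht htV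
  have hjV : j ∈ V := by
    rw [← V.valuation_le_one_iff, ← pow_le_one_iff two_ne_zero, ← map_pow, hj]
    simp
  have hdj : d j = 0 := by
    have e := congrArg d hj
    have hj0 : j ≠ 0 := by
      rintro rfl
      simp at hj
    simpa [hj0] using e
  simp only [div_eq_mul_inv, mul_inv, ← inv_pow, ← mul_assoc] at h1 h2 h3 h4 h5 h6 h7 h8 h9
  rw [V.valuation_le_one_iff] at h3 h4 h5 h6
  have h1' := (V.valuation_le_one_iff _).1 h1.le
  have h2' := (V.valuation_le_one_iff _).1 h2.le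
  have hc : ∀ (m : ℕ) (w : K), -((2 * m + 1) * s.l) * (w * s.l⁻¹) = -(2 * m + 1) * w := by
    intro m w
    linear_combination (-(2 * m + 1) * w) * hi
  have hcV : ∀ m : ℕ, -(2 * m + 1 : K) ∈ V := fun m => by
    simpa using lat_rat hσ (-(2 * m + 1))
  have hH : ∀ m < N, ∀ w, latLam V κ j w (s.G m) → latLam V κ j (w * s.l⁻¹) (s.H m) := by
    intro m hm w h
    have e : s.H m = fun i => d (s.G m i) + -((2 * m + 1) * s.l) * s.G m i +
        Om s.e s.b (s.G 0 3 - s.k) (s.G m) i := by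
      funext i
      rw [s.dG m hm i]
      ring
    rw [e]
    exact ((h.der hσ hdj).add (h.smul _ (hcV m) (hc m w))).add
      (h.om hκ' hj ht htV h1' h2' h3 h4)
  have hG : ∀ m < N, ∀ w, latLam V κ j w (s.G m) →
      latLam V κ j (w * s.l⁻¹ * s.l⁻¹) (s.G (m + 1)) := by
    intro m hm w h
    have h' := hH m hm w h
    have e : s.G (m + 1) = fun i => d (s.H m i) + -((2 * m + 1) * s.l) * s.H m i +
        Om s.e s.b (s.G 0 3 - s.k) (s.H m) i +
        Xm s.e s.l s.b s.k (Xm s.e s.l s.b s.k (s.G m)) i := by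
      funext i
      rw [s.dH m hm i]
      ring
    rw [e]
    exact (((h'.der hσ hdj).add (h'.smul _ (hcV m) (hc m _))).add
      (h'.om hκ' hj ht htV h1' h2' h3 h4)).add
      ((h.xm hκ' hj ht hi htV hjV h1' h2' h5 h6).xm hκ' hj ht hi htV hjV h1' h2' h5 h6)
  have hee : V.valuation ((s.e * s.l⁻¹) ^ 2) < 1 := by
    have e : (s.e * s.l⁻¹) ^ 2 = s.e * κ * s.l⁻¹ * (s.e * κ⁻¹ * s.l⁻¹) := by
      linear_combination (-(s.e * s.l⁻¹) ^ 2) * hκ'
    exact e ▸ lat_small h1 h2'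
  have key : ∀ m ≤ N, latLam V κ j (s.eta⁻¹ * s.l⁻¹ ^ (2 * m)) (s.G m) ∧
      V.valuation (s.ax (s.G m) * (s.eta⁻¹ * s.l⁻¹ ^ (2 * m) * s.l⁻¹)) = 1 ∧
      σ (s.ax (s.G m)) < 1 := by
    intro m
    induction m with
    | zero =>
      intro _
      have e : s.ax (s.G 0) = s.l * s.eta := by simp [ax, eta, hn.2.1, hn.2.2]
      refine ⟨⟨by simp [hn.1], ?_, by simp [hn.2.1, hn.2.2], by simp [hn.2.1, hn.2.2]⟩, ?_, ?_⟩
      · have : s.G 0 3 * s.eta⁻¹ = 1 := mul_inv_cancel₀ hη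
        simp [this]
      · rw [e, show s.l * s.eta * (s.eta⁻¹ * s.l⁻¹ ^ (2 * 0) * s.l⁻¹) = 1 by
          rw [mul_zero, pow_zero]; field_simp, map_one]
      · rw [e, hσ.mul _ _ hl hη]
        linarith
    | succ m ih =>
      intro hm
      obtain ⟨a1, a2, a3⟩ := ih (by omega)
      have hm' : m < N := hm
      rw [show s.eta⁻¹ * s.l⁻¹ ^ (2 * (m + 1)) = s.eta⁻¹ * s.l⁻¹ ^ (2 * m) * s.l⁻¹ * s.l⁻¹ by ring]
      generalize s.eta⁻¹ * s.l⁻¹ ^ (2 * m) = w at a1 a2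
      have b1 := hH m hm' w a1
      obtain ⟨b2, b3⟩ := lat_step hσ hl hσl m a2 a3 (s.d_axG hm') (by
        have e : s.e * (s.k * s.G m 0 + s.e * s.G m 3) * (w * s.l⁻¹ * s.l⁻¹) =
            s.e * s.k * s.l⁻¹ ^ 2 * (s.G m 0 * w) + (s.e * s.l⁻¹) ^ 2 * (s.G m 3 * w) := by ring
        rw [e]
        exact V.valuation.map_add_lt (lat_small h7 a1.1) (lat_small hee a1.2.1))
      refine ⟨hG m hm' w a1, lat_step hσ hl hσl m b2 b3 (s.d_axH hm') ?_⟩
      have e : s.e * (s.k * s.H m 0 + s.e * s.H m 3 + s.e * s.b * s.G m 2) *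
            (w * s.l⁻¹ * s.l⁻¹ * s.l⁻¹) =
          s.e * s.k * s.l⁻¹ ^ 2 * (s.H m 0 * (w * s.l⁻¹)) +
            (s.e * s.l⁻¹) ^ 2 * (s.H m 3 * (w * s.l⁻¹)) +
            (s.e ^ 2 * s.b * κ * s.l⁻¹ ^ 3 * ((s.G m 1 - j * s.G m 2) * (κ⁻¹ * w) * (t * j)) -
              s.e ^ 2 * s.b * κ⁻¹ * s.l⁻¹ ^ 3 * ((s.G m 1 + j * s.G m 2) * (κ * w) * (t * j))) := by
        generalize κ⁻¹ = κ' at hκ' ⊢
        generalize s.l⁻¹ = i
        grind
      rw [e]
      exact V.valuation.map_add_lt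
        (V.valuation.map_add_lt (lat_small h7 b1.1) (lat_small hee b1.2.1))
        (V.valuation.map_sub_lt (lat_small h8 (mul_mem a1.2.2.2 (mul_mem htV hjV)))
          (lat_small h9 (mul_mem a1.2.2.1 (mul_mem htV hjV))))
  have e : s.ax (s.G N) * (s.eta⁻¹ * s.l⁻¹ ^ (2 * N) * s.l⁻¹) =
      -∑ m ∈ Finset.range N, (s.e * s.l⁻¹) ^ 2 * (((s.e * s.l⁻¹) ^ 2) ^ (N - m - 1) *
        (algebraMap ℂ K (r m) * (s.ax (s.G m) * (s.eta⁻¹ * s.l⁻¹ ^ (2 * m) * s.l⁻¹)))) := by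
    simp only [ax, s.top, Finset.mul_sum, mul_neg, ← Finset.sum_neg_distrib,
      ← Finset.sum_sub_distrib, ← Finset.sum_add_distrib, Finset.sum_mul]
    refine Finset.sum_congr rfl fun m hm => ?_
    obtain ⟨n, rfl⟩ := Nat.exists_eq_add_of_lt (Finset.mem_range.1 hm)
    rw [show m + n + 1 - m = n + 1 by omega, Nat.add_sub_cancel]
    ring
  have h := (key N le_rfl).2.1
  rw [e, V.valuation.map_neg] at h
  refine absurd h (V.valuation.map_sum_lt one_ne_zero fun m hm => lat_small hee ?_).ne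
  exact mul_mem (pow_mem ((V.valuation_le_one_iff _).1 hee.le) _) (mul_mem (hσ.const _)
    ((V.valuation_le_one_iff _).1 (key m (Finset.mem_range.1 hm).le).2.1.le))

end Sys

end Pool.Agent.Lib.MP_51f413_gt
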