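import Pool.Agent.Lib.MP_51f413_gt.Real

/-!
Linear algebra in Euclidean four-space.
-/

namespace Pool.Agent.Lib.MP_51f413_gt

open Matrix in
theorem lin_peel (P : Matrix (Fin 4) (Fin 4) ℝ) (hs : Pᵀ = P) (hq : P * P = P)
    (ht : 0 < P.trace) : ∃ u : Fin 4 → ℝ, u ⬝ᵥ u = 1 ∧ P *ᵥ u = u ∧
      (P - vecMulVec u u)ᵀ = P - vecMulVec u u ∧
      (P - vecMulVec u u) * (P - vecMulVec u u) = P - vecMulVec u u ∧
      (P - vecMulVec u u).trace = P.trace - 1 := by
  obtain ⟨i, hi⟩ : ∃ i, 0 < P i i := by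
    by_contra! h
    exact ht.not_ge (Finset.sum_nonpos fun i _ => h i)
  have h1 : ∀ a b, ∑ m, P a m * P m b = P a b := fun a b => congrFun₂ hq a b
  have h2 : ∀ a b, P b a = P a b := fun a b => congrFun₂ hs a b
  obtain ⟨u, hu⟩ : ∃ u : Fin 4 → ℝ, u = fun a => P a i * (√(P i i))⁻¹ := ⟨_, rfl⟩
  have h3 : u ⬝ᵥ u = 1 := by
    have : u ⬝ᵥ u = (∑ m, P i m * P m i) * (√(P i i) * √(P i i))⁻¹ := by
      rw [hu, dotProduct, Finset.sum_mul]
      exact Finset.sum_congr rfl fun m _ => by rw [h2 m i]; ring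
    rw [this, h1, Real.mul_self_sqrt hi.le, mul_inv_cancel₀ hi.ne']
  have h4 : P *ᵥ u = u := by
    funext a
    simp only [hu, mulVec, dotProduct, ← mul_assoc, ← Finset.sum_mul, h1]
  have h5 : u ᵥ* P = u := by rw [← mulVec_transpose, hs, h4]
  refine ⟨u, h3, h4, by rw [transpose_sub, hs, transpose_vecMulVec], ?_, ?_⟩
  · rw [sub_mul, mul_sub, mul_sub, hq, mul_vecMulVec, vecMulVec_mul, h4,
      vecMulVec_mul_vecMulVec, h5, h3, one_smul, sub_self, sub_zero]
  · rw [trace_sub, trace_vecMulVec, h3]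

/-- The cone of a symmetric matrix with two double eigenvalues of opposite signs meets the unit
sphere in a product of two circles. -/
theorem exists_torus (Z : Fin 4 → Fin 4 → ℝ) (c : ℝ) (hc : 0 < c) (hs : ∀ a b, Z a b = Z b a)
    (hq : ∀ a b, ∑ m, Z a m * Z m b = 2 * c * Z a b + if a = b then 4 * c else 0)
    (ht : ∑ a, Z a a = 4 * c) :
    ∃ (a : ℝ) (u v : Fin 4 → ℝ), 0 < a ∧ a < 1 ∧
      ∑ m : Fin 4, u m ^ 2 = 1 ∧ ∑ m : Fin 4, v m ^ 2 = 1 ∧ ∑ m : Fin 4, u m * v m = 0 ∧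
      ∀ y : Fin 4 → ℝ, ∑ m : Fin 4, y m ^ 2 = 1 → ∑ i, ∑ j, y i * Z i j * y j = 0 →
        (∑ m : Fin 4, u m * y m) ^ 2 + (∑ m : Fin 4, v m * y m) ^ 2 = a ^ 2 := by
  have hs2 : √(c ^ 2 + 4 * c) ^ 2 = c ^ 2 + 4 * c := Real.sq_sqrt (by positivity)
  have hcs : c < √(c ^ 2 + 4 * c) := Real.lt_sqrt_of_sq_lt (by linarith)
  generalize √(c ^ 2 + 4 * c) = s at hs2 hcs
  have hs0 : 0 < s := hc.trans hcs
  obtain ⟨P, hP⟩ : ∃ P : Matrix (Fin 4) (Fin 4) ℝ, P = (2 * s)⁻¹ • (Matrix.of Z - (c - s) • 1) :=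
    ⟨_, rfl⟩
  have hZ : Matrix.of Z * Matrix.of Z = (2 * c) • Matrix.of Z + (4 * c) • 1 := by
    ext a b
    simp [Matrix.mul_apply, hq, Matrix.one_apply]
  have hZP : Matrix.of Z = (2 * s) • P + (c - s) • 1 := by
    rw [hP, smul_inv_smul₀ (by positivity), sub_add_cancel]
  obtain ⟨u, u1, u2, u3, u4, u5⟩ := lin_peel P (by
      ext a b
      simp [hP, hs a b, Matrix.one_apply, eq_comm]) (by
      rw [hP]
      simp only [smul_mul_assoc, mul_smul_comm, sub_mul, mul_sub, hZ, one_mul, mul_one]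
      match_scalars
      · field_simp; ring
      · field_simp; linear_combination -hs2) (by
      simp only [hP, Matrix.trace_smul, Matrix.trace_sub, Matrix.trace_one]
      simp only [Matrix.trace, Matrix.diag, Matrix.of_apply, ht, smul_eq_mul, Fintype.card_fin]
      exact mul_pos (by positivity) (by push_cast; linarith))
  have htr : P.trace = 2 := by
    simp only [hP, Matrix.trace_smul, Matrix.trace_sub, Matrix.trace_one]
    simp only [Matrix.trace, Matrix.diag, Matrix.of_apply, ht, smul_eq_mul, Fintype.card_fin]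
    field_simp
    push_cast
    ring
  obtain ⟨v, v1, v2, v3, v4, v5⟩ := lin_peel _ u3 u4 (by rw [u5, htr]; norm_num)
  have h0 : P - Matrix.vecMulVec u u - Matrix.vecMulVec v v = 0 := by
    rw [← Matrix.trace_mul_conjTranspose_self_eq_zero_iff,
      Matrix.conjTranspose_eq_transpose_of_trivial, v3, v4, v5, u5, htr]
    norm_num
  have huv : u ⬝ᵥ v = 0 := by
    rw [← v2, Matrix.dotProduct_mulVec, ← Matrix.mulVec_transpose, u3, Matrix.sub_mulVec, u2,
      Matrix.vecMulVec_mulVec, u1]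
    simp
  have ha : 0 < (s - c) / (2 * s) := div_pos (sub_pos.2 hcs) (by positivity)
  refine ⟨√((s - c) / (2 * s)), u, v, Real.sqrt_pos.2 ha, ?_, by simpa only [sq, dotProduct] using u1,
    by simpa only [sq, dotProduct] using v1, huv, fun y hy hZy => ?_⟩
  · rw [Real.sqrt_lt' one_pos, div_lt_iff₀ (by positivity)]
    linarith
  · have h1 : y ⬝ᵥ (Matrix.of Z).mulVec y = 0 := by
      rw [← hZy]
      simp only [dotProduct, Matrix.mulVec, Matrix.of_apply, Finset.mul_sum, mul_assoc]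
    have h2 : y ⬝ᵥ y = 1 := by simpa only [sq, dotProduct] using hy
    rw [sub_sub, sub_eq_zero] at h0
    rw [hZP, h0] at h1
    simp only [Matrix.add_mulVec, Matrix.smul_mulVec, Matrix.vecMulVec_mulVec, Matrix.one_mulVec,
      add_dotProduct, smul_dotProduct, h2, smul_eq_mul, op_smul_eq_smul, dotProduct_comm y] at h1
    rw [Real.sq_sqrt ha.le, eq_div_iff (by positivity)]
    change ((u ⬝ᵥ y) ^ 2 + (v ⬝ᵥ y) ^ 2) * _ = _
    linear_combination h1

/-- A nonzero Killing field of the sphere does not vanish on an open part of a surface. -/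
theorem Imm.exists_ne {U : Set E} {x : E → Fin 4 → ℝ} (h : Imm U x) (hne : U.Nonempty)
    (X : Matrix (Fin 4) (Fin 4) ℝ) (hX : X.transpose = -X) (hX0 : X ≠ 0) :
    ∃ p ∈ U, X.mulVec (x p) ≠ 0 := by
  by_contra! hc
  obtain ⟨p, hp⟩ := hne
  have hU := h.isOpen.mem_nhds hp
  have hd : HasFDerivAt x (fderiv ℝ x p) p :=
    ((h.smooth.contDiffAt hU).differentiableAt (by simp)).hasFDerivAt
  have h1 : ∀ w, X.mulVec (fderiv ℝ x p w) = 0 := fun w =>
    DFunLike.congr_fun (((LinearMap.toContinuousLinearMap X.mulVecLin).hasFDerivAt.comp p hd).unique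
      ((hasFDerivAt_const (0 : Fin 4 → ℝ) p).congr_of_eventuallyEq
        (by filter_upwards [hU] with q hq using hc q hq))) w
  have h2 : ∀ w, x p ⬝ᵥ fderiv ℝ x p w = 0 := fun w => by
    have := DFunLike.congr_fun ((HasFDerivAt.fun_sum (u := Finset.univ) fun m _ =>
      (hasFDerivAt_pi'.1 hd m).pow 2).unique
      ((hasFDerivAt_const (1 : ℝ) p).congr_of_eventuallyEq
        (by filter_upwards [hU] with q hq using h.unit q hq))) w
    simp [Fin.sum_univ_four, dotProduct] at this ⊢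
    linarith
  have h3 : x p ⬝ᵥ x p = 1 := by simpa only [sq, dotProduct] using h.unit p hp
  let T : (ℝ × E) →ₗ[ℝ] Fin 4 → ℝ :=
    (LinearMap.toSpanSingleton ℝ _ (x p)).coprod (fderiv ℝ x p).toLinearMap
  have hT : ∀ z, T z = z.1 • x p + fderiv ℝ x p z.2 := fun _ => rfl
  have h4 : Function.Injective T := (injective_iff_map_eq_zero T).2 fun z hz => by
    have e := congrArg (x p ⬝ᵥ ·) hz
    simp only [hT, dotProduct_add, dotProduct_smul, h2, h3, dotProduct_zero, smul_eq_mul,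
      mul_one, add_zero] at e
    rw [hT, e, zero_smul, zero_add] at hz
    exact Prod.ext e (h.inj p hp (hz.trans (map_zero _).symm))
  have h5 : LinearMap.range T ≤ LinearMap.ker X.mulVecLin := by
    rintro _ ⟨z, rfl⟩
    simp [hT, Matrix.mulVec_add, Matrix.mulVec_smul, h1, hc p hp]
  have h6 := Submodule.finrank_mono h5
  have h7 := X.mulVecLin.finrank_range_add_finrank_ker
  rw [LinearMap.finrank_range_of_inj h4] at h6
  simp only [Module.finrank_prod, Module.finrank_self, Module.finrank_fin_fun] at h6 h7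
  obtain ⟨v, hv⟩ := (finrank_le_one_iff (K := ℝ) (V := LinearMap.range X.mulVecLin)).1 (by omega)
  choose c hcv using fun j => hv ⟨_, Pi.single j 1, rfl⟩
  have h8 : ∀ i j, X i j = c j * v.1 i := fun i j => by
    simpa using (congrFun (congrArg Subtype.val (hcv j)) i).symm
  have h9 : ∀ i j, X j i = -X i j := fun i j => congrFun₂ hX i j
  refine hX0 (Matrix.ext fun i j => mul_self_eq_zero.1 ?_)
  have e1 := h9 i i
  have e2 := h9 i j
  rw [h8] at e1
  linear_combination X i j * e2 - X i j * h8 j i - c i * v.1 j * h8 i j - c j * v.1 j / 2 * e1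

end Pool.Agent.Lib.MP_51f413_gt
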