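import Pool.Agent.Lib.MP_51f413_gt.Glue
import Pool.Agent.Lib.MP_51f413_gt.GLoc

/-!
The local alternatives for a finite type surface tangent to a Killing field.
-/

namespace Pool.Agent.Lib.MP_51f413_gt

open scoped ContDiff

theorem loc_clm_zero (φ : E →L[ℝ] ℝ) (h : ∀ i : Fin 2, φ (Pi.single i 1) = 0) : φ = 0 := by
  ext v
  have hv : v = v 0 • (Pi.single 0 1 : E) + v 1 • (Pi.single 1 1 : E) := by
    funext i
    fin_cases i <;> simp
  rw [hv, map_add, map_smul, map_smul, h, h]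
  simp

theorem loc_add {U : Set E} {F G : Sm U} {f g : E → ℝ} (h : Rep F f) (h' : Rep G g) :
    Rep (F + G) (f + g) := h.add h'

theorem loc_sub {U : Set E} {F G : Sm U} {f g : E → ℝ} (h : Rep F f) (h' : Rep G g) :
    Rep (F - G) (f - g) := h.sub h'

theorem loc_mul {U : Set E} {F G : Sm U} {f g : E → ℝ} (h : Rep F f) (h' : Rep G g) :
    Rep (F * G) (f * g) := h.mul h'

theorem loc_neg {U : Set E} {F : Sm U} {f : E → ℝ} (h : Rep F f) : Rep (-F) (-f) := h.neg

theorem loc_pow {U : Set E} {F : Sm U} {f : E → ℝ} (h : Rep F f) (n : ℕ) :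
    Rep (F ^ n) (f ^ n) := h.pow n

theorem loc_two {U : Set E} : Rep (2 : Sm U) (2 : E → ℝ) := Rep.ofNat 2

theorem loc_four {U : Set E} : Rep (4 : Sm U) (4 : E → ℝ) := Rep.ofNat 4

theorem loc_sum {U : Set E} {α : Type} [Fintype α] {F : α → Sm U} {f : α → E → ℝ}
    (h : ∀ a, Rep (F a) (f a)) : Rep (∑ a, F a) (∑ a, f a) :=
  (Rep.sum Finset.univ fun a _ => h a).congr fun p _ => (Finset.sum_apply p _ _).symm

theorem loc_form {a b c u v : ℝ} (ha : 0 < a) (hd : 0 < a * c - b ^ 2) :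
    0 ≤ c * u * u + -b * u * v + (-b * v * u + a * v * v) ∧
      (c * u * u + -b * u * v + (-b * v * u + a * v * v) = 0 → u = 0 ∧ v = 0) := by
  have key : a * (c * u * u + -b * u * v + (-b * v * u + a * v * v)) =
      (a * v - b * u) ^ 2 + (a * c - b ^ 2) * u ^ 2 := by ring
  have h1 : 0 ≤ (a * c - b ^ 2) * u ^ 2 := mul_nonneg hd.le (sq_nonneg u)
  have h2 := sq_nonneg (a * v - b * u)
  refine ⟨le_of_mul_le_mul_left (by rw [key, mul_zero]; exact add_nonneg h2 h1) ha, fun h => ?_⟩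
  rw [h, mul_zero] at key
  have h3 : (a * c - b ^ 2) * u ^ 2 = 0 := by linarith
  have hu : u = 0 := pow_eq_zero_iff (two_ne_zero) |>.mp ((mul_eq_zero.mp h3).resolve_left hd.ne')
  have h4 : (a * v - b * u) ^ 2 = 0 := by linarith
  rw [hu, mul_zero, sub_zero] at h4
  exact ⟨hu, (mul_eq_zero.mp (pow_eq_zero_iff two_ne_zero |>.mp h4)).resolve_left ha.ne'⟩

/-- Translation of the alternatives modulo the vanishing ideal of an open set. -/
theorem ralt_of_alt {U : Set E} {x : E → Fin 4 → ℝ} (h : Imm U x) (G : Geo0 (Sm U))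
    (hd : G.d = pd h.isOpen) (hx : ∀ a, Rep (G.x a) (cpt x a))
    (hg : ∀ i j, Rep (G.g i j) (fun p => gm x p i j))
    (hL : ∀ F f, Rep F f → Rep (G.Lap F) (LB x f)) (W : Set E) (hWU : W ⊆ U)
    (halt : G.Alt (van U W)) : RAlt x W := by
  have hV : ∀ a, Rep (qV G.Lap G.x a) (qV (LB x) (cpt x) a) := fun a =>
    loc_add (hL _ _ (hx a)) (loc_mul loc_two (hx a))
  have hc : Rep (qc G.Lap G.x) (qc (LB x) (cpt x)) := loc_sum fun a => loc_mul (hV a) (hV a)
  have hP : Rep (qP G.Lap G.x) (qP (LB x) (cpt x)) :=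
    loc_sum fun a => loc_mul (hV a) (hL _ _ (hV a))
  have hZ : ∀ a b, Rep (qZ G.Lap G.x a b) (qZ (LB x) (cpt x) a b) := fun a b =>
    loc_add (loc_sub (loc_neg (loc_sub (loc_sub (hL _ _ (loc_mul (hV a) (hx b)))
      (loc_mul (hV a) (hL _ _ (hx b)))) (loc_mul (hx b) (hL _ _ (hV a)))))
      (loc_mul loc_two (loc_add (loc_mul (hx a) (hV b)) (loc_mul (hV a) (hx b)))))
      (loc_mul loc_two (loc_mul (hV a) (hV b)))
  have hD : ∀ {F : Sm U} {f : E → ℝ}, Rep F f → ∀ i : Fin 2,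
      Rep (G.d i F) (fun p => fderiv ℝ f p (Pi.single i 1)) := fun hF i => by
    rw [hd]
    exact hF.deriv h.isOpen i
  have hD0 : ∀ {F : Sm U} {f : E → ℝ}, Rep F f → (∀ i, G.d i F ∈ van U W) →
      ∀ p ∈ W, fderiv ℝ f p = 0 := fun hF hi p hp =>
    loc_clm_zero _ fun i => ((hD hF i).mem_van hWU).mp (hi i) p hp
  obtain ⟨h0, h1 | ⟨h1, h2, h3⟩ | ⟨h1, h2, h3, h4, h5, h6⟩⟩ := halt
  · exact ⟨hD0 hc h0, Or.inl fun p hp a => ((hV a).mem_van hWU).mp (h1 a) p hp⟩
  · refine ⟨hD0 hc h0, Or.inr (Or.inl fun p hp => ⟨?_, ?_, ?_⟩)⟩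
    · exact (((loc_two.mul hP).add (hc.pow 2)).mem_van hWU).mp h1 p hp
    · exact ((Rep.sum Finset.univ fun a _ => (hV a).mul (hx a)).mem_van hWU).mp h2 p hp
    · let y : Fin 4 → Fin 2 → E → ℝ := fun a i q =>
        2 * fderiv ℝ (qV (LB x) (cpt x) a) q (Pi.single i 1) +
          qc (LB x) (cpt x) q * fderiv ℝ (cpt x a) q (Pi.single i 1)
      have hY : ∀ a i, Rep (G.Y a i) (y a i) := fun a i =>
        (loc_two.mul (hD (hV a) i)).add (hc.mul (hD (hx a) i))
      let ad : Fin 2 → Fin 2 → E → ℝ := ![![fun q => gm x q 1 1, fun q => -gm x q 0 1],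
        ![fun q => -gm x q 0 1, fun q => gm x q 0 0]]
      have hA : ∀ i j, Rep (G.adj i j) (ad i j) := fun i j => by
        fin_cases i <;> fin_cases j
        · exact hg 1 1
        · exact (hg 0 1).neg
        · exact (hg 0 1).neg
        · exact hg 0 0
      have h7 := ((Rep.sum Finset.univ fun a _ => Rep.sum Finset.univ fun i _ =>
        Rep.sum Finset.univ fun j _ => ((hA i j).mul (hY a i)).mul (hY a j)).mem_van hWU).mp
        h3 p hp
      obtain ⟨g1, g2⟩ := h.gm_pos (hWU hp)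
      have h8 : ∀ a, ∑ i, ∑ j, ad i j p * y a i p * y a j p =
          gm x p 1 1 * y a 0 p * y a 0 p + -gm x p 0 1 * y a 0 p * y a 1 p +
            (-gm x p 0 1 * y a 1 p * y a 0 p + gm x p 0 0 * y a 1 p * y a 1 p) := fun a => by
        rw [Fin.sum_univ_two, Fin.sum_univ_two, Fin.sum_univ_two]
        rfl
      simp only [h8] at h7
      rw [Finset.sum_eq_zero_iff_of_nonneg fun a _ => (loc_form g1 g2).1] at h7
      intro a
      obtain ⟨y0, y1⟩ := (loc_form g1 g2).2 (h7 a (Finset.mem_univ a))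
      refine loc_clm_zero _ fun i => ?_
      fin_cases i
      · exact y0
      · exact y1
  · refine ⟨hD0 hc h0, Or.inr (Or.inr fun p hp => ⟨?_, fun a b => ?_, fun a b => ?_,
      fun a b => ?_, ?_, ?_⟩)⟩
    · exact (((hP.add (hc.pow 2)).add (loc_two.mul hc)).mem_van hWU).mp h1 p hp
    · exact hD0 (hZ a b) (fun i => h2 i a b) p hp
    · exact sub_eq_zero.mp ((((hZ a b).sub (hZ b a)).mem_van hWU).mp (h3 a b) p hp)
    · have hI : Rep (if a = b then 4 * qc G.Lap G.x else 0)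
          (fun q => if a = b then 4 * qc (LB x) (cpt x) q else 0) := by
        split_ifs
        · exact loc_four.mul hc
        · exact Rep.zero
      have h7 := ((((Rep.sum Finset.univ fun m _ => (hZ a m).mul (hZ m b)).sub
        ((loc_two.mul hc).mul (hZ a b))).sub hI).mem_van hWU).mp (h4 a b) p hp
      rw [sub_sub, sub_eq_zero] at h7
      exact h7
    · exact sub_eq_zero.mp ((((Rep.sum Finset.univ fun a _ => hZ a a).sub
        (loc_four.mul hc)).mem_van hWU).mp h5 p hp)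
    · exact ((Rep.sum Finset.univ fun a _ => Rep.sum Finset.univ fun b _ =>
        ((hx a).mul (hZ a b)).mul (hx b)).mem_van hWU).mp h6 p hp

theorem exists_ralt {U : Set E} {x : E → Fin 4 → ℝ} (h : Imm U x) (hne : U.Nonempty)
    (X : Matrix (Fin 4) (Fin 4) ℝ) (hX : X.transpose = -X) (hX0 : X ≠ 0)
    (ht : ∀ p ∈ U, ∃ w, fderiv ℝ x p w = X.mulVec (x p))
    (c : Fin 4 → ℝ) (k : ℕ) (y : Fin k → E → Fin 4 → ℝ) (μ : Fin k → ℝ)
    (hy : ∀ i, ContDiffOn ℝ ∞ (y i) U)
    (hμ : ∀ i, ∀ p ∈ U, ∀ m : Fin 4, LB x (fun q => y i q m) p = μ i * y i p m)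
    (hx : ∀ p ∈ U, x p = c + ∑ i, y i p) :
    ∃ W : Set E, IsOpen W ∧ W.Nonempty ∧ W ⊆ U ∧ RAlt x W := by
  have hcont : ContinuousOn (fun p => X.mulVec (x p)) U :=
    (Matrix.mulVecLin X).continuous_of_finiteDimensional.comp_continuousOn h.smooth.continuousOn
  set W1 : Set E := U ∩ (fun p => X.mulVec (x p)) ⁻¹' {0}ᶜ with hW1
  have ho : IsOpen W1 := hcont.isOpen_inter_preimage h.isOpen isOpen_compl_singleton
  have hn : W1.Nonempty := by
    obtain ⟨p, hp, hp'⟩ := h.exists_ne hne X hX hX0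
    exact ⟨p, hp, hp'⟩
  have hs : W1 ⊆ U := Set.inter_subset_left
  have h1 : Imm W1 x := h.mono ho hs
  obtain ⟨G, hd, hGx, hg, hL⟩ := exists_geo0 h1
  obtain ⟨K, hK⟩ := exists_kil h1 G hd hGx X hX (fun p hp => ht p (hs hp)) (fun p hp => hp.2)
  have ha : ∑ a, ∑ b, K.X a b ^ 2 ≠ 0 := by
    simp only [hK]
    intro h0
    have h2 : ∑ a, ∑ b, X a b ^ 2 = 0 := by exact_mod_cast h0
    apply hX0
    ext a b
    rw [Finset.sum_eq_zero_iff_of_nonneg
      fun a _ => Finset.sum_nonneg fun b _ => sq_nonneg (X a b)] at h2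
    have h3 := h2 a (Finset.mem_univ a)
    rw [Finset.sum_eq_zero_iff_of_nonneg fun b _ => sq_nonneg (X a b)] at h3
    exact pow_eq_zero_iff two_ne_zero |>.mp (h3 b (Finset.mem_univ b))
  have hY : ∀ i a, ∃ F : Sm W1, Rep F (fun q => y i q a) := fun i a =>
    Rep.exists_of_smooth (contDiffOn_pi.mp ((hy i).mono hs) a)
  choose Y hY using hY
  obtain ⟨N, ψ, hψ⟩ := geo_local G K ha (fun a => (c a : ℂ)) k Y (fun i => (μ i : ℂ))
    (fun i a => by
      rw [Algebra.smul_def]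
      exact ((hL _ _ (hY i a)).congr fun p hp => hμ i p (hs hp) a).unique
        ((Rep.const (μ i)).mul (hY i a)))
    (fun a => by
      refine (hGx a).unique (((Rep.const (c a)).add
        (Rep.sum Finset.univ fun i _ => hY i a)).congr fun p hp => ?_)
      simp only [cpt, hx p (hs hp), Pi.add_apply, Finset.sum_apply])
  obtain ⟨W, hWo, hWn, hWs, hWp⟩ := exists_prime ho hn ψ
  refine ⟨W, hWo, hWn, hWs.trans hs, ralt_of_alt h1 G hd hGx hg hL W hWs (hψ _ ?_ hWp)⟩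
  intro i f hf
  rw [hd]
  exact pd_mem_van h1.isOpen hWo i f hf

end Pool.Agent.Lib.MP_51f413_gt
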