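import Pool.Agent.Lib.MP_51f413_gt.Geo

/-!
Null frames: definitions.
-/

namespace Pool.Agent.Lib.MP_51f413_gt

/-- A null frame along a surface of the three-sphere. -/
structure NF (R : Type) [CommRing R] [Algebra ℂ R] where
  D1 : Derivation ℂ R R
  D2 : Derivation ℂ R R
  γ1 : R
  γ2 : R
  x : Fin 4 → R
  e1 : Fin 4 → R
  e2 : Fin 4 → R
  ξ : Fin 4 → R
  H : R
  q : R
  p : R
  comm : ∀ f, D2 (D1 f) - D1 (D2 f) = γ2 * D1 f + γ1 * D2 f
  x1 : ∀ a, D1 (x a) = e1 a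
  x2 : ∀ a, D2 (x a) = e2 a
  e11 : ∀ a, D1 (e1 a) = γ1 * e1 a + 2 * q * ξ a
  e21 : ∀ a, D2 (e1 a) = γ2 * e1 a - 2 * x a + 2 * H * ξ a
  e12 : ∀ a, D1 (e2 a) = -(γ1 * e2 a) - 2 * x a + 2 * H * ξ a
  e22 : ∀ a, D2 (e2 a) = -(γ2 * e2 a) + 2 * p * ξ a
  n1 : ∀ a, D1 (ξ a) = -(H * e1 a) - q * e2 a
  n2 : ∀ a, D2 (ξ a) = -(p * e1 a) - H * e2 a
  gram : ∀ a0 a1 a2 a3 b0 b1 b2 b3 : R,
    ∑ a, (a0 * x a + a1 * e1 a + a2 * e2 a + a3 * ξ a) *
      (b0 * x a + b1 * e1 a + b2 * e2 a + b3 * ξ a) =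
      a0 * b0 + 2 * (a1 * b2) + 2 * (a2 * b1) + a3 * b3
  compl : ∀ a b, 2 * (x a * x b + ξ a * ξ b) + (e1 a * e2 b + e2 a * e1 b) =
    if a = b then 2 else 0
  cod1 : D2 q - 2 * γ2 * q = D1 H
  cod2 : D1 p + 2 * γ1 * p = D2 H
  gauss : D1 γ2 - D2 γ1 + 2 * γ1 * γ2 = 2 * (1 + H ^ 2 - q * p)

namespace NF

variable {R : Type} [CommRing R] [Algebra ℂ R] (F : NF R)

/-- The Laplace operator. -/
def Lap (f : R) : R := F.D1 (F.D2 f) + F.γ1 * F.D2 f

/-- Exchange of the two null directions. -/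
def swap : NF R where
  D1 := F.D2
  D2 := F.D1
  γ1 := -F.γ2
  γ2 := -F.γ1
  x := F.x
  e1 := F.e2
  e2 := F.e1
  ξ := F.ξ
  H := F.H
  q := F.p
  p := F.q
  comm f := by linear_combination -F.comm f
  x1 := F.x2
  x2 := F.x1
  e11 a := by rw [F.e22]; ring
  e21 a := by rw [F.e12]; ring
  e12 a := by rw [F.e21]; ring
  e22 a := by rw [F.e11]; ring
  n1 a := by rw [F.n2]; ring
  n2 a := by rw [F.n1]; ring
  gram a0 a1 a2 a3 b0 b1 b2 b3 := by
    have h := F.gram a0 a2 a1 a3 b0 b2 b1 b3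
    simp only [Fin.sum_univ_four] at h ⊢
    linear_combination h
  compl a b := by rw [← F.compl]; ring
  cod1 := by linear_combination F.cod2
  cod2 := by linear_combination F.cod1
  gauss := by simp only [map_neg]; linear_combination F.gauss

theorem swap_Lap (f : R) : F.swap.Lap f = F.Lap f := by
  simp only [Lap, swap]
  linear_combination F.comm f

/-- The covariant jets of `q`. -/
def jq : ℕ → R
  | 0 => F.q
  | i + 1 => F.D1 (jq i) - ((i : R) + 2) * F.γ1 * jq i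

/-- The covariant jets of `p`. -/
def jp : ℕ → R
  | 0 => F.p
  | j + 1 => F.D2 (jp j) + ((j : R) + 2) * F.γ2 * jp j

theorem swap_jq (i : ℕ) : F.swap.jq i = F.jp i := by
  induction i with
  | zero => rfl
  | succ i ih => rw [jq, jp, ih]; simp only [swap]; ring

theorem swap_jp (i : ℕ) : F.swap.jp i = F.jq i := by
  induction i with
  | zero => rfl
  | succ i ih => rw [jq, jp, ih]; simp only [swap]; ring

end NF

end Pool.Agent.Lib.MP_51f413_gt
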