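import Mathlib

/-!
The differential ring of smooth complex valued functions on an open subset of the plane.
-/

namespace Pool.Agent.Lib.MP_51f413_gt

open scoped ContDiff

/-- The parameter plane. -/
abbrev E : Type := Fin 2 → ℝ

open Classical in
/-- Extension by zero. -/
noncomputable def ext0 {W : Set E} (f : W → ℂ) : E → ℂ :=
  fun p => if h : p ∈ W then f ⟨p, h⟩ else 0

theorem ext0_apply {W : Set E} (f : W → ℂ) {p : E} (h : p ∈ W) : ext0 f p = f ⟨p, h⟩ := by
  simp [ext0, h]

/-- Smooth complex valued functions on `W`. -/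
def Sm (W : Set E) : Subalgebra ℂ (W → ℂ) where
  carrier := {f | ContDiffOn ℝ ∞ (ext0 f) W}
  mul_mem' := by
    intro f g hf hg
    refine (ContDiffOn.mul hf hg).congr ?_
    intro p hp
    simp [ext0_apply _ hp]
  add_mem' := by
    intro f g hf hg
    refine (ContDiffOn.add hf hg).congr ?_
    intro p hp
    simp [ext0_apply _ hp]
  algebraMap_mem' := by
    intro c
    refine (contDiffOn_const (c := c)).congr ?_
    intro p hp
    simp [ext0_apply _ hp]

theorem Sm.smooth {W : Set E} (F : Sm W) : ContDiffOn ℝ ∞ (ext0 F.1) W := F.2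

theorem Sm.smoothAt {W : Set E} (hW : IsOpen W) (F : Sm W) {p : E} (hp : p ∈ W) :
    ContDiffAt ℝ ∞ (ext0 F.1) p := (Sm.smooth F).contDiffAt (hW.mem_nhds hp)

theorem Sm.diffAt {W : Set E} (hW : IsOpen W) (F : Sm W) {p : E} (hp : p ∈ W) :
    DifferentiableAt ℝ (ext0 F.1) p := (Sm.smoothAt hW F hp).differentiableAt (by simp)

theorem smooth_fderiv {F : Type} [NormedAddCommGroup F] [NormedSpace ℝ F] {W : Set E}
    (hW : IsOpen W) {f : E → F} (hf : ContDiffOn ℝ ∞ f W) (v : E) :
    ContDiffOn ℝ ∞ (fun p => fderiv ℝ f p v) W := by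
  have h := hf.fderiv_of_isOpen hW (m := ∞) (by simp)
  exact h.clm_apply contDiffOn_const

/-- Directional derivative of a smooth function. -/
noncomputable def pdFun {W : Set E} (hW : IsOpen W) (v : E) (F : Sm W) : Sm W :=
  ⟨fun p => fderiv ℝ (ext0 F.1) p v, by
    refine (smooth_fderiv hW (Sm.smooth F) v).congr ?_
    intro p hp
    simp [ext0_apply _ hp]⟩

theorem ext0_congr {W : Set E} (hW : IsOpen W) {f : W → ℂ} {g : E → ℂ}
    (h : ∀ p (hp : p ∈ W), f ⟨p, hp⟩ = g p) {p : E} (hp : p ∈ W) : ext0 f =ᶠ[nhds p] g := by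
  filter_upwards [hW.mem_nhds hp] with q hq
  rw [ext0_apply _ hq, h]

/-- The partial derivatives as derivations. -/
noncomputable def pd {W : Set E} (hW : IsOpen W) (i : Fin 2) : Derivation ℂ (Sm W) (Sm W) :=
  Derivation.mk'
    { toFun := pdFun hW (Pi.single i 1)
      map_add' := by
        intro F G
        ext p
        have h : ext0 (F + G).1 =ᶠ[nhds (p : E)] fun q => ext0 F.1 q + ext0 G.1 q :=
          ext0_congr hW (fun q hq => by simp [ext0_apply _ hq]) p.2
        simp only [pdFun, Subalgebra.coe_add, Pi.add_apply]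
        rw [show ((F : W → ℂ) + (G : W → ℂ)) = (F + G).1 from rfl, h.fderiv_eq,
          fderiv_fun_add (Sm.diffAt hW F p.2) (Sm.diffAt hW G p.2)]
        rfl
      map_smul' := by
        intro c F
        ext p
        have h : ext0 (c • F).1 =ᶠ[nhds (p : E)] fun q => c • ext0 F.1 q :=
          ext0_congr hW (fun q hq => by simp [ext0_apply _ hq]) p.2
        simp only [pdFun, RingHom.id_apply, Subalgebra.coe_smul, Pi.smul_apply]
        rw [show (c • (F : W → ℂ)) = (c • F).1 from rfl, h.fderiv_eq,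
          fderiv_fun_const_smul (Sm.diffAt hW F p.2)]
        rfl }
    (by
      intro F G
      ext p
      have h : ext0 (F * G).1 =ᶠ[nhds (p : E)] fun q => ext0 F.1 q * ext0 G.1 q :=
        ext0_congr hW (fun q hq => by simp [ext0_apply _ hq]) p.2
      simp only [pdFun, LinearMap.coe_mk, AddHom.coe_mk, smul_eq_mul, Subalgebra.coe_add,
        Subalgebra.coe_mul, Pi.add_apply, Pi.mul_apply]
      rw [show ((F : W → ℂ) * (G : W → ℂ)) = (F * G).1 from rfl, h.fderiv_eq,
        fderiv_fun_mul (Sm.diffAt hW F p.2) (Sm.diffAt hW G p.2)]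
      simp [ext0_apply _ p.2])

theorem pd_apply {W : Set E} (hW : IsOpen W) (i : Fin 2) (F : Sm W) (p : W) :
    (pd hW i F).1 p = fderiv ℝ (ext0 F.1) p (Pi.single i 1) := rfl

theorem pd_comm {W : Set E} (hW : IsOpen W) (i j : Fin 2) (F : Sm W) :
    pd hW i (pd hW j F) = pd hW j (pd hW i F) := by
  ext p
  have key : ∀ a b : Fin 2, (pd hW a (pd hW b F)).1 p =
      fderiv ℝ (fderiv ℝ (ext0 F.1)) p (Pi.single a 1) (Pi.single b 1) := by
    intro a b
    have h : ext0 (pd hW b F).1 =ᶠ[nhds (p : E)]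
        fun q => fderiv ℝ (ext0 F.1) q (Pi.single b 1) :=
      ext0_congr hW (fun q hq => rfl) p.2
    rw [pd_apply, h.fderiv_eq]
    have hd : DifferentiableAt ℝ (fderiv ℝ (ext0 F.1)) p :=
      ((Sm.smoothAt hW F p.2).fderiv_right (m := 1) (by norm_cast)).differentiableAt (by simp)
    rw [fderiv_clm_apply hd (differentiableAt_const _)]
    simp
  rw [key, key]
  exact ((Sm.smoothAt hW F p.2).isSymmSndFDerivAt (by simp; norm_cast)).eq _ _

/-- `F` represents the real function `f` on `W`. -/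
def Rep {W : Set E} (F : Sm W) (f : E → ℝ) : Prop := ∀ p : W, F.1 p = (f p : ℂ)

namespace Rep

variable {W : Set E} {F G : Sm W} {f g : E → ℝ}

theorem exists_of_smooth (hf : ContDiffOn ℝ ∞ f W) : ∃ F : Sm W, Rep F f := by
  refine ⟨⟨fun p => (f p : ℂ), ?_⟩, fun _ => rfl⟩
  refine (Complex.ofRealCLM.contDiff.comp_contDiffOn hf).congr ?_
  intro p hp
  simp [ext0_apply _ hp]

theorem smooth (h : Rep F f) : ContDiffOn ℝ ∞ f W := by
  refine (Complex.reCLM.contDiff.comp_contDiffOn (Sm.smooth F)).congr ?_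
  intro p hp
  simp [ext0_apply _ hp, h ⟨p, hp⟩]

theorem unique (h : Rep F f) (h' : Rep G f) : F = G := by
  ext p
  rw [h p, h' p]

theorem congr (h : Rep F f) (hfg : ∀ p ∈ W, f p = g p) : Rep F g := by
  intro p
  rw [h p, hfg p p.2]

theorem eq_on (h : Rep F f) (h' : Rep F g) : ∀ p ∈ W, f p = g p := by
  intro p hp
  have := (h ⟨p, hp⟩).symm.trans (h' ⟨p, hp⟩)
  exact_mod_cast this

theorem of_eq (h : Rep F f) (e : F = G) : Rep G f := e ▸ h

theorem add (h : Rep F f) (h' : Rep G g) : Rep (F + G) (fun p => f p + g p) := by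
  intro p
  simp [h p, h' p]

theorem sub (h : Rep F f) (h' : Rep G g) : Rep (F - G) (fun p => f p - g p) := by
  intro p
  simp [h p, h' p]

theorem neg (h : Rep F f) : Rep (-F) (fun p => -f p) := by
  intro p
  simp [h p]

theorem mul (h : Rep F f) (h' : Rep G g) : Rep (F * G) (fun p => f p * g p) := by
  intro p
  simp [h p, h' p]

theorem pow (h : Rep F f) (n : ℕ) : Rep (F ^ n) (fun p => f p ^ n) := by
  intro p
  simp [h p]

theorem const (c : ℝ) : Rep (algebraMap ℂ (Sm W) (c : ℂ)) (fun _ => c) := by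
  intro p
  simp

theorem natCast (n : ℕ) : Rep (n : Sm W) (fun _ => (n : ℝ)) := by
  intro p
  simp

theorem ofNat (n : ℕ) [n.AtLeastTwo] :
    Rep (OfNat.ofNat n : Sm W) (fun _ => (OfNat.ofNat n : ℝ)) := natCast n

theorem zero : Rep (0 : Sm W) (fun _ => 0) := by
  intro p
  simp

theorem one : Rep (1 : Sm W) (fun _ => 1) := by
  intro p
  simp

theorem sum {α : Type} (s : Finset α) {F : α → Sm W} {f : α → E → ℝ}
    (h : ∀ a ∈ s, Rep (F a) (f a)) : Rep (∑ a ∈ s, F a) (fun p => ∑ a ∈ s, f a p) := by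
  intro p
  simp only [AddSubmonoidClass.coe_finsetSum, Finset.sum_apply, Complex.ofReal_sum]
  exact Finset.sum_congr rfl fun a ha => h a ha p

theorem deriv (hW : IsOpen W) (h : Rep F f) (i : Fin 2) :
    Rep (pd hW i F) (fun p => fderiv ℝ f p (Pi.single i 1)) := by
  intro p
  have e : ext0 F.1 =ᶠ[nhds (p : E)] fun q => Complex.ofRealCLM (f q) :=
    ext0_congr hW (fun q hq => h ⟨q, hq⟩) p.2
  have hd : DifferentiableAt ℝ f p :=
    (h.smooth.contDiffAt (hW.mem_nhds p.2)).differentiableAt (by simp)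
  rw [pd_apply, e.fderiv_eq]
  have := (Complex.ofRealCLM.hasFDerivAt.comp (p : E) hd.hasFDerivAt).fderiv
  rw [show (fun q => Complex.ofRealCLM (f q)) = Complex.ofRealCLM ∘ f from rfl, this]
  simp

end Rep

/-- The ideal of functions vanishing on `W'`. -/
def van (W W' : Set E) : Ideal (Sm W) where
  carrier := {F | ∀ p : W, p.1 ∈ W' → F.1 p = 0}
  add_mem' := by
    intro F G hF hG p hp
    simp [hF p hp, hG p hp]
  zero_mem' := by
    intro p _
    simp
  smul_mem' := by
    intro c F hF p hp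
    simp [hF p hp]

theorem mem_van {W W' : Set E} {F : Sm W} : F ∈ van W W' ↔ ∀ p : W, p.1 ∈ W' → F.1 p = 0 :=
  Iff.rfl

theorem Rep.mem_van {W W' : Set E} (hWW : W' ⊆ W) {F : Sm W} {f : E → ℝ} (h : Rep F f) :
    F ∈ van W W' ↔ ∀ p ∈ W', f p = 0 := by
  constructor
  · intro hF p hp
    have := (h ⟨p, hWW hp⟩).symm.trans (hF ⟨p, hWW hp⟩ hp)
    exact_mod_cast this
  · intro hf p hp
    rw [h p, hf p hp]
    simp

theorem pd_mem_van {W W' : Set E} (hW : IsOpen W) (hW' : IsOpen W') (i : Fin 2) (F : Sm W)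
    (hF : F ∈ van W W') : pd hW i F ∈ van W W' := by
  intro p hp
  have e : ext0 F.1 =ᶠ[nhds (p : E)] fun _ => 0 := by
    filter_upwards [hW.mem_nhds p.2, hW'.mem_nhds hp] with q hq hq'
    rw [ext0_apply _ hq]
    exact hF ⟨q, hq⟩ hq'
  rw [pd_apply, e.fderiv_eq]
  simp

/-- On a suitable open subset the relations between finitely many smooth functions form a prime
ideal. -/
theorem exists_prime {W : Set E} (hW : IsOpen W) (hne : W.Nonempty) {P : Type} [CommRing P]
    [IsNoetherianRing P] (ψ : P →+* Sm W) :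
    ∃ W' : Set E, IsOpen W' ∧ W'.Nonempty ∧ W' ⊆ W ∧ ((van W W').comap ψ).IsPrime := by
  let S : Set (Ideal P) :=
    {I | ∃ W' : Set E, IsOpen W' ∧ W'.Nonempty ∧ W' ⊆ W ∧ I = (van W W').comap ψ}
  have hS : S.Nonempty := ⟨_, W, hW, hne, le_rfl, rfl⟩
  obtain ⟨I, ⟨W', ho, hn, hs, rfl⟩, hmax⟩ :=
    (set_has_maximal_iff_noetherian (R := P) (M := P)).2 inferInstance S hS
  refine ⟨W', ho, hn, hs, ?_, ?_⟩
  · rw [Ideal.ne_top_iff_one]
    intro h1
    obtain ⟨p, hp⟩ := hn
    have := h1 ⟨p, hs hp⟩ hp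
    simp at this
  · intro f g hfg
    by_contra hcon
    push Not at hcon
    obtain ⟨hf, hg⟩ := hcon
    let W2 : Set E := W' ∩ (W ∩ (ext0 (ψ f).1) ⁻¹' {0}ᶜ)
    have ho2 : IsOpen W2 :=
      ho.inter ((Sm.smooth (ψ f)).continuousOn.isOpen_inter_preimage hW isOpen_compl_singleton)
    have hn2 : W2.Nonempty := by
      by_contra hem
      apply hf
      intro p hp
      by_contra h0
      exact hem ⟨p, hp, p.2, by simpa [ext0_apply _ p.2] using h0⟩
    have hle : (van W W').comap ψ ≤ (van W W2).comap ψ := fun u hu p hp => hu p hp.1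
    have hg2 : g ∈ (van W W2).comap ψ := by
      intro p hp
      have h1 := hfg p hp.1
      have h2 : (ψ f).1 p ≠ 0 := by simpa [ext0_apply _ p.2] using hp.2.2
      simpa [h2] using h1
    exact hmax _ ⟨W2, ho2, hn2, fun p hp => hs hp.1, rfl⟩
      (lt_of_le_of_ne hle fun e => hg (e ▸ hg2))

end Pool.Agent.Lib.MP_51f413_gt
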