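import Pool.Agent.Lib.MP_51f413_gt.Geo
import Pool.Agent.Lib.MP_51f413_gt.Sm

/-!
An immersed surface patch gives a surface over the ring of smooth functions.
-/

namespace Pool.Agent.Lib.MP_51f413_gt

open scoped ContDiff

/-- The induced metric. -/
noncomputable def gm (x : E → Fin 4 → ℝ) (p : E) : Matrix (Fin 2) (Fin 2) ℝ :=
  fun i j => ∑ m : Fin 4,
    (fderiv ℝ x p (Pi.single i (1 : ℝ))) m * (fderiv ℝ x p (Pi.single j (1 : ℝ))) m

/-- The Laplace operator of the induced metric. -/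
noncomputable def LB (x : E → Fin 4 → ℝ) (f : E → ℝ) (p : E) : ℝ :=
  (Real.sqrt (gm x p).det)⁻¹ *
    ∑ i : Fin 2, ∑ j : Fin 2,
      fderiv ℝ (fun q : E =>
        Real.sqrt (gm x q).det * (gm x q)⁻¹ i j * fderiv ℝ f q (Pi.single j (1 : ℝ)))
        p (Pi.single i (1 : ℝ))

/-- The components of the position vector. -/
def cpt (x : E → Fin 4 → ℝ) (a : Fin 4) : E → ℝ := fun p => x p a

/-- A smooth immersion of `U` in the unit sphere. -/
structure Imm (U : Set E) (x : E → Fin 4 → ℝ) : Prop where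
  isOpen : IsOpen U
  smooth : ContDiffOn ℝ ∞ x U
  inj : ∀ p ∈ U, Function.Injective (fderiv ℝ x p)
  unit : ∀ p ∈ U, ∑ m : Fin 4, x p m ^ 2 = 1

theorem Imm.mono {U W : Set E} {x : E → Fin 4 → ℝ} (h : Imm U x) (hW : IsOpen W) (hWU : W ⊆ U) :
    Imm W x :=
  ⟨hW, h.smooth.mono hWU, fun p hp => h.inj p (hWU hp), fun p hp => h.unit p (hWU hp)⟩

theorem real_sq_pos {w : Fin 4 → ℝ} (hw : w ≠ 0) : 0 < ∑ m, w m ^ 2 := by
  obtain ⟨m, hm⟩ := Function.ne_iff.mp hw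
  exact Finset.sum_pos' (fun i _ => sq_nonneg _) ⟨m, Finset.mem_univ m, sq_pos_of_ne_zero hm⟩

theorem real_fd {U : Set E} {x : E → Fin 4 → ℝ} (h : Imm U x) {p : E} (hp : p ∈ U) (v : E)
    (a : Fin 4) : fderiv ℝ (cpt x a) p v = fderiv ℝ x p v a := by
  have hd : DifferentiableAt ℝ x p :=
    (h.smooth.contDiffAt (h.isOpen.mem_nhds hp)).differentiableAt (by simp)
  exact congrArg (fun L : E →L[ℝ] ℝ => L v) (fderiv_apply hd a)

theorem real_root {U : Set E} {F : Sm U} {f : E → ℝ} (h : Rep F f) (hf : ∀ p ∈ U, 0 < f p) :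
    ∃ S Si : Sm U, Rep S (fun p => Real.sqrt (f p)) ∧ Rep Si (fun p => (Real.sqrt (f p))⁻¹) ∧
      S * Si = 1 ∧ S ^ 2 = F := by
  have h1 : ContDiffOn ℝ ∞ (fun p => Real.sqrt (f p)) U := h.smooth.sqrt fun p hp => (hf p hp).ne'
  have h2 : ∀ p ∈ U, Real.sqrt (f p) ≠ 0 := fun p hp => (Real.sqrt_pos.mpr (hf p hp)).ne'
  obtain ⟨S, hS⟩ := Rep.exists_of_smooth h1
  obtain ⟨Si, hSi⟩ := Rep.exists_of_smooth (h1.inv h2)
  exact ⟨S, Si, hS, hSi, ((hS.mul hSi).congr fun p hp => mul_inv_cancel₀ (h2 p hp)).unique Rep.one,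
    ((hS.pow 2).congr fun p hp => Real.sq_sqrt (hf p hp).le).unique h⟩

theorem Imm.gm_pos {U : Set E} {x : E → Fin 4 → ℝ} (h : Imm U x) {p : E} (hp : p ∈ U) :
    0 < gm x p 0 0 ∧ 0 < gm x p 0 0 * gm x p 1 1 - gm x p 0 1 ^ 2 := by
  have key : ∀ s t : ℝ, (s ≠ 0 ∨ t ≠ 0) →
      0 < s ^ 2 * gm x p 0 0 + 2 * s * t * gm x p 0 1 + t ^ 2 * gm x p 1 1 := by
    intro s t hst
    have h1 : (s • Pi.single 0 (1 : ℝ) + t • Pi.single 1 (1 : ℝ) : E) ≠ 0 := by
      intro h0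
      have e0 := congrFun h0 0
      have e1 := congrFun h0 1
      simp at e0 e1
      tauto
    have h2 := real_sq_pos (w := fderiv ℝ x p (s • Pi.single 0 (1 : ℝ) + t • Pi.single 1 (1 : ℝ)))
      fun h0 => h1 (h.inj p hp (h0.trans (map_zero _).symm))
    refine h2.trans_eq ?_
    simp only [map_add, map_smul, gm, Fin.sum_univ_four, Pi.add_apply, Pi.smul_apply, smul_eq_mul]
    ring
  have h0 : 0 < gm x p 0 0 := by simpa using key 1 0 (Or.inl one_ne_zero)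
  refine ⟨h0, (mul_pos_iff_of_pos_left h0).mp ?_⟩
  refine (key (-gm x p 0 1) (gm x p 0 0) (Or.inr h0.ne')).trans_eq ?_
  ring

theorem exists_geo0 {U : Set E} {x : E → Fin 4 → ℝ} (h : Imm U x) :
    ∃ G : Geo0 (Sm U), G.d = pd h.isOpen ∧ (∀ a, Rep (G.x a) (cpt x a)) ∧
      (∀ i j, Rep (G.g i j) (fun p => gm x p i j)) ∧
      ∀ F f, Rep F f → Rep (G.Lap F) (LB x f) := by
  choose xx hxx using fun a => Rep.exists_of_smooth (W := U) (f := cpt x a)
    (contDiffOn_pi.mp h.smooth a)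
  have hdx : ∀ i a, Rep (pd h.isOpen i (xx a)) fun p => fderiv ℝ x p (Pi.single i 1) a :=
    fun i a => ((hxx a).deriv h.isOpen i).congr fun p hp => real_fd h hp _ a
  have hg : ∀ i j, Rep (ip (dv (pd h.isOpen i) xx) (dv (pd h.isOpen j) xx)) fun p => gm x p i j :=
    fun i j => Rep.sum Finset.univ fun a _ => (hdx i a).mul (hdx j a)
  have hs : ∀ p, gm x p 1 0 = gm x p 0 1 := fun p => Finset.sum_congr rfl fun m _ => mul_comm _ _
  have hdet : ∀ p, gm x p 0 0 * gm x p 1 1 - gm x p 0 1 ^ 2 = (gm x p).det := fun p => by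
    rw [Matrix.det_fin_two, hs, pow_two]
  have hpos : ∀ p ∈ U, 0 < (gm x p).det := fun p hp => hdet p ▸ (h.gm_pos hp).2
  obtain ⟨δ, δi, hδ, hδi, h1, h2⟩ := real_root
    ((((hg 0 0).mul (hg 1 1)).sub ((hg 0 1).pow 2)).congr fun p _ => hdet p) hpos
  have hu : ip xx xx = 1 :=
    ((Rep.sum Finset.univ fun a _ => (hxx a).mul (hxx a)).congr fun p hp => by
      rw [← h.unit p hp]
      exact Finset.sum_congr rfl fun m _ => (pow_two _).symm).unique Rep.one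
  let G : Geo0 (Sm U) := ⟨pd h.isOpen, pd_comm h.isOpen 0 1, xx, hu, δ, δi, h1, h2⟩
  refine ⟨G, rfl, hxx, hg, fun F f hF => ?_⟩
  have hadj : ∀ i j, Rep (G.adj i j) fun p => (gm x p).adjugate i j := by
    simp only [Fin.forall_fin_two, Matrix.adjugate_fin_two, hs]
    exact ⟨⟨hg 1 1, (hg 0 1).neg⟩, (hg 0 1).neg, hg 0 0⟩
  refine hδi.mul (Rep.sum Finset.univ fun i _ => Rep.sum Finset.univ fun j _ => ?_)
  refine Rep.deriv h.isOpen (((hδi.mul (hadj i j)).mul (hF.deriv h.isOpen j)).congr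
    fun p hp => ?_) i
  have h3 : Real.sqrt (gm x p).det ≠ 0 := (Real.sqrt_pos.mpr (hpos p hp)).ne'
  have h4 := Real.mul_self_sqrt (hpos p hp).le
  rw [Matrix.inv_def, Matrix.smul_apply, smul_eq_mul, Ring.inverse_eq_inv']
  congr 1
  rw [← mul_assoc]
  congr 1
  conv_rhs => rw [← h4]
  rw [Real.sqrt_mul_self (Real.sqrt_nonneg _)]
  field_simp

theorem exists_kil {U : Set E} {x : E → Fin 4 → ℝ} (h : Imm U x) (G : Geo0 (Sm U))
    (hd : G.d = pd h.isOpen) (hx : ∀ a, Rep (G.x a) (cpt x a))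
    (X : Matrix (Fin 4) (Fin 4) ℝ) (hX : X.transpose = -X)
    (ht : ∀ p ∈ U, ∃ w, fderiv ℝ x p w = X.mulVec (x p)) (hne : ∀ p ∈ U, X.mulVec (x p) ≠ 0) :
    ∃ K : Kil G, ∀ a c, K.X a c = (X a c : ℂ) := by
  have hY : ∀ a, Rep (Xv (X.map (↑)) G.x a) fun p => X.mulVec (x p) a := fun a =>
    Rep.sum Finset.univ fun c _ => (Rep.const (X a c)).mul (hx c)
  obtain ⟨S, Si, -, -, h1, h2⟩ := real_root
    (Rep.sum Finset.univ fun a _ => (hY a).mul (hY a)) fun p hp =>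
      (real_sq_pos (hne p hp)).trans_eq (Finset.sum_congr rfl fun m _ => pow_two _)
  refine ⟨⟨X.map (↑), fun a c => ?_,
    fun i => G.δi ^ 2 * ∑ j, G.adj i j * ip (dv (G.d j) G.x) (Xv (X.map (↑)) G.x),
    fun a => ?_, S, Si, h1, h2⟩, fun _ _ => rfl⟩
  · have := congrFun (congrFun hX c) a
    simp only [Matrix.transpose_apply, Matrix.neg_apply] at this
    simp only [Matrix.map_apply, this, Complex.ofReal_neg]
  · ext p
    obtain ⟨w, hw⟩ := ht p p.2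
    let ev : Sm U →+* ℂ := (Pi.evalRingHom (fun _ : U => ℂ) p).comp (Sm U).val.toRingHom
    have hw' : ∀ c, ev (Xv (X.map (↑)) G.x c) =
        w 0 * ev (G.d 0 (G.x c)) + w 1 * ev (G.d 1 (G.x c)) := fun c => by
      have e0 : ∀ i, ev (G.d i (G.x c)) = (fderiv ℝ x p (Pi.single i 1) c : ℝ) := fun i => by
        rw [hd, ← real_fd h p.2]
        exact (hx c).deriv h.isOpen i p
      have e1 : w = w 0 • Pi.single 0 (1 : ℝ) + w 1 • Pi.single 1 (1 : ℝ) := by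
        ext i
        fin_cases i <;> simp
      have e2 : ev (Xv (X.map (↑)) G.x c) = (X.mulVec (x p) c : ℝ) := hY c p
      rw [e2, e0, e0, ← hw]
      conv_lhs => rw [e1]
      simp
    have h3 := congrArg ev G.hδ
    have h4 := congrArg ev G.hδ2
    show ev (∑ i, (G.δi ^ 2 * ∑ j, G.adj i j * ip (dv (G.d j) G.x) (Xv (X.map (↑)) G.x)) *
      G.d i (G.x a)) = ev (Xv (X.map (↑)) G.x a)
    simp only [Geo0.adj, Geo0.g, ip, dv, Fin.sum_univ_two, Fin.sum_univ_four, map_add, map_mul,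
      map_pow, map_neg, map_sub, map_one, hw', Matrix.cons_val_zero, Matrix.cons_val_one,
      Matrix.cons_val_fin_one] at h3 h4 ⊢
    linear_combination (w 0 * ev (G.d 0 (G.x a)) + w 1 * ev (G.d 1 (G.x a))) *
      ((ev G.δ * ev G.δi + 1) * h3 - ev G.δi ^ 2 * h4)

end Pool.Agent.Lib.MP_51f413_gt
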