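import Pool.Agent.Lib.MP_51f413_gt.Deriv

/-!
Weighted homogeneous differential primes of a polynomial ring.
-/

namespace Pool.Agent.Lib.MP_51f413_gt

open MvPolynomial

variable {ι : Type} [Fintype ι] (w : ι → ℕ)

/-- The scaling map `X i ↦ X i * μ ^ (w i)`. -/
noncomputable def sc : MvPolynomial ι ℂ →ₐ[ℂ] Polynomial (MvPolynomial ι ℂ) :=
  aeval (fun i => Polynomial.monomial (w i) (X i))

/-- `f` is weighted homogeneous of weight `j`. -/
def Hom (j : ℕ) (f : MvPolynomial ι ℂ) : Prop := sc w f = Polynomial.monomial j f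

/-- Homogeneous ideal. -/
def IsH (I : Ideal (MvPolynomial ι ℂ)) : Prop := ∀ f ∈ I, ∀ j, (sc w f).coeff j ∈ I

/-- Homogeneous differential prime. -/
structure HD (D : Derivation ℂ (MvPolynomial ι ℂ) (MvPolynomial ι ℂ))
    (q : Ideal (MvPolynomial ι ℂ)) : Prop where
  prime : q.IsPrime
  hom : IsH w q
  stab : ∀ f ∈ q, D f ∈ q

variable {w}

theorem Hom.X (i : ι) : Hom w (w i) (X i) := by
  simp [Hom, sc]

theorem Hom.zero (j : ℕ) : Hom w j 0 := by
  simp [Hom]

theorem Hom.const (c : ℂ) : Hom w 0 (algebraMap ℂ (MvPolynomial ι ℂ) c) := by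
  rw [Hom, AlgHom.commutes, Polynomial.monomial_zero_left]
  rfl

theorem Hom.natCast (n : ℕ) : Hom w 0 (n : MvPolynomial ι ℂ) := by
  rw [Hom, map_natCast, Polynomial.monomial_zero_left, map_natCast]

theorem Hom.add {j : ℕ} {f g : MvPolynomial ι ℂ} (hf : Hom w j f) (hg : Hom w j g) :
    Hom w j (f + g) := by
  rw [Hom] at *
  rw [map_add, map_add, hf, hg]

theorem Hom.neg {j : ℕ} {f : MvPolynomial ι ℂ} (hf : Hom w j f) : Hom w j (-f) := by
  rw [Hom] at *
  rw [map_neg, map_neg, hf]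

theorem Hom.sub {j : ℕ} {f g : MvPolynomial ι ℂ} (hf : Hom w j f) (hg : Hom w j g) :
    Hom w j (f - g) := by
  rw [Hom] at *
  rw [map_sub, map_sub, hf, hg]

theorem Hom.mul {i j : ℕ} {f g : MvPolynomial ι ℂ} (hf : Hom w i f) (hg : Hom w j g) :
    Hom w (i + j) (f * g) := by
  rw [Hom] at *
  rw [map_mul, hf, hg, Polynomial.monomial_mul_monomial]

theorem Hom.pow {i : ℕ} {f : MvPolynomial ι ℂ} (hf : Hom w i f) (n : ℕ) :
    Hom w (n * i) (f ^ n) := by
  rw [Hom] at *
  rw [map_pow, hf, Polynomial.monomial_pow, mul_comm]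

theorem Hom.sum {α : Type} {j : ℕ} (s : Finset α) (f : α → MvPolynomial ι ℂ)
    (hf : ∀ a ∈ s, Hom w j (f a)) : Hom w j (∑ a ∈ s, f a) := by
  rw [Hom, map_sum, map_sum]
  exact Finset.sum_congr rfl hf

theorem Hom.of_eq {i j : ℕ} {f : MvPolynomial ι ℂ} (hf : Hom w i f) (h : i = j) : Hom w j f :=
  h ▸ hf

variable {D : Derivation ℂ (MvPolynomial ι ℂ) (MvPolynomial ι ℂ)}

/-- The derivation applied to the coefficients. -/
noncomputable def wt_dm (D : Derivation ℂ (MvPolynomial ι ℂ) (MvPolynomial ι ℂ)) :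
    Derivation ℂ (Polynomial (MvPolynomial ι ℂ)) (Polynomial (MvPolynomial ι ℂ)) :=
  PolynomialModule.equivPolynomialSelf.compDer D.mapCoeffs

theorem wt_coeff_map (P : Polynomial (MvPolynomial ι ℂ)) (j : ℕ) :
    (wt_dm D P).coeff j = D (P.coeff j) := rfl

theorem wt_map_monomial (j : ℕ) (f : MvPolynomial ι ℂ) :
    wt_dm D (Polynomial.monomial j f) = Polynomial.monomial j (D f) := by
  ext1 i
  rw [wt_coeff_map, Polynomial.coeff_monomial, Polynomial.coeff_monomial]
  split_ifs <;> simp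

theorem wt_deriv (hD : ∀ i, Hom w (w i + 1) (D (MvPolynomial.X i))) (f : MvPolynomial ι ℂ) :
    sc w (D f) = wt_dm D (sc w f) * Polynomial.X := by
  induction f using MvPolynomial.induction_on with
  | C a =>
    have h : sc w (C a) = Polynomial.monomial 0 (C a) := Hom.const a
    have h0 : D (C a) = 0 := D.map_algebraMap a
    rw [h, wt_map_monomial, h0]
    simp
  | add p q hp hq => simp only [map_add, hp, hq, add_mul]
  | mul_X p i hp =>
    have h1 : sc w (MvPolynomial.X i) = _ := Hom.X i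
    have h2 : sc w (D (MvPolynomial.X i)) = _ := hD i
    rw [Derivation.leibniz, smul_eq_mul, smul_eq_mul, map_add, map_mul, map_mul, map_mul, hp, h1,
      h2, Derivation.leibniz, smul_eq_mul, smul_eq_mul, wt_map_monomial,
      ← Polynomial.monomial_mul_X]
    ring

theorem wt_coeff_hom (f : MvPolynomial ι ℂ) (j : ℕ) : Hom w j ((sc w f).coeff j) := by
  induction f using MvPolynomial.induction_on generalizing j with
  | C a =>
    have h : sc w (C a) = Polynomial.monomial 0 (C a) := Hom.const a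
    rw [h, Polynomial.coeff_monomial]
    split_ifs with h0
    · exact h0 ▸ Hom.const a
    · exact Hom.zero j
  | add p q hp hq =>
    rw [map_add, Polynomial.coeff_add]
    exact (hp j).add (hq j)
  | mul_X p i hp =>
    have h1 : sc w (MvPolynomial.X i) = _ := Hom.X i
    rw [map_mul, h1, ← Polynomial.C_mul_X_pow_eq_monomial, ← mul_assoc,
      Polynomial.coeff_mul_X_pow']
    split_ifs with h0
    · rw [Polynomial.coeff_mul_C]
      exact ((hp _).mul (Hom.X i)).of_eq (by omega)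
    · exact Hom.zero j

theorem wt_eval_one (f : MvPolynomial ι ℂ) : (sc w f).eval 1 = f := by
  induction f using MvPolynomial.induction_on with
  | C a =>
    have h : sc w (C a) = Polynomial.monomial 0 (C a) := Hom.const a
    rw [h]
    simp
  | add p q hp hq => rw [map_add, Polynomial.eval_add, hp, hq]
  | mul_X p i hp =>
    have h1 : sc w (MvPolynomial.X i) = _ := Hom.X i
    rw [map_mul, Polynomial.eval_mul, hp, h1]
    simp

theorem wt_hom_coeff_mem {p : Ideal (MvPolynomial ι ℂ)} {j : ℕ} {f : MvPolynomial ι ℂ}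
    (hf : Hom w j f) (hp : f ∈ p) (i : ℕ) : (sc w f).coeff i ∈ p := by
  rw [hf, Polynomial.coeff_monomial]
  split_ifs
  · exact hp
  · exact p.zero_mem

variable (w) in
/-- The largest homogeneous ideal inside `p`. -/
noncomputable def wt_core (p : Ideal (MvPolynomial ι ℂ)) : Ideal (MvPolynomial ι ℂ) :=
  RingHom.ker ((Polynomial.mapRingHom (Ideal.Quotient.mk p)).comp (sc w).toRingHom)

theorem wt_mem_core' {p : Ideal (MvPolynomial ι ℂ)} {f : MvPolynomial ι ℂ} :
    f ∈ wt_core w p ↔ (sc w f).map (Ideal.Quotient.mk p) = 0 := Iff.rfl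

theorem wt_mem_core {p : Ideal (MvPolynomial ι ℂ)} {f : MvPolynomial ι ℂ} :
    f ∈ wt_core w p ↔ ∀ j, (sc w f).coeff j ∈ p := by
  rw [wt_mem_core', Polynomial.ext_iff]
  simp only [Polynomial.coeff_map, Polynomial.coeff_zero, Ideal.Quotient.eq_zero_iff_mem]

theorem wt_core_prime {p : Ideal (MvPolynomial ι ℂ)} (hp : p.IsPrime) : (wt_core w p).IsPrime :=
  RingHom.ker_isPrime _

theorem wt_core_le (p : Ideal (MvPolynomial ι ℂ)) : wt_core w p ≤ p := by
  intro f hf
  rw [wt_mem_core'] at hf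
  rw [← Ideal.Quotient.eq_zero_iff_mem, ← wt_eval_one (w := w) f, ← Polynomial.eval_one_map, hf,
    Polynomial.eval_zero]

theorem wt_core_isH (p : Ideal (MvPolynomial ι ℂ)) : IsH w (wt_core w p) := fun f hf j =>
  wt_mem_core.2 fun i => wt_hom_coeff_mem (wt_coeff_hom f j) (wt_mem_core.1 hf j) i

/-- A derivation raising the weight of the variables by one raises all weights by one. -/
theorem Hom.deriv (hD : ∀ i, Hom w (w i + 1) (D (MvPolynomial.X i))) {j : ℕ}
    {f : MvPolynomial ι ℂ} (hf : Hom w j f) : Hom w (j + 1) (D f) := by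
  have h := wt_deriv hD f
  rw [hf] at h
  rw [Hom, h, wt_map_monomial, Polynomial.monomial_mul_X]

/-- Inside a stable prime there is a homogeneous stable prime with the same homogeneous
elements. -/
theorem exists_hd_core (hD : ∀ i, Hom w (w i + 1) (D (MvPolynomial.X i)))
    (p : Ideal (MvPolynomial ι ℂ)) (hp : p.IsPrime) (hs : ∀ f ∈ p, D f ∈ p) :
    ∃ q, HD w D q ∧ q ≤ p ∧ ∀ j f, Hom w j f → f ∈ p → f ∈ q := by
  refine ⟨wt_core w p, ⟨wt_core_prime hp, wt_core_isH p, fun f hf => ?_⟩, wt_core_le p,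
    fun j f hf hfp => wt_mem_core.2 fun i => wt_hom_coeff_mem hf hfp i⟩
  rw [wt_mem_core] at hf ⊢
  intro j
  rw [wt_deriv hD]
  cases j with
  | zero => simp
  | succ j =>
    rw [Polynomial.coeff_mul_X, wt_coeff_map]
    exact hs _ (hf j)

/-- Adding a homogeneous Darboux element. -/
theorem exists_hd_step {q : Ideal (MvPolynomial ι ℂ)} (hq : HD w D q) {j : ℕ}
    {π g : MvPolynomial ι ℂ} (hπ : Hom w j π) (hg : D π - g * π ∈ q)
    (p : Ideal (MvPolynomial ι ℂ)) (hp : p.IsPrime) (hqp : q ≤ p) (hπp : π ∈ p) :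
    ∃ q', HD w D q' ∧ q ≤ q' ∧ π ∈ q' ∧ q' ≤ p := by
  let I : Ideal (MvPolynomial ι ℂ) := q ⊔ Ideal.span {π}
  have hπI : π ∈ I := Ideal.mem_sup_right (Ideal.mem_span_singleton_self π)
  have hIH : IsH w I := by
    intro f hf i
    obtain ⟨a, ha, b, hb, rfl⟩ := Submodule.mem_sup.1 hf
    obtain ⟨c, rfl⟩ := Ideal.mem_span_singleton'.1 hb
    rw [map_add, Polynomial.coeff_add, map_mul, hπ]
    refine I.add_mem (Ideal.mem_sup_left (hq.hom a ha i)) ?_
    rw [← Polynomial.C_mul_X_pow_eq_monomial, mul_left_comm, Polynomial.coeff_C_mul]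
    exact I.mul_mem_right _ hπI
  have hID : ∀ f ∈ I, D f ∈ I := by
    intro f hf
    obtain ⟨a, ha, b, hb, rfl⟩ := Submodule.mem_sup.1 hf
    obtain ⟨c, rfl⟩ := Ideal.mem_span_singleton'.1 hb
    rw [map_add, Derivation.leibniz, smul_eq_mul, smul_eq_mul]
    refine I.add_mem (Ideal.mem_sup_left (hq.stab a ha))
      (I.add_mem (I.mul_mem_left _ ?_) (I.mul_mem_right _ hπI))
    have := I.add_mem (Ideal.mem_sup_left hg) (I.mul_mem_left g hπI)
    rwa [sub_add_cancel] at this
  have hIp : I ≤ p := sup_le hqp ((Ideal.span_singleton_le_iff_mem _).2 hπp)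
  obtain ⟨q', hq', hle⟩ := Ideal.exists_minimalPrimes_le hIp
  have hpr : q'.IsPrime := hq'.1.1
  have hI : I ≤ q' := hq'.1.2
  refine ⟨q', ⟨hpr, ?_, ?_⟩, le_sup_left.trans hI, hI hπI, hle⟩
  · have h1 : q' ≤ wt_core w q' :=
      hq'.2 ⟨wt_core_prime hpr, fun f hf => wt_mem_core.2 fun i => hI (hIH f hf i)⟩
        (wt_core_le q')
    exact fun f hf => wt_mem_core.1 (h1 hf)
  · obtain ⟨r, hr1, hr3, hr4, hr2⟩ := exists_stable_prime D I q' hID hpr hI
    have h1 : q' ≤ r := hq'.2 ⟨hr1, hr4⟩ hr2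
    exact fun f hf => hr2 (hr3 f (h1 hf))

end Pool.Agent.Lib.MP_51f413_gt
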